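import Mathlib

/-! # Generating perfect complexes by line bundles: definitions -/

open CategoryTheory AlgebraicGeometry Limits TopologicalSpace

namespace Pool.H33.P

noncomputable instance (X : Scheme.{0}) : HasDerivedCategory.{1} X.Modules :=
  HasDerivedCategory.standard _

section
variable {X Y : Scheme.{0}} (f : X ⟶ Y) [IsOpenImmersion f]

set_option backward.isDefEq.respectTransparency false in
noncomputable instance : (Scheme.Modules.restrictFunctor f).IsRightAdjoint := by
  let α : X.presheaf ⟶ f.opensFunctor.op ⋙ Y.presheaf := { app U := (f.appIso U.unop).inv }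
  let φ : X.ringCatSheaf ⟶ (f.opensFunctor.sheafPushforwardContinuous _ _ _).obj Y.ringCatSheaf :=
    ⟨Functor.whiskerRight α (forget₂ CommRingCat RingCat)⟩
  exact (inferInstance : (SheafOfModules.pushforward.{0} φ).IsRightAdjoint)

noncomputable instance : PreservesFiniteLimits (Scheme.Modules.restrictFunctor f) := inferInstance

noncomputable instance : PreservesFiniteColimits (Scheme.Modules.restrictFunctor f) := inferInstance

noncomputable instance : (Scheme.Modules.restrictFunctor f).Additive :=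
  have := Limits.preservesBinaryBiproducts_of_preservesBinaryCoproducts
    (Scheme.Modules.restrictFunctor f)
  Functor.additive_of_preservesBinaryBiproducts _

end

/-- bounded complexes of finite free modules on `X` -/
def IsFF {X : Scheme.{0}} (K : CochainComplex X.Modules ℤ) : Prop :=
  (∃ a b : ℤ, K.IsStrictlyGE a ∧ K.IsStrictlyLE b) ∧
    ∀ n, ∃ m : ℕ, Nonempty (K.X n ≅ (SheafOfModules.free (R := X.ringCatSheaf) (Fin m) : X.Modules))

/-- perfect complexes: objects of the derived category of `O_X`-modules that are locally isomorphic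
(in the derived category, i.e. quasi-isomorphic) to bounded complexes of finite free modules -/
def IsPerfect (X : Scheme.{0}) : ObjectProperty (DerivedCategory X.Modules) := fun P =>
  ∀ x : X, ∃ U : X.Opens, x ∈ U ∧ ∃ K : CochainComplex (U : Scheme.{0}).Modules ℤ, IsFF K ∧
    Nonempty ((Scheme.Modules.restrictFunctor U.ι).mapDerivedCategory.obj P ≅
      DerivedCategory.Q.obj K)

/-- line bundles: modules that are locally isomorphic to the structure sheaf -/
def IsLineBundle {X : Scheme.{0}} (L : X.Modules) : Prop :=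
  ∀ x : X, ∃ U : X.Opens, x ∈ U ∧
    Nonempty (L.restrict U.ι ≅ (SheafOfModules.unit _ : (U : Scheme.{0}).Modules))

/-- a module, as an object of the derived category -/
noncomputable abbrev sg {X : Scheme.{0}} (L : X.Modules) : DerivedCategory X.Modules :=
  (DerivedCategory.singleFunctor X.Modules 0).obj L

/-- the property of being one of the two objects `A`, `B` -/
inductive Pair {C : Type*} (A B : C) : C → Prop
  | left : Pair A B A
  | right : Pair A B B

/-! ## Sections -/

section Sections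
variable {X : Scheme.{0}}

/-- restriction of sections of a module -/
noncomputable def rs (M : X.Modules) {U V : X.Opens} (h : V ≤ U) (m : Γ(M, U)) : Γ(M, V) :=
  M.presheaf.map (homOfLE h).op m

/-- restriction of functions -/
noncomputable def rf {U V : X.Opens} (h : V ≤ U) (f : Γ(X, U)) : Γ(X, V) :=
  X.presheaf.map (homOfLE h).op f

variable {ι : Type} (U : ι → X.Opens)

/-- a cocycle with values in the units -/
structure IsCocycle (c : ∀ l l', Γ(X, U l ⊓ U l')) : Prop where
  self : ∀ l, c l l = 1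
  mul : ∀ l l' l'',
    rf (V := U l ⊓ U l' ⊓ U l'') inf_le_left (c l l') *
      rf (V := U l ⊓ U l' ⊓ U l'') (le_inf (inf_le_left.trans inf_le_right) inf_le_right) (c l' l'') =
      rf (V := U l ⊓ U l' ⊓ U l'') (le_inf (inf_le_left.trans inf_le_left) inf_le_right) (c l l'')

/-- a section of the line bundle of the cocycle `c` -/
def IsSec (c : ∀ l l', Γ(X, U l ⊓ U l')) (s : ∀ l, Γ(X, U l)) : Prop :=
  ∀ l l', rf (V := U l ⊓ U l') inf_le_left (s l) =
    c l l' * rf (V := U l ⊓ U l') inf_le_right (s l')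

/-- `L` is the line bundle of the cocycle `c`, with local generators `e` -/
structure IsTwist (c : ∀ l l', Γ(X, U l ⊓ U l')) (L : X.Modules) (e : ∀ l, Γ(L, U l)) : Prop where
  bij : ∀ l (V : X.Opens) (h : V ≤ U l),
    Function.Bijective (fun f : Γ(X, V) => f • rs L h (e l))
  trans : ∀ l l', rs L (V := U l ⊓ U l') inf_le_right (e l') =
    c l l' • rs L (V := U l ⊓ U l') inf_le_left (e l)

/-- coherent modules (relative to the affine cover `U`) -/
structure IsCoh (M : X.Modules) : Prop where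
  qc : M.IsQuasicoherent
  fin : ∀ l, Module.Finite Γ(X, U l) Γ(M, U l)

/-- vector bundles (relative to the affine cover `U`) -/
structure IsVB (M : X.Modules) : Prop where
  qc : M.IsQuasicoherent
  fin : ∀ l, Module.Finite Γ(X, U l) Γ(M, U l)
  proj : ∀ l, Module.Projective Γ(X, U l) Γ(M, U l)

/-- exactness on sections over the opens `U l` -/
def SecExact (S : ShortComplex X.Modules) : Prop :=
  ∀ l, Function.Injective (S.f.app (U l)) ∧ Function.Exact (S.f.app (U l)) (S.g.app (U l)) ∧
    Function.Surjective (S.g.app (U l))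

/-- `i` is a split monomorphism on each `U l` -/
def LocSplit {A B : X.Modules} (i : A ⟶ B) : Prop :=
  ∀ l, ∃ r : B.restrict (U l).ι ⟶ A.restrict (U l).ι,
    (Scheme.Modules.restrictFunctor (U l).ι).map i ≫ r = 𝟙 _

/-- relative injectivity with respect to the locally split monomorphisms -/
def RelInj (J : X.Modules) : Prop :=
  ∀ (A B : X.Modules) (i : A ⟶ B), LocSplit U i → ∀ f : A ⟶ J, ∃ g : B ⟶ J, i ≫ g = f

end Sections

/-! ## The data of a Hirzebruch surface -/

/-- The structure on a scheme `X` that is used: four affine charts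
`U 0 = {x0 ≠ 0, y ≠ 0}`, `U 1 = {x1 ≠ 0, y ≠ 0}`, `U 2 = {x0 ≠ 0, z ≠ 0}`, `U 3 = {x1 ≠ 0, z ≠ 0}`,
line bundles `F` and `G` (cocycles `cF`, `cG`), sections `x0, x1` of `F`, `z` of `G` and `y` of `F + G`,
such that `x0, x1` and `y, z` have no common zeros. -/
structure ToricData (X : Scheme.{0}) where
  int : IsIntegral X
  U : Fin 4 → X.Opens
  aff : ∀ l, IsAffineOpen (U l)
  cov : ⨆ l, U l = ⊤
  inf12 : U 1 ⊓ U 2 = U 0 ⊓ U 3
  noeth : ∀ l, IsNoetherianRing Γ(X, U l)
  syz : ∀ l (m n : ℕ) (f : (Fin m → Γ(X, U l)) →ₗ[Γ(X, U l)] (Fin n → Γ(X, U l))),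
    Module.Projective Γ(X, U l) (LinearMap.ker f)
  cF : ∀ l l', Γ(X, U l ⊓ U l')ˣ
  cG : ∀ l l', Γ(X, U l ⊓ U l')ˣ
  cocF : IsCocycle U (fun l l' => (cF l l' : Γ(X, U l ⊓ U l')))
  cocG : IsCocycle U (fun l l' => (cG l l' : Γ(X, U l ⊓ U l')))
  x0 : ∀ l, Γ(X, U l)
  x1 : ∀ l, Γ(X, U l)
  y : ∀ l, Γ(X, U l)
  z : ∀ l, Γ(X, U l)
  sx0 : IsSec U (fun l l' => (cF l l' : Γ(X, U l ⊓ U l'))) x0
  sx1 : IsSec U (fun l l' => (cF l l' : Γ(X, U l ⊓ U l'))) x1
  sy : IsSec U (fun l l' => (cF l l' * cG l l' : Γ(X, U l ⊓ U l'))) y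
  sz : IsSec U (fun l l' => (cG l l' : Γ(X, U l ⊓ U l'))) z
  x00 : x0 0 = 1
  x02 : x0 2 = 1
  x11 : x1 1 = 1
  x13 : x1 3 = 1
  y0 : y 0 = 1
  y1 : y 1 = 1
  z2 : z 2 = 1
  z3 : z 3 = 1
  amp0 : ∀ l, U 0 ⊓ U l = X.basicOpen (x0 l * y l)
  amp1 : ∀ l, U 1 ⊓ U l = X.basicOpen (x1 l * y l)
  amp2 : ∀ l, U 2 ⊓ U l = X.basicOpen (x0 l * z l)
  amp3 : ∀ l, U 3 ⊓ U l = X.basicOpen (x1 l * z l)

/-- the cocycle of `a F + b G` -/
noncomputable def ToricData.c {X : Scheme.{0}} (T : ToricData X) (a b : ℤ) (l l' : Fin 4) :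
    Γ(X, T.U l ⊓ T.U l') :=
  ((T.cF l l' ^ a * T.cG l l' ^ b : Γ(X, T.U l ⊓ T.U l')ˣ) : Γ(X, T.U l ⊓ T.U l'))

/-- a family of line bundles `L a b` with cocycle `a F + b G` -/
structure LSys {X : Scheme.{0}} (T : ToricData X) where
  L : ℤ → ℤ → X.Modules
  e : ∀ a b l, Γ(L a b, T.U l)
  tw : ∀ a b, IsTwist T.U (T.c a b) (L a b) (e a b)

/-- finite direct sums of the line bundles -/
inductive IsFS {X : Scheme.{0}} {T : ToricData X} (S : LSys T) : X.Modules → Prop
  | zero (E : X.Modules) (h : IsZero E) : IsFS S E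
  | add (E : X.Modules) (a b : ℤ) (h : IsFS S E) : IsFS S (E ⊞ S.L a b)

end Pool.H33.P
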