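import Mathlib
import Pool.Agent.H33.P.Def

/-! # PFREE: modules that are locally free of finite rank are perfect; restriction of free modules -/

open CategoryTheory AlgebraicGeometry Limits TopologicalSpace

namespace Pool.H33.P

theorem pfree_zero (X : Scheme.{0}) :
    IsZero (SheafOfModules.free (R := X.ringCatSheaf) (Fin 0) : X.Modules) := by
  rw [IsZero.iff_id_eq_zero]
  apply Sigma.hom_ext
  intro i
  exact i.elim0

theorem pfree_ff {X : Scheme.{0}} (m : ℕ) (A : X.Modules)
    (e : A ≅ (SheafOfModules.free (R := X.ringCatSheaf) (Fin m) : X.Modules)) :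
    IsFF ((HomologicalComplex.single X.Modules (ComplexShape.up ℤ) 0).obj A) := by
  refine ⟨⟨0, 0, inferInstance, inferInstance⟩, ?_⟩
  intro n
  by_cases hn : n = 0
  · subst hn
    exact ⟨m, ⟨HomologicalComplex.singleObjXSelf (ComplexShape.up ℤ) 0 _ ≪≫ e⟩⟩
  · refine ⟨0, ⟨IsZero.iso ?_ (pfree_zero X)⟩⟩
    exact HomologicalComplex.isZero_single_obj_X (ComplexShape.up ℤ) 0 _ n hn

theorem perfect_of_free {X : Scheme.{0}} (M : X.Modules)
    (h : ∀ x : X, ∃ V : X.Opens, x ∈ V ∧ ∃ m : ℕ,
      Nonempty (M.restrict V.ι ≅ (SheafOfModules.free (R := (V : Scheme.{0}).ringCatSheaf) (Fin m) :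
        (V : Scheme.{0}).Modules))) : IsPerfect X (sg M) := by
  intro x
  obtain ⟨V, hx, m, ⟨e⟩⟩ := h x
  refine ⟨V, hx, _, pfree_ff m (M.restrict V.ι) e, ⟨?_⟩⟩
  exact ((Scheme.Modules.restrictFunctor V.ι).mapDerivedCategorySingleFunctor 0).app M

/-- the restriction of a free module along an open immersion is free -/
theorem restrict_free {X Y : Scheme.{0}} (f : X ⟶ Y) [IsOpenImmersion f] (m : ℕ) :
    Nonempty ((Scheme.Modules.restrictFunctor f).obj
      (SheafOfModules.free (R := Y.ringCatSheaf) (Fin m) : Y.Modules) ≅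
      (SheafOfModules.free (R := X.ringCatSheaf) (Fin m) : X.Modules)) := by
  have : PreservesColimitsOfSize.{0, 0} (Scheme.Modules.restrictFunctor f) := inferInstance
  refine ⟨?_⟩
  refine PreservesCoproduct.iso (Scheme.Modules.restrictFunctor f)
    (fun _ : Fin m => (SheafOfModules.unit Y.ringCatSheaf : Y.Modules)) ≪≫ ?_
  exact Sigma.mapIso (fun _ => Scheme.Modules.restrictUnitIso f)

theorem free_one (X : Scheme.{0}) :
    Nonempty ((SheafOfModules.unit X.ringCatSheaf : X.Modules) ≅
      (SheafOfModules.free (R := X.ringCatSheaf) (Fin 1) : X.Modules)) :=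
  ⟨(coproductUniqueIso (fun _ : Fin 1 => (SheafOfModules.unit X.ringCatSheaf : X.Modules))).symm⟩

/-- an open immersion along which the module becomes free -/
theorem free_of_immersion {X Y : Scheme.{0}} (M : X.Modules) (f : Y ⟶ X) [IsOpenImmersion f] (m : ℕ)
    (e : Nonempty (M.restrict f ≅
      (SheafOfModules.free (R := Y.ringCatSheaf) (Fin m) : Y.Modules))) :
    Nonempty (M.restrict f.opensRange.ι ≅ (SheafOfModules.free
      (R := (f.opensRange : Scheme.{0}).ringCatSheaf) (Fin m) :
        (f.opensRange : Scheme.{0}).Modules)) := by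
  obtain ⟨e⟩ := e
  have h1 : f.opensRange.ι = f.isoOpensRange.inv ≫ f := by
    rw [Iso.eq_inv_comp, Scheme.Hom.isoOpensRange_hom_ι]
  obtain ⟨e2⟩ := restrict_free f.isoOpensRange.inv m
  refine ⟨(Scheme.Modules.restrictFunctorCongr h1).app M ≪≫
    (Scheme.Modules.restrictFunctorComp f.isoOpensRange.inv f).app M ≪≫
    (Scheme.Modules.restrictFunctor f.isoOpensRange.inv).mapIso e ≪≫ e2⟩

end Pool.H33.P
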