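import Mathlib
import Pool.Agent.H33.P.Def

/-! # QCK: closure properties of quasi-coherent modules; sections of kernels and biproducts

Locality: `SheafOfModules.IsQuasicoherent.of_coversTop` and `Scheme.Modules.overFunctorEquiv` /
`overEquiv`.  For kernels, cokernels: on an affine open, the quasi-coherent modules are the essential image of
the exact (prove it: sections over basic opens are localisations) fully faithful functor `tilde`. -/

open CategoryTheory AlgebraicGeometry Limits TopologicalSpace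
open Scheme.Modules (restrictFunctor restrictFunctorComp restrictFunctorCongr)

namespace Pool.H33.P

variable {X : Scheme.{0}}

set_option backward.isDefEq.respectTransparency false in
/-- presentation of `M.over U` from a presentation of the restriction -/
noncomputable def qckPresOver (M : X.Modules) (U : X.Opens)
    (P : (M.restrict U.ι).Presentation) :
    (SheafOfModules.over (M : SheafOfModules.{0} X.ringCatSheaf) U).Presentation := by
  let e := Scheme.Modules.overEquiv U
  let P1 : (e.functor.obj (SheafOfModules.over (M : SheafOfModules.{0} X.ringCatSheaf) U)).Presentation :=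
    SheafOfModules.Presentation.ofIsIso.{0, 0, 0} ((Scheme.Modules.overFunctorEquiv U).app M).inv P
  let η0 : e.functor.obj (SheafOfModules.unit _) ≅ SheafOfModules.unit _ := Iso.refl _
  let η : SheafOfModules.unit _ ≅ e.inverse.obj (SheafOfModules.unit _) :=
    e.unitIso.app _ ≪≫ e.inverse.mapIso η0
  exact ((P1.map e.inverse η).ofIsIso (e.unitIso.app _).inv)

theorem qck_of_pres {ι : Type} (U : ι → X.Opens) (hU : ⨆ i, U i = ⊤) (M : X.Modules)
    (h : ∀ i, Nonempty (M.restrict (U i).ι).Presentation) : M.IsQuasicoherent := by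
  refine SheafOfModules.QuasicoherentData.isQuasicoherent (M := M)
    { I := ι, X := U, coversTop := ?_, presentation := fun i => qckPresOver M (U i) (h i).some }
  rw [Opens.coversTop_iff]
  exact hU

set_option backward.isDefEq.respectTransparency false in
theorem qc_of_cover {ι : Type} (U : ι → X.Opens) (hU : ⨆ i, U i = ⊤) (M : X.Modules)
    (h : ∀ i, (M.restrict (U i).ι).IsQuasicoherent) : M.IsQuasicoherent := by
  have h1 := fun i => @Scheme.Modules.exists_isOpenCover_presentation _ (M.restrict (U i).ι) (h i)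
  choose κ V pres hV hV' using h1
  refine qck_of_pres (ι := Σ i, κ i) (fun j => (U j.1).ι ''ᵁ (V j.1 j.2)) ?_ M ?_
  · rw [iSup_sigma]
    rw [← top_le_iff, ← hU]
    refine iSup_mono fun i => ?_
    have h2 : (U i).ι ''ᵁ (⨆ j, V i j) = ⨆ j, (U i).ι ''ᵁ (V i j) := by
      simp [Scheme.Hom.image_iSup]
    rw [← h2, IsOpenCover.iSup_eq_top (hV i)]
    simp
  · rintro ⟨i, j⟩
    let g := ((U i).ι.isoImage (V i j)).inv
    let iso : restrictFunctor (U i).ι ⋙ restrictFunctor (V i j).ι ⋙ restrictFunctor g ≅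
        restrictFunctor ((U i).ι ''ᵁ (V i j)).ι :=
      (Functor.associator _ _ _).symm ≪≫ Functor.isoWhiskerRight (restrictFunctorComp _ _).symm _ ≪≫
        (restrictFunctorComp _ _).symm ≪≫ restrictFunctorCongr (by simp [g])
    exact ⟨SheafOfModules.Presentation.ofIsIso.{0, 0, 0} (iso.app M).hom
      (Scheme.Modules.presentationRestrict g (pres i j))⟩

theorem qc_of_iso {M N : X.Modules} (e : M ≅ N) (h : M.IsQuasicoherent) : N.IsQuasicoherent :=
  (SheafOfModules.isQuasicoherent X.ringCatSheaf).prop_of_iso e h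

theorem qc_unit : ((SheafOfModules.unit _ : X.Modules)).IsQuasicoherent := by
  have e : (SheafOfModules.unit X.ringCatSheaf : X.Modules) ≅
      (SheafOfModules.free (R := X.ringCatSheaf) PUnit : X.Modules) :=
    (coproductUniqueIso (fun (_ : PUnit) => (SheafOfModules.unit X.ringCatSheaf : X.Modules))).symm
  exact qc_of_iso e.symm (inferInstance : (SheafOfModules.free (R := X.ringCatSheaf) PUnit).IsQuasicoherent)

/-- sections of a biproduct -/
theorem sec_biprod (M N : X.Modules) (V : X.Opens) :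
    Function.Bijective (fun p : Γ((M ⊞ N : X.Modules), V) =>
      (((biprod.fst : M ⊞ N ⟶ M).app V p, (biprod.snd : M ⊞ N ⟶ N).app V p) : Γ(M, V) × Γ(N, V))) := by
  constructor
  · intro p q hpq
    simp only [Prod.mk.injEq] at hpq
    have key : ∀ r : Γ((M ⊞ N : X.Modules), V), r =
        (biprod.inl : M ⟶ M ⊞ N).app V ((biprod.fst : M ⊞ N ⟶ M).app V r) +
        (biprod.inr : N ⟶ M ⊞ N).app V ((biprod.snd : M ⊞ N ⟶ N).app V r) := by
      intro r
      have := congrArg (fun φ : (M ⊞ N : X.Modules) ⟶ M ⊞ N => φ.app V r)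
        (biprod.total (X := M) (Y := N))
      exact this.symm
    rw [key p, key q, hpq.1, hpq.2]
  · rintro ⟨a, b⟩
    refine ⟨(biprod.inl : M ⟶ M ⊞ N).app V a + (biprod.inr : N ⟶ M ⊞ N).app V b, ?_⟩
    have h1 : ∀ x, (biprod.fst : M ⊞ N ⟶ M).app V ((biprod.inl : M ⟶ M ⊞ N).app V x) = x := by
      intro x
      exact congrArg (fun φ : M ⟶ M => φ.app V x) (biprod.inl_fst (X := M) (Y := N))
    have h2 : ∀ x, (biprod.snd : M ⊞ N ⟶ N).app V ((biprod.inl : M ⟶ M ⊞ N).app V x) = 0 := by
      intro x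
      exact congrArg (fun φ : M ⟶ N => φ.app V x) (biprod.inl_snd (X := M) (Y := N))
    have h3 : ∀ x, (biprod.fst : M ⊞ N ⟶ M).app V ((biprod.inr : N ⟶ M ⊞ N).app V x) = 0 := by
      intro x
      exact congrArg (fun φ : N ⟶ M => φ.app V x) (biprod.inr_fst (X := M) (Y := N))
    have h4 : ∀ x, (biprod.snd : M ⊞ N ⟶ N).app V ((biprod.inr : N ⟶ M ⊞ N).app V x) = x := by
      intro x
      exact congrArg (fun φ : N ⟶ N => φ.app V x) (biprod.inr_snd (X := M) (Y := N))
    simp [h1, h2, h3, h4]

theorem qc_zero {M : X.Modules} (h : IsZero M) : M.IsQuasicoherent := by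
  have h2 : IsZero (SheafOfModules.free (R := X.ringCatSheaf) PEmpty : X.Modules) := by
    rw [IsZero.iff_id_eq_zero]
    exact Limits.Sigma.hom_ext (f := fun (_ : PEmpty) => (SheafOfModules.unit X.ringCatSheaf : X.Modules)) _ _ (by rintro ⟨⟩)
  exact qc_of_iso (h2.iso h) (inferInstance : (SheafOfModules.free (R := X.ringCatSheaf) PEmpty).IsQuasicoherent)


/-- sections of the kernel (no quasi-coherence needed) -/
theorem sec_kernel {M N : X.Modules} (f : M ⟶ N) (V : X.Opens) :
    Function.Injective ((kernel.ι f).app V) ∧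
      ∀ m : Γ(M, V), f.app V m = 0 ↔ ∃ k : Γ(kernel f, V), (kernel.ι f).app V k = m := by
  let E : X.Modules ⥤ Ab.{0} := Scheme.Modules.toPresheaf X ⋙ (evaluation _ _).obj (.op V)
  have hE0 : PreservesLimits ((evaluation (X.Opens)ᵒᵖ Ab.{0}).obj (.op V)) := inferInstance
  have hE : PreservesLimits E := @comp_preservesLimits _ _ _ _ _ _ (Scheme.Modules.toPresheaf X) ((evaluation (X.Opens)ᵒᵖ Ab.{0}).obj (.op V)) inferInstance hE0
  have hf : Mono (E.map (kernel.ι f)) := inferInstance
  have hinj : Function.Injective ((kernel.ι f).app V) := (AddCommGrpCat.mono_iff_injective _).1 hf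
  refine ⟨hinj, fun m => ⟨fun hm => ?_, ?_⟩⟩
  · have hAdd : E.PreservesZeroMorphisms := ⟨fun _ _ => rfl⟩
    let S : ShortComplex X.Modules := ⟨kernel.ι f, f, kernel.condition f⟩
    have hS : S.Exact := S.exact_of_f_is_kernel (kernelIsKernel f)
    have hS2 : (S.map E).Exact := hS.map_of_mono_of_preservesKernel E inferInstance inferInstance
    rw [ShortComplex.ab_exact_iff] at hS2
    exact hS2 m hm
  · rintro ⟨k, rfl⟩
    exact congrArg (fun φ : kernel f ⟶ N => φ.app V k) (kernel.condition f)

set_option backward.isDefEq.respectTransparency false in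
theorem qck_of_affine (M : X.Modules)
    (h : ∀ (R : CommRingCat.{0}) (j : Spec R ⟶ X) [IsOpenImmersion j], (M.restrict j).IsQuasicoherent) :
    M.IsQuasicoherent := by
  refine qc_of_cover (ι := X.affineOpens) (fun U => U.1) (iSup_affineOpens_eq_top X) M ?_
  intro U
  have := h _ (U.2.isoSpec.inv ≫ U.1.ι)
  have h2 : ((M.restrict (U.2.isoSpec.inv ≫ U.1.ι)).restrict U.2.isoSpec.hom).IsQuasicoherent :=
    inferInstance
  refine qc_of_iso (((restrictFunctorComp U.2.isoSpec.hom (U.2.isoSpec.inv ≫ U.1.ι)).symm ≪≫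
    restrictFunctorCongr (by simp)).app M) h2

theorem qck_spec_coker {R : CommRingCat.{0}} {M N : (Spec R).Modules} (f : M ⟶ N)
    (hM : M.IsQuasicoherent) (hN : N.IsQuasicoherent) : (cokernel f).IsQuasicoherent := by
  have hM' : (tilde.functor R).essImage M := by
    rw [essImage_tilde]; exact hM
  have hN' : (tilde.functor R).essImage N := by
    rw [essImage_tilde]; exact hN
  obtain ⟨A, ⟨a⟩⟩ := hM'
  obtain ⟨B, ⟨b⟩⟩ := hN'
  let g := (tilde.functor R).preimage (a.hom ≫ f ≫ b.inv)
  let iso : cokernel ((tilde.functor R).map g) ≅ cokernel f := by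
    refine cokernel.mapIso _ _ a b ?_
    simp only [g, (tilde.functor R).map_preimage]
    simp
  have h1 : ((tilde.functor R).obj (cokernel g)).IsQuasicoherent := inferInstance
  exact qc_of_iso (PreservesCokernel.iso (tilde.functor R) g ≪≫ iso) h1

theorem qck_spec_biprod {R : CommRingCat.{0}} {M N : (Spec R).Modules}
    (hM : M.IsQuasicoherent) (hN : N.IsQuasicoherent) : (M ⊞ N).IsQuasicoherent := by
  have hM' : (tilde.functor R).essImage M := by
    rw [essImage_tilde]; exact hM
  have hN' : (tilde.functor R).essImage N := by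
    rw [essImage_tilde]; exact hN
  obtain ⟨A, ⟨a⟩⟩ := hM'
  obtain ⟨B, ⟨b⟩⟩ := hN'
  have h1 : ((tilde.functor R).obj (A ⊞ B)).IsQuasicoherent := inferInstance
  have : PreservesBinaryBiproduct A B (tilde.functor R) :=
    preservesBinaryBiproduct_of_preservesBinaryCoproduct (tilde.functor R)
  exact qc_of_iso ((tilde.functor R).mapBiprod A B ≪≫ biprod.mapIso a b) h1

theorem qck_spec_ker {R : CommRingCat.{0}} {M N : (Spec R).Modules} (f : M ⟶ N)
    (hM : M.IsQuasicoherent) (hN : N.IsQuasicoherent) : (kernel f).IsQuasicoherent := by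
  rw [isQuasicoherent_iff_isIso_fromTildeΓ, isIso_fromTildeΓ_iff_isLocalizing] at hM hN ⊢
  intro r
  have hMr := hM r
  have hNr := hN r
  let U : (Spec R).Opens := PrimeSpectrum.basicOpen r
  let φM := ((modulesSpecToSheaf.obj M).obj.map U.leTop.op).hom
  let φN := ((modulesSpecToSheaf.obj N).obj.map U.leTop.op).hom
  have kiU := (sec_kernel f U).1
  have kiT := (sec_kernel f ⊤).1
  have keU := (sec_kernel f U).2
  have keT := (sec_kernel f ⊤).2
  have surjM : ∀ x : Γ(M, U), ∃ (n : ℕ) (t : Γ(M, ⊤)), r ^ n • x = M.presheaf.map U.leTop.op t := by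
    intro x
    obtain ⟨⟨y, ⟨_, n, rfl⟩⟩, hn⟩ := hMr.surj x
    exact ⟨n, y, hn⟩
  have injM : ∀ x : Γ(M, ⊤), M.presheaf.map U.leTop.op x = 0 → ∃ n : ℕ, r ^ n • x = 0 := by
    intro x hx
    obtain ⟨⟨_, n, rfl⟩, hn⟩ := (IsLocalizedModule.eq_zero_iff (.powers r) φM).mp hx
    exact ⟨n, hn⟩
  have injN : ∀ x : Γ(N, ⊤), N.presheaf.map U.leTop.op x = 0 → ∃ n : ℕ, r ^ n • x = 0 := by
    intro x hx
    obtain ⟨⟨_, n, rfl⟩, hn⟩ := (IsLocalizedModule.eq_zero_iff (.powers r) φN).mp hx
    exact ⟨n, hn⟩
  have nat : ∀ {A B : (Spec R).Modules} (g : A ⟶ B) (x : Γ(A, ⊤)),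
      B.presheaf.map U.leTop.op (g.app ⊤ x) = g.app U (A.presheaf.map U.leTop.op x) := by
    intro A B g x
    exact (congrArg (fun φ => φ x) (g.mapPresheaf.naturality U.leTop.op)).symm
  have lin : ∀ {A B : (Spec R).Modules} (g : A ⟶ B) (V : (Spec R).Opens) (s : R) (x : Γ(A, V)),
      g.app V (s • x) = s • g.app V x := by
    intro A B g V s x
    rw [Scheme.Modules.smul_Spec_def, Scheme.Modules.smul_Spec_def, Scheme.Modules.Hom.app_smul]
  have key1 : ∀ x : Γ(kernel f, U), ∃ (n : ℕ) (k : Γ(kernel f, ⊤)),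
      r ^ n • x = (kernel f).presheaf.map U.leTop.op k := by
    intro x
    obtain ⟨n, t, ht⟩ := surjM ((kernel.ι f).app U x)
    have h1 : N.presheaf.map U.leTop.op (f.app ⊤ t) = 0 := by
      rw [nat, ← ht, lin, (keU _).2 ⟨x, rfl⟩, smul_zero]
    obtain ⟨m, hm⟩ := injN _ h1
    rw [← lin] at hm
    obtain ⟨k, hk⟩ := (keT _).1 hm
    refine ⟨m + n, k, ?_⟩
    apply kiU
    rw [lin, pow_add, mul_smul, ht, ← nat, hk, Scheme.Modules.map_smul_Spec]
  have key2 : ∀ x : Γ(kernel f, ⊤), (kernel f).presheaf.map U.leTop.op x = 0 →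
      ∃ n : ℕ, r ^ n • x = 0 := by
    intro x hx
    have h1 : M.presheaf.map U.leTop.op ((kernel.ι f).app ⊤ x) = 0 := by
      rw [nat, hx, map_zero]
    obtain ⟨n, hn⟩ := injM _ h1
    refine ⟨n, kiT ?_⟩
    rw [lin, hn, map_zero]
  refine IsLocalizedModule.Away.mk_of_addCommGroup ?_ ?_ ?_
  · exact Scheme.Modules.isUnit_algebraMap_end_of_le_basicOpen r le_rfl
  · intro x
    exact key1 x
  · intro x hx
    exact key2 x hx

theorem qc_biprod {M N : X.Modules} (hM : M.IsQuasicoherent) (hN : N.IsQuasicoherent) :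
    (M ⊞ N).IsQuasicoherent := by
  refine qck_of_affine _ fun R j _ => ?_
  have h1 : (M.restrict j).IsQuasicoherent := inferInstance
  have h2 : (N.restrict j).IsQuasicoherent := inferInstance
  have : PreservesBinaryBiproduct M N (restrictFunctor j) :=
    preservesBinaryBiproduct_of_preservesBinaryCoproduct (restrictFunctor j)
  exact qc_of_iso ((restrictFunctor j).mapBiprod M N).symm (qck_spec_biprod h1 h2)

theorem qc_kernel {M N : X.Modules} (f : M ⟶ N) (hM : M.IsQuasicoherent) (hN : N.IsQuasicoherent) :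
    (kernel f).IsQuasicoherent := by
  refine qck_of_affine _ fun R j _ => ?_
  have h1 : (M.restrict j).IsQuasicoherent := inferInstance
  have h2 : (N.restrict j).IsQuasicoherent := inferInstance
  exact qc_of_iso (PreservesKernel.iso (restrictFunctor j) f).symm (qck_spec_ker ((restrictFunctor j).map f) h1 h2)

theorem qc_cokernel {M N : X.Modules} (f : M ⟶ N) (hM : M.IsQuasicoherent)
    (hN : N.IsQuasicoherent) : (cokernel f).IsQuasicoherent := by
  refine qck_of_affine _ fun R j _ => ?_
  have h1 : (M.restrict j).IsQuasicoherent := inferInstance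
  have h2 : (N.restrict j).IsQuasicoherent := inferInstance
  exact qc_of_iso (PreservesCokernel.iso (restrictFunctor j) f).symm (qck_spec_coker ((restrictFunctor j).map f) h1 h2)

end Pool.H33.P
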