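import Mathlib
import Pool.Agent.H33.P.Def
import Pool.Agent.H33.P.PFREE
import Pool.Agent.H33.P.QCK

/-! # LBP: the module of a cocycle is a line bundle; line bundles are perfect

`twist_lineBundle`: on `U l` the map `f ↦ f • e l` is an isomorphism from the structure sheaf.
`twist_qc`: quasi-coherence is local (`SheafOfModules.IsQuasicoherent.of_coversTop`, see also `QCK.qc_of_cover`,
which you may import). -/

open CategoryTheory AlgebraicGeometry Limits TopologicalSpace

namespace Pool.H33.P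

variable {X : Scheme.{0}}

theorem lbp_rs_smul (M : X.Modules) {U V : X.Opens} (h : V ≤ U) (r : Γ(X, U)) (m : Γ(M, U)) :
    rs M h (r • m) = rf h r • rs M h m :=
  Scheme.Modules.map_smul M (homOfLE h) r m

theorem lbp_rs_rs (M : X.Modules) {U V W : X.Opens} (h : V ≤ U) (h' : W ≤ V) (m : Γ(M, U)) :
    rs M h' (rs M h m) = rs M (h'.trans h) m := by
  unfold rs
  rw [← M.presheaf.map_comp_apply, ← op_comp, homOfLE_comp]

/-- the structure sheaf as a module -/
noncomputable def lbpO (X : Scheme.{0}) : X.Modules := SheafOfModules.unit X.ringCatSheaf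

/-- the morphism from the structure sheaf given by a section -/
noncomputable def lbpHom (M : X.Modules) (s : ∀ V : X.Opens, Γ(M, V))
    (hs : ∀ (V W : X.Opens) (h : W ≤ V), rs M h (s V) = s W) :
    lbpO X ⟶ M :=
  ⟨fun V ↦ ModuleCat.ofHom (LinearMap.toSpanSingleton Γ(X, V.unop) Γ(M, V.unop) (s V.unop)),
    fun {V W} i ↦ by
      refine ModuleCat.hom_ext (LinearMap.ext fun (f : Γ(X, V.unop)) => ?_)
      have h1 := lbp_rs_smul M (leOfHom i.unop) f (s V.unop)
      rw [hs] at h1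
      exact h1.symm⟩

theorem lbpHom_app (M : X.Modules) (s : ∀ V : X.Opens, Γ(M, V))
    (hs : ∀ (V W : X.Opens) (h : W ≤ V), rs M h (s V) = s W) (V : X.Opens) (f : Γ(X, V)) :
    (lbpHom M s hs).app V (f : Γ(lbpO X, V)) = f • s V := rfl

theorem lbp_isIso (M : X.Modules) (s : ∀ V : X.Opens, Γ(M, V))
    (hs : ∀ (V W : X.Opens) (h : W ≤ V), rs M h (s V) = s W)
    (hb : ∀ V, Function.Bijective (fun f : Γ(X, V) => f • s V)) : IsIso (lbpHom M s hs) := by
  rw [Scheme.Modules.Hom.isIso_iff_isIso_app]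
  intro V
  rw [ConcreteCategory.isIso_iff_bijective]
  exact hb V

theorem lbp_local {ι : Type} {U : ι → X.Opens}
    {c : ∀ l l', Γ(X, U l ⊓ U l')} {L : X.Modules} {e : ∀ l, Γ(L, U l)} (h : IsTwist U c L e)
    (l : ι) : Nonempty (L.restrict (U l).ι ≅ (SheafOfModules.unit _ : (U l : Scheme.{0}).Modules)) := by
  have hle : ∀ V : (U l : Scheme.{0}).Opens, (U l).ι ''ᵁ V ≤ U l := fun V => by
    have := Scheme.Hom.image_mono (U l).ι (le_top : V ≤ ⊤)
    rwa [Scheme.Opens.ι_image_top] at this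
  set M : (U l : Scheme.{0}).Modules := L.restrict (U l).ι with hM
  set s : ∀ V : (U l : Scheme.{0}).Opens, Γ(M, V) := fun V =>
    (L.restrictAppIso (U l).ι V).inv (rs L (hle V) (e l)) with hs
  have hss : ∀ (V W : (U l : Scheme.{0}).Opens) (h : W ≤ V), rs M h (s V) = s W := by
    intro V W h
    exact lbp_rs_rs L (hle V) (Scheme.Hom.image_mono (U l).ι h) (e l)
  have hb : ∀ V, Function.Bijective (fun f : Γ((U l : Scheme.{0}), V) => f • s V) := by
    intro V
    have h1 := h.bij l ((U l).ι ''ᵁ V) (hle V)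
    have h2 : (fun f : Γ((U l : Scheme.{0}), V) => f • s V) =
        (L.restrictAppIso (U l).ι V).inv ∘
          (fun f : Γ(X, (U l).ι ''ᵁ V) => f • rs L (hle V) (e l)) ∘
          ((U l).ι.appIso V).inv := by
      funext f
      rfl
    rw [h2]
    refine Function.Bijective.comp ?_ (h1.comp ?_)
    · exact (ConcreteCategory.isIso_iff_bijective _).1 inferInstance
    · exact (ConcreteCategory.isIso_iff_bijective _).1 inferInstance
  have h3 := lbp_isIso M s hss hb
  exact ⟨(asIso (lbpHom M s hss)).symm⟩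

theorem twist_lineBundle {ι : Type} {U : ι → X.Opens} (hU : ⨆ i, U i = ⊤)
    {c : ∀ l l', Γ(X, U l ⊓ U l')} {L : X.Modules} {e : ∀ l, Γ(L, U l)} (h : IsTwist U c L e) :
    IsLineBundle L := by
  intro x
  have h1 : x ∈ ⨆ i, U i := by rw [hU]; trivial
  obtain ⟨l, hl⟩ := Opens.mem_iSup.1 h1
  exact ⟨U l, hl, lbp_local h l⟩

theorem twist_qc {ι : Type} {U : ι → X.Opens} (hU : ⨆ i, U i = ⊤)
    {c : ∀ l l', Γ(X, U l ⊓ U l')} {L : X.Modules} {e : ∀ l, Γ(L, U l)} (h : IsTwist U c L e) :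
    L.IsQuasicoherent := by
  refine qc_of_cover U hU L ?_
  intro l
  obtain ⟨i⟩ := lbp_local h l
  exact qc_of_iso i.symm qc_unit

theorem lineBundle_perfect {L : X.Modules} (h : IsLineBundle L) : IsPerfect X (sg L) := by
  refine perfect_of_free L ?_
  intro x
  obtain ⟨V, hx, ⟨e⟩⟩ := h x
  obtain ⟨e2⟩ := free_one (V : Scheme.{0})
  exact ⟨V, hx, 1, ⟨e ≪≫ e2⟩⟩

end Pool.H33.P
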