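import Mathlib
import Pool.Agent.H33.P.Def

/-! # TRI1: two out of three and direct sums for triangulated properties of a derived category -/

open CategoryTheory Limits

namespace Pool.H33.P

universe w v u

variable {C : Type u} [Category.{v} C] [Abelian C] [HasDerivedCategory.{w} C]
  (Q : ObjectProperty (DerivedCategory C)) [Q.IsTriangulated] [Q.IsClosedUnderIsomorphisms]

/-- the single complex -/
noncomputable abbrev sgl {C : Type u} [Category.{v} C] [Abelian C] [HasDerivedCategory.{w} C]
    (A : C) : DerivedCategory C := (DerivedCategory.singleFunctor C 0).obj A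

/-- use `ShortComplex.ShortExact.singleTriangle_distinguished` and `Q.ext_of_isTriangulatedClosed₁` etc. -/
theorem ses1 {S : ShortComplex C} (hS : S.ShortExact) (h2 : Q (sgl S.X₂)) (h3 : Q (sgl S.X₃)) :
    Q (sgl S.X₁) :=
  Q.ext_of_isTriangulatedClosed₁ _ hS.singleTriangle_distinguished h2 h3

theorem ses2 {S : ShortComplex C} (hS : S.ShortExact) (h1 : Q (sgl S.X₁)) (h3 : Q (sgl S.X₃)) :
    Q (sgl S.X₂) :=
  Q.ext_of_isTriangulatedClosed₂ _ hS.singleTriangle_distinguished h1 h3

theorem ses3 {S : ShortComplex C} (hS : S.ShortExact) (h1 : Q (sgl S.X₁)) (h2 : Q (sgl S.X₂)) :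
    Q (sgl S.X₃) :=
  Q.ext_of_isTriangulatedClosed₃ _ hS.singleTriangle_distinguished h1 h2

theorem q_zero {A : C} (h : IsZero A) : Q (sgl A) := by
  have h0 : IsZero (sgl A) := Functor.map_isZero _ h
  obtain ⟨Z, hZ, hQ⟩ := Q.exists_prop_of_containsZero
  exact Q.prop_of_iso (hZ.iso h0) hQ

omit [Q.IsTriangulated] in
theorem q_iso {A B : C} (e : A ≅ B) (h : Q (sgl A)) : Q (sgl B) :=
  Q.prop_of_iso ((DerivedCategory.singleFunctor C 0).mapIso e) h

theorem q_biprod {A B : C} (hA : Q (sgl A)) (hB : Q (sgl B)) : Q (sgl (A ⊞ B)) := by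
  have hS : (ShortComplex.mk (biprod.inl : A ⟶ A ⊞ B) (biprod.snd : A ⊞ B ⟶ B) (by simp)).ShortExact :=
    { exact := ShortComplex.Splitting.exact
        { r := biprod.fst
          s := biprod.inr }
      mono_f := inferInstance
      epi_g := inferInstance }
  exact ses2 Q hS hA hB

omit [Q.IsTriangulated] [Q.IsClosedUnderIsomorphisms] in
theorem q_left [Q.IsStableUnderRetracts] {A B : C} (h : Q (sgl (A ⊞ B))) : Q (sgl A) := by
  have r : Retract A (A ⊞ B) := ⟨biprod.inl, biprod.fst, by simp⟩
  exact Q.prop_of_retract (r.map (DerivedCategory.singleFunctor C 0)) h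

omit [Q.IsTriangulated] [Q.IsClosedUnderIsomorphisms] in
theorem q_right [Q.IsStableUnderRetracts] {A B : C} (h : Q (sgl (A ⊞ B))) : Q (sgl B) := by
  have r : Retract B (A ⊞ B) := ⟨biprod.inr, biprod.snd, by simp⟩
  exact Q.prop_of_retract (r.map (DerivedCategory.singleFunctor C 0)) h

end Pool.H33.P
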