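import Mathlib
import Pool.Agent.H33.P.Def
import Pool.Agent.H33.P.TRI1
import Pool.Agent.H33.P.LBP
import Pool.Agent.H33.P.QCK

/-! # FSP: finite direct sums of the line bundles `L a b` -/

open CategoryTheory AlgebraicGeometry Limits TopologicalSpace

namespace Pool.H33.P

variable {X : Scheme.{0}} {T : ToricData X} (S : LSys T)

theorem fs_qc {E : X.Modules} (h : IsFS S E) : E.IsQuasicoherent := by
  induction h with
  | zero E h => exact qc_zero h
  | add E a b _ ih => exact qc_biprod ih (twist_qc T.cov (S.tw a b))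

theorem fsp_rs_refl (M : X.Modules) {U : X.Opens} (m : Γ(M, U)) :
    rs M (le_refl U) m = m := by
  unfold rs
  have : (homOfLE (le_refl U)).op = 𝟙 _ := rfl
  rw [this, M.presheaf.map_id]
  rfl

/-- the linear map on sections -/
noncomputable def fspL {M N : X.Modules} (f : M ⟶ N) (V : X.Opens) :
    Γ(M, V) →ₗ[Γ(X, V)] Γ(N, V) :=
  { toFun := fun x => f.app V x
    map_add' := fun x y => map_add _ x y
    map_smul' := fun r x => Scheme.Modules.Hom.app_smul f r x }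

theorem fsp_L_sec (a b : ℤ) (l : Fin 4) :
    Nonempty (Γ(S.L a b, T.U l) ≃ₗ[Γ(X, T.U l)] Γ(X, T.U l)) :=
  ⟨(LinearEquiv.ofBijective (LinearMap.toSpanSingleton Γ(X, T.U l) Γ(S.L a b, T.U l)
    (rs (S.L a b) le_rfl (S.e a b l))) ((S.tw a b).bij l (T.U l) le_rfl)).symm⟩

theorem fsp_biprod_sec (M N : X.Modules) (V : X.Opens) :
    Nonempty (Γ((M ⊞ N : X.Modules), V) ≃ₗ[Γ(X, V)] Γ(M, V) × Γ(N, V)) :=
  ⟨LinearEquiv.ofBijective ((fspL (biprod.fst : M ⊞ N ⟶ M) V).prod (fspL (biprod.snd : M ⊞ N ⟶ N) V))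
    (sec_biprod M N V)⟩

theorem fsp_zero_sec {E : X.Modules} (h : IsZero E) (V : X.Opens) : Subsingleton Γ(E, V) := by
  refine ⟨fun x y => ?_⟩
  have h1 : 𝟙 E = 0 := h.eq_of_src _ _
  have h2 : ∀ x : Γ(E, V), x = 0 := fun x => congr_arg (fun φ => Scheme.Modules.Hom.app φ V x) h1
  rw [h2 x, h2 y]

theorem fs_sec {E : X.Modules} (h : IsFS S E) (l : Fin 4) :
    ∃ n : ℕ, Nonempty (Γ(E, T.U l) ≃ₗ[Γ(X, T.U l)] (Fin n → Γ(X, T.U l))) := by
  induction h with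
  | zero E h =>
    have := fsp_zero_sec h (T.U l)
    refine ⟨0, ⟨LinearEquiv.ofBijective (0 : _ →ₗ[_] _) ⟨fun x y _ => Subsingleton.elim x y, fun y => ⟨0, ?_⟩⟩⟩⟩
    exact Subsingleton.elim _ _
  | add E a b _ ih =>
    obtain ⟨n, ⟨e⟩⟩ := ih
    obtain ⟨f⟩ := fsp_L_sec S a b l
    obtain ⟨g⟩ := fsp_biprod_sec E (S.L a b) (T.U l)
    refine ⟨n + 1, ⟨g ≪≫ₗ (e.prodCongr f) ≪≫ₗ ?_⟩⟩
    exact (LinearEquiv.prodComm _ _ _) ≪≫ₗ (Fin.consLinearEquiv Γ(X, T.U l) (fun _ => Γ(X, T.U l)))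

theorem fs_vb {E : X.Modules} (h : IsFS S E) : IsVB T.U E := by
  refine ⟨fs_qc S h, fun l => ?_, fun l => ?_⟩
  · obtain ⟨n, ⟨e⟩⟩ := fs_sec S h l
    exact Module.Finite.equiv e.symm
  · obtain ⟨n, ⟨e⟩⟩ := fs_sec S h l
    exact Module.Projective.of_equiv e.symm

theorem fs_q (Q : ObjectProperty (DerivedCategory X.Modules)) [Q.IsTriangulated]
    [Q.IsClosedUnderIsomorphisms] (hQ : ∀ a b, Q (sg (S.L a b))) {E : X.Modules} (h : IsFS S E) :
    Q (sg E) := by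
  induction h with
  | zero E h => exact q_zero Q h
  | add E a b _ ih => exact q_biprod Q ih (hQ a b)

/-- a finite family of maps from (or to) line bundles can be assembled -/
theorem fs_desc {M : X.Modules} (n : ℕ) (a b : Fin n → ℤ) (φ : ∀ i, S.L (a i) (b i) ⟶ M) :
    ∃ (E : X.Modules) (p : E ⟶ M), IsFS S E ∧
      ∀ i, ∃ j : S.L (a i) (b i) ⟶ E, j ≫ p = φ i := by
  induction n with
  | zero =>
    obtain ⟨Z, hZ⟩ := HasZeroObject.zero (C := X.Modules)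
    exact ⟨Z, 0, IsFS.zero _ hZ, fun i => i.elim0⟩
  | succ n ih =>
    obtain ⟨E, p, hE, hp⟩ := ih (fun i => a i.castSucc) (fun i => b i.castSucc) (fun i => φ i.castSucc)
    refine ⟨E ⊞ S.L (a (Fin.last n)) (b (Fin.last n)), biprod.desc p (φ (Fin.last n)),
      IsFS.add _ _ _ hE, fun i => ?_⟩
    induction i using Fin.lastCases with
    | last => exact ⟨biprod.inr, biprod.inr_desc _ _⟩
    | cast i =>
      obtain ⟨j, hj⟩ := hp i
      exact ⟨j ≫ biprod.inl, by rw [Category.assoc, biprod.inl_desc, hj]⟩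

theorem fs_lift {M : X.Modules} (n : ℕ) (a b : Fin n → ℤ) (φ : ∀ i, M ⟶ S.L (a i) (b i)) :
    ∃ (E : X.Modules) (p : M ⟶ E), IsFS S E ∧
      ∀ i, ∃ j : E ⟶ S.L (a i) (b i), p ≫ j = φ i := by
  induction n with
  | zero =>
    obtain ⟨Z, hZ⟩ := HasZeroObject.zero (C := X.Modules)
    exact ⟨Z, 0, IsFS.zero _ hZ, fun i => i.elim0⟩
  | succ n ih =>
    obtain ⟨E, p, hE, hp⟩ := ih (fun i => a i.castSucc) (fun i => b i.castSucc) (fun i => φ i.castSucc)
    refine ⟨E ⊞ S.L (a (Fin.last n)) (b (Fin.last n)), biprod.lift p (φ (Fin.last n)),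
      IsFS.add _ _ _ hE, fun i => ?_⟩
    induction i using Fin.lastCases with
    | last => exact ⟨biprod.snd, biprod.lift_snd _ _⟩
    | cast i =>
      obtain ⟨j, hj⟩ := hp i
      exact ⟨biprod.fst ≫ j, by rw [← Category.assoc, biprod.lift_fst, hj]⟩

end Pool.H33.P
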