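import Mathlib
import Pool.Agent.H33.P.Def

/-! # LOCM: sections of a quasi-coherent module over basic opens of affine opens

Transport to `Spec Γ(X, U)` by `hU.isoSpec` / `hU.fromSpec` (restriction along the open immersion
`hU.fromSpec : Spec Γ(X, U) ⟶ X`, `Scheme.Modules.isQuasicoherent_restrictFunctor`) and use
`isQuasicoherent_iff_isIso_fromTildeΓ`, `isIso_fromTildeΓ_iff_isLocalizing`. -/

open CategoryTheory AlgebraicGeometry Limits TopologicalSpace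

namespace Pool.H33.P

variable {X : Scheme.{0}}

theorem locm_rs_rs (M : X.Modules) {U V W : X.Opens} (h : V ≤ U) (h' : W ≤ V) (m : Γ(M, U)) :
    rs M h' (rs M h m) = rs M (h'.trans h) m := by
  unfold rs
  rw [← M.presheaf.map_comp_apply, ← op_comp, homOfLE_comp]

theorem locm_rs_refl (M : X.Modules) {U : X.Opens} (m : Γ(M, U)) :
    rs M (le_refl U) m = m := by
  unfold rs
  have : (homOfLE (le_refl U)).op = 𝟙 _ := rfl
  rw [this, M.presheaf.map_id]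
  rfl

theorem locm_rs_smul (M : X.Modules) {U V : X.Opens} (h : V ≤ U) (r : Γ(X, U)) (m : Γ(M, U)) :
    rs M h (r • m) = rf h r • rs M h m :=
  Scheme.Modules.map_smul M (homOfLE h) r m

theorem locm_rf_rf {U V W : X.Opens} (h : V ≤ U) (h' : W ≤ V) (m : Γ(X, U)) :
    rf h' (rf h m) = rf (h'.trans h) m := by
  unfold rf
  rw [← CategoryTheory.comp_apply, ← X.presheaf.map_comp, ← op_comp, homOfLE_comp]

theorem locm_rf_refl {U : X.Opens} (m : Γ(X, U)) : rf (le_refl U) m = m := by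
  unfold rf
  have : (homOfLE (le_refl U)).op = 𝟙 _ := rfl
  rw [this, X.presheaf.map_id]
  rfl

theorem locm_appLE {U : X.Opens} (hU : IsAffineOpen U) (W : (Spec Γ(X, U)).Opens)
    (e : W ≤ hU.fromSpec ⁻¹ᵁ U) :
    (Scheme.ΓSpecIso Γ(X, U)).inv ≫ (Spec Γ(X, U)).presheaf.map W.leTop.op =
      hU.fromSpec.appLE U W e := by
  rw [Scheme.Hom.appLE, hU.fromSpec_app_self, Category.assoc, ← Functor.map_comp]
  rfl

theorem locm_ring {U : X.Opens} (hU : IsAffineOpen U) (W : (Spec Γ(X, U)).Opens)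
    (h : hU.fromSpec ''ᵁ W ≤ U) (r : Γ(X, U)) :
    (hU.fromSpec.appIso W).inv ((Spec Γ(X, U)).presheaf.map W.leTop.op
      ((Scheme.ΓSpecIso Γ(X, U)).inv r)) = rf h r := by
  have e : W ≤ hU.fromSpec ⁻¹ᵁ U := by
    rw [hU.fromSpec_preimage_self]
    exact le_top
  have h1 := locm_appLE hU W e
  have h2 := hU.fromSpec.appLE_appIso_inv e
  rw [← h1, Category.assoc] at h2
  exact congr($h2 r)

theorem locm_smul {U : X.Opens} (hU : IsAffineOpen U) (M : X.Modules)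
    (W : (Spec Γ(X, U)).Opens) (h : hU.fromSpec ''ᵁ W ≤ U) (r : Γ(X, U))
    (x : Γ(M.restrict hU.fromSpec, W)) :
    (M.restrictAppIso hU.fromSpec W).hom (r • x) =
      rf h r • (M.restrictAppIso hU.fromSpec W).hom x := by
  rw [Scheme.Modules.smul_Spec_def, ← locm_ring hU W h r]
  rfl

/-- sections over the images -/
theorem locm_loc {U : X.Opens} (hU : IsAffineOpen U) (M : X.Modules) (hM : M.IsQuasicoherent)
    (f : Γ(X, U)) :
    IsLocalizedModule (.powers f) ((modulesSpecToSheaf.obj (M.restrict hU.fromSpec)).obj.map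
      (PrimeSpectrum.basicOpen f).leTop.op).hom := by
  have h1 : (M.restrict hU.fromSpec).IsQuasicoherent :=
    Scheme.Modules.isQuasicoherent_restrictFunctor hU.fromSpec M
  have h2 : IsIso (M.restrict hU.fromSpec).fromTildeΓ :=
    Scheme.Modules.isIso_fromTildeΓ_of_isQuasicoherent _
  exact (isIso_fromTildeΓ_iff_isLocalizing _).1 h2 f

theorem locm_surj {U : X.Opens} (hU : IsAffineOpen U) (M : X.Modules) (hM : M.IsQuasicoherent)
    (f : Γ(X, U)) (W : (Spec Γ(X, U)).Opens) (hW : W = PrimeSpectrum.basicOpen f)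
    (hWU : hU.fromSpec ''ᵁ W ≤ U) (hDT : hU.fromSpec ''ᵁ W ≤ hU.fromSpec ''ᵁ ⊤)
    (s : Γ(M, hU.fromSpec ''ᵁ W)) :
    ∃ (n : ℕ) (t : Γ(M, hU.fromSpec ''ᵁ ⊤)), rs M hDT t = rf hWU f ^ n • s := by
  subst hW
  have hloc := locm_loc hU M hM f
  obtain ⟨⟨t, ⟨_, n, rfl⟩⟩, ht⟩ := hloc.surj ((M.restrictAppIso hU.fromSpec _).inv s)
  have h1 := locm_smul hU M _ hWU (f ^ n) ((M.restrictAppIso hU.fromSpec _).inv s)
  refine ⟨n, (M.restrictAppIso hU.fromSpec ⊤).hom t, ?_⟩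
  have h2 : rf hWU (f ^ n) = rf hWU f ^ n :=
    map_pow (X.presheaf.map (homOfLE hWU).op).hom f n
  rw [h2] at h1
  exact (congrArg (M.restrictAppIso hU.fromSpec _).hom ht).symm.trans h1

theorem locm_inj {U : X.Opens} (hU : IsAffineOpen U) (M : X.Modules) (hM : M.IsQuasicoherent)
    (f : Γ(X, U)) (W : (Spec Γ(X, U)).Opens) (hW : W = PrimeSpectrum.basicOpen f)
    (hTU : hU.fromSpec ''ᵁ ⊤ ≤ U) (hDT : hU.fromSpec ''ᵁ W ≤ hU.fromSpec ''ᵁ ⊤)
    (t : Γ(M, hU.fromSpec ''ᵁ ⊤)) (ht : rs M hDT t = 0) :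
    ∃ n : ℕ, rf hTU (f ^ n) • t = 0 := by
  subst hW
  have hloc := locm_loc hU M hM f
  have h1 := (IsLocalizedModule.eq_zero_iff (.powers f) ((modulesSpecToSheaf.obj
    (M.restrict hU.fromSpec)).obj.map (PrimeSpectrum.basicOpen f).leTop.op).hom
    (m := (M.restrictAppIso hU.fromSpec ⊤).inv t)).1 ht
  obtain ⟨⟨_, n, rfl⟩, hn⟩ := h1
  refine ⟨n, ?_⟩
  have h2 := locm_smul hU M ⊤ hTU (f ^ n) ((M.restrictAppIso hU.fromSpec ⊤).inv t)
  have h3 : (M.restrictAppIso hU.fromSpec ⊤).hom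
      (f ^ n • (M.restrictAppIso hU.fromSpec ⊤).inv t) = 0 :=
    (congrArg (M.restrictAppIso hU.fromSpec ⊤).hom hn).trans (map_zero _)
  rw [h3] at h2
  exact h2.symm

theorem locm_image {U : X.Opens} (hU : IsAffineOpen U) (f : Γ(X, U)) :
    ∃ W : (Spec Γ(X, U)).Opens, W = PrimeSpectrum.basicOpen f ∧
      hU.fromSpec ''ᵁ W = X.basicOpen f :=
  ⟨PrimeSpectrum.basicOpen f, rfl, hU.fromSpec_image_basicOpen f⟩

theorem locm_top {U : X.Opens} (hU : IsAffineOpen U) : hU.fromSpec ''ᵁ ⊤ = U := by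
  rw [Scheme.Hom.image_top_eq_opensRange, hU.opensRange_fromSpec]

theorem loc_surj (M : X.Modules) (hM : M.IsQuasicoherent) {U : X.Opens} (hU : IsAffineOpen U)
    (f : Γ(X, U)) {V : X.Opens} (hV : V = X.basicOpen f) (hVU : V ≤ U) (s : Γ(M, V)) :
    ∃ (n : ℕ) (t : Γ(M, U)), rs M hVU t = rf hVU (f ^ n) • s := by
  obtain ⟨W, hW, hWi⟩ := locm_image hU f
  rw [← hV] at hWi
  subst hWi
  have hT : U ≤ hU.fromSpec ''ᵁ ⊤ := (locm_top hU).ge
  obtain ⟨n, t, ht⟩ := locm_surj hU M hM f W hW hVU (hVU.trans hT) s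
  have h2 : rf hVU (f ^ n) = rf hVU f ^ n :=
    map_pow (X.presheaf.map (homOfLE hVU).op).hom f n
  refine ⟨n, rs M hT t, ?_⟩
  rw [locm_rs_rs, h2]
  exact ht

theorem loc_inj (M : X.Modules) (hM : M.IsQuasicoherent) {U : X.Opens} (hU : IsAffineOpen U)
    (f : Γ(X, U)) {V : X.Opens} (hV : V = X.basicOpen f) (hVU : V ≤ U) (t : Γ(M, U))
    (ht : rs M hVU t = 0) : ∃ n : ℕ, f ^ n • t = 0 := by
  obtain ⟨W, hW, hWi⟩ := locm_image hU f
  rw [← hV] at hWi
  subst hWi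
  have hT : U ≤ hU.fromSpec ''ᵁ ⊤ := (locm_top hU).ge
  have hT' : hU.fromSpec ''ᵁ ⊤ ≤ U := (locm_top hU).le
  obtain ⟨n, hn⟩ := locm_inj hU M hM f W hW hT' (hVU.trans hT) (rs M hT' t) (by
    rw [locm_rs_rs]; exact ht)
  refine ⟨n, ?_⟩
  rw [← locm_rs_smul] at hn
  have h3 := congrArg (rs M hT) hn
  rw [locm_rs_rs, locm_rs_refl] at h3
  rw [h3]
  exact map_zero (M.presheaf.map (homOfLE hT).op).hom

/-- the same for functions -/
theorem loc_surj_fun {U : X.Opens} (hU : IsAffineOpen U)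
    (f : Γ(X, U)) {V : X.Opens} (hV : V = X.basicOpen f) (hVU : V ≤ U) (s : Γ(X, V)) :
    ∃ (n : ℕ) (t : Γ(X, U)), rf hVU t = rf hVU (f ^ n) * s := by
  subst hV
  have h1 := hU.isLocalization_basicOpen f
  obtain ⟨⟨t, ⟨_, n, rfl⟩⟩, ht⟩ := IsLocalization.surj (Submonoid.powers f) s
  refine ⟨n, t, ?_⟩
  rw [mul_comm]
  exact ht.symm

end Pool.H33.P
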