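import Mathlib
import Pool.Agent.H33.P.Def
import Pool.Agent.H33.P.LOCM

/-! # GLU: gluing morphisms out of a quasi-coherent module

Elementary proof from LOCM: a section `m` of `M` over `V` restricted to a basic open `D = D(s) ≤ V`,
`s ∈ Γ(X, U l)`, is of the form `s ^ (-k) t`, `t ∈ Γ(M, U l)`; its image is `s ^ (-k) ψ l t`. -/

open CategoryTheory AlgebraicGeometry Limits TopologicalSpace

namespace Pool.H33.P

variable {X : Scheme.{0}} {ι : Type} (U : ι → X.Opens)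

/-! ## restriction maps -/

theorem glu_rs_smul (M : X.Modules) {U V : X.Opens} (h : V ≤ U) (r : Γ(X, U)) (m : Γ(M, U)) :
    rs M h (r • m) = rf h r • rs M h m :=
  Scheme.Modules.map_smul M (homOfLE h) r m

theorem glu_rs_add (M : X.Modules) {U V : X.Opens} (h : V ≤ U) (m m' : Γ(M, U)) :
    rs M h (m + m') = rs M h m + rs M h m' :=
  map_add (M.presheaf.map (homOfLE h).op).hom m m'

theorem glu_rs_sub (M : X.Modules) {U V : X.Opens} (h : V ≤ U) (m m' : Γ(M, U)) :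
    rs M h (m - m') = rs M h m - rs M h m' :=
  map_sub (M.presheaf.map (homOfLE h).op).hom m m'

theorem glu_rs_zero (M : X.Modules) {U V : X.Opens} (h : V ≤ U) :
    rs M h (0 : Γ(M, U)) = 0 :=
  map_zero (M.presheaf.map (homOfLE h).op).hom

theorem glu_rf_mul {U V : X.Opens} (h : V ≤ U) (r s : Γ(X, U)) :
    rf h (r * s) = rf h r * rf h s :=
  map_mul (X.presheaf.map (homOfLE h).op).hom r s

theorem glu_rf_pow {U V : X.Opens} (h : V ≤ U) (r : Γ(X, U)) (n : ℕ) :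
    rf h (r ^ n) = rf h r ^ n :=
  map_pow (X.presheaf.map (homOfLE h).op).hom r n

theorem glu_rf_one {U V : X.Opens} (h : V ≤ U) : rf h (1 : Γ(X, U)) = 1 :=
  map_one (X.presheaf.map (homOfLE h).op).hom

theorem glu_rs_rs (M : X.Modules) {U V W : X.Opens} (h : V ≤ U) (h' : W ≤ V) (m : Γ(M, U)) :
    rs M h' (rs M h m) = rs M (h'.trans h) m := by
  unfold rs
  rw [← M.presheaf.map_comp_apply, ← op_comp, homOfLE_comp]

theorem glu_rf_rf {U V W : X.Opens} (h : V ≤ U) (h' : W ≤ V) (m : Γ(X, U)) :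
    rf h' (rf h m) = rf (h'.trans h) m := by
  unfold rf
  rw [← CategoryTheory.comp_apply, ← X.presheaf.map_comp, ← op_comp, homOfLE_comp]

theorem glu_rs_app {M N : X.Modules} (φ : M ⟶ N) {U V : X.Opens} (h : V ≤ U) (m : Γ(M, U)) :
    φ.app V (rs M h m) = rs N h (φ.app U m) := by
  have := (φ.mapPresheaf).naturality (homOfLE h).op
  exact congr($this m)

theorem glu_unit {U V W : X.Opens} (s : Γ(X, U)) (hV : V = X.basicOpen s) (hVU : V ≤ U)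
    (hWV : W ≤ V) : IsUnit (rf (hWV.trans hVU) s) := by
  subst hV
  have h1 : IsUnit (rf hVU s) := X.toRingedSpace.isUnit_res_basicOpen s
  rw [← glu_rf_rf hVU hWV]
  exact h1.map (X.presheaf.map (homOfLE hWV).op).hom

theorem glu_cancel (N : X.Modules) {W : X.Opens} {u : Γ(X, W)} (hu : IsUnit u) {n n' : Γ(N, W)}
    (h : u • n = u • n') : n = n' := by
  obtain ⟨v, rfl⟩ := hu
  have h1 : (v⁻¹ : Γ(X, W)ˣ).1 • (v.1 • n) = (v⁻¹ : Γ(X, W)ˣ).1 • (v.1 • n') := by rw [h]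
  rwa [smul_smul, smul_smul, Units.inv_mul, one_smul, one_smul] at h1

theorem glu_div (N : X.Modules) {W : X.Opens} {u : Γ(X, W)} (hu : IsUnit u) (n : Γ(N, W)) :
    ∃ n', n = u • n' := by
  obtain ⟨v, rfl⟩ := hu
  exact ⟨(v⁻¹ : Γ(X, W)ˣ).1 • n, by rw [smul_smul, Units.mul_inv, one_smul]⟩

theorem glu_ext (N : X.Modules) (V : X.Opens) {κ : Type} (W : κ → X.Opens) (hW : ∀ i, W i ≤ V)
    (hc : V ≤ ⨆ i, W i) (n n' : Γ(N, V)) (h : ∀ i, rs N (hW i) n = rs N (hW i) n') : n = n' :=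
  TopCat.Sheaf.eq_of_locally_eq' ⟨_, N.isSheaf⟩ W V (fun i => homOfLE (hW i)) hc n n' h

theorem glu_glue (N : X.Modules) (V : X.Opens) {κ : Type} (W : κ → X.Opens) (hW : ∀ i, W i ≤ V)
    (hc : V ≤ ⨆ i, W i) (n : ∀ i, Γ(N, W i))
    (h : ∀ i j, rs N (V := W i ⊓ W j) inf_le_left (n i) =
      rs N (V := W i ⊓ W j) inf_le_right (n j)) :
    ∃ m : Γ(N, V), ∀ i, rs N (hW i) m = n i := by
  obtain ⟨m, hm, -⟩ := TopCat.Sheaf.existsUnique_gluing' ⟨_, N.isSheaf⟩ W V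
    (fun i => homOfLE (hW i)) hc n h
  exact ⟨m, hm⟩

/-- the index set of the basic opens in `V` -/
abbrev GluJ (V : X.Opens) : Type := {p : Σ l, Γ(X, U l) // X.basicOpen p.2 ≤ V}

theorem glu_cover (hU : ⨆ i, U i = ⊤) (hA : ∀ i, IsAffineOpen (U i)) (V : X.Opens) :
    V ≤ ⨆ p : GluJ U V, X.basicOpen p.1.2 := by
  intro x hx
  have h1 : x ∈ ⨆ i, U i := by rw [hU]; trivial
  obtain ⟨l, hl⟩ := Opens.mem_iSup.1 h1
  obtain ⟨f, hf, hxf⟩ := (hA l).exists_basicOpen_le ⟨x, hx⟩ hl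
  exact Opens.mem_iSup.2 ⟨⟨⟨l, f⟩, hf⟩, hxf⟩

theorem hom_ext_cover (hU : ⨆ i, U i = ⊤) (hA : ∀ i, IsAffineOpen (U i))
    {M N : X.Modules} (hM : M.IsQuasicoherent) (f g : M ⟶ N)
    (h : ∀ l (m : Γ(M, U l)), f.app (U l) m = g.app (U l) m) : f = g := by
  apply Scheme.Modules.hom_ext
  intro V
  ext m
  refine glu_ext N V (fun p : GluJ U V => X.basicOpen p.1.2) (fun p => p.2)
    (glu_cover U hU hA V) _ _ ?_
  rintro ⟨⟨l, s⟩, hs⟩
  obtain ⟨k, t, ht⟩ := loc_surj M hM (hA l) s rfl (X.basicOpen_le s) (rs M hs m)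
  have hu : IsUnit (rf (X.basicOpen_le s) (s ^ k)) := by
    rw [glu_rf_pow]
    exact (glu_unit s rfl (X.basicOpen_le s) le_rfl).pow k
  refine glu_cancel N hu ?_
  rw [← glu_rs_app, ← glu_rs_app]
  have e1 := f.app_smul (rf (X.basicOpen_le s) (s ^ k)) (rs M hs m)
  have e2 := g.app_smul (rf (X.basicOpen_le s) (s ^ k)) (rs M hs m)
  rw [← ht, glu_rs_app] at e1 e2
  rw [← e1, ← e2, h]

/-! ## linear maps on affine opens -/

theorem glu_lin {M N : X.Modules} (hM : M.IsQuasicoherent) {A : X.Opens} (hA : IsAffineOpen A)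
    (f : Γ(M, A) →ₗ[Γ(X, A)] Γ(N, A)) (u : Γ(X, A)) {W : X.Opens} (hW : W = X.basicOpen u)
    (hWA : W ≤ A) (x : Γ(M, A)) (hx : rs M hWA x = 0) : rs N hWA (f x) = 0 := by
  obtain ⟨n, hn⟩ := loc_inj M hM hA u hW hWA x hx
  have h1 : u ^ n • f x = 0 := by rw [← f.map_smul, hn, f.map_zero]
  have h2 : rs N hWA (u ^ n • f x) = 0 := by rw [h1, glu_rs_zero]
  rw [glu_rs_smul, glu_rf_pow] at h2
  have hu := (glu_unit u hW hWA le_rfl).pow n
  refine glu_cancel N hu ?_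
  rw [smul_zero]
  exact h2

section Main

variable {U} (hU : ⨆ i, U i = ⊤) (hA : ∀ i, IsAffineOpen (U i))
    (hAA : ∀ i j, ∃ f : Γ(X, U i), U i ⊓ U j = X.basicOpen f)
    {M N : X.Modules} (hM : M.IsQuasicoherent)
    (ψ : ∀ l, Γ(M, U l) →ₗ[Γ(X, U l)] Γ(N, U l))
    (χ : ∀ l l', Γ(M, U l ⊓ U l') →ₗ[Γ(X, U l ⊓ U l')] Γ(N, U l ⊓ U l'))
    (h1 : ∀ l l' (m : Γ(M, U l)),
      rs N (V := U l ⊓ U l') inf_le_left (ψ l m) = χ l l' (rs M (V := U l ⊓ U l') inf_le_left m))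
    (h2 : ∀ l l' (m : Γ(M, U l')),
      rs N (V := U l ⊓ U l') inf_le_right (ψ l' m) = χ l l' (rs M (V := U l ⊓ U l') inf_le_right m))

include hA hAA hM h1 h2 in
theorem glu_compat {l l' : ι} (s : Γ(X, U l)) (s' : Γ(X, U l')) {D D' W : X.Opens}
    (hD : D = X.basicOpen s) (hD' : D' = X.basicOpen s') (hW : W = D ⊓ D')
    (h : W ≤ U l) (h' : W ≤ U l') (k k' : ℕ) (t : Γ(M, U l)) (t' : Γ(M, U l'))
    (m : Γ(M, W)) (n n' : Γ(N, W)) (e1 : rs M h t = rf h s ^ k • m)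
    (e2 : rs M h' t' = rf h' s' ^ k' • m) (e3 : rs N h (ψ l t) = rf h s ^ k • n)
    (e4 : rs N h' (ψ l' t') = rf h' s' ^ k' • n') : n = n' := by
  have hWA : W ≤ U l ⊓ U l' := le_inf h h'
  have hAff : IsAffineOpen (U l ⊓ U l') := by
    obtain ⟨f, hf⟩ := hAA l l'
    rw [hf]
    exact (hA l).basicOpen f
  have hWD : W ≤ D := hW ▸ inf_le_left
  have hWD' : W ≤ D' := hW ▸ inf_le_right
  have hu := glu_unit s hD (hD ▸ X.basicOpen_le s) hWD
  have hu' := glu_unit s' hD' (hD' ▸ X.basicOpen_le s') hWD'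
  set sA : Γ(X, U l ⊓ U l') := rf inf_le_left s with hsA
  set sA' : Γ(X, U l ⊓ U l') := rf inf_le_right s' with hsA'
  have hWb : W = X.basicOpen (sA * sA') := by
    rw [Scheme.basicOpen_mul, hsA, hsA']
    unfold rf
    rw [Scheme.basicOpen_res, Scheme.basicOpen_res, ← hD, ← hD', hW]
    apply le_antisymm
    · refine le_inf (le_inf (hW ▸ hWA) inf_le_left) (le_inf (hW ▸ hWA) inf_le_right)
    · exact le_inf (inf_le_left.trans inf_le_right) (inf_le_right.trans inf_le_right)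
  have hx : rs M hWA (sA' ^ k' • rs M inf_le_left t - sA ^ k • rs M inf_le_right t') = 0 := by
    rw [glu_rs_sub, glu_rs_smul, glu_rs_smul, glu_rs_rs, glu_rs_rs, glu_rf_pow, glu_rf_pow, hsA,
      hsA', glu_rf_rf, glu_rf_rf, e1, e2, smul_smul, smul_smul, mul_comm, sub_self]
  have hy := glu_lin (N := N) hM hAff (χ l l') _ hWb hWA _ hx
  rw [map_sub, map_smul, map_smul, ← h1, ← h2, glu_rs_sub, glu_rs_smul, glu_rs_smul, glu_rs_rs,
    glu_rs_rs, glu_rf_pow, glu_rf_pow, hsA, hsA', glu_rf_rf, glu_rf_rf, e3, e4, smul_smul,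
    smul_smul, sub_eq_zero, mul_comm] at hy
  exact glu_cancel N ((hu.pow k).mul (hu'.pow k')) hy

/-- `n` is the image of `m` -/
def GluE (ψ : ∀ l, Γ(M, U l) →ₗ[Γ(X, U l)] Γ(N, U l)) (V : X.Opens) (m : Γ(M, V))
    (n : Γ(N, V)) : Prop :=
  ∀ (l : ι) (s : Γ(X, U l)) (hs : X.basicOpen s ≤ V), ∃ (k : ℕ) (t : Γ(M, U l)),
    rs M (X.basicOpen_le s) t = rf (X.basicOpen_le s) s ^ k • rs M hs m ∧
    rs N (X.basicOpen_le s) (ψ l t) = rf (X.basicOpen_le s) s ^ k • rs N hs n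

include hA hAA hM h1 h2 in
/-- the images on one basic open agree -/
theorem glu_same {l : ι} (s : Γ(X, U l)) {k k' : ℕ} {t t' : Γ(M, U l)}
    {m : Γ(M, X.basicOpen s)} {n n' : Γ(N, X.basicOpen s)}
    (e1 : rs M (X.basicOpen_le s) t = rf (X.basicOpen_le s) s ^ k • m)
    (e2 : rs M (X.basicOpen_le s) t' = rf (X.basicOpen_le s) s ^ k' • m)
    (e3 : rs N (X.basicOpen_le s) (ψ l t) = rf (X.basicOpen_le s) s ^ k • n)
    (e4 : rs N (X.basicOpen_le s) (ψ l t') = rf (X.basicOpen_le s) s ^ k' • n') : n = n' :=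
  glu_compat hA hAA hM ψ χ h1 h2 s s rfl rfl (inf_idem _).symm _ _ k k' t t' m n n' e1 e2 e3 e4

include hU hA hAA hM h1 h2 in
theorem glu_unique {V : X.Opens} {m : Γ(M, V)} {n n' : Γ(N, V)} (h : GluE ψ V m n)
    (h' : GluE ψ V m n') : n = n' := by
  refine glu_ext N V (fun p : GluJ U V => X.basicOpen p.1.2) (fun p => p.2)
    (glu_cover U hU hA V) _ _ ?_
  rintro ⟨⟨l, s⟩, hs⟩
  obtain ⟨k, t, e1, e3⟩ := h l s hs
  obtain ⟨k', t', e2, e4⟩ := h' l s hs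
  exact glu_same hA hAA hM ψ χ h1 h2 s e1 e2 e3 e4

include hU hA hAA hM h1 h2 in
theorem glu_exists (V : X.Opens) (m : Γ(M, V)) : ∃ n, GluE ψ V m n := by
  have hex : ∀ p : GluJ U V, ∃ (k : ℕ) (t : Γ(M, U p.1.1)) (n : Γ(N, X.basicOpen p.1.2)),
      rs M (X.basicOpen_le p.1.2) t = rf (X.basicOpen_le p.1.2) p.1.2 ^ k • rs M p.2 m ∧
      rs N (X.basicOpen_le p.1.2) (ψ p.1.1 t) = rf (X.basicOpen_le p.1.2) p.1.2 ^ k • n := by
    rintro ⟨⟨l, s⟩, hs⟩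
    obtain ⟨k, t, ht⟩ := loc_surj M hM (hA l) s rfl (X.basicOpen_le s) (rs M hs m)
    obtain ⟨n, hn⟩ := glu_div N ((glu_unit s rfl (X.basicOpen_le s) le_rfl).pow k)
      (rs N (X.basicOpen_le s) (ψ l t))
    refine ⟨k, t, n, ?_, hn⟩
    rw [ht, glu_rf_pow]
  choose k t n e1 e2 using hex
  obtain ⟨n0, hn0⟩ := glu_glue N V (fun p : GluJ U V => X.basicOpen p.1.2) (fun p => p.2)
    (glu_cover U hU hA V) n (by
      intro p q
      refine glu_compat hA hAA hM ψ χ h1 h2 p.1.2 q.1.2 rfl rfl rfl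
        (inf_le_left.trans (X.basicOpen_le _)) (inf_le_right.trans (X.basicOpen_le _))
        (k p) (k q) (t p) (t q) (rs M (inf_le_left.trans p.2) m) _ _ ?_ ?_ ?_ ?_
      · rw [← glu_rs_rs M (X.basicOpen_le p.1.2) inf_le_left, e1, glu_rs_smul, glu_rf_pow,
          glu_rf_rf, glu_rs_rs]
      · rw [← glu_rs_rs M (X.basicOpen_le q.1.2) inf_le_right, e1, glu_rs_smul, glu_rf_pow,
          glu_rf_rf, glu_rs_rs]
      · rw [← glu_rs_rs N (X.basicOpen_le p.1.2) inf_le_left, e2, glu_rs_smul, glu_rf_pow,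
          glu_rf_rf]
      · rw [← glu_rs_rs N (X.basicOpen_le q.1.2) inf_le_right, e2, glu_rs_smul, glu_rf_pow,
          glu_rf_rf])
  refine ⟨n0, ?_⟩
  intro l s hs
  have h3 := hn0 ⟨⟨l, s⟩, hs⟩
  refine ⟨k ⟨⟨l, s⟩, hs⟩, t ⟨⟨l, s⟩, hs⟩, e1 ⟨⟨l, s⟩, hs⟩, ?_⟩
  rw [h3]
  exact e2 ⟨⟨l, s⟩, hs⟩

theorem GluE.add {V : X.Opens} {m m' : Γ(M, V)} {n n' : Γ(N, V)} (h : GluE ψ V m n)
    (h' : GluE ψ V m' n') : GluE ψ V (m + m') (n + n') := by
  intro l s hs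
  obtain ⟨k, t, e1, e3⟩ := h l s hs
  obtain ⟨k', t', e2, e4⟩ := h' l s hs
  refine ⟨k + k', s ^ k' • t + s ^ k • t', ?_, ?_⟩
  · rw [glu_rs_add, glu_rs_smul, glu_rs_smul, e1, e2, glu_rf_pow, glu_rf_pow, glu_rs_add,
      smul_smul, smul_smul, ← pow_add, ← pow_add, smul_add, add_comm k' k]
  · rw [map_add, map_smul, map_smul, glu_rs_add, glu_rs_smul, glu_rs_smul, e3, e4, glu_rf_pow,
      glu_rf_pow, glu_rs_add, smul_smul, smul_smul, ← pow_add, ← pow_add, smul_add, add_comm k' k]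

include hA in
theorem GluE.smul {V : X.Opens} {m : Γ(M, V)} {n : Γ(N, V)} (r : Γ(X, V)) (h : GluE ψ V m n) :
    GluE ψ V (r • m) (r • n) := by
  intro l s hs
  obtain ⟨k, t, e1, e3⟩ := h l s hs
  obtain ⟨j, a, ha⟩ := loc_surj_fun (hA l) s rfl (X.basicOpen_le s) (rf hs r)
  refine ⟨k + j, a • t, ?_, ?_⟩
  · rw [glu_rs_smul, ha, e1, glu_rs_smul, smul_smul, smul_smul, glu_rf_pow, pow_add]
    congr 1
    ring
  · rw [map_smul, glu_rs_smul, ha, e3, glu_rs_smul, smul_smul, smul_smul, glu_rf_pow, pow_add]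
    congr 1
    ring

theorem GluE.res {V V' : X.Opens} (hV : V' ≤ V) {m : Γ(M, V)} {n : Γ(N, V)} (h : GluE ψ V m n) :
    GluE ψ V' (rs M hV m) (rs N hV n) := by
  intro l s hs
  obtain ⟨k, t, e1, e3⟩ := h l s (hs.trans hV)
  refine ⟨k, t, ?_, ?_⟩
  · rw [e1, glu_rs_rs]
  · rw [e3, glu_rs_rs]

include hA hAA hM h1 h2 in
theorem GluE.base (l : ι) (m : Γ(M, U l)) : GluE ψ (U l) m (ψ l m) := by
  intro l' s hs
  obtain ⟨k, t, ht⟩ := loc_surj M hM (hA l') s rfl (X.basicOpen_le s) (rs M hs m)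
  obtain ⟨n, hn⟩ := glu_div N ((glu_unit s rfl (X.basicOpen_le s) le_rfl).pow k)
    (rs N (X.basicOpen_le s) (ψ l' t))
  rw [glu_rf_pow] at ht
  refine ⟨k, t, ht, ?_⟩
  rw [hn]
  congr 1
  refine glu_compat hA hAA hM ψ χ h1 h2 s (1 : Γ(X, U l)) (D' := U l) rfl ?_ ?_
    (X.basicOpen_le s) hs k 0 t m (rs M hs m) _ _ ht ?_ hn ?_
  · rw [Scheme.basicOpen_of_isUnit X isUnit_one]
  · exact (inf_eq_left.2 hs).symm
  · rw [pow_zero, one_smul]
  · rw [pow_zero, one_smul]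

end Main

theorem glue_hom (hU : ⨆ i, U i = ⊤) (hA : ∀ i, IsAffineOpen (U i))
    (hAA : ∀ i j, ∃ f : Γ(X, U i), U i ⊓ U j = X.basicOpen f)
    {M N : X.Modules} (hM : M.IsQuasicoherent)
    (ψ : ∀ l, Γ(M, U l) →ₗ[Γ(X, U l)] Γ(N, U l))
    (χ : ∀ l l', Γ(M, U l ⊓ U l') →ₗ[Γ(X, U l ⊓ U l')] Γ(N, U l ⊓ U l'))
    (h1 : ∀ l l' (m : Γ(M, U l)),
      rs N (V := U l ⊓ U l') inf_le_left (ψ l m) = χ l l' (rs M (V := U l ⊓ U l') inf_le_left m))
    (h2 : ∀ l l' (m : Γ(M, U l')),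
      rs N (V := U l ⊓ U l') inf_le_right (ψ l' m) = χ l l' (rs M (V := U l ⊓ U l') inf_le_right m)) :
    ∃ φ : M ⟶ N, ∀ l (m : Γ(M, U l)), φ.app (U l) m = ψ l m := by
  choose F hF using fun (V : X.Opens) (m : Γ(M, V)) =>
    glu_exists hU hA hAA hM ψ χ h1 h2 V m
  have huniq : ∀ {V : X.Opens} {m : Γ(M, V)} {n : Γ(N, V)}, GluE ψ V m n → F V m = n := by
    intro V m n hn
    exact glu_unique hU hA hAA hM ψ χ h1 h2 (hF V m) hn
  have hadd : ∀ (V : X.Opens) (m m' : Γ(M, V)), F V (m + m') = F V m + F V m' := fun V m m' =>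
    huniq ((hF V m).add ψ (hF V m'))
  have hsmul : ∀ (V : X.Opens) (r : Γ(X, V)) (m : Γ(M, V)), F V (r • m) = r • F V m :=
    fun V r m => huniq ((hF V m).smul hA ψ r)
  have hres : ∀ {V V' : X.Opens} (h : V' ≤ V) (m : Γ(M, V)),
      F V' (rs M h m) = rs N h (F V m) := fun {V V'} h m => huniq ((hF V m).res ψ h)
  let φ : M ⟶ N := ⟨fun V ↦ ModuleCat.ofHom
    ⟨⟨fun m => F V.unop m, fun m m' => hadd V.unop m m'⟩, fun r m => hsmul V.unop r m⟩,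
    fun {V V'} i ↦ by
      ext m
      exact hres (leOfHom i.unop) m⟩
  refine ⟨φ, ?_⟩
  intro l m
  exact huniq (GluE.base hA hAA hM ψ χ h1 h2 l m)

end Pool.H33.P
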