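import Mathlib
import Pool.Agent.H33.P.Def

/-! # LZ: local nature of zero objects, monomorphisms, epimorphisms, exactness in `X.Modules`

`isZero_of_cover`: sections of a sheaf over `V` are determined by their restrictions to `V ⊓ U i`
(`Scheme.Modules.isSheaf`, `TopCat.Sheaf.eq_of_locally_eq'`), and `Γ(M.restrict (U i).ι, W) = Γ(M, (U i).ι ''ᵁ W)`.
The other statements follow since the restriction functors are exact (instances in `Def.lean`):
apply `isZero_of_cover` to kernel, cokernel, homology. -/

open CategoryTheory AlgebraicGeometry Limits TopologicalSpace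

namespace Pool.H33.P

variable {X : Scheme.{0}} {ι : Type} (U : ι → X.Opens) (hU : ⨆ i, U i = ⊤)
include hU

theorem isZero_of_cover (M : X.Modules) (h : ∀ i, IsZero (M.restrict (U i).ι)) : IsZero M := by
  rw [IsZero.iff_id_eq_zero]
  apply Scheme.Modules.hom_ext
  intro V
  ext m
  change m = 0
  let F : TopCat.Sheaf Ab X := ⟨M.presheaf, M.isSheaf⟩
  let W : ι → X.Opens := fun i => (U i).ι ''ᵁ ((U i).ι ⁻¹ᵁ V)
  have hW : ∀ i, W i = U i ⊓ V := fun i => by
    change (U i).ι ''ᵁ ((U i).ι ⁻¹ᵁ V) = _
    rw [Scheme.Hom.image_preimage_eq_opensRange_inf, Scheme.Opens.opensRange_ι]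
  refine F.eq_of_locally_eq' W V (fun i => homOfLE (by rw [hW]; exact inf_le_right)) ?_ _ _ fun i => ?_
  · intro x hx
    have : x ∈ (⨆ i, U i : X.Opens) := by rw [hU]; trivial
    obtain ⟨i, hi⟩ := Opens.mem_iSup.1 this
    exact Opens.mem_iSup.2 ⟨i, by rw [hW]; exact ⟨hi, hx⟩⟩
  · have key : ∀ s : Γ(M, W i), s = 0 := by
      intro s
      have e : (𝟙 (M.restrict (U i).ι) : _ ⟶ _) = 0 := (IsZero.iff_id_eq_zero _).1 (h i)
      have e' := congrArg (fun f => Scheme.Modules.Hom.app f ((U i).ι ⁻¹ᵁ V) s) e
      exact e'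
    exact (key _).trans (key _).symm

theorem epi_of_cover {M N : X.Modules} (f : M ⟶ N)
    (h : ∀ i, Epi ((Scheme.Modules.restrictFunctor (U i).ι).map f)) : Epi f := by
  refine Preadditive.epi_of_isZero_cokernel f (isZero_of_cover U hU _ fun i => ?_)
  have := h i
  have e : (Scheme.Modules.restrictFunctor (U i).ι).obj (cokernel f) ≅
      cokernel ((Scheme.Modules.restrictFunctor (U i).ι).map f) :=
    PreservesCokernel.iso (Scheme.Modules.restrictFunctor (U i).ι) f
  exact (isZero_cokernel_of_epi _).of_iso e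

theorem mono_of_cover {M N : X.Modules} (f : M ⟶ N)
    (h : ∀ i, Mono ((Scheme.Modules.restrictFunctor (U i).ι).map f)) : Mono f := by
  refine Preadditive.mono_of_isZero_kernel f (isZero_of_cover U hU _ fun i => ?_)
  have := h i
  have e : (Scheme.Modules.restrictFunctor (U i).ι).obj (kernel f) ≅
      kernel ((Scheme.Modules.restrictFunctor (U i).ι).map f) :=
    PreservesKernel.iso (Scheme.Modules.restrictFunctor (U i).ι) f
  exact (isZero_kernel_of_mono _).of_iso e

theorem isIso_of_cover {M N : X.Modules} (f : M ⟶ N)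
    (h : ∀ i, IsIso ((Scheme.Modules.restrictFunctor (U i).ι).map f)) : IsIso f := by
  have h1 : Mono f := mono_of_cover U hU f fun i => by have := h i; infer_instance
  have h2 : Epi f := epi_of_cover U hU f fun i => by have := h i; infer_instance
  exact isIso_of_mono_of_epi f

theorem exact_of_cover (S : ShortComplex X.Modules)
    (h : ∀ i, (S.map (Scheme.Modules.restrictFunctor (U i).ι)).Exact) : S.Exact := by
  rw [ShortComplex.exact_iff_isZero_homology]
  refine isZero_of_cover U hU _ fun i => ?_
  have h1 := (ShortComplex.exact_iff_isZero_homology _).1 (h i)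
  exact h1.of_iso (S.mapHomologyIso (Scheme.Modules.restrictFunctor (U i).ι)).symm

end Pool.H33.P
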