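import Mathlib
import Pool.Agent.H33.P.Def

/-! # PTR0: epimorphisms of modules are locally surjective; local lifting of maps from finite free modules -/

open CategoryTheory AlgebraicGeometry Limits TopologicalSpace Opposite

namespace Pool.H33.P

variable {X : Scheme.{0}}

theorem epi_locally_surj {B C : X.Modules} (g : B ⟶ C) [Epi g] (V : X.Opens) (s : Γ(C, V))
    (x : X) (hx : x ∈ V) : ∃ (W : X.Opens) (h : W ≤ V) (t : Γ(B, W)), x ∈ W ∧ g.app W t = rs C h s := by
  let α := 𝟙 X.ringCatSheaf.obj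
  let adj := PresheafOfModules.sheafificationAdjunction.{0} α
  let F : SheafOfModules.{0} X.ringCatSheaf ⥤ PresheafOfModules.{0} X.ringCatSheaf.obj :=
    SheafOfModules.forget _ ⋙ PresheafOfModules.restrictScalars α
  let B0 : SheafOfModules.{0} X.ringCatSheaf := B
  let C0 : SheafOfModules.{0} X.ringCatSheaf := C
  let g0 : B0 ⟶ C0 := g
  have hg0 : Epi g0 := inferInstanceAs (Epi g)
  have hc : IsIso adj.counit :=
    inferInstanceAs (IsIso (PresheafOfModules.sheafificationAdjunction.{0} α).counit)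
  have hc' : ∀ Y, IsIso (adj.counit.app Y) := fun Y => inferInstance
  let f' : F.obj B0 ⟶ F.obj C0 := F.map g0
  let q := cokernel.π f'
  have e1 : Epi ((PresheafOfModules.sheafification.{0} α).map f') := by
    have h1 : (PresheafOfModules.sheafification.{0} α).map f' ≫ adj.counit.app C0 = adj.counit.app B0 ≫ g0 :=
      adj.counit.naturality g0
    have h2 : Epi ((PresheafOfModules.sheafification.{0} α).map f' ≫ adj.counit.app C0) := by
      rw [h1]
      have := hc' B0
      exact epi_comp (adj.counit.app B0) g0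
    have h3 : (PresheafOfModules.sheafification.{0} α).map f' =
      ((PresheafOfModules.sheafification.{0} α).map f' ≫ adj.counit.app C0) ≫ inv (adj.counit.app C0) := by
      rw [Category.assoc, IsIso.hom_inv_id, Category.comp_id]
    rw [h3]
    exact epi_comp _ _
  have e2 : (PresheafOfModules.sheafification.{0} α).map q = 0 := by
    rw [← cancel_epi ((PresheafOfModules.sheafification.{0} α).map f'), ← Functor.map_comp,
      cokernel.condition, Functor.map_zero, comp_zero]
  have e3 : q ≫ adj.unit.app (cokernel f') = 0 := by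
    have := adj.unit.naturality q
    refine Eq.trans this ?_
    change _ ≫ F.map ((PresheafOfModules.sheafification.{0} α).map q) = 0
    rw [e2]
    have : F.map (0 : (PresheafOfModules.sheafification.{0} α).obj (F.obj C0) ⟶
      (PresheafOfModules.sheafification.{0} α).obj (cokernel f')) = 0 := rfl
    rw [this, comp_zero]
  have e4 : (PresheafOfModules.toPresheaf _).map q ≫
      CategoryTheory.toSheafify (Opens.grothendieckTopology X) (cokernel f').presheaf = 0 := by
    have := congrArg (PresheafOfModules.toPresheaf _).map e3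
    rw [Functor.map_comp] at this
    refine Eq.trans this ?_
    exact Functor.map_zero _ _ _
  let s' : (F.obj C0).presheaf.obj (op V) := s
  let z : (cokernel f').presheaf.obj (op V) := ((PresheafOfModules.toPresheaf _).map q).app (op V) s'
  have e5 : (CategoryTheory.toSheafify (Opens.grothendieckTopology X) (cokernel f').presheaf).app (op V) z = 0 := by
    have := congrArg (fun φ => φ.app (op V) s') e4
    exact this
  have e6 := Presheaf.equalizerSieve_mem (Opens.grothendieckTopology X)
    (CategoryTheory.toSheafify (Opens.grothendieckTopology X) (cokernel f').presheaf) z 0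
      (by rw [e5, map_zero])
  obtain ⟨W, i, hi, hxW⟩ := e6 x hx
  refine ⟨W, leOfHom i, ?_⟩
  have e7 : (cokernel f').presheaf.map i.op z = 0 := by
    have h := hi
    simp only [Presheaf.equalizerSieve_apply, map_zero] at h
    exact h
  have hex : ((ShortComplex.mk f' q (cokernel.condition f')).map
      (PresheafOfModules.evaluation.{0} X.ringCatSheaf.obj (op W))).Exact :=
    (ShortComplex.exact_cokernel f').map _
  rw [ShortComplex.moduleCat_exact_iff] at hex
  obtain ⟨t, ht⟩ := hex ((F.obj C0).presheaf.map i.op s') (by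
    have h8 := ConcreteCategory.congr_hom (((PresheafOfModules.toPresheaf _).map q).naturality i.op) s'
    exact h8.trans e7)
  exact ⟨t, hxW, ht⟩
/-- the structure sheaf -/
noncomputable def ptr0_O (X : Scheme.{0}) : X.Modules := SheafOfModules.unit X.ringCatSheaf

/-- the free module -/
noncomputable def ptr0_F (X : Scheme.{0}) (m : ℕ) : X.Modules :=
  SheafOfModules.free (R := X.ringCatSheaf) (Fin m)

/-- the inclusions into a free module -/
noncomputable def ptr0_in (X : Scheme.{0}) (m : ℕ) (i : Fin m) : ptr0_O X ⟶ ptr0_F X m :=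
  SheafOfModules.ιFree (R := X.ringCatSheaf) i

theorem ptr0_free_ext {m : ℕ} {M : X.Modules}
    {f g : ptr0_F X m ⟶ M}
    (h : ∀ i, ptr0_in X m i ≫ f = ptr0_in X m i ≫ g) : f = g :=
  Sigma.hom_ext (C := SheafOfModules X.ringCatSheaf) f g h

theorem ptr0_free_desc {m : ℕ} {M : X.Modules}
    (ψ : ∀ _ : Fin m, ptr0_O X ⟶ M) :
    ∃ f : ptr0_F X m ⟶ M,
      ∀ i, ptr0_in X m i ≫ f = ψ i :=
  ⟨Sigma.desc (C := SheafOfModules X.ringCatSheaf) ψ,
    fun i => Sigma.ι_desc (C := SheafOfModules X.ringCatSheaf) ψ i⟩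

/-- the section `1` -/
def ptr0_one (X : Scheme.{0}) (V : X.Opens) : Γ(ptr0_O X, V) :=
  (1 : Γ(X, V))

theorem ptr0_rs_one {V W : X.Opens} (h : V ≤ W) :
    rs (ptr0_O X) h (ptr0_one X W) = ptr0_one X V :=
  map_one (X.presheaf.map (homOfLE h).op).hom

theorem ptr0_unit_hom (M : X.Modules) (s : Γ(M, ⊤)) :
    ∃ φ : ptr0_O X ⟶ M, φ.app ⊤ (ptr0_one X ⊤) = s := by
  let σ : SheafOfModules.sections (show SheafOfModules X.ringCatSheaf from M) :=
    PresheafOfModules.sectionsMk (fun V => rs M (V := V.unop) le_top s) (by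
      intro V W f
      change M.presheaf.map f (M.presheaf.map _ s) = M.presheaf.map _ s
      rw [← ConcreteCategory.comp_apply, ← Functor.map_comp]
      rfl)
  refine ⟨(SheafOfModules.unitHomEquiv _).symm σ, ?_⟩
  have h := SheafOfModules.unitHomEquiv_apply_coe (show SheafOfModules X.ringCatSheaf from M)
    ((SheafOfModules.unitHomEquiv _).symm σ) (op ⊤)
  rw [Equiv.apply_symm_apply] at h
  refine Eq.trans h.symm ?_
  change M.presheaf.map _ s = s
  have : M.presheaf.map (𝟙 (op ⊤)) s = s := by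
    rw [M.presheaf.map_id]; rfl
  exact this

theorem ptr0_unit_ext {M : X.Modules}
    {f g : ptr0_O X ⟶ M}
    (h : f.app ⊤ (ptr0_one X ⊤) = g.app ⊤ (ptr0_one X ⊤)) : f = g := by
  apply (SheafOfModules.unitHomEquiv (show SheafOfModules X.ringCatSheaf from M)).injective
  apply PresheafOfModules.sections_ext
  intro V
  have key : ∀ φ : ptr0_O X ⟶ M,
      φ.app V.unop (ptr0_one X V.unop) = rs M le_top (φ.app ⊤ (ptr0_one X ⊤)) := by
    intro φ
    rw [← ptr0_rs_one (X := X) (le_top : V.unop ≤ ⊤)]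
    exact ConcreteCategory.congr_hom (φ.mapPresheaf.naturality (homOfLE (le_top : V.unop ≤ ⊤)).op)
      (ptr0_one X ⊤)
  exact (key f).trans ((congrArg _ h).trans (key g).symm)

/-- the restriction of the structure sheaf -/
noncomputable def ptr0_rO (W : X.Opens) : (ptr0_O X).restrict W.ι ≅ ptr0_O (W : Scheme.{0}) :=
  Scheme.Modules.restrictUnitIso W.ι

theorem ptr0_rO_one (W : X.Opens) : (ptr0_rO W).inv.app ⊤ (ptr0_one (W : Scheme.{0}) ⊤) =
    ptr0_one X (W.ι ''ᵁ ⊤) :=
  map_one (W.ι.appIso ⊤).inv.hom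

/-- lift the finitely many basis sections -/
theorem lift_free_local {B C : X.Modules} (g : B ⟶ C) [Epi g] (m : ℕ)
    (f : (SheafOfModules.free (R := X.ringCatSheaf) (Fin m) : X.Modules) ⟶ C) (x : X) :
    ∃ (W : X.Opens) (t : (Scheme.Modules.restrictFunctor W.ι).obj
        (SheafOfModules.free (R := X.ringCatSheaf) (Fin m) : X.Modules) ⟶
        (Scheme.Modules.restrictFunctor W.ι).obj B), x ∈ W ∧
      t ≫ (Scheme.Modules.restrictFunctor W.ι).map g = (Scheme.Modules.restrictFunctor W.ι).map f := by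
  let f0 : ptr0_F X m ⟶ C := f
  have h1 : ∀ i : Fin m, ∃ (W : X.Opens) (h : W ≤ ⊤) (t : Γ(B, W)), x ∈ W ∧
      g.app W t = rs C h ((ptr0_in X m i ≫ f0).app ⊤ (ptr0_one X ⊤)) := fun i =>
    epi_locally_surj g ⊤ _ x trivial
  choose W0 hW0 t0 hx0 ht0 using h1
  let W : X.Opens := Finset.univ.inf W0
  have hxW : x ∈ W := by
    change x ∈ ((Finset.univ.inf W0 : X.Opens) : Set X)
    rw [Opens.coe_finset_inf]
    simp only [Finset.inf_eq_iInf, Function.comp_apply, Finset.mem_univ, iInf_pos, Set.iInf_eq_iInter,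
      Set.mem_iInter]
    exact hx0
  have hW : ∀ i, W ≤ W0 i := fun i => Finset.inf_le (Finset.mem_univ i)
  have hW' : ∀ i, W.ι ''ᵁ ⊤ ≤ W0 i := fun i => by
    rw [Scheme.Opens.ι_image_top]; exact hW i
  have h2 : ∀ i : Fin m, ∃ φ : ptr0_O (W : Scheme.{0}) ⟶ B.restrict W.ι,
      φ.app ⊤ (ptr0_one (W : Scheme.{0}) ⊤) = (rs B (hW' i) (t0 i) : Γ(B, W.ι ''ᵁ ⊤)) := fun i =>
    ptr0_unit_hom (B.restrict W.ι) _
  choose ψ hψ using h2
  let adj := Scheme.Modules.restrictAdjunction W.ι
  obtain ⟨k, hk⟩ := ptr0_free_desc (M := (Scheme.Modules.pushforward W.ι).obj (B.restrict W.ι))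
    (fun i => (adj.homEquiv (ptr0_O X) (B.restrict W.ι)) ((ptr0_rO W).hom ≫ ψ i))
  have key : ((adj.homEquiv (ptr0_F X m) (B.restrict W.ι)).symm k) ≫
      (Scheme.Modules.restrictFunctor W.ι).map g = (Scheme.Modules.restrictFunctor W.ι).map f0 := by
    apply (adj.homEquiv _ _).injective
    rw [adj.homEquiv_naturality_right, Equiv.apply_symm_apply]
    apply ptr0_free_ext
    intro i
    rw [← Category.assoc, hk i, ← adj.homEquiv_naturality_right, ← adj.homEquiv_naturality_left]
    congr 1
    rw [← Functor.map_comp, Category.assoc, ← cancel_epi (ptr0_rO W).inv, Iso.inv_hom_id_assoc]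
    apply ptr0_unit_ext
    change g.app (W.ι ''ᵁ ⊤) ((ψ i).app ⊤ (ptr0_one _ ⊤)) =
      (ptr0_in X m i ≫ f0).app (W.ι ''ᵁ ⊤) ((ptr0_rO W).inv.app ⊤ (ptr0_one _ ⊤))
    rw [hψ i, ptr0_rO_one, ← ptr0_rs_one (X := X) (le_top : W.ι ''ᵁ ⊤ ≤ ⊤)]
    have n1 : ∀ {M N : X.Modules} (φ : M ⟶ N) {V V' : X.Opens} (h : V ≤ V') (s : Γ(M, V')),
        φ.app V (rs M h s) = rs N h (φ.app V' s) := by
      intro M N φ V V' h s
      exact ConcreteCategory.congr_hom (φ.mapPresheaf.naturality (homOfLE h).op) s
    rw [n1, n1, ht0 i]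
    change C.presheaf.map _ (C.presheaf.map _ _) = C.presheaf.map _ _
    rw [← ConcreteCategory.comp_apply, ← Functor.map_comp]
    rfl
  exact ⟨W, _, hxW, key⟩

end Pool.H33.P
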