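import Mathlib
import Pool.Agent.H33.P.Def
import Pool.Agent.H33.P.LZ
import Pool.Agent.H33.P.QCK
import Pool.Agent.H33.P.LOCM
import Pool.Agent.H33.P.PTR0

/-! # QSP: exactness of sequences of quasi-coherent modules and of their sections over affine opens -/

open CategoryTheory AlgebraicGeometry Limits TopologicalSpace

namespace Pool.H33.P

variable {X : Scheme.{0}}

theorem qsp_rs_app {M N : X.Modules} (g : M ⟶ N) {U V : X.Opens} (h : V ≤ U) (m : Γ(M, U)) :
    rs N h (g.app U m) = g.app V (rs M h m) :=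
  (NatTrans.naturality_apply g.mapPresheaf (homOfLE h).op m).symm

theorem qsp_rs_sub (M : X.Modules) {U V : X.Opens} (h : V ≤ U) (m m' : Γ(M, U)) :
    rs M h (m - m') = rs M h m - rs M h m' := map_sub _ _ _

theorem qsp_unit {U V : X.Opens} (hVU : V ≤ U) (a : Γ(X, U)) (hV : V = X.basicOpen a) :
    IsUnit (rf hVU a) := by
  subst hV
  exact RingedSpace.isUnit_res_basicOpen _ a

theorem qsp_basic {U : X.Opens} (hU : IsAffineOpen U) {W : X.Opens} {x : X} (hxU : x ∈ U)
    (hxW : x ∈ W) : ∃ a : Γ(X, U), X.basicOpen a ≤ W ∧ x ∈ X.basicOpen a :=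
  hU.exists_basicOpen_le ⟨x, hxW⟩ hxU

/-- epimorphisms of quasi-coherent modules are surjective on sections over affine opens -/
theorem qsp_surj {M N : X.Modules} (g : M ⟶ N) [Epi g] (hM : M.IsQuasicoherent)
    (hN : N.IsQuasicoherent) {V : X.Opens} (hV : IsAffineOpen V) :
    Function.Surjective (g.app V) := by
  intro s
  let J : Ideal Γ(X, V) :=
    { carrier := {a | ∃ m, g.app V m = a • s}
      add_mem' := by
        rintro a b ⟨m, hm⟩ ⟨n, hn⟩
        exact ⟨m + n, by rw [map_add, hm, hn, add_smul]⟩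
      zero_mem' := ⟨0, by rw [map_zero, zero_smul]⟩
      smul_mem' := by
        rintro a b ⟨m, hm⟩
        exact ⟨a • m, by rw [Scheme.Modules.Hom.app_smul, hm, smul_smul]; rfl⟩ }
  have hJ : V ≤ ⨆ f : (J.radical : Set Γ(X, V)), X.basicOpen f.1 := by
    intro x hx
    obtain ⟨W, hW, t, hxW, ht⟩ := epi_locally_surj g V s x hx
    obtain ⟨a, haW, hxa⟩ := qsp_basic hV hx hxW
    have haV : X.basicOpen a ≤ V := X.basicOpen_le a
    obtain ⟨n, t', ht'⟩ := loc_surj M hM hV a rfl haV (rs M haW t)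
    have h1 : rs N haV (g.app V t' - a ^ n • s) = 0 := by
      rw [qsp_rs_sub, qsp_rs_app, ht', Scheme.Modules.Hom.app_smul, ← qsp_rs_app, ht, locm_rs_rs,
        locm_rs_smul, sub_self]
    obtain ⟨m, hm⟩ := loc_inj N hN hV a rfl haV _ h1
    have h2 : a ^ (m + n) ∈ J := by
      refine ⟨a ^ m • t', ?_⟩
      rw [smul_sub, sub_eq_zero, smul_smul, ← pow_add] at hm
      rw [Scheme.Modules.Hom.app_smul, hm]
    have h3 : a ∈ J.radical := ⟨m + n, h2⟩
    exact (le_iSup (fun f : (J.radical : Set Γ(X, V)) => X.basicOpen f.1) ⟨a, h3⟩) hxa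
  rw [hV.self_le_iSup_basicOpen_iff, Ideal.span_eq, Ideal.radical_eq_top, Ideal.eq_top_iff_one]
    at hJ
  obtain ⟨m, hm⟩ := hJ
  exact ⟨m, by rw [hm, one_smul]⟩

theorem qsp_inj {M N : X.Modules} (f : M ⟶ N) [Mono f] (V : X.Opens) :
    Function.Injective (f.app V) := by
  rw [injective_iff_map_eq_zero]
  intro m hm
  obtain ⟨k, hk⟩ := ((sec_kernel f V).2 m).1 hm
  rw [← hk, kernel.ι_of_mono f]
  rfl

/-- sections over an affine open are exact on quasi-coherent modules -/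
theorem sec_exact {S : ShortComplex X.Modules} (hS : S.ShortExact) (h1 : S.X₁.IsQuasicoherent)
    (h2 : S.X₂.IsQuasicoherent) (h3 : S.X₃.IsQuasicoherent) {V : X.Opens} (hV : IsAffineOpen V) :
    Function.Injective (S.f.app V) ∧ Function.Exact (S.f.app V) (S.g.app V) ∧
      Function.Surjective (S.g.app V) := by
  have := hS.mono_f
  have := hS.epi_g
  refine ⟨qsp_inj _ _, ?_, qsp_surj _ h2 h3 hV⟩
  intro m
  constructor
  · intro hm
    obtain ⟨k, hk⟩ := ((sec_kernel S.g V).2 m).1 hm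
    obtain ⟨l, hl⟩ : ∃ l : kernel S.g ⟶ S.X₁, l ≫ S.f = kernel.ι S.g :=
      ⟨hS.fIsKernel.lift (KernelFork.ofι (kernel.ι S.g) (kernel.condition S.g)),
        hS.fIsKernel.fac (KernelFork.ofι (kernel.ι S.g) (kernel.condition S.g))
          WalkingParallelPair.zero⟩
    refine ⟨l.app V k, ?_⟩
    have h4 : (l ≫ S.f).app V k = m := by rw [hl, hk]
    exact h4
  · rintro ⟨k, rfl⟩
    have h : (S.f ≫ S.g).app V k = 0 := by
      rw [S.zero]
      rfl
    exact h

theorem isZero_of_sec {ι : Type} (U : ι → X.Opens) (hU : ⨆ i, U i = ⊤)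
    (hA : ∀ i, IsAffineOpen (U i)) (M : X.Modules) (hM : M.IsQuasicoherent)
    (h : ∀ i, Subsingleton Γ(M, U i)) : IsZero M := by
  have key : ∀ (W : X.Opens) (s : Γ(M, W)), s = 0 := by
    intro W s
    let κ := {V : X.Opens // V ≤ W ∧ ∃ i, ∃ a : Γ(X, U i), V = X.basicOpen a}
    refine TopCat.Sheaf.eq_of_locally_eq' ⟨M.presheaf, M.isSheaf⟩ (fun V : κ => V.1) W
      (fun V => homOfLE V.2.1) ?_ s 0 ?_
    · intro x hx
      obtain ⟨i, hi⟩ : ∃ i, x ∈ U i := by
        have hx' : x ∈ (⨆ i, U i : X.Opens) := by rw [hU]; trivial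
        exact TopologicalSpace.Opens.mem_iSup.mp hx'
      obtain ⟨a, haW, hxa⟩ := qsp_basic (hA i) hi hx
      exact (le_iSup (fun V : κ => V.1) ⟨X.basicOpen a, haW, i, a, rfl⟩) hxa
    · rintro ⟨V, hVW, i, a, hV⟩
      have hVU : V ≤ U i := hV ▸ X.basicOpen_le a
      show rs M hVW s = rs M hVW 0
      obtain ⟨n, t, ht⟩ := loc_surj M hM (hA i) a hV hVU (rs M hVW s)
      have ht0 : t = 0 := (h i).elim _ _
      have h0 : rs M hVU (0 : Γ(M, U i)) = 0 := map_zero _
      have h0' : rs M hVW (0 : Γ(M, W)) = 0 := map_zero _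
      rw [ht0, h0] at ht
      have hu : IsUnit (rf hVU (a ^ n)) := by
        have : rf hVU (a ^ n) = (rf hVU a) ^ n := map_pow _ _ _
        rw [this]
        exact (qsp_unit hVU a hV).pow n
      rw [h0']
      exact (hu.smul_eq_zero).mp ht.symm
  rw [IsZero.iff_id_eq_zero]
  ext W s
  exact key W s

theorem epi_of_sec {ι : Type} (U : ι → X.Opens) (hU : ⨆ i, U i = ⊤)
    (hA : ∀ i, IsAffineOpen (U i)) {M N : X.Modules} (f : M ⟶ N) (hM : M.IsQuasicoherent)
    (hN : N.IsQuasicoherent) (h : ∀ i, Function.Surjective (f.app (U i))) : Epi f := by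
  have hc := qc_cokernel f hM hN
  refine Preadditive.epi_of_isZero_cokernel f (isZero_of_sec U hU hA _ hc fun i => ?_)
  have hs : ∀ x : Γ(cokernel f, U i), x = 0 := by
    intro x
    obtain ⟨y, rfl⟩ := qsp_surj (cokernel.π f) hN hc (hA i) x
    obtain ⟨z, rfl⟩ := h i y
    have h1 : (f ≫ cokernel.π f).app (U i) z = 0 := by
      rw [cokernel.condition]
      rfl
    exact h1
  exact ⟨fun a b => by rw [hs a, hs b]⟩

theorem mono_of_sec {ι : Type} (U : ι → X.Opens) (hU : ⨆ i, U i = ⊤)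
    (hA : ∀ i, IsAffineOpen (U i)) {M N : X.Modules} (f : M ⟶ N) (hM : M.IsQuasicoherent)
    (hN : N.IsQuasicoherent) (h : ∀ i, Function.Injective (f.app (U i))) : Mono f := by
  have hc := qc_kernel f hM hN
  refine Preadditive.mono_of_isZero_kernel f (isZero_of_sec U hU hA _ hc fun i => ?_)
  have hs : ∀ x : Γ(kernel f, U i), x = 0 := by
    intro x
    apply (sec_kernel f (U i)).1
    apply h i
    rw [((sec_kernel f (U i)).2 _).2 ⟨x, rfl⟩, map_zero, map_zero]
  exact ⟨fun a b => by rw [hs a, hs b]⟩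

theorem shortExact_of_sec {ι : Type} (U : ι → X.Opens) (hU : ⨆ i, U i = ⊤)
    (hA : ∀ i, IsAffineOpen (U i)) (S : ShortComplex X.Modules) (h1 : S.X₁.IsQuasicoherent)
    (h2 : S.X₂.IsQuasicoherent) (h3 : S.X₃.IsQuasicoherent) (h : SecExact U S) : S.ShortExact := by
  have hm : Mono S.f := mono_of_sec U hU hA S.f h1 h2 (fun i => (h i).1)
  have he : Epi S.g := epi_of_sec U hU hA S.g h2 h3 (fun i => (h i).2.2)
  refine ⟨?_⟩
  rw [ShortComplex.exact_iff_epi_kernel_lift]
  refine epi_of_sec U hU hA _ h1 (qc_kernel S.g h2 h3) (fun i => ?_)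
  intro k
  have hk : S.g.app (U i) ((kernel.ι S.g).app (U i) k) = 0 :=
    ((sec_kernel S.g (U i)).2 _).2 ⟨k, rfl⟩
  obtain ⟨a, ha⟩ := ((h i).2.1 _).1 hk
  refine ⟨a, (sec_kernel S.g (U i)).1 ?_⟩
  rw [← ha]
  have h4 : (kernel.lift S.g S.f S.zero ≫ kernel.ι S.g).app (U i) a = S.f.app (U i) a := by
    rw [kernel.lift_ι]
  exact h4

end Pool.H33.P
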