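import Mathlib
import Pool.Agent.H33.P.Def

/-! # SEC: cocycles and sections -/

open CategoryTheory AlgebraicGeometry Limits TopologicalSpace

namespace Pool.H33.P

variable {X : Scheme.{0}} (T : ToricData X)

theorem sec_rf_mul {U V : X.Opens} (h : V ≤ U) (f g : Γ(X, U)) :
    rf h (f * g) = rf h f * rf h g :=
  map_mul (X.presheaf.map (homOfLE h).op).hom f g

theorem sec_rf_one {U V : X.Opens} (h : V ≤ U) : rf h (1 : Γ(X, U)) = 1 :=
  map_one (X.presheaf.map (homOfLE h).op).hom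

theorem sec_rf_pow {U V : X.Opens} (h : V ≤ U) (f : Γ(X, U)) (n : ℕ) :
    rf h (f ^ n) = rf h f ^ n :=
  map_pow (X.presheaf.map (homOfLE h).op).hom f n

theorem c_add (a b a' b' : ℤ) (l l' : Fin 4) : T.c (a + a') (b + b') l l' = T.c a b l l' * T.c a' b' l l' := by
  unfold ToricData.c
  rw [← Units.val_mul]
  congr 1
  rw [zpow_add, zpow_add]
  exact mul_mul_mul_comm _ _ _ _

/-- unit version of the restriction -/
noncomputable def sec_ru {U V : X.Opens} (h : V ≤ U) : Γ(X, U)ˣ →* Γ(X, V)ˣ :=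
  Units.map (X.presheaf.map (homOfLE h).op).hom

theorem sec_ru_val {U V : X.Opens} (h : V ≤ U) (f : Γ(X, U)ˣ) :
    ((sec_ru h f : Γ(X, V)ˣ) : Γ(X, V)) = rf h (f : Γ(X, U)) := rfl

theorem cocycle_c (a b : ℤ) : IsCocycle T.U (T.c a b) := by
  have hF : ∀ l l' l'',
      sec_ru (V := T.U l ⊓ T.U l' ⊓ T.U l'') inf_le_left (T.cF l l') *
      sec_ru (V := T.U l ⊓ T.U l' ⊓ T.U l'') (le_inf (inf_le_left.trans inf_le_right) inf_le_right) (T.cF l' l'') =
      sec_ru (V := T.U l ⊓ T.U l' ⊓ T.U l'') (le_inf (inf_le_left.trans inf_le_left) inf_le_right) (T.cF l l'') := by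
    intro l l' l''
    ext1
    exact T.cocF.mul l l' l''
  have hG : ∀ l l' l'',
      sec_ru (V := T.U l ⊓ T.U l' ⊓ T.U l'') inf_le_left (T.cG l l') *
      sec_ru (V := T.U l ⊓ T.U l' ⊓ T.U l'') (le_inf (inf_le_left.trans inf_le_right) inf_le_right) (T.cG l' l'') =
      sec_ru (V := T.U l ⊓ T.U l' ⊓ T.U l'') (le_inf (inf_le_left.trans inf_le_left) inf_le_right) (T.cG l l'') := by
    intro l l' l''
    ext1
    exact T.cocG.mul l l' l''
  constructor
  · intro l
    have h1 : T.cF l l = 1 := Units.ext (T.cocF.self l)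
    have h2 : T.cG l l = 1 := Units.ext (T.cocG.self l)
    unfold ToricData.c
    rw [h1, h2, one_zpow, one_zpow, one_mul]
    rfl
  · intro l l' l''
    unfold ToricData.c
    rw [← sec_ru_val, ← sec_ru_val, ← sec_ru_val, ← Units.val_mul]
    congr 1
    rw [map_mul, map_mul, map_mul, map_zpow, map_zpow, map_zpow, map_zpow, map_zpow, map_zpow,
      ← hF, ← hG, mul_zpow, mul_zpow]
    exact mul_mul_mul_comm _ _ _ _

theorem sec_one : IsSec T.U (T.c 0 0) (fun _ => 1) := by
  intro l l'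
  unfold ToricData.c
  rw [zpow_zero, zpow_zero, one_mul, sec_rf_one, sec_rf_one, Units.val_one, one_mul]

theorem sec_mul {a b a' b' : ℤ} {s s' : ∀ l, Γ(X, T.U l)} (h : IsSec T.U (T.c a b) s)
    (h' : IsSec T.U (T.c a' b') s') : IsSec T.U (T.c (a + a') (b + b')) (fun l => s l * s' l) := by
  intro l l'
  rw [sec_rf_mul, sec_rf_mul, h l l', h' l l', c_add]
  exact mul_mul_mul_comm _ _ _ _

theorem sec_pow {a b : ℤ} {s : ∀ l, Γ(X, T.U l)} (h : IsSec T.U (T.c a b) s) (n : ℕ) :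
    IsSec T.U (T.c (n * a) (n * b)) (fun l => s l ^ n) := by
  induction n with
  | zero =>
    have := sec_one T
    simpa using this
  | succ n ih =>
    have := sec_mul T ih h
    have e1 : ((n + 1 : ℕ) : ℤ) * a = n * a + a := by push_cast; ring
    have e2 : ((n + 1 : ℕ) : ℤ) * b = n * b + b := by push_cast; ring
    rw [e1, e2]
    simpa only [pow_succ] using this

theorem sec_x0 : IsSec T.U (T.c 1 0) T.x0 := by
  intro l l'
  have := T.sx0 l l'
  unfold ToricData.c
  rw [zpow_one, zpow_zero, mul_one]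
  exact this

theorem sec_x1 : IsSec T.U (T.c 1 0) T.x1 := by
  intro l l'
  have := T.sx1 l l'
  unfold ToricData.c
  rw [zpow_one, zpow_zero, mul_one]
  exact this

theorem sec_y : IsSec T.U (T.c 1 1) T.y := by
  intro l l'
  have := T.sy l l'
  unfold ToricData.c
  rw [zpow_one, zpow_one]
  exact this

theorem sec_z : IsSec T.U (T.c 0 1) T.z := by
  intro l l'
  have := T.sz l l'
  unfold ToricData.c
  rw [zpow_one, zpow_zero, one_mul]
  exact this

theorem unit_x (l : Fin 4) : T.x0 l = 1 ∨ T.x1 l = 1 := by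
  fin_cases l
  · exact Or.inl T.x00
  · exact Or.inr T.x11
  · exact Or.inl T.x02
  · exact Or.inr T.x13

theorem unit_yz (l : Fin 4) : T.y l = 1 ∨ T.z l = 1 := by
  fin_cases l
  · exact Or.inl T.y0
  · exact Or.inl T.y1
  · exact Or.inr T.z2
  · exact Or.inr T.z3

/-- for every chart `k` there is a section `s` of some `c a b`, equal to `1` on the chart, whose nonvanishing
locus is the chart -/
theorem exists_ample (k : Fin 4) : ∃ (a b : ℤ) (s : ∀ l, Γ(X, T.U l)), IsSec T.U (T.c a b) s ∧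
    s k = 1 ∧ ∀ l, T.U k ⊓ T.U l = X.basicOpen (s l) := by
  fin_cases k
  · refine ⟨_, _, _, sec_mul T (sec_x0 T) (sec_y T), ?_, fun l => T.amp0 l⟩
    change T.x0 0 * T.y 0 = 1
    rw [T.x00, T.y0, one_mul]
  · refine ⟨_, _, _, sec_mul T (sec_x1 T) (sec_y T), ?_, fun l => T.amp1 l⟩
    change T.x1 1 * T.y 1 = 1
    rw [T.x11, T.y1, one_mul]
  · refine ⟨_, _, _, sec_mul T (sec_x0 T) (sec_z T), ?_, fun l => T.amp2 l⟩
    change T.x0 2 * T.z 2 = 1
    rw [T.x02, T.z2, one_mul]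
  · refine ⟨_, _, _, sec_mul T (sec_x1 T) (sec_z T), ?_, fun l => T.amp3 l⟩
    change T.x1 3 * T.z 3 = 1
    rw [T.x13, T.z3, one_mul]

/-- intersections of charts are basic opens of the chart -/
theorem basic_inf (k l : Fin 4) : ∃ f : Γ(X, T.U k), T.U k ⊓ T.U l = X.basicOpen f := by
  obtain ⟨a, b, s, -, -, h⟩ := exists_ample T l
  exact ⟨s k, by rw [inf_comm]; exact h k⟩

theorem affine_inf (k l : Fin 4) : IsAffineOpen (T.U k ⊓ T.U l) := by
  obtain ⟨f, hf⟩ := basic_inf T k l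
  rw [hf]
  exact (T.aff k).basicOpen f

end Pool.H33.P
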