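import Mathlib
import Pool.Agent.H33.P.Def
import Pool.Agent.H33.P.LOCM

/-! # SPL: a linear retraction on the sections over the affine opens gives a locally split monomorphism

On the affine open `U l`: morphisms between the restrictions of quasi-coherent modules are the linear maps
between the sections (`tilde.adjunction`, `isIso_fromTildeΓ_of_isQuasicoherent`, transported by
`(hA l).isoSpec`). -/

open CategoryTheory AlgebraicGeometry Limits TopologicalSpace
open Scheme.Modules (restrictFunctor restrictFunctorComp restrictFunctorCongr)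

namespace Pool.H33.P

variable {X : Scheme.{0}} {ι : Type} (U : ι → X.Opens)

theorem spl_cat {C : Type*} [Category C] {TA TB A B : C} (a : TA ⟶ A) (b : TB ⟶ B) (i : A ⟶ B)
    (ti : TA ⟶ TB) (tr : TB ⟶ TA) (ha : IsIso a) (hb : IsIso b) (h1 : ti ≫ b = a ≫ i)
    (h2 : ti ≫ tr = 𝟙 _) : ∃ s : B ⟶ A, i ≫ s = 𝟙 A := by
  refine ⟨inv b ≫ tr ≫ a, ?_⟩
  rw [← cancel_epi a, ← Category.assoc, ← h1]
  simp only [Category.assoc, IsIso.hom_inv_id_assoc]
  rw [reassoc_of% h2, Category.comp_id]

/-- on an affine scheme: a retraction on global sections gives a retraction -/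
theorem spl_spec {R : CommRingCat.{0}} {A B : (Spec R).Modules} (hA : A.IsQuasicoherent)
    (hB : B.IsQuasicoherent) (i : A ⟶ B)
    (r : (moduleSpecΓFunctor (R := R)).obj B ⟶ (moduleSpecΓFunctor (R := R)).obj A)
    (h : (moduleSpecΓFunctor (R := R)).map i ≫ r = 𝟙 _) :
    ∃ s : B ⟶ A, i ≫ s = 𝟙 A := by
  have hA' : IsIso A.fromTildeΓ := inferInstance
  have hB' : IsIso B.fromTildeΓ := inferInstance
  have nat : tilde.map ((moduleSpecΓFunctor (R := R)).map i) ≫ B.fromTildeΓ =
      A.fromTildeΓ ≫ i := Scheme.Modules.fromTildeΓNatTrans.naturality i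
  refine spl_cat A.fromTildeΓ B.fromTildeΓ i (tilde.map ((moduleSpecΓFunctor (R := R)).map i))
    (tilde.map r) hA' hB' nat ?_
  have := tilde.map_comp ((moduleSpecΓFunctor (R := R)).map i) r
  rw [h, tilde.map_id] at this
  exact this.symm

/-- the module map on the global sections over the affine scheme -/
noncomputable def splMap {V : X.Opens} (hV : IsAffineOpen V) {A B : X.Modules}
    (r : Γ(B, V) →ₗ[Γ(X, V)] Γ(A, V)) :
    (moduleSpecΓFunctor (R := Γ(X, V))).obj (B.restrict hV.fromSpec) ⟶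
      (moduleSpecΓFunctor (R := Γ(X, V))).obj (A.restrict hV.fromSpec) :=
  ModuleCat.ofHom (R := Γ(X, V))
    (X := Γ(B.restrict hV.fromSpec, ⊤)) (Y := Γ(A.restrict hV.fromSpec, ⊤))
    { toFun := fun x => (A.restrictAppIso hV.fromSpec ⊤).inv (rs A (locm_top hV).le
        (r (rs B (locm_top hV).ge ((B.restrictAppIso hV.fromSpec ⊤).hom x))))
      map_add' := by
        intro x y
        simp only [rs, map_add]
      map_smul' := by
        intro c x
        rw [locm_smul hV B ⊤ (locm_top hV).le c x, locm_rs_smul, locm_rf_rf, locm_rf_refl, map_smul,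
          locm_rs_smul]
        simp only [RingHom.id_apply]
        have h1 := locm_smul hV A ⊤ (locm_top hV).le c ((A.restrictAppIso hV.fromSpec ⊤).inv
          (rs A (locm_top hV).le
            (r (rs B (locm_top hV).ge ((B.restrictAppIso hV.fromSpec ⊤).hom x)))))
        exact h1.symm }

theorem spl_affine {V : X.Opens} (hV : IsAffineOpen V) {A B : X.Modules}
    (hqA : A.IsQuasicoherent) (hqB : B.IsQuasicoherent) (i : A ⟶ B)
    (r : Γ(B, V) →ₗ[Γ(X, V)] Γ(A, V)) (h : ∀ m : Γ(A, V), r (i.app V m) = m) :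
    ∃ s : B.restrict hV.fromSpec ⟶ A.restrict hV.fromSpec,
      (restrictFunctor hV.fromSpec).map i ≫ s = 𝟙 _ := by
  refine spl_spec inferInstance inferInstance _ (splMap hV r) ?_
  have key : ∀ x : Γ(A, hV.fromSpec ''ᵁ ⊤),
      rs A (locm_top hV).le (r (rs B (locm_top hV).ge (i.app (hV.fromSpec ''ᵁ ⊤) x))) = x := by
    intro x
    have nat : rs B (locm_top hV).ge (i.app (hV.fromSpec ''ᵁ ⊤) x) =
        i.app V (rs A (locm_top hV).ge x) :=
      (congrArg (fun φ => φ x) (i.mapPresheaf.naturality (homOfLE (locm_top hV).ge).op)).symm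
    rw [nat, h, locm_rs_rs, locm_rs_refl]
  ext x
  exact key x

theorem locSplit_of_sec (hA : ∀ i, IsAffineOpen (U i)) {A B : X.Modules}
    (hqA : A.IsQuasicoherent) (hqB : B.IsQuasicoherent) (i : A ⟶ B)
    (h : ∀ l, ∃ r : Γ(B, U l) →ₗ[Γ(X, U l)] Γ(A, U l), ∀ m : Γ(A, U l), r (i.app (U l) m) = m) :
    LocSplit U i := by
  intro l
  obtain ⟨r, hr⟩ := h l
  obtain ⟨s, hs⟩ := spl_affine (hA l) hqA hqB i r hr
  let e : restrictFunctor (U l).ι ≅
      restrictFunctor (hA l).fromSpec ⋙ restrictFunctor (hA l).isoSpec.hom :=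
    restrictFunctorCongr (by simp) ≪≫ restrictFunctorComp _ _
  refine ⟨e.hom.app B ≫ (restrictFunctor (hA l).isoSpec.hom).map s ≫ e.inv.app A, ?_⟩
  rw [e.hom.naturality_assoc]
  have h1 : (restrictFunctor (hA l).fromSpec ⋙ restrictFunctor (hA l).isoSpec.hom).map i ≫
      (restrictFunctor (hA l).isoSpec.hom).map s = 𝟙 _ := by
    rw [Functor.comp_map, ← Functor.map_comp, hs]
    exact CategoryTheory.Functor.map_id _ _
  have h2 := congrArg (fun φ => φ ≫ e.inv.app A) h1
  simp only [Category.assoc, Category.id_comp] at h2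
  rw [h2]
  exact e.hom_inv_id_app A

theorem mono_of_locSplit (hU : ⨆ i, U i = ⊤) {A B : X.Modules} (i : A ⟶ B) (h : LocSplit U i) :
    Mono i := by
  have h1 : ∀ (l : ι) (W : (U l : Scheme.{0}).Opens), Function.Injective (i.app ((U l).ι ''ᵁ W)) := by
    intro l W
    obtain ⟨r, hr⟩ := h l
    have h2 : ∀ m : Γ(A.restrict (U l).ι, W),
        r.app W (((restrictFunctor (U l).ι).map i).app W m) = m := by
      intro m
      exact congrArg (fun φ : A.restrict (U l).ι ⟶ A.restrict (U l).ι => φ.app W m) hr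
    exact Function.LeftInverse.injective (g := r.app W) h2
  have h2 : ∀ (V : X.Opens) (m : Γ(A, V)), i.app V m = 0 → m = 0 := by
    intro V m hm
    have hle : ∀ l, (U l).ι ''ᵁ ((U l).ι ⁻¹ᵁ V) ≤ V := fun l => (U l).ι.image_preimage_le V
    refine TopCat.Sheaf.eq_of_locally_eq' ⟨_, A.isSheaf⟩ (fun l => (U l).ι ''ᵁ ((U l).ι ⁻¹ᵁ V)) V
      (fun l => homOfLE (hle l)) ?_ _ _ ?_
    · have : ∀ l, (U l).ι ''ᵁ ((U l).ι ⁻¹ᵁ V) = U l ⊓ V := by
        intro l
        simp [Scheme.Hom.image_preimage_eq_opensRange_inf]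
      simp only [this]
      rw [← iSup_inf_eq, hU, top_inf_eq]
    · intro l
      rw [map_zero]
      apply h1 l
      rw [map_zero]
      have nat := congrArg (fun φ => φ m) (i.mapPresheaf.naturality (homOfLE (hle l)).op)
      refine nat.trans ?_
      exact (congrArg (B.presheaf.map (homOfLE (hle l)).op) hm).trans
        (map_zero (B.presheaf.map (homOfLE (hle l)).op).hom)
  have h3 : Mono ((Scheme.Modules.toPresheaf X).map i) := by
    have : ∀ V, Mono (((Scheme.Modules.toPresheaf X).map i).app V) := by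
      intro V
      rw [AddCommGrpCat.mono_iff_injective]
      rw [injective_iff_map_eq_zero]
      intro m hm
      exact h2 V.unop m hm
    exact NatTrans.mono_of_mono_app _
  exact (Scheme.Modules.toPresheaf X).mono_of_mono_map h3

end Pool.H33.P
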