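import Mathlib
import Pool.Agent.H33.P.Def
import Pool.Agent.H33.P.SEC
import Pool.Agent.H33.P.LOCM
import Pool.Agent.H33.P.GLU
import Pool.Agent.H33.P.LBP
import Pool.Agent.H33.P.QSP
import Pool.Agent.H33.P.FSP
import Pool.Agent.H33.P.SPL

/-! # EMB: vector bundles embed, locally split, into finite sums of the line bundles `L a b`

`emb_one`: let `s` be the ample section for the chart `k`, of class `(a, b)`; `O = U k ⊓ U l` is a basic open both of
`U k` and of `U l`.  The functional `lam` localises to `Γ(M, O)`; for `m : Γ(M, U l)` the function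
`s l ^ n * lam_O (m|O)` extends (uniquely, `X` is integral, so restriction of functions to nonempty opens is
injective) to `U l` for `n` large, uniformly in `m` since `Γ(M, U l)` is finitely generated; this defines linear
`lam l : Γ(M, U l) → Γ(X, U l)`, and `m ↦ lam l m • e l` glue to `M ⟶ L (n a) (n b)` by `glue_hom` (the compatibility
on `U l ⊓ U l'` is checked after restriction to `U k ⊓ U l ⊓ U l'`, where it is clear).
`exists_embed`: for each chart choose finitely many functionals `lam i` such that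
`(lam i) : Γ(M, U k) → Γ(X, U k)^r` has a linear retraction (finite projective), apply `emb_one`, `fs_lift`,
`locSplit_of_sec`.  The sections of the cokernel over `U l` are a direct summand complement, hence finite
projective (`sec_exact`). -/

open CategoryTheory AlgebraicGeometry Limits TopologicalSpace

namespace Pool.H33.P

section basic
variable {X : Scheme.{0}}

lemma emb_rs_add (M : X.Modules) {U V : X.Opens} (h : V ≤ U) (m m' : Γ(M, U)) :
    rs M h (m + m') = rs M h m + rs M h m' := by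
  unfold rs
  exact map_add _ _ _

lemma emb_rs_zero (M : X.Modules) {U V : X.Opens} (h : V ≤ U) : rs M h (0 : Γ(M, U)) = 0 := by
  unfold rs
  exact map_zero _

lemma emb_rs_smul (M : X.Modules) {U V : X.Opens} (h : V ≤ U) (f : Γ(X, U)) (m : Γ(M, U)) :
    rs M h (f • m) = rf h f • rs M h m := by
  unfold rs rf
  exact Scheme.Modules.map_smul M _ _ _

lemma emb_rs_rs (M : X.Modules) {U V W : X.Opens} (h : V ≤ U) (h' : W ≤ V) (m : Γ(M, U)) :
    rs M h' (rs M h m) = rs M (h'.trans h) m := by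
  unfold rs
  rw [← ConcreteCategory.comp_apply, ← M.presheaf.map_comp]
  rfl

lemma emb_rs_self (M : X.Modules) {U : X.Opens} (h : U ≤ U) (m : Γ(M, U)) : rs M h m = m := by
  unfold rs
  have : (homOfLE h).op = 𝟙 (Opposite.op U) := rfl
  rw [this, M.presheaf.map_id]
  rfl

/-- restriction of functions as a ring homomorphism -/
noncomputable def embRf {U V : X.Opens} (h : V ≤ U) : Γ(X, U) →+* Γ(X, V) :=
  (X.presheaf.map (homOfLE h).op).hom

lemma emb_rf_eq {U V : X.Opens} (h : V ≤ U) (f : Γ(X, U)) : rf h f = embRf h f := rfl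

lemma emb_rf_self {U : X.Opens} (h : U ≤ U) (f : Γ(X, U)) : rf h f = f := by
  unfold rf
  have : (homOfLE h).op = 𝟙 (Opposite.op U) := rfl
  rw [this, X.presheaf.map_id]
  rfl

lemma emb_rf_rf {U V W : X.Opens} (h : V ≤ U) (h' : W ≤ V) (f : Γ(X, U)) :
    rf h' (rf h f) = rf (h'.trans h) f := by
  unfold rf
  rw [← ConcreteCategory.comp_apply, ← X.presheaf.map_comp]
  rfl

lemma emb_rs_sub (M : X.Modules) {U V : X.Opens} (h : V ≤ U) (m m' : Γ(M, U)) :
    rs M h (m - m') = rs M h m - rs M h m' := by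
  unfold rs
  exact map_sub _ _ _

/-- the germ at the generic point -/
noncomputable def embGm [IsIntegral X] {V : X.Opens} (hV : genericPoint X ∈ V) : Γ(X, V) →+* X.functionField :=
  (X.presheaf.germ V (genericPoint X) hV).hom

lemma emb_gm_inj [IsIntegral X] {V : X.Opens} (hV : genericPoint X ∈ V) : Function.Injective (embGm hV) :=
  germ_injective_of_isIntegral X (genericPoint X) hV

lemma emb_gm_rf [IsIntegral X] {U V : X.Opens} (h : V ≤ U) (hV : genericPoint X ∈ V) (f : Γ(X, U)) :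
    embGm hV (rf h f) = embGm (h hV) f := by
  unfold embGm rf
  exact X.presheaf.germ_res_apply (homOfLE h) (genericPoint X) hV f

lemma emb_gm_ne [IsIntegral X] {V : X.Opens} (hV : genericPoint X ∈ V) {f : Γ(X, V)} (hf : f ≠ 0) :
    embGm hV f ≠ 0 := by
  intro h
  exact hf (emb_gm_inj hV (by rw [h, map_zero]))

lemma emb_bot [IsIntegral X] {V : X.Opens} (hV : genericPoint X ∉ V) : Subsingleton Γ(X, V) := by
  have : V = ⊥ := by
    rw [eq_bot_iff]
    intro x hx
    exact absurd (((genericPoint_spec X).mem_open_set_iff V.isOpen).mpr (by simpa using ⟨x, hx⟩)) hV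
  rw [this]
  infer_instance

lemma emb_sub (M : X.Modules) {V : X.Opens} (h : Subsingleton Γ(X, V)) : Subsingleton Γ(M, V) :=
  Module.subsingleton Γ(X, V) Γ(M, V)

lemma emb_unit {U V : X.Opens} (f : Γ(X, U)) (hV : V = X.basicOpen f) (h : V ≤ U) : IsUnit (rf h f) := by
  subst hV
  exact X.toRingedSpace.isUnit_res_basicOpen f

/-- basic opens inside -/
lemma emb_basic [IsIntegral X] {U : X.Opens} (hU : IsAffineOpen U) {W : X.Opens} (hW : genericPoint X ∈ W) (hWU : W ≤ U) :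
    ∃ g : Γ(X, U), g ≠ 0 ∧ X.basicOpen g ≤ W ∧ genericPoint X ∈ X.basicOpen g := by
  obtain ⟨g, hg, hx⟩ := hU.exists_basicOpen_le ⟨genericPoint X, hW⟩ (hWU hW)
  refine ⟨g, ?_, hg, hx⟩
  rintro rfl
  simp at hx

end basic

section functional

variable {X : Scheme.{0}} [IsIntegral X] {M : X.Modules} (hM : M.IsQuasicoherent) {U : X.Opens}
  (hU : IsAffineOpen U) (hη : genericPoint X ∈ U) (lam : Γ(M, U) →ₗ[Γ(X, U)] Γ(X, U))

include hM hU in
/-- functionals vanish on sections which vanish generically -/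
lemma emb_vanish {W : X.Opens} (hW : genericPoint X ∈ W) (hWU : W ≤ U) (x : Γ(M, U)) (hx : rs M hWU x = 0) :
    lam x = 0 := by
  obtain ⟨g, hg, hgW, hηg⟩ := emb_basic hU hW hWU
  have h1 : rs M (hgW.trans hWU) x = 0 := by
    rw [← emb_rs_rs M hWU hgW, hx, emb_rs_zero]
  obtain ⟨n, hn⟩ := loc_inj M hM hU g rfl (hgW.trans hWU) x h1
  have h2 : g ^ n * lam x = 0 := by
    rw [← smul_eq_mul, ← map_smul, hn, map_zero]
  have hη : genericPoint X ∈ U := hWU hW
  apply emb_gm_inj hη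
  have h3 := congrArg (embGm hη) h2
  rw [map_mul, map_pow, map_zero] at h3
  rw [map_zero]
  rcases mul_eq_zero.1 h3 with h4 | h4
  · exact absurd h4 (pow_ne_zero n (emb_gm_ne hη hg))
  · exact h4

include hM hU hη in
/-- every section is generically the restriction of a section over `U`, up to a multiple -/
lemma emb_ex {V : X.Opens} (hV : genericPoint X ∈ V) (m : Γ(M, V)) :
    ∃ (W : X.Opens) (hWV : W ≤ V) (hWU : W ≤ U) (a : Γ(X, U)) (t : Γ(M, U)), genericPoint X ∈ W ∧ a ≠ 0 ∧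
      rs M hWU t = rf hWU a • rs M hWV m := by
  obtain ⟨g, hg, hgW, hηg⟩ := emb_basic hU (W := V ⊓ U) ⟨hV, hη⟩ inf_le_right
  obtain ⟨n, t, ht⟩ := loc_surj M hM hU g rfl (hgW.trans inf_le_right) (rs M (hgW.trans inf_le_left) m)
  refine ⟨X.basicOpen g, hgW.trans inf_le_left, hgW.trans inf_le_right, g ^ n, t, hηg, ?_, ht⟩
  intro h
  have h3 := congrArg (embGm hη) h
  rw [map_pow, map_zero] at h3
  exact absurd h3 (pow_ne_zero n (emb_gm_ne hη hg))

/-- the value of the functional in the function field -/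
noncomputable def embL {V : X.Opens} (hV : genericPoint X ∈ V) (m : Γ(M, V)) : X.functionField :=
  embGm hη (lam (emb_ex hM hU hη hV m).choose_spec.choose_spec.choose_spec.choose_spec.choose) /
    embGm hη (emb_ex hM hU hη hV m).choose_spec.choose_spec.choose_spec.choose

lemma embL_eq {V : X.Opens} (hV : genericPoint X ∈ V) (m : Γ(M, V)) {W : X.Opens} (hWV : W ≤ V) (hWU : W ≤ U)
    (a : Γ(X, U)) (t : Γ(M, U)) (hW : genericPoint X ∈ W) (ha : a ≠ 0)
    (h : rs M hWU t = rf hWU a • rs M hWV m) : embL hM hU hη lam hV m = embGm hη (lam t) / embGm hη a := by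
  have key := (emb_ex hM hU hη hV m).choose_spec.choose_spec.choose_spec.choose_spec.choose_spec
  unfold embL
  set W' := (emb_ex hM hU hη hV m).choose with hW'
  set hWV' := (emb_ex hM hU hη hV m).choose_spec.choose
  set hWU' := (emb_ex hM hU hη hV m).choose_spec.choose_spec.choose
  set a' := (emb_ex hM hU hη hV m).choose_spec.choose_spec.choose_spec.choose
  set t' := (emb_ex hM hU hη hV m).choose_spec.choose_spec.choose_spec.choose_spec.choose
  obtain ⟨k1, k2, k3⟩ := key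
  obtain ⟨W'', hA, hB, hη'', h1, h2⟩ : ∃ W'' : X.Opens, ∃ (_ : W'' ≤ W) (_ : W'' ≤ W') (_ : genericPoint X ∈ W'')
      (_ : W'' ≤ U), W'' ≤ V := ⟨W ⊓ W', inf_le_left, inf_le_right, ⟨hW, k1⟩, inf_le_left.trans hWU, inf_le_left.trans hWV⟩
  have e1 : rs M h1 t = rf h1 a • rs M h2 m := by
    have := congrArg (rs M hA) h
    rw [emb_rs_rs, emb_rs_smul, emb_rs_rs, emb_rf_rf] at this
    exact this
  have e2 : rs M h1 t' = rf h1 a' • rs M h2 m := by
    have := congrArg (rs M hB) k3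
    rw [emb_rs_rs, emb_rs_smul, emb_rs_rs, emb_rf_rf] at this
    exact this
  have h3 : lam (a' • t - a • t') = 0 := by
    refine emb_vanish hM hU lam hη'' h1 _ ?_
    rw [emb_rs_sub, emb_rs_smul, emb_rs_smul, e1, e2, smul_smul, smul_smul, mul_comm, sub_self]
  rw [map_sub, map_smul, map_smul, smul_eq_mul, smul_eq_mul, sub_eq_zero] at h3
  have h4 := congrArg (embGm hη) h3
  rw [map_mul, map_mul] at h4
  rw [div_eq_div_iff (emb_gm_ne hη k2) (emb_gm_ne hη ha), mul_comm, ← h4, mul_comm]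

lemma embL_ex {V : X.Opens} (hV : genericPoint X ∈ V) (m : Γ(M, V)) :
    ∃ (W : X.Opens) (hWV : W ≤ V) (hWU : W ≤ U) (a : Γ(X, U)) (t : Γ(M, U)), genericPoint X ∈ W ∧ a ≠ 0 ∧
      rs M hWU t = rf hWU a • rs M hWV m ∧ embL hM hU hη lam hV m = embGm hη (lam t) / embGm hη a := by
  obtain ⟨W, h1, h2, a, t, h3, h4, h5⟩ := emb_ex hM hU hη hV m
  exact ⟨W, h1, h2, a, t, h3, h4, h5, embL_eq hM hU hη lam hV m h1 h2 a t h3 h4 h5⟩

lemma embL_self (m : Γ(M, U)) : embL hM hU hη lam hη m = embGm hη (lam m) := by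
  have h := embL_eq hM hU hη lam hη m le_rfl le_rfl (1 : Γ(X, U)) m hη (by
    intro h
    have := congrArg (embGm hη) h
    rw [map_one, map_zero] at this
    exact one_ne_zero this) (by rw [emb_rf_eq, map_one, one_smul])
  rw [h, map_one, div_one]

lemma embL_rs {V V' : X.Opens} (hV' : genericPoint X ∈ V') (h : V' ≤ V) (m : Γ(M, V)) :
    embL hM hU hη lam hV' (rs M h m) = embL hM hU hη lam (h hV') m := by
  obtain ⟨W, h1, h2, a, t, h3, h4, h5, h6⟩ := embL_ex hM hU hη lam hV' (rs M h m)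
  rw [h6]
  symm
  refine embL_eq hM hU hη lam _ m (h1.trans h) h2 a t h3 h4 ?_
  rw [h5, emb_rs_rs]

lemma embL_add {V : X.Opens} (hV : genericPoint X ∈ V) (m m' : Γ(M, V)) :
    embL hM hU hη lam hV (m + m') = embL hM hU hη lam hV m + embL hM hU hη lam hV m' := by
  obtain ⟨W, h1, h2, a, t, h3, h4, h5, h6⟩ := embL_ex hM hU hη lam hV m
  obtain ⟨W', h1', h2', a', t', h3', h4', h5', h6'⟩ := embL_ex hM hU hη lam hV m'
  obtain ⟨W'', hA, hB, hη'', h7, h8⟩ : ∃ W'' : X.Opens, ∃ (_ : W'' ≤ W) (_ : W'' ≤ W') (_ : genericPoint X ∈ W'')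
      (_ : W'' ≤ U), W'' ≤ V := ⟨W ⊓ W', inf_le_left, inf_le_right, ⟨h3, h3'⟩, inf_le_left.trans h2, inf_le_left.trans h1⟩
  have e1 : rs M h7 t = rf h7 a • rs M h8 m := by
    have := congrArg (rs M hA) h5
    rw [emb_rs_rs, emb_rs_smul, emb_rs_rs, emb_rf_rf] at this
    exact this
  have e2 : rs M h7 t' = rf h7 a' • rs M h8 m' := by
    have := congrArg (rs M hB) h5'
    rw [emb_rs_rs, emb_rs_smul, emb_rs_rs, emb_rf_rf] at this
    exact this
  have ha := emb_gm_ne hη h4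
  have ha' := emb_gm_ne hη h4'
  rw [h6, h6', embL_eq hM hU hη lam hV (m + m') h8 h7 (a * a') (a' • t + a • t') hη'' (by
    intro h
    have := congrArg (embGm hη) h
    rw [map_mul, map_zero] at this
    exact mul_ne_zero ha ha' this) (by
    rw [emb_rs_add, emb_rs_smul, emb_rs_smul, e1, e2, emb_rs_add, smul_add, smul_smul, smul_smul, emb_rf_eq,
      emb_rf_eq, emb_rf_eq, map_mul, mul_comm (embRf h7 a') (embRf h7 a)])]
  rw [map_add, map_smul, map_smul, map_add, smul_eq_mul, smul_eq_mul, map_mul, map_mul, map_mul]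
  field_simp

lemma embL_smul {V : X.Opens} (hV : genericPoint X ∈ V) (f : Γ(X, V)) (m : Γ(M, V)) :
    embL hM hU hη lam hV (f • m) = embGm hV f * embL hM hU hη lam hV m := by
  obtain ⟨W, h1, h2, a, t, h3, h4, h5, h6⟩ := embL_ex hM hU hη lam hV m
  obtain ⟨g, hg, hgW, hηg⟩ := emb_basic hU h3 h2
  obtain ⟨n, f', hf'⟩ := loc_surj_fun hU g rfl (hgW.trans h2) (rf (hgW.trans h1) f)
  have ha := emb_gm_ne hη h4
  have hg' := emb_gm_ne hη hg
  have e1 : embGm hη f' = embGm hη g ^ n * embGm hV f := by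
    have := congrArg (embGm hηg) hf'
    rw [map_mul, emb_gm_rf, emb_gm_rf, emb_gm_rf, map_pow] at this
    exact this
  have e2 : rs M (hgW.trans h2) (f' • t) = rf (hgW.trans h2) (g ^ n * a) • rs M (hgW.trans h1) (f • m) := by
    have e3 := congrArg (rs M hgW) h5
    rw [emb_rs_rs, emb_rs_smul, emb_rs_rs, emb_rf_rf] at e3
    rw [emb_rs_smul, e3, hf', emb_rs_smul, smul_smul, smul_smul, emb_rf_eq _ (g ^ n * a), map_mul]
    congr 1
    rw [emb_rf_eq _ (g ^ n), emb_rf_eq _ a]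
    ring
  rw [h6, embL_eq hM hU hη lam hV (f • m) (hgW.trans h1) (hgW.trans h2) (g ^ n * a) (f' • t) hηg (by
    intro h
    have := congrArg (embGm hη) h
    rw [map_mul, map_pow, map_zero] at this
    exact mul_ne_zero (pow_ne_zero n hg') ha this) e2]
  rw [map_smul, smul_eq_mul, map_mul, map_mul, map_pow, e1]
  field_simp

/-- linear functionals over other opens -/
lemma emb_lin {V : X.Opens} (hV : genericPoint X ∈ V) (c : X.functionField)
    (h : ∀ m : Γ(M, V), ∃ g : Γ(X, V), embGm hV g = c * embL hM hU hη lam hV m) :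
    ∃ μ : Γ(M, V) →ₗ[Γ(X, V)] Γ(X, V), ∀ m, embGm hV (μ m) = c * embL hM hU hη lam hV m := by
  choose μ hμ using h
  refine ⟨{ toFun := μ, map_add' := fun m m' => ?_, map_smul' := fun f m => ?_ }, fun m => hμ m⟩
  · apply emb_gm_inj hV
    rw [map_add, hμ, hμ, hμ, embL_add, mul_add]
  · apply emb_gm_inj hV
    rw [hμ, embL_smul, smul_eq_mul, RingHom.id_apply, map_mul, hμ]
    ring

end functional

variable {X : Scheme.{0}} {T : ToricData X} (S : LSys T)

/-- extension of the functional over one chart -/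
lemma emb_chart [IsIntegral X] {M : X.Modules} (hM : IsCoh T.U M) (k l : Fin 4) (hη : genericPoint X ∈ T.U k)
    (hηl : genericPoint X ∈ T.U l) (lam : Γ(M, T.U k) →ₗ[Γ(X, T.U k)] Γ(X, T.U k)) (s : Γ(X, T.U l))
    (hs : T.U k ⊓ T.U l = X.basicOpen s) :
    ∃ n : ℕ, ∀ n', n ≤ n' → ∀ m : Γ(M, T.U l), ∃ g : Γ(X, T.U l), embGm hηl g =
      embGm hηl s ^ n' * embL hM.qc (T.aff k) hη lam hηl m := by
  -- one section
  have hO : genericPoint X ∈ T.U k ⊓ T.U l := ⟨hη, hηl⟩
  have one : ∀ m : Γ(M, T.U l), ∃ n : ℕ, ∃ g : Γ(X, T.U l), embGm hηl g =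
      embGm hηl s ^ n * embL hM.qc (T.aff k) hη lam hηl m := by
    intro m
    obtain ⟨f, hf⟩ := basic_inf T k l
    obtain ⟨n1, t, ht⟩ := loc_surj M hM.qc (T.aff k) f hf inf_le_left (rs M inf_le_right m)
    obtain ⟨u, hu⟩ := (emb_unit f hf inf_le_left).pow n1
    obtain ⟨n, g, hg⟩ := loc_surj_fun (T.aff l) s hs inf_le_right
      (((u⁻¹ : Γ(X, T.U k ⊓ T.U l)ˣ) : Γ(X, T.U k ⊓ T.U l)) * rf inf_le_left (lam t))
    refine ⟨n, g, ?_⟩
    have h1 := congrArg (embGm hO) hg
    rw [emb_gm_rf, map_mul, emb_gm_rf, map_pow, map_mul, emb_gm_rf] at h1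
    have h2 : embL hM.qc (T.aff k) hη lam hηl m = embGm hO ((u⁻¹ : Γ(X, T.U k ⊓ T.U l)ˣ) : Γ(X, T.U k ⊓ T.U l)) *
        embGm hη (lam t) := by
      have h3 := embL_smul hM.qc (T.aff k) hη lam hO (rf inf_le_left (f ^ n1)) (rs M inf_le_right m)
      rw [← ht, embL_rs, embL_self, embL_rs] at h3
      have h4 : embGm hO ((u⁻¹ : Γ(X, T.U k ⊓ T.U l)ˣ) : Γ(X, T.U k ⊓ T.U l)) * embGm hO (rf inf_le_left (f ^ n1)) = 1 := by
        rw [← map_mul, emb_rf_eq, map_pow, ← emb_rf_eq, ← hu, Units.inv_mul, map_one]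
      rw [h3, ← mul_assoc, h4, one_mul]
    rw [h2]
    exact h1
  -- closure under multiples
  have up : ∀ (m : Γ(M, T.U l)) (n n' : ℕ), n ≤ n' → (∃ g : Γ(X, T.U l), embGm hηl g =
      embGm hηl s ^ n * embL hM.qc (T.aff k) hη lam hηl m) → ∃ g : Γ(X, T.U l), embGm hηl g =
      embGm hηl s ^ n' * embL hM.qc (T.aff k) hη lam hηl m := by
    rintro m n n' hnn' ⟨g, hg⟩
    refine ⟨s ^ (n' - n) * g, ?_⟩
    rw [map_mul, map_pow, hg, ← mul_assoc, ← pow_add, Nat.sub_add_cancel hnn']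
  choose N hN using one
  obtain ⟨G, hG⟩ := (hM.fin l).fg_top
  refine ⟨G.sup N, fun n' hn' m => ?_⟩
  have hm : m ∈ Submodule.span Γ(X, T.U l) (G : Set Γ(M, T.U l)) := by rw [hG]; trivial
  induction hm using Submodule.span_induction with
  | mem x hx => exact up x (N x) n' ((Finset.le_sup (f := N) hx).trans hn') (hN x)
  | zero =>
    refine ⟨0, ?_⟩
    have h0 := embL_smul hM.qc (T.aff k) hη lam hηl 0 (0 : Γ(M, T.U l))
    rw [zero_smul, map_zero, zero_mul] at h0
    rw [h0, mul_zero, map_zero]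
  | add x y _ _ hx hy =>
    obtain ⟨g, hg⟩ := hx
    obtain ⟨g', hg'⟩ := hy
    exact ⟨g + g', by rw [map_add, hg, hg', embL_add, mul_add]⟩
  | smul a x _ hx =>
    obtain ⟨g, hg⟩ := hx
    exact ⟨a * g, by rw [map_mul, hg, embL_smul]; ring⟩

theorem emb_one {M : X.Modules} (hM : IsCoh T.U M) (k : Fin 4)
    (lam : Γ(M, T.U k) →ₗ[Γ(X, T.U k)] Γ(X, T.U k)) :
    ∃ (a b : ℤ) (φ : M ⟶ S.L a b), ∀ m : Γ(M, T.U k), φ.app (T.U k) m = lam m • S.e a b k := by
  classical
  have hint : IsIntegral X := T.int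
  by_cases hη : genericPoint X ∈ T.U k
  swap
  · have h1 := emb_bot hη
    have h2 := emb_sub (S.L 0 0) h1
    exact ⟨0, 0, 0, fun m => h2.elim _ _⟩
  obtain ⟨a0, b0, s, hsec, hsk, hs⟩ := exists_ample T k
  -- the exponent
  have hN : ∀ l : Fin 4, ∃ N : ℕ, ∀ n', N ≤ n' → ∀ hηl : genericPoint X ∈ T.U l, ∀ m : Γ(M, T.U l),
      ∃ g : Γ(X, T.U l), embGm hηl g = embGm hηl (s l) ^ n' * embL hM.qc (T.aff k) hη lam hηl m := by
    intro l
    by_cases hηl : genericPoint X ∈ T.U l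
    · obtain ⟨N, hN⟩ := emb_chart hM k l hη hηl lam (s l) (hs l)
      exact ⟨N, fun n' hn' _ m => hN n' hn' m⟩
    · exact ⟨0, fun n' _ h => absurd h hηl⟩
  choose N hN using hN
  set n : ℕ := Finset.univ.sup N with hn
  have hN' := fun l => hN l n (Finset.le_sup (Finset.mem_univ l))
  -- the functionals
  have hlam : ∀ l : Fin 4, ∃ μ : Γ(M, T.U l) →ₗ[Γ(X, T.U l)] Γ(X, T.U l), ∀ hηl : genericPoint X ∈ T.U l,
      ∀ m, embGm hηl (μ m) = embGm hηl (s l) ^ n * embL hM.qc (T.aff k) hη lam hηl m := by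
    intro l
    by_cases hηl : genericPoint X ∈ T.U l
    · obtain ⟨μ, hμ⟩ := emb_lin hM.qc (T.aff k) hη lam hηl _ (hN' l hηl)
      exact ⟨μ, fun _ => hμ⟩
    · exact ⟨0, fun h => absurd h hηl⟩
  choose μ hμ using hlam
  have hchi : ∀ l l' : Fin 4, ∃ χ : Γ(M, T.U l ⊓ T.U l') →ₗ[Γ(X, T.U l ⊓ T.U l')] Γ(X, T.U l ⊓ T.U l'),
      ∀ (hηl : genericPoint X ∈ T.U l) (hO : genericPoint X ∈ T.U l ⊓ T.U l'),
      ∀ m, embGm hO (χ m) = embGm hηl (s l) ^ n * embL hM.qc (T.aff k) hη lam hO m := by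
    intro l l'
    by_cases hO : genericPoint X ∈ T.U l ⊓ T.U l'
    · have hηl : genericPoint X ∈ T.U l := hO.1
      obtain ⟨χ, hχ⟩ := emb_lin hM.qc (T.aff k) hη lam hO (embGm hηl (s l) ^ n) (by
        intro m'
        obtain ⟨f, hf⟩ := basic_inf T l l'
        obtain ⟨j, t, ht⟩ := loc_surj M hM.qc (T.aff l) f hf inf_le_left m'
        obtain ⟨u, hu⟩ := (emb_unit f hf inf_le_left).pow j
        refine ⟨((u⁻¹ : Γ(X, T.U l ⊓ T.U l')ˣ) : Γ(X, T.U l ⊓ T.U l')) * rf inf_le_left (μ l t), ?_⟩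
        have h3 := embL_smul hM.qc (T.aff k) hη lam hO (rf inf_le_left (f ^ j)) m'
        rw [← ht, embL_rs] at h3
        have h4 : embGm hO ((u⁻¹ : Γ(X, T.U l ⊓ T.U l')ˣ) : Γ(X, T.U l ⊓ T.U l')) * embGm hO (rf inf_le_left (f ^ j)) = 1 := by
          rw [← map_mul, emb_rf_eq, map_pow, ← emb_rf_eq, ← hu, Units.inv_mul, map_one]
        rw [map_mul, emb_gm_rf, hμ l hηl t, h3]
        calc _ = (embGm hO ((u⁻¹ : Γ(X, T.U l ⊓ T.U l')ˣ) : Γ(X, T.U l ⊓ T.U l')) * embGm hO (rf inf_le_left (f ^ j))) *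
              (embGm hηl (s l) ^ n * embL hM.qc (T.aff k) hη lam hO m') := by ring
          _ = _ := by rw [h4, one_mul])
      exact ⟨χ, fun _ _ => hχ⟩
    · exact ⟨0, fun _ h => absurd h hO⟩
  choose χ hχ using hchi
  have tw := S.tw (n * a0) (n * b0)
  obtain ⟨φ, hφ⟩ := glue_hom T.U T.cov T.aff (basic_inf T) (M := M) (N := S.L (n * a0) (n * b0)) hM.qc
    (fun l => (LinearMap.toSpanSingleton Γ(X, T.U l) Γ(S.L (n * a0) (n * b0), T.U l) (S.e (n * a0) (n * b0) l)).comp (μ l))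
    (fun l l' => (LinearMap.toSpanSingleton Γ(X, T.U l ⊓ T.U l') Γ(S.L (n * a0) (n * b0), T.U l ⊓ T.U l')
      (rs (S.L (n * a0) (n * b0)) inf_le_left (S.e (n * a0) (n * b0) l))).comp (χ l l')) (by
      intro l l' m
      simp only [LinearMap.comp_apply, LinearMap.toSpanSingleton_apply]
      rw [emb_rs_smul]
      by_cases hO : genericPoint X ∈ T.U l ⊓ T.U l'
      · congr 1
        apply emb_gm_inj hO
        rw [emb_gm_rf, hχ l l' hO.1 hO, hμ l hO.1, embL_rs]
      · exact (emb_sub _ (emb_bot hO)).elim _ _) (by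
      intro l l' m
      simp only [LinearMap.comp_apply, LinearMap.toSpanSingleton_apply]
      rw [emb_rs_smul, tw.trans l l', smul_smul]
      by_cases hO : genericPoint X ∈ T.U l ⊓ T.U l'
      · congr 1
        apply emb_gm_inj hO
        have h1 := sec_pow T hsec n l l'
        have h2 := congrArg (embGm hO) h1
        rw [emb_gm_rf, map_mul, emb_gm_rf, map_pow, map_pow] at h2
        rw [map_mul, emb_gm_rf, hχ l l' hO.1 hO, hμ l' hO.2, embL_rs, h2]
        ring
      · exact (emb_sub _ (emb_bot hO)).elim _ _)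
  refine ⟨n * a0, n * b0, φ, fun m => ?_⟩
  rw [hφ k m]
  simp only [LinearMap.comp_apply, LinearMap.toSpanSingleton_apply]
  congr 1
  apply emb_gm_inj hη
  rw [hμ k hη, embL_self, hsk, map_one, one_pow, one_mul]

/-- the linear map on sections -/
noncomputable def embApp {X : Scheme.{0}} {M N : X.Modules} (φ : M ⟶ N) (V : X.Opens) :
    Γ(M, V) →ₗ[Γ(X, V)] Γ(N, V) where
  toFun := φ.app V
  map_add' := fun m m' => map_add (φ.app V).hom m m'
  map_smul' := fun f m => Scheme.Modules.Hom.app_smul φ f m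

/-- a complement of a split submodule is projective -/
lemma emb_proj {A P Q R : Type} [CommRing A] [AddCommGroup P] [AddCommGroup Q] [AddCommGroup R] [Module A P]
    [Module A Q] [Module A R] (i : P →ₗ[A] Q) (π : Q →ₗ[A] R) (r : Q →ₗ[A] P) (hr : ∀ x, r (i x) = x)
    (hex : Function.Exact i π) (hs : Function.Surjective π) [Module.Projective A Q] : Module.Projective A R := by
  have hF : ∀ x x' : Q, π x = π x' → x - i (r x) = x' - i (r x') := by
    intro x x' h
    have h1 : π (x - x') = 0 := by rw [map_sub, h, sub_self]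
    obtain ⟨m, hm⟩ := (hex _).1 h1
    have h2 : i (r (x - x')) = x - x' := by rw [← hm, hr]
    rw [map_sub, map_sub] at h2
    rw [sub_eq_sub_iff_sub_eq_sub, ← h2]
  choose g hg using hs
  let s : R →ₗ[A] Q :=
    { toFun := fun v => g v - i (r (g v))
      map_add' := fun v v' => by
        rw [hF (g (v + v')) (g v + g v') (by rw [map_add, hg, hg, hg])]
        rw [map_add, map_add]
        abel
      map_smul' := fun a v => by
        rw [hF (g (a • v)) (a • g v) (by rw [map_smul, hg, hg])]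
        rw [map_smul, map_smul, RingHom.id_apply, smul_sub] }
  refine Module.Projective.of_split s π ?_
  ext v
  have h0 : π (i (r (g v))) = 0 := hex.apply_apply_eq_zero _
  show π (g v - i (r (g v))) = v
  rw [map_sub, h0, hg, sub_zero]

theorem exists_embed {M : X.Modules} (hM : IsVB T.U M) :
    ∃ (E V : X.Modules) (i : M ⟶ E) (p : E ⟶ V) (w : i ≫ p = 0),
      (ShortComplex.mk i p w).ShortExact ∧ IsFS S E ∧ LocSplit T.U i ∧ IsVB T.U V := by
  classical
  have hcoh : IsCoh T.U M := ⟨hM.qc, hM.fin⟩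
  -- finitely many functionals
  have h1 : ∀ k : Fin 4, ∃ (r : ℕ) (ρ : (Fin r → Γ(X, T.U k)) →ₗ[Γ(X, T.U k)] Γ(M, T.U k))
      (σ : Γ(M, T.U k) →ₗ[Γ(X, T.U k)] (Fin r → Γ(X, T.U k))), ∀ m, ρ (σ m) = m := by
    intro k
    have hf := hM.fin k
    have hp := hM.proj k
    obtain ⟨r, ρ, hρ⟩ := Module.Finite.exists_fin' Γ(X, T.U k) Γ(M, T.U k)
    obtain ⟨σ, hσ⟩ := Module.projective_lifting_property ρ LinearMap.id hρ
    exact ⟨r, ρ, σ, fun m => LinearMap.congr_fun hσ m⟩
  choose r ρ σ hρσ using h1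
  have h2 : ∀ kj : (Σ k : Fin 4, Fin (r k)), ∃ (a b : ℤ) (φ : M ⟶ S.L a b), ∀ m : Γ(M, T.U kj.1),
      φ.app (T.U kj.1) m = (σ kj.1 m kj.2) • S.e a b kj.1 := by
    rintro ⟨k, j⟩
    exact emb_one S hcoh k ((LinearMap.proj j).comp (σ k))
  choose a b φ hφ using h2
  let q := Fintype.equivFin (Σ k : Fin 4, Fin (r k))
  obtain ⟨E, i, hE, hi⟩ := fs_lift S (Fintype.card (Σ k : Fin 4, Fin (r k))) (fun x => a (q.symm x))
    (fun x => b (q.symm x)) (fun x => φ (q.symm x))
  have hi' : ∀ kj : (Σ k : Fin 4, Fin (r k)), ∃ j : E ⟶ S.L (a kj) (b kj), i ≫ j = φ kj := by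
    intro kj
    have := hi (q kj)
    rwa [q.symm_apply_apply] at this
  choose π hπ using hi'
  have hEqc := fs_qc S hE
  -- the retractions
  have hret : ∀ l : Fin 4, ∃ r : Γ(E, T.U l) →ₗ[Γ(X, T.U l)] Γ(M, T.U l), ∀ m : Γ(M, T.U l), r (i.app (T.U l) m) = m := by
    intro l
    have hbij : ∀ j : Fin (r l), Function.Bijective (LinearMap.toSpanSingleton Γ(X, T.U l)
        Γ(S.L (a ⟨l, j⟩) (b ⟨l, j⟩), T.U l) (S.e (a ⟨l, j⟩) (b ⟨l, j⟩) l)) := by
      intro j
      have h3 := (S.tw (a ⟨l, j⟩) (b ⟨l, j⟩)).bij l (T.U l) le_rfl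
      rw [emb_rs_self] at h3
      exact h3
    let coef := fun j : Fin (r l) => (LinearEquiv.ofBijective _ (hbij j)).symm
    let R : Γ(E, T.U l) →ₗ[Γ(X, T.U l)] (Fin (r l) → Γ(X, T.U l)) :=
      LinearMap.pi (fun j => (coef j).toLinearMap.comp (embApp (π ⟨l, j⟩) (T.U l)))
    refine ⟨(ρ l).comp R, fun m => ?_⟩
    have hR : R (i.app (T.U l) m) = σ l m := by
      funext j
      show (coef j) ((π ⟨l, j⟩).app (T.U l) (i.app (T.U l) m)) = σ l m j
      have h4 : (π ⟨l, j⟩).app (T.U l) (i.app (T.U l) m) = (φ ⟨l, j⟩).app (T.U l) m := by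
        rw [← hπ ⟨l, j⟩]
        rfl
      rw [h4, hφ ⟨l, j⟩ m]
      exact (LinearEquiv.ofBijective _ (hbij j)).symm_apply_apply (σ l m j)
    rw [LinearMap.comp_apply, hR, hρσ]
  have hLS : LocSplit T.U i := locSplit_of_sec T.U T.aff hM.qc hEqc i hret
  have hmono : Mono i := mono_of_locSplit T.U T.cov i hLS
  have hVqc := qc_cokernel i hM.qc hEqc
  have hSE : (ShortComplex.mk i (cokernel.π i) (cokernel.condition i)).ShortExact :=
    { exact := ShortComplex.exact_cokernel i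
      mono_f := hmono
      epi_g := inferInstanceAs (Epi (cokernel.π i)) }
  refine ⟨E, cokernel i, i, cokernel.π i, cokernel.condition i, hSE, hE, hLS, hVqc, fun l => ?_, fun l => ?_⟩
  · obtain ⟨-, -, h3⟩ := sec_exact hSE hM.qc hEqc hVqc (T.aff l)
    have h4 := (fs_vb S hE).fin l
    exact Module.Finite.of_surjective (embApp (cokernel.π i) (T.U l)) h3
  · obtain ⟨-, h2, h3⟩ := sec_exact hSE hM.qc hEqc hVqc (T.aff l)
    have h4 := (fs_vb S hE).proj l
    obtain ⟨r', hr'⟩ := hret l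
    exact emb_proj (embApp i (T.U l)) (embApp (cokernel.π i) (T.U l)) r' hr' h2 h3

end Pool.H33.P
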