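import Mathlib
import Pool.Agent.H33.P.Def
import Pool.Agent.H33.P.SEC
import Pool.Agent.H33.P.GLU
import Pool.Agent.H33.P.LBP
import Pool.Agent.H33.P.QSP

/-! # KOS: Koszul sequences of two sections without common zeros

A section `s` of `c a1 b1` gives `mul s : L a b ⟶ L (a+a1) (b+b1)`, `e l ↦ s l • e l` (by `glue_hom`).  The sequence
`0 -> L -> L(1) ⊞ L(2) -> L(12) -> 0` with maps `(mul s1, mul s2)` and `(mul s2, - mul s1)` is exact on sections
over every `U l`, since `s1 l` or `s2 l` is a unit; conclude by `shortExact_of_sec`. -/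

open CategoryTheory AlgebraicGeometry Limits TopologicalSpace

namespace Pool.H33.P

variable {X : Scheme.{0}} {T : ToricData X} (S : LSys T)

theorem kos_rs_smul (M : X.Modules) {U V : X.Opens} (h : V ≤ U) (r : Γ(X, U)) (m : Γ(M, U)) :
    rs M h (r • m) = rf h r • rs M h m :=
  Scheme.Modules.map_smul M (homOfLE h) r m

theorem kos_rf_mul {U V : X.Opens} (h : V ≤ U) (r s : Γ(X, U)) :
    rf h (r * s) = rf h r * rf h s :=
  map_mul (X.presheaf.map (homOfLE h).op).hom r s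

theorem kos_rs_refl (M : X.Modules) {U : X.Opens} (m : Γ(M, U)) :
    rs M (le_refl U) m = m := by
  unfold rs
  have : (homOfLE (le_refl U)).op = 𝟙 _ := rfl
  rw [this, M.presheaf.map_id]
  rfl

theorem kos_rs_app {M N : X.Modules} (φ : M ⟶ N) {U V : X.Opens} (h : V ≤ U) (m : Γ(M, U)) :
    φ.app V (rs M h m) = rs N h (φ.app U m) := by
  have := (φ.mapPresheaf).naturality (homOfLE h).op
  exact congr($this m)

/-- coordinates of sections of the line bundle over `V ≤ U l` -/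
noncomputable def kosE (a b : ℤ) (l : Fin 4) (V : X.Opens) (h : V ≤ T.U l) :
    Γ(X, V) ≃ₗ[Γ(X, V)] Γ(S.L a b, V) :=
  LinearEquiv.ofBijective (LinearMap.toSpanSingleton Γ(X, V) Γ(S.L a b, V) (rs (S.L a b) h (S.e a b l)))
    ((S.tw a b).bij l V h)

theorem kosE_apply (a b : ℤ) (l : Fin 4) (V : X.Opens) (h : V ≤ T.U l) (r : Γ(X, V)) :
    kosE S a b l V h r = r • rs (S.L a b) h (S.e a b l) := rfl

/-- multiplication in coordinates -/
noncomputable def kosM (a b a' b' : ℤ) (l : Fin 4) (V : X.Opens) (h : V ≤ T.U l) (s : Γ(X, V)) :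
    Γ(S.L a b, V) →ₗ[Γ(X, V)] Γ(S.L a' b', V) :=
  (kosE S a' b' l V h).toLinearMap ∘ₗ (LinearMap.mulLeft Γ(X, V) s) ∘ₗ
    (kosE S a b l V h).symm.toLinearMap

theorem kosM_apply (a b a' b' : ℤ) (l : Fin 4) (V : X.Opens) (h : V ≤ T.U l) (s r : Γ(X, V)) :
    kosM S a b a' b' l V h s (r • rs (S.L a b) h (S.e a b l)) =
      (s * r) • rs (S.L a' b') h (S.e a' b' l) := by
  rw [← kosE_apply, ← kosE_apply]
  simp [kosM]

theorem kos_exists_coord (a b : ℤ) (l : Fin 4) (V : X.Opens) (h : V ≤ T.U l) (m : Γ(S.L a b, V)) :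
    ∃ r : Γ(X, V), m = r • rs (S.L a b) h (S.e a b l) := by
  obtain ⟨r, hr⟩ := ((S.tw a b).bij l V h).2 m
  exact ⟨r, hr.symm⟩

theorem kos_exists_coord' (a b : ℤ) (l : Fin 4) (m : Γ(S.L a b, T.U l)) :
    ∃ r : Γ(X, T.U l), m = r • S.e a b l := by
  obtain ⟨r, hr⟩ := kos_exists_coord S a b l (T.U l) le_rfl m
  exact ⟨r, by rw [hr, kos_rs_refl]⟩

theorem kos_inj (a b : ℤ) (l : Fin 4) {r r' : Γ(X, T.U l)}
    (h : r • S.e a b l = r' • S.e a b l) : r = r' := by
  apply ((S.tw a b).bij l (T.U l) le_rfl).1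
  simp only [kos_rs_refl]
  exact h

theorem kos_exists_mul {a b a1 b1 : ℤ} {s : ∀ l, Γ(X, T.U l)} (h : IsSec T.U (T.c a1 b1) s)
    (a' b' : ℤ) (ha : a' = a + a1) (hb : b' = b + b1) :
    ∃ φ : S.L a b ⟶ S.L a' b',
      ∀ l, φ.app (T.U l) (S.e a b l) = s l • S.e a' b' l := by
  obtain ⟨φ, hφ⟩ := glue_hom T.U T.cov T.aff (fun i j => basic_inf T i j)
    (M := S.L a b) (N := S.L a' b') (twist_qc T.cov (S.tw a b))
    (fun l => kosM S a b a' b' l (T.U l) le_rfl (s l))
    (fun l l' => kosM S a b a' b' l (T.U l ⊓ T.U l') inf_le_left (rf inf_le_left (s l)))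
    (by
      intro l l' m
      obtain ⟨r, rfl⟩ := kos_exists_coord S a b l (T.U l) le_rfl m
      rw [kosM_apply, kos_rs_smul, kos_rs_smul, kos_rs_refl, kos_rs_refl, kosM_apply, kos_rf_mul])
    (by
      intro l l' m
      obtain ⟨r, rfl⟩ := kos_exists_coord S a b l' (T.U l') le_rfl m
      rw [kosM_apply, kos_rs_smul, kos_rs_smul, kos_rs_refl, kos_rs_refl, (S.tw a b).trans,
        (S.tw a' b').trans, smul_smul, smul_smul, kosM_apply, kos_rf_mul, h l l', ha, hb, c_add]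
      congr 1
      ring)
  refine ⟨φ, fun l => ?_⟩
  have h1 := hφ l (S.e a b l)
  rw [h1]
  have h2 := kosM_apply S a b a' b' l (T.U l) le_rfl (s l) 1
  rw [one_smul, kos_rs_refl, kos_rs_refl, mul_one] at h2
  exact h2

theorem exists_mul {a b a1 b1 : ℤ} {s : ∀ l, Γ(X, T.U l)} (h : IsSec T.U (T.c a1 b1) s) :
    ∃ φ : S.L a b ⟶ S.L (a + a1) (b + b1),
      ∀ l, φ.app (T.U l) (S.e a b l) = s l • S.e (a + a1) (b + b1) l :=
  kos_exists_mul S h _ _ rfl rfl

theorem kos_app_smul {M N : X.Modules} (φ : M ⟶ N) {U : X.Opens} (r : Γ(X, U)) (m : Γ(M, U)) :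
    φ.app U (r • m) = r • φ.app U m := Scheme.Modules.Hom.app_smul φ r m

theorem kos_comp_app {M N K : X.Modules} (φ : M ⟶ N) (ψ : N ⟶ K) {U : X.Opens} (m : Γ(M, U)) :
    (φ ≫ ψ).app U m = ψ.app U (φ.app U m) := rfl

theorem kos_biprod {M N : X.Modules} {U : X.Opens} (x : Γ((M ⊞ N : X.Modules), U)) :
    x = (biprod.inl : M ⟶ M ⊞ N).app U ((biprod.fst : M ⊞ N ⟶ M).app U x) +
      (biprod.inr : N ⟶ M ⊞ N).app U ((biprod.snd : M ⊞ N ⟶ N).app U x) := by
  have h := congr_arg (fun φ => Scheme.Modules.Hom.app φ U x) (biprod.total (X := M) (Y := N))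
  exact h.symm

theorem koszul (a b a1 b1 a2 b2 : ℤ) (s1 s2 : ∀ l, Γ(X, T.U l))
    (h1 : IsSec T.U (T.c a1 b1) s1) (h2 : IsSec T.U (T.c a2 b2) s2)
    (hc : ∀ l, IsUnit (s1 l) ∨ IsUnit (s2 l)) :
    ∃ (f : S.L a b ⟶ S.L (a + a1) (b + b1) ⊞ S.L (a + a2) (b + b2))
      (g : S.L (a + a1) (b + b1) ⊞ S.L (a + a2) (b + b2) ⟶ S.L (a + a1 + a2) (b + b1 + b2))
      (w : f ≫ g = 0), (ShortComplex.mk f g w).ShortExact := by
  obtain ⟨m1, hm1⟩ := kos_exists_mul S h1 (a := a) (b := b) (a + a1) (b + b1) rfl rfl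
  obtain ⟨m2, hm2⟩ := kos_exists_mul S h2 (a := a) (b := b) (a + a2) (b + b2) rfl rfl
  obtain ⟨n2, hn2⟩ := kos_exists_mul S h2 (a := a + a1) (b := b + b1) (a + a1 + a2) (b + b1 + b2) rfl rfl
  obtain ⟨n1, hn1⟩ := kos_exists_mul S h1 (a := a + a2) (b := b + b2) (a + a1 + a2) (b + b1 + b2)
    (by ring) (by ring)
  have hcomm : m1 ≫ n2 = m2 ≫ n1 := by
    apply hom_ext_cover T.U T.cov T.aff (twist_qc T.cov (S.tw a b))
    intro l m
    obtain ⟨r, rfl⟩ := kos_exists_coord' S a b l m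
    rw [kos_comp_app, kos_comp_app, kos_app_smul, kos_app_smul, kos_app_smul, kos_app_smul,
      hm1, hm2, kos_app_smul, kos_app_smul, hn1, hn2, smul_smul, smul_smul, smul_smul, smul_smul]
    congr 1
    ring
  refine ⟨biprod.lift m1 m2, biprod.desc n2 (-n1), ?_, ?_⟩
  · rw [biprod.lift_desc, Preadditive.comp_neg, hcomm, add_neg_cancel]
  · have q0 := twist_qc T.cov (S.tw a b)
    have q1 := twist_qc T.cov (S.tw (a + a1) (b + b1))
    have q2 := twist_qc T.cov (S.tw (a + a2) (b + b2))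
    have q3 := twist_qc T.cov (S.tw (a + a1 + a2) (b + b1 + b2))
    apply shortExact_of_sec T.U T.cov T.aff _ q0 (qc_biprod q1 q2) q3
    -- formulas
    have ff : ∀ l (x : Γ(S.L a b, T.U l)),
        (biprod.fst : S.L (a + a1) (b + b1) ⊞ S.L (a + a2) (b + b2) ⟶ _).app (T.U l)
          ((biprod.lift m1 m2).app (T.U l) x) = m1.app (T.U l) x := by
      intro l x
      rw [← kos_comp_app, biprod.lift_fst]
    have fs : ∀ l (x : Γ(S.L a b, T.U l)),
        (biprod.snd : S.L (a + a1) (b + b1) ⊞ S.L (a + a2) (b + b2) ⟶ _).app (T.U l)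
          ((biprod.lift m1 m2).app (T.U l) x) = m2.app (T.U l) x := by
      intro l x
      rw [← kos_comp_app, biprod.lift_snd]
    have gl : ∀ l (p : Γ(S.L (a + a1) (b + b1), T.U l)),
        (biprod.desc n2 (-n1)).app (T.U l)
          ((biprod.inl : _ ⟶ S.L (a + a1) (b + b1) ⊞ S.L (a + a2) (b + b2)).app (T.U l) p) =
          n2.app (T.U l) p := by
      intro l p
      rw [← kos_comp_app, biprod.inl_desc]
    have gr : ∀ l (p : Γ(S.L (a + a2) (b + b2), T.U l)),
        (biprod.desc n2 (-n1)).app (T.U l)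
          ((biprod.inr : _ ⟶ S.L (a + a1) (b + b1) ⊞ S.L (a + a2) (b + b2)).app (T.U l) p) =
          - n1.app (T.U l) p := by
      intro l p
      rw [← kos_comp_app, biprod.inr_desc]
      rfl
    intro l
    refine ⟨?_, ?_, ?_⟩
    · rw [injective_iff_map_eq_zero]
      intro x hx
      obtain ⟨r, rfl⟩ := kos_exists_coord' S a b l x
      have e1 := ff l (r • S.e a b l)
      have e2 := fs l (r • S.e a b l)
      change (biprod.lift m1 m2).app (T.U l) (r • S.e a b l) = 0 at hx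
      rw [hx, map_zero, kos_app_smul, hm1, smul_smul] at e1
      rw [hx, map_zero, kos_app_smul, hm2, smul_smul] at e2
      have z1 : r * s1 l = 0 := kos_inj S (a + a1) (b + b1) l (by rw [← e1, zero_smul])
      have z2 : r * s2 l = 0 := kos_inj S (a + a2) (b + b2) l (by rw [← e2, zero_smul])
      have : r = 0 := by
        rcases hc l with hu | hu
        · exact (hu.mul_left_eq_zero).1 z1
        · exact (hu.mul_left_eq_zero).1 z2
      rw [this, zero_smul]
    · intro y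
      constructor
      · intro hy
        change (biprod.desc n2 (-n1)).app (T.U l) y = 0 at hy
        obtain ⟨p, q, rfl⟩ : ∃ (p : Γ(S.L (a + a1) (b + b1), T.U l)) (q : Γ(S.L (a + a2) (b + b2), T.U l)),
            y = (biprod.inl : _ ⟶ S.L (a + a1) (b + b1) ⊞ S.L (a + a2) (b + b2)).app (T.U l) p +
              (biprod.inr : _ ⟶ S.L (a + a1) (b + b1) ⊞ S.L (a + a2) (b + b2)).app (T.U l) q :=
          ⟨_, _, kos_biprod y⟩
        obtain ⟨r1, rfl⟩ := kos_exists_coord' S _ _ l p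
        obtain ⟨r2, rfl⟩ := kos_exists_coord' S _ _ l q
        rw [map_add, gl, gr, kos_app_smul, kos_app_smul, hn1, hn2, smul_smul, smul_smul,
          ← sub_eq_add_neg, ← sub_smul] at hy
        have hz : r1 * s2 l - r2 * s1 l = 0 :=
          kos_inj S (a + a1 + a2) (b + b1 + b2) l (by rw [hy, zero_smul])
        have hz' : r1 * s2 l = r2 * s1 l := sub_eq_zero.1 hz
        have key : ∃ r : Γ(X, T.U l), r * s1 l = r1 ∧ r * s2 l = r2 := by
          rcases hc l with ⟨u, hu⟩ | ⟨u, hu⟩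
          · refine ⟨r1 * ↑u⁻¹, ?_, ?_⟩
            · rw [← hu, mul_assoc, Units.inv_mul, mul_one]
            · calc r1 * ↑u⁻¹ * s2 l = (r1 * s2 l) * ↑u⁻¹ := by ring
                _ = r2 * (↑u * ↑u⁻¹) := by rw [hz', ← hu]; ring
                _ = r2 := by rw [Units.mul_inv, mul_one]
          · refine ⟨r2 * ↑u⁻¹, ?_, ?_⟩
            · calc r2 * ↑u⁻¹ * s1 l = (r2 * s1 l) * ↑u⁻¹ := by ring
                _ = r1 * (↑u * ↑u⁻¹) := by rw [← hz', ← hu]; ring
                _ = r1 := by rw [Units.mul_inv, mul_one]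
            · rw [← hu, mul_assoc, Units.inv_mul, mul_one]
        obtain ⟨r, k1, k2⟩ := key
        refine ⟨r • S.e a b l, ?_⟩
        change (biprod.lift m1 m2).app (T.U l) (r • S.e a b l) = _
        have v1 : m1.app (T.U l) (r • S.e a b l) = r1 • S.e (a + a1) (b + b1) l := by
          rw [kos_app_smul, hm1, smul_smul, k1]
        have v2 : m2.app (T.U l) (r • S.e a b l) = r2 • S.e (a + a2) (b + b2) l := by
          rw [kos_app_smul, hm2, smul_smul, k2]
        rw [kos_biprod ((biprod.lift m1 m2).app (T.U l) (r • S.e a b l)), ff, fs, v1, v2]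
      · rintro ⟨x, rfl⟩
        change (biprod.desc n2 (-n1)).app (T.U l) ((biprod.lift m1 m2).app (T.U l) x) = 0
        rw [← kos_comp_app, biprod.lift_desc, Preadditive.comp_neg, hcomm, add_neg_cancel]
        rfl
    · intro t
      obtain ⟨r, rfl⟩ := kos_exists_coord' S _ _ l t
      rcases hc l with ⟨u, hu⟩ | ⟨u, hu⟩
      · refine ⟨(biprod.inr : _ ⟶ S.L (a + a1) (b + b1) ⊞ S.L (a + a2) (b + b2)).app (T.U l)
          ((-(r * ↑u⁻¹)) • S.e _ _ l), ?_⟩
        change (biprod.desc n2 (-n1)).app (T.U l) _ = _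
        rw [gr, kos_app_smul, hn1, smul_smul, ← neg_smul, ← hu]
        congr 1
        rw [neg_mul, neg_neg, mul_assoc, Units.inv_mul, mul_one]
      · refine ⟨(biprod.inl : _ ⟶ S.L (a + a1) (b + b1) ⊞ S.L (a + a2) (b + b2)).app (T.U l)
          ((r * ↑u⁻¹) • S.e _ _ l), ?_⟩
        change (biprod.desc n2 (-n1)).app (T.U l) _ = _
        rw [gl, kos_app_smul, hn2, smul_smul, ← hu, mul_assoc, Units.inv_mul, mul_one]

end Pool.H33.P
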