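import Mathlib
import Pool.Agent.H33.P.Def
import Pool.Agent.H33.P.SEC
import Pool.Agent.H33.P.LOCM
import Pool.Agent.H33.P.GLU
import Pool.Agent.H33.P.LBP
import Pool.Agent.H33.P.QSP
import Pool.Agent.H33.P.FSP
import Pool.Agent.H33.P.KOS

/-! # GEN: coherent modules are quotients of finite sums of the line bundles `L a b`

`gen_one`: let `s` be the ample section for the chart `k` (`exists_ample`), of class `(a, b)`.  For all `l` the section
`s l ^ n • t` on `U k ⊓ U l = basicOpen (s l)` extends to `t l : Γ(M, U l)` for `n` large (`loc_surj`), and, after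
multiplying by `s l ^ m`, `t l' = (c a b)^(-n-m) • t l` on `U l ⊓ U l'` (`loc_inj` on this affine open, since both
sides agree on its basic open `U k ⊓ U l ⊓ U l'`).  Then `e l ↦ t l` defines a map from `L (-(n+m) a) (-(n+m) b)` by
`glue_hom`; for `l = k` take `t k = t`.
`exists_epi`: apply `gen_one` to finitely many generators of `Γ(M, U k)`, `k : Fin 4`, `fs_desc` and `epi_of_sec`. -/

open CategoryTheory AlgebraicGeometry Limits TopologicalSpace

namespace Pool.H33.P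

variable {X : Scheme.{0}} {T : ToricData X} (S : LSys T)

theorem gen_rs_rs (M : X.Modules) {U V W : X.Opens} (h : V ≤ U) (h' : W ≤ V) (m : Γ(M, U)) :
    rs M h' (rs M h m) = rs M (h'.trans h) m := by
  unfold rs
  have : (homOfLE (h'.trans h)).op = (homOfLE h).op ≫ (homOfLE h').op := rfl
  rw [this, M.presheaf.map_comp]
  rfl

theorem gen_rf_rf {U V W : X.Opens} (h : V ≤ U) (h' : W ≤ V) (m : Γ(X, U)) :
    rf h' (rf h m) = rf (h'.trans h) m := by
  unfold rf
  have : (homOfLE (h'.trans h)).op = (homOfLE h).op ≫ (homOfLE h').op := rfl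
  rw [this, X.presheaf.map_comp]
  rfl

theorem gen_rf_pow {U V : X.Opens} (h : V ≤ U) (r : Γ(X, U)) (n : ℕ) :
    rf h (r ^ n) = (rf h r) ^ n :=
  map_pow (X.presheaf.map (homOfLE h).op).hom r n

theorem gen_rf_one {U V : X.Opens} (h : V ≤ U) : rf h (1 : Γ(X, U)) = 1 :=
  map_one (X.presheaf.map (homOfLE h).op).hom

theorem gen_rs_sub (M : X.Modules) {U V : X.Opens} (h : V ≤ U) (m m' : Γ(M, U)) :
    rs M h (m - m') = rs M h m - rs M h m' := map_sub _ _ _

theorem gen_rs_add (M : X.Modules) {U V : X.Opens} (h : V ≤ U) (m m' : Γ(M, U)) :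
    rs M h (m + m') = rs M h m + rs M h m' := map_add _ _ _

theorem gen_rs_zero (M : X.Modules) {U V : X.Opens} (h : V ≤ U) :
    rs M h (0 : Γ(M, U)) = 0 := map_zero _

theorem gen_rs_inj (M : X.Modules) {U V : X.Opens} (h : V ≤ U) (e : V = U) {m m' : Γ(M, U)}
    (hm : rs M h m = rs M h m') : m = m' := by
  subst e
  rwa [kos_rs_refl, kos_rs_refl] at hm

/-- gluing a map out of a line bundle -/
theorem gen_glue {M : X.Modules} (a b : ℤ) (t : ∀ l, Γ(M, T.U l))
    (ht : ∀ l l', rs M (V := T.U l ⊓ T.U l') inf_le_right (t l') =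
      T.c a b l l' • rs M (V := T.U l ⊓ T.U l') inf_le_left (t l)) :
    ∃ φ : S.L a b ⟶ M, ∀ l, φ.app (T.U l) (S.e a b l) = t l := by
  obtain ⟨φ, hφ⟩ := glue_hom T.U T.cov T.aff (fun i j => basic_inf T i j)
    (M := S.L a b) (N := M) (twist_qc T.cov (S.tw a b))
    (fun l => (LinearMap.toSpanSingleton Γ(X, T.U l) Γ(M, T.U l) (t l)) ∘ₗ
      (kosE S a b l (T.U l) le_rfl).symm.toLinearMap)
    (fun l l' => (LinearMap.toSpanSingleton Γ(X, T.U l ⊓ T.U l') Γ(M, T.U l ⊓ T.U l')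
      (rs M inf_le_left (t l))) ∘ₗ (kosE S a b l (T.U l ⊓ T.U l') inf_le_left).symm.toLinearMap)
    (by
      intro l l' m
      obtain ⟨r, rfl⟩ := kos_exists_coord S a b l (T.U l) le_rfl m
      rw [kos_rs_smul, gen_rs_rs, ← kosE_apply, ← kosE_apply]
      simp only [LinearMap.comp_apply, LinearEquiv.coe_coe, LinearEquiv.symm_apply_apply,
        LinearMap.toSpanSingleton_apply]
      rw [kos_rs_smul])
    (by
      intro l l' m
      obtain ⟨r, rfl⟩ := kos_exists_coord S a b l' (T.U l') le_rfl m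
      rw [kos_rs_smul, kos_rs_refl, (S.tw a b).trans l l', smul_smul, ← kosE_apply,
        ← kos_rs_refl (S.L a b) (S.e a b l'), ← kosE_apply]
      simp only [LinearMap.comp_apply, LinearEquiv.coe_coe, LinearEquiv.symm_apply_apply,
        LinearMap.toSpanSingleton_apply]
      rw [kos_rs_smul, ht l l', smul_smul])
  refine ⟨φ, fun l => ?_⟩
  rw [hφ l]
  have h2 : S.e a b l = kosE S a b l (T.U l) le_rfl 1 := by
    rw [kosE_apply, one_smul, kos_rs_refl]
  conv_lhs => rw [h2]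
  simp only [LinearMap.comp_apply, LinearEquiv.coe_coe, LinearEquiv.symm_apply_apply,
    LinearMap.toSpanSingleton_apply, one_smul]

theorem gen_c_inv (T : ToricData X) (a b : ℤ) (n : ℕ) (l l' : Fin 4) :
    T.c (-(n * a)) (-(n * b)) l l' * (T.c a b l l') ^ n = 1 := by
  unfold ToricData.c
  rw [← Units.val_pow_eq_pow_val, ← Units.val_mul, ← Units.val_one]
  congr 1
  rw [mul_pow, ← zpow_natCast (_ ^ a), ← zpow_natCast (_ ^ b), ← zpow_mul, ← zpow_mul,
    mul_mul_mul_comm, ← zpow_add, ← zpow_add]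
  have e1 : -(n * a) + a * n = 0 := by ring
  have e2 : -(n * b) + b * n = 0 := by ring
  rw [e1, e2, zpow_zero, zpow_zero, mul_one]

theorem gen_one {M : X.Modules} (hM : M.IsQuasicoherent) (k : Fin 4) (t : Γ(M, T.U k)) :
    ∃ (a b : ℤ) (φ : S.L a b ⟶ M), φ.app (T.U k) (S.e a b k) = t := by
  obtain ⟨a, b, s, hs, hsk, hsl⟩ := exists_ample T k
  -- extension of `s ^ N t`
  have step1 : ∀ l, ∃ n : ℕ, ∃ u : Γ(M, T.U l), rs M (V := T.U k ⊓ T.U l) inf_le_right u =
      rf (V := T.U k ⊓ T.U l) inf_le_right (s l ^ n) • rs M (V := T.U k ⊓ T.U l) inf_le_left t :=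
    fun l => loc_surj M hM (T.aff l) (s l) (hsl l) inf_le_right (rs M inf_le_left t)
  choose n u hu using step1
  obtain ⟨N, hN⟩ : ∃ N, ∀ l, n l ≤ N := ⟨Finset.univ.sup n, fun l => Finset.le_sup (Finset.mem_univ l)⟩
  obtain ⟨v, hv⟩ : ∃ v : ∀ l, Γ(M, T.U l), ∀ l, rs M (V := T.U k ⊓ T.U l) inf_le_right (v l) =
      rf (V := T.U k ⊓ T.U l) inf_le_right (s l ^ N) • rs M (V := T.U k ⊓ T.U l) inf_le_left t := by
    refine ⟨fun l => s l ^ (N - n l) • u l, fun l => ?_⟩
    rw [kos_rs_smul, hu, smul_smul, ← kos_rf_mul, ← pow_add, Nat.sub_add_cancel (hN l)]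
  -- compatibility
  have step2 : ∀ l l', ∃ m : ℕ, (rf (V := T.U l ⊓ T.U l') inf_le_left (s l)) ^ m •
      (rs M inf_le_right (v l') - T.c (-(N * a)) (-(N * b)) l l' • rs M inf_le_left (v l)) = 0 := by
    intro l l'
    have hW : (T.U k ⊓ T.U l ⊓ T.U l') ≤ T.U l ⊓ T.U l' :=
      le_inf (inf_le_left.trans inf_le_right) inf_le_right
    have hWb : T.U k ⊓ T.U l ⊓ T.U l' =
        X.basicOpen (rf (V := T.U l ⊓ T.U l') inf_le_left (s l)) := by
      unfold rf
      rw [Scheme.basicOpen_res, ← hsl l]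
      ext x
      simp only [Opens.coe_inf, Set.mem_inter_iff, SetLike.mem_coe]
      tauto
    refine loc_inj M hM (affine_inf T l l') _ hWb hW _ ?_
    rw [gen_rs_sub, kos_rs_smul, gen_rs_rs, gen_rs_rs]
    have hkl : T.U k ⊓ T.U l ⊓ T.U l' ≤ T.U k ⊓ T.U l := inf_le_left
    have hkl' : T.U k ⊓ T.U l ⊓ T.U l' ≤ T.U k ⊓ T.U l' :=
      le_inf (inf_le_left.trans inf_le_left) inf_le_right
    have e1 := congr_arg (rs M hkl) (hv l)
    have e2 := congr_arg (rs M hkl') (hv l')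
    rw [gen_rs_rs, kos_rs_smul, gen_rs_rs, gen_rf_rf, gen_rf_pow] at e1 e2
    rw [e1, e2, smul_smul, sub_eq_zero]
    congr 1
    -- identity of functions
    have hsec := congr_arg (rf hW) (hs l l')
    rw [kos_rf_mul, gen_rf_rf, gen_rf_rf] at hsec
    rw [hsec, mul_pow, ← mul_assoc, ← gen_rf_pow hW, ← kos_rf_mul, gen_c_inv, gen_rf_one, one_mul]
  choose m hm using step2
  obtain ⟨K, hK⟩ : ∃ K, ∀ l l', m l l' ≤ K := by
    refine ⟨Finset.univ.sup (fun p : Fin 4 × Fin 4 => m p.1 p.2), fun l l' => ?_⟩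
    exact Finset.le_sup (f := fun p : Fin 4 × Fin 4 => m p.1 p.2) (Finset.mem_univ (l, l'))
  have hK' : ∀ l l', (rf (V := T.U l ⊓ T.U l') inf_le_left (s l)) ^ K •
      (rs M inf_le_right (v l') - T.c (-(N * a)) (-(N * b)) l l' • rs M inf_le_left (v l)) = 0 := by
    intro l l'
    rw [← Nat.sub_add_cancel (hK l l'), pow_add, mul_smul, hm, smul_zero]
  obtain ⟨φ, hφ⟩ := gen_glue S (M := M) (-(((N + K : ℕ) : ℤ) * a)) (-(((N + K : ℕ) : ℤ) * b))
    (fun l => s l ^ K • v l) (by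
      intro l l'
      have h1 := hK' l l'
      rw [smul_sub, sub_eq_zero, smul_smul] at h1
      rw [kos_rs_smul, kos_rs_smul, gen_rf_pow, gen_rf_pow]
      have h2 : T.c (-(((N + K : ℕ) : ℤ) * a)) (-(((N + K : ℕ) : ℤ) * b)) l l' =
          T.c (-((K : ℤ) * a)) (-((K : ℤ) * b)) l l' * T.c (-((N : ℤ) * a)) (-((N : ℤ) * b)) l l' := by
        rw [← c_add]
        congr 1 <;> (push_cast; ring)
      have h3 : rf (V := T.U l ⊓ T.U l') inf_le_right (s l') ^ K =
          T.c (-((K : ℤ) * a)) (-((K : ℤ) * b)) l l' * rf (V := T.U l ⊓ T.U l') inf_le_left (s l) ^ K := by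
        rw [hs l l', mul_pow, ← mul_assoc, gen_c_inv, one_mul]
      rw [h3, h2, mul_smul, h1, smul_smul, smul_smul]
      congr 1
      ring)
  refine ⟨_, _, φ, ?_⟩
  rw [hφ k]
  apply gen_rs_inj M (V := T.U k ⊓ T.U k) inf_le_right (inf_idem _)
  rw [kos_rs_smul, hv, hsk, one_pow, one_pow, gen_rf_one, one_smul, one_smul]

theorem exists_epi {M : X.Modules} (hM : IsCoh T.U M) :
    ∃ (E : X.Modules) (p : E ⟶ M), IsFS S E ∧ Epi p := by
  classical
  have h1 : ∀ k, ∃ (n : ℕ) (g : Fin n → Γ(M, T.U k)),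
      Submodule.span Γ(X, T.U k) (Set.range g) = ⊤ := fun k =>
    haveI := hM.fin k
    Module.Finite.exists_fin
  choose n g hg using h1
  let ι := Σ k : Fin 4, Fin (n k)
  have h2 : ∀ i : ι, ∃ (a b : ℤ) (φ : S.L a b ⟶ M), φ.app (T.U i.1) (S.e a b i.1) = g i.1 i.2 :=
    fun i => gen_one S hM.qc i.1 (g i.1 i.2)
  choose a b φ hφ using h2
  let e : Fin (Fintype.card ι) ≃ ι := (Fintype.equivFin ι).symm
  obtain ⟨E, p, hE, hp⟩ := fs_desc S (M := M) (Fintype.card ι) (fun i => a (e i)) (fun i => b (e i))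
    (fun i => φ (e i))
  refine ⟨E, p, hE, ?_⟩
  apply epi_of_sec T.U T.cov T.aff p (fs_qc S hE) hM.qc
  intro k
  let q : Γ(E, T.U k) →ₗ[Γ(X, T.U k)] Γ(M, T.U k) :=
    { toFun := fun x => p.app (T.U k) x
      map_add' := fun x y => map_add _ x y
      map_smul' := fun r x => kos_app_smul p r x }
  have hq : LinearMap.range q = ⊤ := by
    rw [eq_top_iff, ← hg k, Submodule.span_le]
    rintro _ ⟨j, rfl⟩
    have key : ∀ i : ι, ∃ w : S.L (a i) (b i) ⟶ E, w ≫ p = φ i := by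
      intro i
      obtain ⟨i', rfl⟩ := e.surjective i
      exact hp i'
    obtain ⟨w, hw⟩ := key ⟨k, j⟩
    refine ⟨w.app (T.U k) (S.e _ _ k), ?_⟩
    change p.app (T.U k) (w.app (T.U k) (S.e _ _ k)) = _
    rw [← kos_comp_app, hw]
    exact hφ ⟨k, j⟩
  intro y
  have hy : y ∈ LinearMap.range q := by rw [hq]; trivial
  obtain ⟨x, hx⟩ := hy
  exact ⟨x, hx⟩

end Pool.H33.P
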