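import Mathlib
import Pool.Agent.H33.P.Def

/-! # DIA: the total complex of a small double complex

`0 -> G -> X0 -> X1 -> 0`, `0 -> X0 -> P -> Q -> 0`, `0 -> X1 -> P' -> Q' -> 0` exact and a morphism from the
second sequence to the third over `X0 -> X1`.  Then `0 -> G -> P -> P' ⊞ Q -> Q' -> 0` is exact.  Take
`W1 = cokernel (i ≫ a)` and for `j1` the map induced by `biprod.lift u b`. -/

open CategoryTheory Limits

namespace Pool.H33.P

universe v u

theorem total_exact {C : Type u} [Category.{v} C] [Abelian C] {G X0 X1 P Q P' Q' : C}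
    (i : G ⟶ X0) (p : X0 ⟶ X1) (ip : i ≫ p = 0) (h1 : (ShortComplex.mk i p ip).ShortExact)
    (a : X0 ⟶ P) (b : P ⟶ Q) (ab : a ≫ b = 0) (h2 : (ShortComplex.mk a b ab).ShortExact)
    (a' : X1 ⟶ P') (b' : P' ⟶ Q') (ab' : a' ≫ b' = 0) (h3 : (ShortComplex.mk a' b' ab').ShortExact)
    (u : P ⟶ P') (v : Q ⟶ Q') (hu : a ≫ u = p ≫ a') (hv : b ≫ v = u ≫ b') :
    ∃ (W1 : C) (r0 : P ⟶ W1) (j1 : W1 ⟶ P' ⊞ Q) (w0 : (i ≫ a) ≫ r0 = 0)
      (w1 : j1 ≫ biprod.desc b' (-v) = 0),
      (ShortComplex.mk (i ≫ a) r0 w0).ShortExact ∧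
      (ShortComplex.mk j1 (biprod.desc b' (-v)) w1).ShortExact := by
  have mi : Mono i := h1.mono_f
  have ep : Epi p := h1.epi_g
  have ma : Mono a := h2.mono_f
  have eb : Epi b := h2.epi_g
  have ma' : Mono a' := h3.mono_f
  have eb' : Epi b' := h3.epi_g
  have hz : (i ≫ a) ≫ biprod.lift u b = 0 := by
    ext
    · simp [hu, reassoc_of% ip]
    · simp [ab]
  have hw : biprod.lift u b ≫ biprod.desc b' (-v) = 0 := by
    rw [biprod.lift_desc, Preadditive.comp_neg, hv, add_neg_cancel]
  have hd : (biprod.desc b' (-v) : P' ⊞ Q ⟶ Q') = biprod.fst ≫ b' - biprod.snd ≫ v := by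
    rw [biprod.desc_eq, Preadditive.comp_neg, sub_eq_add_neg]
  refine ⟨cokernel (i ≫ a), cokernel.π _, cokernel.desc _ (biprod.lift u b) hz,
    cokernel.condition _, ?_, ?_, ?_⟩
  · rw [← cancel_epi (cokernel.π (i ≫ a)), cokernel.π_desc_assoc, hw, comp_zero]
  · exact { exact := ShortComplex.exact_cokernel _
            mono_f := mono_comp i a
            epi_g := inferInstance }
  · refine { exact := ?_, mono_f := ?_, epi_g := ?_ }
    · rw [ShortComplex.exact_iff_exact_up_to_refinements]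
      intro Z z hzz
      change z ≫ biprod.desc b' (-v) = 0 at hzz
      obtain ⟨Z1, π1, hπ1, x, hx⟩ := surjective_up_to_refinements_of_epi b (z ≫ biprod.snd)
      have e1 : (π1 ≫ z ≫ biprod.fst - x ≫ u) ≫ b' = 0 := by
        have e2 : z ≫ biprod.fst ≫ b' = z ≫ biprod.snd ≫ v := by
          rw [← sub_eq_zero, ← Preadditive.comp_sub, ← hd]
          exact hzz
        rw [Preadditive.sub_comp, Category.assoc, Category.assoc, Category.assoc, e2, ← hv,
          ← reassoc_of% hx, sub_self]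
      obtain ⟨Z2, π2, hπ2, y, hy⟩ := h3.exact.exact_up_to_refinements _ e1
      obtain ⟨Z3, π3, hπ3, t, ht⟩ := surjective_up_to_refinements_of_epi p y
      refine ⟨Z3, π3 ≫ π2 ≫ π1, inferInstance, (π3 ≫ π2 ≫ x + t ≫ a) ≫ cokernel.π _, ?_⟩
      change (π3 ≫ π2 ≫ π1) ≫ z = ((π3 ≫ π2 ≫ x + t ≫ a) ≫ cokernel.π (i ≫ a)) ≫
        cokernel.desc _ (biprod.lift u b) hz
      rw [Category.assoc _ (cokernel.π (i ≫ a)), cokernel.π_desc]
      change π2 ≫ (π1 ≫ z ≫ biprod.fst - x ≫ u) = y ≫ a' at hy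
      ext
      · have e3 : π3 ≫ π2 ≫ (π1 ≫ z ≫ biprod.fst - x ≫ u) = t ≫ a ≫ u := by
          rw [hy, reassoc_of% ht, hu]
        rw [Preadditive.comp_sub, Preadditive.comp_sub, sub_eq_iff_eq_add] at e3
        simp only [Category.assoc, biprod.lift_fst, Preadditive.add_comp, e3]
        rw [add_comm]
      · simp only [Category.assoc, biprod.lift_snd, Preadditive.add_comp, ab, comp_zero, add_zero, hx]
    · refine Preadditive.mono_of_cancel_zero _ fun {Z} g hg => ?_
      obtain ⟨Z1, π1, hπ1, x, hx⟩ := surjective_up_to_refinements_of_epi (cokernel.π (i ≫ a)) g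
      have e0 : x ≫ biprod.lift u b = 0 := by
        have : π1 ≫ g ≫ cokernel.desc _ (biprod.lift u b) hz = 0 := by rw [hg, comp_zero]
        rw [reassoc_of% hx, cokernel.π_desc] at this
        exact this
      have e1 : x ≫ u = 0 := by
        have := congrArg (· ≫ biprod.fst) e0
        simpa using this
      have e2 : x ≫ b = 0 := by
        have := congrArg (· ≫ biprod.snd) e0
        simpa using this
      obtain ⟨y, hy⟩ := h2.exact.lift' x e2
      change y ≫ a = x at hy
      have e3 : y ≫ p = 0 := by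
        rw [← cancel_mono a', Category.assoc, ← hu, reassoc_of% hy, e1, zero_comp]
      obtain ⟨t, ht⟩ := h1.exact.lift' y e3
      change t ≫ i = y at ht
      have hc := cokernel.condition (i ≫ a)
      rw [Category.assoc] at hc
      rw [← cancel_epi π1, hx, ← hy, ← ht, Category.assoc, Category.assoc, hc]
      exact comp_zero.trans comp_zero.symm
    · have : Epi (biprod.inl ≫ biprod.desc b' (-v)) := by rw [biprod.inl_desc]; exact eb'
      exact epi_of_epi biprod.inl _

end Pool.H33.P
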