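import Mathlib
import Pool.Agent.H33.P.Def

/-! # KOP: the functors `G ↦ j_* j^* G` and their relative injectivity

`Γ(K V G, W) = Γ(G, W ⊓ V)` up to equality of opens.  Adjunction: `Scheme.Modules.restrictAdjunction`. -/

open CategoryTheory AlgebraicGeometry Limits TopologicalSpace

namespace Pool.H33.P

variable {X : Scheme.{0}} {ι : Type} (U : ι → X.Opens)

/-- `j_* j^*` for the inclusion `j` of `V` -/
noncomputable def KF (V : X.Opens) : X.Modules ⥤ X.Modules :=
  Scheme.Modules.restrictFunctor V.ι ⋙ Scheme.Modules.pushforward V.ι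

/-- restriction in two steps, as functors -/
noncomputable def kop_iso {U V : X.Opens} (h : V ≤ U) :
    Scheme.Modules.restrictFunctor V.ι ≅
      Scheme.Modules.restrictFunctor U.ι ⋙ Scheme.Modules.restrictFunctor (X.homOfLE h) :=
  Scheme.Modules.restrictFunctorCongr (X.homOfLE_ι h).symm ≪≫
    Scheme.Modules.restrictFunctorComp (X.homOfLE h) U.ι

theorem kop_retraction {U V : X.Opens} (h : V ≤ U) {A B : X.Modules} (i : A ⟶ B)
    (r : B.restrict U.ι ⟶ A.restrict U.ι)
    (hr : (Scheme.Modules.restrictFunctor U.ι).map i ≫ r = 𝟙 _) :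
    ∃ r' : B.restrict V.ι ⟶ A.restrict V.ι,
      (Scheme.Modules.restrictFunctor V.ι).map i ≫ r' = 𝟙 _ := by
  refine ⟨(kop_iso h).hom.app B ≫ (Scheme.Modules.restrictFunctor (X.homOfLE h)).map r ≫
    (kop_iso h).inv.app A, ?_⟩
  have e : (Scheme.Modules.restrictFunctor (X.homOfLE h)).map
        ((Scheme.Modules.restrictFunctor U.ι).map i) ≫
      (Scheme.Modules.restrictFunctor (X.homOfLE h)).map r = 𝟙 _ := by
    rw [← Functor.map_comp, hr]
    exact CategoryTheory.Functor.map_id _ _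
  rw [(kop_iso h).hom.naturality_assoc, Functor.comp_map, reassoc_of% e]
  exact (kop_iso h).hom_inv_id_app A

theorem relInj_KF {V : X.Opens} (h : ∃ l, V ≤ U l) (G : X.Modules) : RelInj U ((KF V).obj G) := by
  obtain ⟨l, hl⟩ := h
  intro A B i hi f
  obtain ⟨r, hr⟩ := hi l
  obtain ⟨r', hr'⟩ := kop_retraction hl i r hr
  let adj := Scheme.Modules.restrictAdjunction V.ι
  let f' : A.restrict V.ι ⟶ G.restrict V.ι := (adj.homEquiv A (G.restrict V.ι)).symm f
  refine ⟨adj.homEquiv B (G.restrict V.ι) (r' ≫ f'), ?_⟩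
  have e := adj.homEquiv_naturality_left i (r' ≫ f')
  rw [reassoc_of% hr'] at e
  exact e.symm.trans ((adj.homEquiv A (G.restrict V.ι)).apply_symm_apply f)

theorem relInj_biprod {A B : X.Modules} (hA : RelInj U A) (hB : RelInj U B) :
    RelInj U (A ⊞ B) := by
  intro A' B' i hi f
  obtain ⟨g1, h1⟩ := hA A' B' i hi (f ≫ biprod.fst)
  obtain ⟨g2, h2⟩ := hB A' B' i hi (f ≫ biprod.snd)
  refine ⟨biprod.lift g1 g2, ?_⟩
  apply biprod.hom_ext
  · rw [Category.assoc, biprod.lift_fst, h1]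
  · rw [Category.assoc, biprod.lift_snd, h2]

theorem relInj_iso {A B : X.Modules} (e : A ≅ B) (hA : RelInj U A) : RelInj U B := by
  intro A' B' i hi f
  obtain ⟨g, h⟩ := hA A' B' i hi (f ≫ e.inv)
  exact ⟨g ≫ e.hom, by rw [reassoc_of% h, e.inv_hom_id, Category.comp_id]⟩

end Pool.H33.P
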