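import Mathlib
import Pool.Agent.H33.P.Def
import Pool.Agent.H33.P.DIA
import Pool.Agent.H33.P.KOP
import Pool.Agent.H33.P.LZ

/-! # MVJ: a relatively injective coresolution of length two

For opens `A, B` with `C = A ⊔ B` and a module `G` the Mayer-Vietoris sequence
`0 -> K C G -> K A G ⊞ K B G -> K (A ⊓ B) G -> 0` is exact (for every module: it is left exact by the sheaf
axiom, and on opens `W ≤ A` the map `K B G -> K (A ⊓ B) G` is an isomorphism on sections over `W`; same for `B`;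
outside of `C` everything vanishes locally - only needed for `C = ⊤` and for `C = A i = (A i ⊓ B0) ⊔ (A i ⊓ B1)`,
where one argues on opens `W` contained in `B0` or in `B1`).  Apply `total_exact` with
`X0 = K A0 G ⊞ K A1 G`, `X1 = K (A0 ⊓ A1) G`, `P = ⊕ K (Ai ⊓ Bj) G`, `Q = ⊕ K (Ai ⊓ B0 ⊓ B1) G`,
`P' = ⊕ K (A0 ⊓ A1 ⊓ Bj) G`, `Q' = K (A0 ⊓ A1 ⊓ B0 ⊓ B1) G`. -/

open CategoryTheory AlgebraicGeometry Limits TopologicalSpace

namespace Pool.H33.P

/-! ### a category lemma -/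

/-- A commutative square in which `a` and `d` are isomorphisms after `R` gives a split sequence. -/
theorem mvj_split1 {C D : Type*} [Category* C] [Category* D] [Abelian C] [Abelian D]
    (R : C ⥤ D) [R.Additive] {G X Y Z : C} (a : G ⟶ X) (b : G ⟶ Y) (c : X ⟶ Z) (d : Y ⟶ Z)
    (w : a ≫ c = b ≫ d) (w' : biprod.lift a b ≫ biprod.desc c (-d) = 0)
    [ha : IsIso (R.map a)] [hd : IsIso (R.map d)] :
    Nonempty ((ShortComplex.mk _ _ w').map R).Splitting := by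
  have hw : R.map a ≫ R.map c = R.map b ≫ R.map d := by
    rw [← R.map_comp, ← R.map_comp, w]
  let r : R.obj (X ⊞ Y) ⟶ R.obj G := R.map biprod.fst ≫ inv (R.map a)
  let s : R.obj Z ⟶ R.obj (X ⊞ Y) := -(inv (R.map d) ≫ R.map biprod.inr)
  have e1 : R.map (biprod.lift a b) ≫ r = 𝟙 _ := by
    show R.map (biprod.lift a b) ≫ R.map biprod.fst ≫ inv (R.map a) = 𝟙 _
    rw [← Category.assoc, ← R.map_comp, biprod.lift_fst, IsIso.hom_inv_id]
  have e2 : s ≫ R.map (biprod.desc c (-d)) = 𝟙 _ := by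
    show (-(inv (R.map d) ≫ R.map biprod.inr)) ≫ R.map (biprod.desc c (-d)) = 𝟙 _
    rw [Preadditive.neg_comp, Category.assoc, ← R.map_comp, biprod.inr_desc, R.map_neg,
      Preadditive.comp_neg, IsIso.inv_hom_id, neg_neg]
  have e3 : r ≫ R.map (biprod.lift a b) + R.map (biprod.desc c (-d)) ≫ s = 𝟙 (R.obj (X ⊞ Y)) := by
    show (R.map biprod.fst ≫ inv (R.map a)) ≫ R.map (biprod.lift a b) +
      R.map (biprod.desc c (-d)) ≫ (-(inv (R.map d) ≫ R.map biprod.inr)) = 𝟙 (R.obj (X ⊞ Y))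
    have h1 : biprod.lift a b = a ≫ biprod.inl + b ≫ biprod.inr := by
      ext <;> simp
    have h2 : biprod.desc c (-d) = biprod.fst ≫ c - biprod.snd ≫ d := by
      ext <;> simp
    have h3 : 𝟙 (R.obj (X ⊞ Y)) = R.map biprod.fst ≫ R.map biprod.inl +
        R.map biprod.snd ≫ R.map biprod.inr := by
      rw [← R.map_comp, ← R.map_comp, ← R.map_add, biprod.total, R.map_id]
    have h4 : inv (R.map a) ≫ R.map b = R.map c ≫ inv (R.map d) := by
      rw [IsIso.inv_comp_eq, ← Category.assoc, IsIso.eq_comp_inv, hw]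
    rw [h1, h2, h3, R.map_add, R.map_sub, R.map_comp, R.map_comp, R.map_comp, R.map_comp]
    simp only [Category.assoc, Preadditive.comp_add, Preadditive.sub_comp, Preadditive.comp_neg,
      IsIso.inv_hom_id_assoc, IsIso.hom_inv_id_assoc]
    rw [← Category.assoc (inv (R.map a)), h4]
    simp only [Category.assoc]
    abel
  exact ⟨⟨r, s, e1, e2, e3⟩⟩

theorem mvj_split2 {C D : Type*} [Category* C] [Category* D] [Abelian C] [Abelian D]
    (R : C ⥤ D) [R.Additive] {G X Y Z : C} (a : G ⟶ X) (b : G ⟶ Y) (c : X ⟶ Z) (d : Y ⟶ Z)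
    (w : a ≫ c = b ≫ d) (w' : biprod.lift a b ≫ biprod.desc c (-d) = 0)
    [hb : IsIso (R.map b)] [hc : IsIso (R.map c)] :
    Nonempty ((ShortComplex.mk _ _ w').map R).Splitting := by
  have hw : R.map a ≫ R.map c = R.map b ≫ R.map d := by
    rw [← R.map_comp, ← R.map_comp, w]
  let r : R.obj (X ⊞ Y) ⟶ R.obj G := R.map biprod.snd ≫ inv (R.map b)
  let s : R.obj Z ⟶ R.obj (X ⊞ Y) := inv (R.map c) ≫ R.map biprod.inl
  have e1 : R.map (biprod.lift a b) ≫ r = 𝟙 _ := by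
    show R.map (biprod.lift a b) ≫ R.map biprod.snd ≫ inv (R.map b) = 𝟙 _
    rw [← Category.assoc, ← R.map_comp, biprod.lift_snd, IsIso.hom_inv_id]
  have e2 : s ≫ R.map (biprod.desc c (-d)) = 𝟙 _ := by
    show (inv (R.map c) ≫ R.map biprod.inl) ≫ R.map (biprod.desc c (-d)) = 𝟙 _
    rw [Category.assoc, ← R.map_comp, biprod.inl_desc, IsIso.inv_hom_id]
  have e3 : r ≫ R.map (biprod.lift a b) + R.map (biprod.desc c (-d)) ≫ s = 𝟙 (R.obj (X ⊞ Y)) := by
    show (R.map biprod.snd ≫ inv (R.map b)) ≫ R.map (biprod.lift a b) +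
      R.map (biprod.desc c (-d)) ≫ (inv (R.map c) ≫ R.map biprod.inl) = 𝟙 (R.obj (X ⊞ Y))
    have h1 : biprod.lift a b = a ≫ biprod.inl + b ≫ biprod.inr := by
      ext <;> simp
    have h2 : biprod.desc c (-d) = biprod.fst ≫ c - biprod.snd ≫ d := by
      ext <;> simp
    have h3 : 𝟙 (R.obj (X ⊞ Y)) = R.map biprod.fst ≫ R.map biprod.inl +
        R.map biprod.snd ≫ R.map biprod.inr := by
      rw [← R.map_comp, ← R.map_comp, ← R.map_add, biprod.total, R.map_id]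
    have h4 : inv (R.map b) ≫ R.map a = R.map d ≫ inv (R.map c) := by
      rw [IsIso.inv_comp_eq, ← Category.assoc, IsIso.eq_comp_inv, hw]
    rw [h1, h2, h3, R.map_add, R.map_sub, R.map_comp, R.map_comp, R.map_comp, R.map_comp]
    simp only [Category.assoc, Preadditive.comp_add, Preadditive.sub_comp,
      IsIso.inv_hom_id_assoc, IsIso.hom_inv_id_assoc]
    rw [← Category.assoc (inv (R.map b)), h4]
    simp only [Category.assoc]
    abel
  exact ⟨⟨r, s, e1, e2, e3⟩⟩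

variable {X : Scheme.{0}}

/-- the additive structure of `KF` -/
noncomputable instance mvj_additive (V : X.Opens) : (KF V).Additive := by
  unfold KF
  infer_instance

/-- the unit `G ⟶ j_* j^* G` -/
noncomputable def mvj_unit (V : X.Opens) : 𝟭 X.Modules ⟶ KF V :=
  (Scheme.Modules.restrictAdjunction V.ι).unit

theorem mvj_isIso_map (M : X.Modules) {U V : X.Opens} (h : V ≤ U) (h' : U ≤ V) :
    IsIso (M.presheaf.map (homOfLE h).op) := by
  have : U = V := le_antisymm h' h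
  subst this
  have e : (homOfLE h) = 𝟙 U := rfl
  rw [e, op_id, M.presheaf.map_id]
  infer_instance

theorem mvj_img (V W : X.Opens) : V.ι ''ᵁ (V.ι ⁻¹ᵁ W) = V ⊓ W := by
  rw [Scheme.Hom.image_preimage_eq_opensRange_inf, Scheme.Opens.opensRange_ι]

theorem mvj_img_le (V : X.Opens) (W : (V : Scheme.{0}).Opens) : V.ι ''ᵁ W ≤ V := by
  have := Scheme.Hom.image_le_opensRange V.ι W
  rwa [Scheme.Opens.opensRange_ι] at this

/-- `M` is supported on `V` (that is, `M` is the push-forward of its restriction to `V`) -/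
def MvjSupp (V : X.Opens) (M : X.Modules) : Prop :=
  ∀ (W W' : X.Opens) (h : W' ≤ W), V ⊓ W ≤ W' → IsIso (M.presheaf.map (homOfLE h).op)

theorem mvj_t1 (V : X.Opens) (M : X.Modules) {W W' : X.Opens} (h : W' ≤ W)
    (h' : V.ι ''ᵁ (V.ι ⁻¹ᵁ W') ≤ V.ι ''ᵁ (V.ι ⁻¹ᵁ W))
    (hi : IsIso (M.presheaf.map (homOfLE h').op)) :
    IsIso (((KF V).obj M).presheaf.map (homOfLE h).op) := hi

theorem mvj_supp_KF (V : X.Opens) (M : X.Modules) : MvjSupp V ((KF V).obj M) := by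
  intro W W' h hW
  have h1 : V.ι ''ᵁ (V.ι ⁻¹ᵁ W') ≤ V.ι ''ᵁ (V.ι ⁻¹ᵁ W) := by
    rw [mvj_img, mvj_img]
    exact inf_le_inf_left _ h
  have h2 : V.ι ''ᵁ (V.ι ⁻¹ᵁ W) ≤ V.ι ''ᵁ (V.ι ⁻¹ᵁ W') := by
    rw [mvj_img, mvj_img]
    exact le_inf inf_le_left hW
  exact mvj_t1 V M h h1 (mvj_isIso_map M h1 h2)

theorem mvj_supp_KF' (V B : X.Opens) (M : X.Modules) (hM : MvjSupp V M) :
    MvjSupp (V ⊓ B) ((KF B).obj M) := by
  intro W W' h hW
  have h1 : B.ι ''ᵁ (B.ι ⁻¹ᵁ W') ≤ B.ι ''ᵁ (B.ι ⁻¹ᵁ W) := by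
    rw [mvj_img, mvj_img]
    exact inf_le_inf_left _ h
  refine mvj_t1 B M h h1 (hM _ _ h1 ?_)
  rw [mvj_img, mvj_img]
  exact le_inf (inf_le_right.trans inf_le_left) ((inf_assoc _ _ _).symm.le.trans hW)

theorem mvj_supp_mono {V V' : X.Opens} (h : V ≤ V') (M : X.Modules) (hM : MvjSupp V M) :
    MvjSupp V' M :=
  fun W W' hW h' => hM W W' hW ((inf_le_inf_right _ h).trans h')

theorem mvj_isIso_unit (V : X.Opens) (M : X.Modules) (hM : MvjSupp V M) :
    IsIso ((mvj_unit V).app M) := by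
  rw [Scheme.Modules.Hom.isIso_iff_isIso_app]
  intro W
  have h := hM W (V.ι ''ᵁ (V.ι ⁻¹ᵁ W)) (V.ι.image_preimage_le W) (mvj_img V W).ge
  exact h

theorem mvj_relInj {ι : Type} (U : ι → X.Opens) {V : X.Opens} (h : ∃ l, V ≤ U l) (M : X.Modules)
    (hM : MvjSupp V M) : RelInj U M := by
  have := mvj_isIso_unit V M hM
  exact relInj_iso U (asIso ((mvj_unit V).app M)).symm (relInj_KF U h M)

/-- unit is an isomorphism after restriction -/
theorem mvj_isIso_restrict_unit (V : X.Opens) (M : X.Modules) :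
    IsIso ((Scheme.Modules.restrictFunctor V.ι).map ((mvj_unit V).app M)) := by
  rw [Scheme.Modules.Hom.isIso_iff_isIso_app]
  intro W
  have h1 : V.ι ''ᵁ (V.ι ⁻¹ᵁ (V.ι ''ᵁ W)) ≤ V.ι ''ᵁ W := by
    rw [mvj_img]
    exact inf_le_right
  have h2 : V.ι ''ᵁ W ≤ V.ι ''ᵁ (V.ι ⁻¹ᵁ (V.ι ''ᵁ W)) := by
    rw [mvj_img]
    exact le_inf (mvj_img_le V W) le_rfl
  have h3 := mvj_isIso_map M h1 h2
  exact h3

theorem mvj_isIso_restrict_KF_unit (V A : X.Opens) (M : X.Modules) :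
    IsIso ((Scheme.Modules.restrictFunctor V.ι).map ((KF A).map ((mvj_unit V).app M))) := by
  rw [Scheme.Modules.Hom.isIso_iff_isIso_app]
  intro W
  have h1 : V.ι ''ᵁ (V.ι ⁻¹ᵁ (A.ι ''ᵁ (A.ι ⁻¹ᵁ (V.ι ''ᵁ W)))) ≤ A.ι ''ᵁ (A.ι ⁻¹ᵁ (V.ι ''ᵁ W)) := by
    rw [mvj_img, mvj_img]
    exact inf_le_right
  have h2 : A.ι ''ᵁ (A.ι ⁻¹ᵁ (V.ι ''ᵁ W)) ≤ V.ι ''ᵁ (V.ι ⁻¹ᵁ (A.ι ''ᵁ (A.ι ⁻¹ᵁ (V.ι ''ᵁ W)))) := by
    rw [mvj_img, mvj_img]
    exact le_inf (inf_le_right.trans (mvj_img_le V W)) le_rfl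
  have h3 := mvj_isIso_map M h1 h2
  exact h3

theorem mvj_sq (A B : X.Opens) (M : X.Modules) :
    (mvj_unit A).app M ≫ (KF A).map ((mvj_unit B).app M) =
      (mvj_unit B).app M ≫ (mvj_unit A).app ((KF B).obj M) :=
  ((mvj_unit A).naturality ((mvj_unit B).app M)).symm

theorem mvj_zero (A B : X.Opens) (M : X.Modules) :
    biprod.lift ((mvj_unit A).app M) ((mvj_unit B).app M) ≫
      biprod.desc ((KF A).map ((mvj_unit B).app M)) (-((mvj_unit A).app ((KF B).obj M))) = 0 := by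
  rw [biprod.lift_desc, Preadditive.comp_neg, mvj_sq A B M]
  exact add_neg_cancel _

/-- the Mayer-Vietoris sequence of `A ⊔ B = ⊤` -/
theorem mvj_exact (A B : X.Opens) (hAB : A ⊔ B = ⊤) (M : X.Modules) :
    (ShortComplex.mk _ _ (mvj_zero A B M)).ShortExact := by
  let U : Bool → X.Opens := fun b => if b then A else B
  have hU : ⨆ b, U b = ⊤ := by
    rw [iSup_bool_eq]
    exact hAB
  have key : ∀ b, Nonempty ((ShortComplex.mk _ _ (mvj_zero A B M)).map
      (Scheme.Modules.restrictFunctor (U b).ι)).Splitting := by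
    intro b
    cases b
    · have i1 := mvj_isIso_restrict_unit B M
      have i2 := mvj_isIso_restrict_KF_unit B A M
      exact mvj_split2 (Scheme.Modules.restrictFunctor B.ι) _ _ _ _ (mvj_sq A B M) _
    · have i1 := mvj_isIso_restrict_unit A M
      have i2 := mvj_isIso_restrict_unit A ((KF B).obj M)
      exact mvj_split1 (Scheme.Modules.restrictFunctor A.ι) _ _ _ _ (mvj_sq A B M) _
  have h1 := mono_of_cover U hU (ShortComplex.mk _ _ (mvj_zero A B M)).f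
    (fun b => (key b).some.mono_f)
  have h2 := epi_of_cover U hU (ShortComplex.mk _ _ (mvj_zero A B M)).g
    (fun b => (key b).some.epi_g)
  exact ⟨exact_of_cover U hU _ (fun b => (key b).some.exact)⟩

theorem mvj_relInj_biprod {ι : Type} (U : ι → X.Opens) (B : X.Opens) {A0 A1 : X.Opens}
    {M0 M1 : X.Modules} (h0 : MvjSupp A0 M0) (h1 : MvjSupp A1 M1)
    (h00 : ∃ l, A0 ⊓ B ≤ U l) (h10 : ∃ l, A1 ⊓ B ≤ U l) :
    RelInj U ((KF B).obj (M0 ⊞ M1)) := by
  have : PreservesBinaryBiproducts (KF B) := preservesBinaryBiproducts_of_preservesBiproducts _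
  refine relInj_iso U ((KF B).mapBiprod M0 M1).symm (relInj_biprod U ?_ ?_)
  · exact mvj_relInj U h00 _ (mvj_supp_KF' A0 B M0 h0)
  · exact mvj_relInj U h10 _ (mvj_supp_KF' A1 B M1 h1)

theorem mvj_relInj_biprod2 {ι : Type} (U : ι → X.Opens) (B B' : X.Opens) {A0 A1 : X.Opens}
    {M0 M1 : X.Modules} (h0 : MvjSupp A0 M0) (h1 : MvjSupp A1 M1)
    (h00 : ∃ l, A0 ⊓ B' ≤ U l) (h10 : ∃ l, A1 ⊓ B' ≤ U l) :
    RelInj U ((KF B).obj ((KF B').obj (M0 ⊞ M1))) := by
  have : PreservesBinaryBiproducts (KF B') := preservesBinaryBiproducts_of_preservesBiproducts _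
  refine relInj_iso U ((KF B).mapIso ((KF B').mapBiprod M0 M1)).symm ?_
  refine mvj_relInj_biprod U B (mvj_supp_KF' A0 B' M0 h0) (mvj_supp_KF' A1 B' M1 h1) ?_ ?_
  · exact h00.imp fun l hl => inf_le_left.trans hl
  · exact h10.imp fun l hl => inf_le_left.trans hl

theorem exists_coresolution {X : Scheme.{0}} {ι : Type} (U : ι → X.Opens) (A0 A1 B0 B1 : X.Opens)
    (hA : A0 ⊔ A1 = ⊤) (hB : B0 ⊔ B1 = ⊤) (h00 : ∃ l, A0 ⊓ B0 ≤ U l) (h01 : ∃ l, A0 ⊓ B1 ≤ U l)
    (h10 : ∃ l, A1 ⊓ B0 ≤ U l) (h11 : ∃ l, A1 ⊓ B1 ≤ U l) (G : X.Modules) :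
    ∃ (J0 J1 W1 W2 : X.Modules) (j0 : G ⟶ J0) (r0 : J0 ⟶ W1) (w0 : j0 ≫ r0 = 0)
      (j1 : W1 ⟶ J1) (r1 : J1 ⟶ W2) (w1 : j1 ≫ r1 = 0),
      (ShortComplex.mk j0 r0 w0).ShortExact ∧ (ShortComplex.mk j1 r1 w1).ShortExact ∧
      RelInj U J0 ∧ RelInj U J1 ∧ RelInj U W2 := by
  have e1 := mvj_exact A0 A1 hA G
  let X0 : X.Modules := (KF A0).obj G ⊞ (KF A1).obj G
  let X1 : X.Modules := (KF A0).obj ((KF A1).obj G)
  have e2 := mvj_exact B0 B1 hB X0
  have e3 := mvj_exact B0 B1 hB X1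
  let p : X0 ⟶ X1 := biprod.desc ((KF A0).map ((mvj_unit A1).app G))
    (-((mvj_unit A0).app ((KF A1).obj G)))
  have hX1 : MvjSupp A0 X1 := mvj_supp_KF A0 _
  obtain ⟨W1, r0, j1, w0, w1, s0, s1⟩ := total_exact _ _ _ e1 _ _ _ e2 _ _ _ e3
    (biprod.map ((KF B0).map p) ((KF B1).map p)) ((KF B0).map ((KF B1).map p))
    (by
      apply biprod.hom_ext
      · simp only [Category.assoc, biprod.map_fst, biprod.lift_fst, biprod.lift_fst_assoc]
        exact ((mvj_unit B0).naturality p).symm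
      · simp only [Category.assoc, biprod.map_snd, biprod.lift_snd, biprod.lift_snd_assoc]
        exact ((mvj_unit B1).naturality p).symm)
    (by
      apply biprod.hom_ext'
      · simp only [biprod.inl_desc_assoc, biprod.inl_map_assoc, biprod.inl_desc]
        rw [← (KF B0).map_comp, ← (KF B0).map_comp]
        exact congrArg _ ((mvj_unit B1).naturality p).symm
      · simp only [biprod.inr_desc_assoc, biprod.inr_map_assoc, biprod.inr_desc,
          Preadditive.neg_comp, Preadditive.comp_neg]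
        exact congrArg _ ((mvj_unit B0).naturality ((KF B1).map p)).symm)
  refine ⟨_, _, W1, _, _, r0, w0, j1, _, w1, s0, s1, ?_, ?_, ?_⟩
  · exact relInj_biprod U
      (mvj_relInj_biprod U B0 (mvj_supp_KF A0 G) (mvj_supp_KF A1 G) h00 h10)
      (mvj_relInj_biprod U B1 (mvj_supp_KF A0 G) (mvj_supp_KF A1 G) h01 h11)
  · refine relInj_biprod U (relInj_biprod U ?_ ?_) ?_
    · exact mvj_relInj U h00 _ (mvj_supp_KF' A0 B0 _ hX1)
    · exact mvj_relInj U h01 _ (mvj_supp_KF' A0 B1 _ hX1)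
    · exact mvj_relInj_biprod2 U B0 B1 (mvj_supp_KF A0 G) (mvj_supp_KF A1 G) h01 h11
  · exact mvj_relInj U (h01.imp fun l hl => inf_le_left.trans hl) _
      (mvj_supp_KF' _ B0 _ (mvj_supp_KF' A0 B1 _ hX1))

end Pool.H33.P
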