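import Mathlib
import Pool.Agent.H33.P.TRI1

/-! # TRI2: a bounded complex lies in `Q` if its cohomology objects do -/

open CategoryTheory Limits Pretriangulated

namespace Pool.H33.P

universe w v u

variable {C : Type u} [Category.{v} C] [Abelian C] [HasDerivedCategory.{w} C]
  (Q : ObjectProperty (DerivedCategory C)) [Q.IsTriangulated] [Q.IsClosedUnderIsomorphisms]

theorem tri2_iso1 (T : Triangle (DerivedCategory C)) (hT : T ∈ distTriang _) (i : ℤ)
    (h3 : IsZero ((DerivedCategory.homologyFunctor C i).obj T.obj₃))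
    (h3' : IsZero ((DerivedCategory.homologyFunctor C (i - 1)).obj T.obj₃)) :
    IsIso ((DerivedCategory.homologyFunctor C i).map T.mor₁) := by
  have h1 : Mono ((DerivedCategory.homologyFunctor C i).map T.mor₁) :=
    (DerivedCategory.HomologySequence.mono_homologyMap_mor₁_iff T hT (i - 1) i (by lia)).2
      (h3'.eq_of_src _ _)
  have h2 : Epi ((DerivedCategory.homologyFunctor C i).map T.mor₁) :=
    (DerivedCategory.HomologySequence.epi_homologyMap_mor₁_iff T hT i).2 (h3.eq_of_tgt _ _)
  exact isIso_of_mono_of_epi _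

theorem tri2_iso2 (T : Triangle (DerivedCategory C)) (hT : T ∈ distTriang _) (i : ℤ)
    (h1 : IsZero ((DerivedCategory.homologyFunctor C i).obj T.obj₁))
    (h1' : IsZero ((DerivedCategory.homologyFunctor C (i + 1)).obj T.obj₁)) :
    IsIso ((DerivedCategory.homologyFunctor C i).map T.mor₂) := by
  have e1 : Mono ((DerivedCategory.homologyFunctor C i).map T.mor₂) :=
    (DerivedCategory.HomologySequence.mono_homologyMap_mor₂_iff T hT i).2 (h1.eq_of_src _ _)
  have e2 : Epi ((DerivedCategory.homologyFunctor C i).map T.mor₂) :=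
    (DerivedCategory.HomologySequence.epi_homologyMap_mor₂_iff T hT i (i + 1) rfl).2
      (h1'.eq_of_tgt _ _)
  exact isIso_of_mono_of_epi _

theorem tri2_base (P : DerivedCategory C) (a : ℤ) (ha : P.IsGE a) (hb : P.IsLE a)
    (h : Q (sgl ((DerivedCategory.homologyFunctor C a).obj P))) : Q P := by
  obtain ⟨Y, ⟨e⟩⟩ := DerivedCategory.exists_iso_singleFunctor_obj_of_isGE_of_isLE P a
  have e1 : (DerivedCategory.homologyFunctor C a).obj P ≅ Y :=
    (DerivedCategory.homologyFunctor C a).mapIso e ≪≫
      (DerivedCategory.singleFunctorCompHomologyFunctorIso C a).app Y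
  have h1 : Q (sgl Y) := q_iso Q e1 h
  have e2 : ((DerivedCategory.singleFunctor C 0).obj Y)⟦(-a : ℤ)⟧ ≅
      (DerivedCategory.singleFunctor C a).obj Y :=
    ((DerivedCategory.singleFunctors C).shiftIso (-a) a 0 (by simp)).app Y
  exact Q.prop_of_iso (e2 ≪≫ e.symm) (Q.le_shift (-a) _ h1)

theorem tri2_ind (a : ℤ) (n : ℕ) : ∀ P : DerivedCategory C, P.IsGE a → P.IsLE (a + n) →
    (∀ i : ℤ, Q (sgl ((DerivedCategory.homologyFunctor C i).obj P))) → Q P := by
  induction n with
  | zero =>
    intro P ha hb h
    exact tri2_base Q P a ha (by simpa using hb) (h a)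
  | succ n ih =>
    intro P ha hb h
    obtain ⟨X, Y, hX, hY, f, g, δ, hT⟩ :=
      (DerivedCategory.TStructure.t (C := C)).exists_triangle P (a + n) (a + n + 1) rfl
    have hX' : X.IsLE (a + n) := ⟨hX⟩
    have hY' : Y.IsGE (a + n + 1) := ⟨hY⟩
    rw [DerivedCategory.isLE_iff] at hX' hb
    rw [DerivedCategory.isGE_iff] at hY' ha
    have i1 : ∀ i : ℤ, i ≤ a + n → IsIso ((DerivedCategory.homologyFunctor C i).map f) :=
      fun i hi => tri2_iso1 _ hT i (hY' _ (by lia)) (hY' _ (by lia))
    have i2 : ∀ i : ℤ, a + n + 1 ≤ i → IsIso ((DerivedCategory.homologyFunctor C i).map g) :=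
      fun i hi => tri2_iso2 _ hT i (hX' _ (by lia)) (hX' _ (by lia))
    have qX : Q X := by
      refine ih X ?_ ((DerivedCategory.isLE_iff _ _).2 hX') fun i => ?_
      · rw [DerivedCategory.isGE_iff]
        intro i hi
        have := i1 i (by lia)
        exact (ha i hi).of_iso (asIso ((DerivedCategory.homologyFunctor C i).map f))
      · rcases le_or_gt i (a + n) with hi | hi
        · have := i1 i hi
          exact q_iso Q (asIso ((DerivedCategory.homologyFunctor C i).map f)).symm (h i)
        · exact q_zero Q (hX' i hi)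
    have qY : Q Y := by
      refine tri2_base Q Y (a + n + 1) ((DerivedCategory.isGE_iff _ _).2 hY') ?_ ?_
      · rw [DerivedCategory.isLE_iff]
        intro i hi
        have := i2 i (by lia)
        exact (hb i (by push_cast; lia)).of_iso (asIso ((DerivedCategory.homologyFunctor C i).map g)).symm
      · have := i2 (a + n + 1) le_rfl
        exact q_iso Q (asIso ((DerivedCategory.homologyFunctor C (a + n + 1)).map g)) (h _)
    exact Q.ext_of_isTriangulatedClosed₂ _ hT qX qY

/-- Induction on `b - a`: use the truncation triangles of the t-structure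
`DerivedCategory.TStructure.t` (`exists_triangle`), `DerivedCategory.isGE_iff`, `isLE_iff`, the long
exact sequence (`DerivedCategory.HomologySequence`), and
`DerivedCategory.exists_iso_singleFunctor_obj_of_isGE_of_isLE`. -/
theorem q_bounded (P : DerivedCategory C) (a b : ℤ) (ha : P.IsGE a) (hb : P.IsLE b)
    (h : ∀ i : ℤ, Q (sgl ((DerivedCategory.homologyFunctor C i).obj P))) : Q P := by
  refine tri2_ind Q a (b - a).toNat P ha ?_ h
  rw [DerivedCategory.isLE_iff] at hb ⊢
  intro i hi
  exact hb i (by have := Int.self_le_toNat (b - a); lia)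

end Pool.H33.P
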