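import Mathlib
import Pool.Agent.H33.P.TRI1

/-! # TRI3: an object with a finite relatively injective coresolution is a retract

Proof.  Let `d0 : V1 -> V0[1]`, `d1 : V2 -> V1[1]`, `d2 : V3 -> V2[1]` be the connecting maps
(`ShortComplex.ShortExact.singleδ`) of the sequences `0 -> Vi -> Ei -> V(i+1) -> 0`.
(1) By naturality of the connecting maps (`ShortComplex.ShortExact.singleTriangle.map`, field `comm₃`) the
composite `V3 -> V2[1] -> V1[2] -> V0[3]` equals (connecting maps of the `J`-sequences) after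
`V3 -> V2[1] -> W2[1]`, and `d2` followed by `w2[1]` is zero since `w2` extends along `i2`
(`a2`; consecutive maps of a distinguished triangle compose to zero).
(2) All three maps `d_i` have their cones in `Q`, hence also the composite (`ObjectProperty.trW`).
(3) Since the composite `V3 -> V0[3]` is zero, its cone contains `V0[3]` as a retract. -/

open CategoryTheory Limits Pretriangulated

namespace Pool.H33.P

universe w v u

variable {C : Type u} [Category.{v} C] [Abelian C] [HasDerivedCategory.{w} C]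
  (Q : ObjectProperty (DerivedCategory C)) [Q.IsTriangulated] [Q.IsStableUnderRetracts]

theorem tri3_unshift (A : DerivedCategory C) (h : Q (A⟦(1 : ℤ)⟧)) : Q A :=
  Q.prop_of_iso ((shiftEquiv (DerivedCategory C) (1 : ℤ)).unitIso.symm.app A) (Q.le_shift (-1) _ h)

theorem tri3_trW {S : ShortComplex C} (hS : S.ShortExact) (h : Q (sgl S.X₂)) :
    Q.trW hS.singleδ :=
  ObjectProperty.trW.mk Q (T := hS.singleTriangle.rotate.rotate)
    (rot_of_distTriang _ (rot_of_distTriang _ hS.singleTriangle_distinguished)) (Q.le_shift 1 _ h)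

/-- naturality of the connecting map -/
theorem tri3_nat {S S' : ShortComplex C} (h : S.ShortExact) (h' : S'.ShortExact) (f : S ⟶ S') :
    h.singleδ ≫ ((DerivedCategory.singleFunctor C 0).map f.τ₁)⟦(1 : ℤ)⟧' =
      (DerivedCategory.singleFunctor C 0).map f.τ₃ ≫ h'.singleδ :=
  (ShortComplex.ShortExact.singleTriangle.map h h' f).comm₃

/-- the connecting map followed by the (shifted) first map is zero -/
theorem tri3_zero {S : ShortComplex C} (h : S.ShortExact) :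
    h.singleδ ≫ ((DerivedCategory.singleFunctor C 0).map S.f)⟦(1 : ℤ)⟧' = 0 :=
  comp_distTriang_mor_zero₃₁ _ h.singleTriangle_distinguished

theorem tri3_retract {A B : DerivedCategory C} (f : A ⟶ B) (h : Q.trW f) (h0 : f = 0) : Q B := by
  obtain ⟨Z, g, δ, hT, hZ⟩ := h
  have hm : Mono g := (Triangle.mk f g δ).mono₂ hT h0
  have : IsSplitMono g := isSplitMono_of_mono g
  exact Q.prop_of_retract ⟨g, retraction g, by simp⟩ hZ

theorem retract_chain {V0 V1 V2 V3 E0 E1 E2 J0 J1 W1 W2 : C}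
    (i0 : V0 ⟶ E0) (p0 : E0 ⟶ V1) (z0 : i0 ≫ p0 = 0) (s0 : (ShortComplex.mk i0 p0 z0).ShortExact)
    (i1 : V1 ⟶ E1) (p1 : E1 ⟶ V2) (z1 : i1 ≫ p1 = 0) (s1 : (ShortComplex.mk i1 p1 z1).ShortExact)
    (i2 : V2 ⟶ E2) (p2 : E2 ⟶ V3) (z2 : i2 ≫ p2 = 0) (s2 : (ShortComplex.mk i2 p2 z2).ShortExact)
    (j0 : V0 ⟶ J0) (r0 : J0 ⟶ W1) (y0 : j0 ≫ r0 = 0) (t0 : (ShortComplex.mk j0 r0 y0).ShortExact)
    (j1 : W1 ⟶ J1) (r1 : J1 ⟶ W2) (y1 : j1 ≫ r1 = 0) (t1 : (ShortComplex.mk j1 r1 y1).ShortExact)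
    (a0 : E0 ⟶ J0) (h0 : i0 ≫ a0 = j0) (w1 : V1 ⟶ W1) (k0 : p0 ≫ w1 = a0 ≫ r0)
    (a1 : E1 ⟶ J1) (h1 : i1 ≫ a1 = w1 ≫ j1) (w2 : V2 ⟶ W2) (k1 : p1 ≫ w2 = a1 ≫ r1)
    (a2 : E2 ⟶ W2) (h2 : i2 ≫ a2 = w2)
    (q0 : Q (sgl E0)) (q1 : Q (sgl E1)) (q2 : Q (sgl E2)) : Q (sgl V0) := by
  let F0 : ShortComplex.mk i0 p0 z0 ⟶ ShortComplex.mk j0 r0 y0 :=
    { τ₁ := 𝟙 _, τ₂ := a0, τ₃ := w1
      comm₁₂ := by simp [h0]
      comm₂₃ := by simp [k0] }
  let F1 : ShortComplex.mk i1 p1 z1 ⟶ ShortComplex.mk j1 r1 y1 :=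
    { τ₁ := w1, τ₂ := a1, τ₃ := w2
      comm₁₂ := by simp [h1]
      comm₂₃ := by simp [k1] }
  have n0 : s0.singleδ = (DerivedCategory.singleFunctor C 0).map w1 ≫ t0.singleδ := by
    have := tri3_nat s0 t0 F0
    change s0.singleδ ≫ ((DerivedCategory.singleFunctor C 0).map (𝟙 V0))⟦(1 : ℤ)⟧' = _ at this
    rw [CategoryTheory.Functor.map_id, CategoryTheory.Functor.map_id] at this
    exact (Category.comp_id _).symm.trans this
  have n1 : s1.singleδ ≫ ((DerivedCategory.singleFunctor C 0).map w1)⟦(1 : ℤ)⟧' =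
      (DerivedCategory.singleFunctor C 0).map w2 ≫ t1.singleδ := tri3_nat s1 t1 F1
  have n2 : s2.singleδ ≫ ((DerivedCategory.singleFunctor C 0).map w2)⟦(1 : ℤ)⟧' = 0 := by
    have := tri3_zero s2
    rw [← h2, Functor.map_comp, Functor.map_comp]
    exact (Category.assoc _ _ _).symm.trans ((congrArg (· ≫ _) this).trans zero_comp)
  have m1 : s1.singleδ ≫ (s0.singleδ)⟦(1 : ℤ)⟧' =
      (DerivedCategory.singleFunctor C 0).map w2 ≫ t1.singleδ ≫ (t0.singleδ)⟦(1 : ℤ)⟧' := by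
    rw [n0, Functor.map_comp]
    exact (Category.assoc _ _ _).symm.trans ((congrArg (· ≫ _) n1).trans (Category.assoc _ _ _))
  have m2 : s2.singleδ ≫ (s1.singleδ ≫ (s0.singleδ)⟦(1 : ℤ)⟧')⟦(1 : ℤ)⟧' = 0 := by
    rw [m1, Functor.map_comp]
    exact (Category.assoc _ _ _).symm.trans ((congrArg (· ≫ _) n2).trans zero_comp)
  have c1 : Q.trW (s1.singleδ ≫ (s0.singleδ)⟦(1 : ℤ)⟧') :=
    Q.trW.comp_mem _ _ (tri3_trW Q s1 q1) ((tri3_trW Q s0 q0).shift 1)
  have c2 : Q.trW (s2.singleδ ≫ (s1.singleδ ≫ (s0.singleδ)⟦(1 : ℤ)⟧')⟦(1 : ℤ)⟧') :=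
    Q.trW.comp_mem _ _ (tri3_trW Q s2 q2) (c1.shift 1)
  exact tri3_unshift Q _ (tri3_unshift Q _ (tri3_unshift Q _ (tri3_retract Q _ c2 m2)))

end Pool.H33.P
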