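import Mathlib
import Pool.Agent.H33.P.Def

/-! # EDef: graded rings whose `Proj` is the surface `F_1` -/

open CategoryTheory AlgebraicGeometry Limits TopologicalSpace

namespace Pool.H33.P

/-- A graded domain over the field `k` with elements `f 0 = x0 y`, `f 1 = x1 y`, `f 2 = x0 ^ 2 z`,
`f 3 = x1 ^ 2 z`, `m = x0 x1 z` of degree one, with the relations of the rational normal scroll `S(1,2)`,
such that the standard charts cover `Proj` and are affine planes. -/
structure ScrollData (k : Type) [Field k] where
  A : Type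
  [ring : CommRing A]
  [dom : IsDomain A]
  [alg : Algebra k A]
  gr : ℕ → Submodule k A
  [graded : GradedAlgebra gr]
  f : Fin 4 → A
  m : A
  hf : ∀ l, f l ∈ gr 1
  hm : m ∈ gr 1
  ne : ∀ l, f l ≠ 0
  r1 : f 0 * m = f 1 * f 2
  r2 : f 0 * f 3 = f 1 * m
  r3 : f 2 * f 3 = m * m
  cov : ⨆ l, Proj.basicOpen gr (f l) = ⊤
  chart : ∀ l, Nonempty (HomogeneousLocalization.Away gr (f l) ≃+* MvPolynomial (Fin 2) k)
  ft : Algebra.FiniteType (gr 0) A
  zero : Function.Bijective (algebraMap k (gr 0))

attribute [instance] ScrollData.ring ScrollData.dom ScrollData.alg ScrollData.graded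

end Pool.H33.P
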