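import Mathlib
import Pool.Agent.H33.P.EDef

/-! # EALG: existence of the graded algebra

`A = k[M]`, `M = {(i, j, n) : j ≤ n, i ≤ n + j}` (submonoid of `ℕ³`), graded by `n`
(`AddMonoidAlgebra.gradeBy`), `f 0 = (0,0,1)`, `f 1 = (1,0,1)`, `f 2 = (0,1,1)`, `f 3 = (2,1,1)`, `m = (1,1,1)`
(the monomial `(i,j,n)` is `x0 ^ (n + j - i) x1 ^ i y ^ (n - j) z ^ j`).  `M` is generated by these five elements.
Or: `A` = the subalgebra of `MvPolynomial (Fin 4) k` generated by `x0 y, x1 y, x0 ^ 2 z, x0 x1 z, x1 ^ 2 z`.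
Charts: `Away (f 0) = k[f1/f0, f2/f0]`, `Away (f 1) = k[f0/f1, f3/f1]`, `Away (f 2) = k[m/f2, f0/f2]`,
`Away (f 3) = k[m/f3, f1/f3]`; surjectivity of `MvPolynomial (Fin 2) k → Away` on monomials, injectivity by
comparing exponents (`HomogeneousLocalization.Away.mk`, `HomogeneousLocalization.val_injective`). -/

open CategoryTheory AlgebraicGeometry Limits TopologicalSpace

namespace Pool.H33.P

/-- a criterion for the degree zero part of a localisation -/
theorem ealg_chart {k A B : Type} [Field k] [CommRing A] [Algebra k A] (gr : ℕ → Submodule k A)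
    [GradedAlgebra gr] [CommRing B] {f : A} (hf : f ∈ gr 1) (φ : A →+* B) (h1 : φ f = 1)
    (hinj : ∀ n, ∀ a ∈ gr n, φ a = 0 → a = 0) (hsurj : ∀ b, ∃ n, ∃ a ∈ gr n, φ a = b) :
    Nonempty (HomogeneousLocalization.Away gr f ≃+* B) := by
  have hv : φ f * 1 = 1 := by rw [h1, one_mul]
  let ψ : HomogeneousLocalization.Away gr f →+* B :=
    (Localization.awayLift φ f (isUnit_iff_exists_inv.mpr ⟨1, hv⟩)).comp
      (algebraMap (HomogeneousLocalization.Away gr f) (Localization.Away f))
  have hψ : ∀ n a (ha : a ∈ gr (n • 1)),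
      ψ (HomogeneousLocalization.Away.mk gr hf n a ha) = φ a := by
    intro n a ha
    have h := Localization.awayLift_mk φ f a 1 hv n
    rw [one_pow, mul_one] at h
    exact h
  refine ⟨RingEquiv.ofBijective ψ ⟨?_, ?_⟩⟩
  · rw [injective_iff_map_eq_zero]
    intro x hx
    obtain ⟨n, a, ha, rfl⟩ := HomogeneousLocalization.Away.mk_surjective gr hf x
    rw [hψ] at hx
    obtain rfl := hinj _ a ha hx
    apply HomogeneousLocalization.val_injective
    rw [HomogeneousLocalization.Away.val_mk, HomogeneousLocalization.val_zero,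
      Localization.mk_zero]
  · intro b
    obtain ⟨n, a, ha, rfl⟩ := hsurj b
    refine ⟨HomogeneousLocalization.Away.mk gr hf n a (by simpa using ha), hψ _ _ _⟩

/-- the exponents of the monomials `x0 ^ p x1 ^ q y ^ r z ^ s` with `p + q = r + 2 s` -/
def ealgM : AddSubmonoid (Fin 4 →₀ ℕ) where
  carrier := {a | a 0 + a 1 = a 2 + 2 * a 3}
  zero_mem' := by simp
  add_mem' := by
    intro a b ha hb
    simp only [Set.mem_ofPred_eq, Finsupp.add_apply] at *
    omega

/-- the degree `r + s` -/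
def ealgDeg : ealgM →+ ℕ where
  toFun a := a.1 2 + a.1 3
  map_zero' := by simp
  map_add' a b := by
    simp only [AddSubmonoid.coe_add, Finsupp.add_apply]
    omega

/-- a monomial -/
noncomputable def ealgE (p q r s : ℕ) (h : p + q = r + 2 * s) : ealgM :=
  ⟨Finsupp.equivFunOnFinite.symm ![p, q, r, s], by
    show _ + _ = _
    simpa using h⟩

theorem ealgE_0 {p q r s : ℕ} (h : p + q = r + 2 * s) : (ealgE p q r s h).1 0 = p := rfl
theorem ealgE_1 {p q r s : ℕ} (h : p + q = r + 2 * s) : (ealgE p q r s h).1 1 = q := rfl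
theorem ealgE_2 {p q r s : ℕ} (h : p + q = r + 2 * s) : (ealgE p q r s h).1 2 = r := rfl
theorem ealgE_3 {p q r s : ℕ} (h : p + q = r + 2 * s) : (ealgE p q r s h).1 3 = s := rfl

theorem ealg_ext {a b : ealgM} (h0 : a.1 0 = b.1 0) (h1 : a.1 1 = b.1 1) (h2 : a.1 2 = b.1 2)
    (h3 : a.1 3 = b.1 3) : a = b := by
  apply Subtype.ext
  ext i
  fin_cases i
  · exact h0
  · exact h1
  · exact h2
  · exact h3

theorem ealg_mem (a : ealgM) : a.1 0 + a.1 1 = a.1 2 + 2 * a.1 3 := a.2

/-- two of the coordinates -/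
noncomputable def ealgH (i j : Fin 4) : ealgM →+ (Fin 2 →₀ ℕ) where
  toFun a := Finsupp.single 0 (a.1 i) + Finsupp.single 1 (a.1 j)
  map_zero' := by simp
  map_add' a b := by
    simp only [AddSubmonoid.coe_add, Finsupp.add_apply, Finsupp.single_add]
    abel

theorem ealgH_0 (i j : Fin 4) (a : ealgM) : ealgH i j a 0 = a.1 i := by
  simp [ealgH]

theorem ealgH_1 (i j : Fin 4) (a : ealgM) : ealgH i j a 1 = a.1 j := by
  simp [ealgH]

section

variable (k : Type) [Field k]

/-- the algebra -/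
abbrev EalgA : Type := AddMonoidAlgebra k ealgM

/-- its grading -/
noncomputable abbrev ealgGr : ℕ → Submodule k (EalgA k) := AddMonoidAlgebra.gradeBy k ealgDeg

noncomputable instance ealgGrGraded : GradedAlgebra (ealgGr k) :=
  AddMonoidAlgebra.gradeBy.gradedAlgebra ealgDeg

theorem ealg_isDomain : IsDomain (EalgA k) := by
  have hi : Function.Injective (AddMonoidAlgebra.mapDomainRingHom k (ealgM.subtype)) :=
    AddMonoidAlgebra.mapDomain_injective Subtype.val_injective
  have : IsDomain (MvPolynomial (Fin 4) k) := inferInstance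
  exact Function.Injective.isDomain
    (f := (AddMonoidAlgebra.mapDomainRingHom k (ealgM.subtype) : EalgA k →+* MvPolynomial (Fin 4) k)) hi

end

/-- the exponents of the four generators `x0 y`, `x1 y`, `x0 ^ 2 z`, `x1 ^ 2 z` -/
noncomputable def ealgF : Fin 4 → ealgM :=
  ![ealgE 1 0 1 0 rfl, ealgE 0 1 1 0 rfl, ealgE 2 0 0 1 rfl, ealgE 0 2 0 1 rfl]

/-- the exponent of `x0 x1 z` -/
noncomputable def ealgN : ealgM := ealgE 1 1 0 1 rfl

theorem ealgDeg_E {p q r s : ℕ} (h : p + q = r + 2 * s) : ealgDeg (ealgE p q r s h) = r + s := rfl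

theorem ealgDeg_F (l : Fin 4) : ealgDeg (ealgF l) = 1 := by
  fin_cases l <;> rfl

theorem ealg_dec (a : ealgM) (n : ℕ) (h : ealgDeg a = n + 1) :
    ∃ a', ealgDeg a' = n ∧ ((∃ l, a = ealgF l + a') ∨ a = ealgN + a') := by
  have h1 := ealg_mem a
  have h2 : a.1 2 + a.1 3 = n + 1 := h
  by_cases hr : 1 ≤ a.1 2
  · by_cases hp : 1 ≤ a.1 0
    · refine ⟨ealgE (a.1 0 - 1) (a.1 1) (a.1 2 - 1) (a.1 3) (by omega), ?_, Or.inl ⟨0, ?_⟩⟩
      · rw [ealgDeg_E]; omega
      · apply ealg_ext
        · show a.1 0 = 1 + (a.1 0 - 1); omega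
        · show a.1 1 = 0 + a.1 1; omega
        · show a.1 2 = 1 + (a.1 2 - 1); omega
        · show a.1 3 = 0 + a.1 3; omega
    · refine ⟨ealgE (a.1 0) (a.1 1 - 1) (a.1 2 - 1) (a.1 3) (by omega), ?_, Or.inl ⟨1, ?_⟩⟩
      · rw [ealgDeg_E]; omega
      · apply ealg_ext
        · show a.1 0 = 0 + a.1 0; omega
        · show a.1 1 = 1 + (a.1 1 - 1); omega
        · show a.1 2 = 1 + (a.1 2 - 1); omega
        · show a.1 3 = 0 + a.1 3; omega
  · by_cases hp : 2 ≤ a.1 0
    · refine ⟨ealgE (a.1 0 - 2) (a.1 1) (a.1 2) (a.1 3 - 1) (by omega), ?_, Or.inl ⟨2, ?_⟩⟩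
      · rw [ealgDeg_E]; omega
      · apply ealg_ext
        · show a.1 0 = 2 + (a.1 0 - 2); omega
        · show a.1 1 = 0 + a.1 1; omega
        · show a.1 2 = 0 + a.1 2; omega
        · show a.1 3 = 1 + (a.1 3 - 1); omega
    · by_cases hq : 2 ≤ a.1 1
      · refine ⟨ealgE (a.1 0) (a.1 1 - 2) (a.1 2) (a.1 3 - 1) (by omega), ?_, Or.inl ⟨3, ?_⟩⟩
        · rw [ealgDeg_E]; omega
        · apply ealg_ext
          · show a.1 0 = 0 + a.1 0; omega
          · show a.1 1 = 2 + (a.1 1 - 2); omega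
          · show a.1 2 = 0 + a.1 2; omega
          · show a.1 3 = 1 + (a.1 3 - 1); omega
      · refine ⟨ealgE (a.1 0 - 1) (a.1 1 - 1) (a.1 2) (a.1 3 - 1) (by omega), ?_, Or.inr ?_⟩
        · rw [ealgDeg_E]; omega
        · apply ealg_ext
          · show a.1 0 = 1 + (a.1 0 - 1); omega
          · show a.1 1 = 1 + (a.1 1 - 1); omega
          · show a.1 2 = 0 + a.1 2; omega
          · show a.1 3 = 1 + (a.1 3 - 1); omega

section

variable (k : Type) [Field k]

/-- the five generators -/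
noncomputable def ealgGen (o : Option (Fin 4)) : EalgA k :=
  o.elim (AddMonoidAlgebra.single ealgN 1) (fun l => AddMonoidAlgebra.single (ealgF l) 1)

theorem ealg_single_mem (n : ℕ) : ∀ (a : ealgM), ealgDeg a = n → ∀ c : k,
    (AddMonoidAlgebra.single a c : EalgA k) ∈
      Algebra.adjoin (ealgGr k 0) (Set.range (ealgGen k)) := by
  induction n with
  | zero =>
    intro a ha c
    have h : (AddMonoidAlgebra.single a c : EalgA k) ∈ ealgGr k 0 := by
      rw [← ha]
      exact AddMonoidAlgebra.single_mem_gradeBy _ _ _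
    exact Subalgebra.algebraMap_mem _ (⟨_, h⟩ : ealgGr k 0)
  | succ n ih =>
    intro a ha c
    obtain ⟨a', ha', h⟩ := ealg_dec a n ha
    have key : ∀ o : Option (Fin 4), ∀ e : ealgM,
        ealgGen k o = AddMonoidAlgebra.single e 1 → a = e + a' →
        (AddMonoidAlgebra.single a c : EalgA k) ∈
          Algebra.adjoin (ealgGr k 0) (Set.range (ealgGen k)) := by
      intro o e ho hae
      have e1 : (AddMonoidAlgebra.single a c : EalgA k) =
          ealgGen k o * AddMonoidAlgebra.single a' c := by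
        rw [ho, AddMonoidAlgebra.single_mul_single, one_mul, hae]
      rw [e1]
      exact mul_mem (Algebra.subset_adjoin ⟨o, rfl⟩) (ih a' ha' c)
    rcases h with ⟨l, hl⟩ | hm
    · exact key (some l) _ rfl hl
    · exact key none _ rfl hm

theorem ealg_adjoin :
    Algebra.adjoin (ealgGr k 0) (Set.range (ealgGen k)) = ⊤ := by
  rw [eq_top_iff]
  intro x _
  refine AddMonoidAlgebra.induction_linear x (zero_mem _) (fun x y hx hy => add_mem hx hy)
    (fun m r => ealg_single_mem k _ m rfl r)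

theorem ealgGen_mem (o : Option (Fin 4)) : ealgGen k o ∈ ealgGr k 1 := by
  rcases o with _ | l
  · exact AddMonoidAlgebra.single_mem_gradeBy (ealgDeg : ealgM → ℕ) ealgN (1 : k)
  · have h := AddMonoidAlgebra.single_mem_gradeBy (ealgDeg : ealgM → ℕ) (ealgF l) (1 : k)
    rw [ealgDeg_F] at h
    exact h

theorem ealg_inj (i j : Fin 4)
    (hij : ∀ a b : ealgM, ealgDeg a = ealgDeg b → a.1 i = b.1 i → a.1 j = b.1 j → a = b) (n : ℕ)
    (a : EalgA k) (ha : a ∈ ealgGr k n)
    (h0 : AddMonoidAlgebra.mapDomainRingHom k (ealgH i j) a = 0) : a = 0 := by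
  have hinj : Set.InjOn (ealgH i j) {a | ealgDeg a = n} := by
    intro a ha b hb hab
    refine hij a b (ha.trans hb.symm) ?_ ?_
    · rw [← ealgH_0 i j a, ← ealgH_0 i j b, hab]
    · rw [← ealgH_1 i j a, ← ealgH_1 i j b, hab]
  have h1 : Finsupp.mapDomain (ealgH i j) a.coeff = Finsupp.mapDomain (ealgH i j) 0 := by
    have := congrArg AddMonoidAlgebra.coeff h0
    rw [Finsupp.mapDomain_zero]
    exact this
  have h2 := Finsupp.mapDomain_injOn _ hinj (show (a.coeff.support : Set ealgM) ⊆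
    {a | ealgDeg a = n} from ha) (by simp) h1
  exact AddMonoidAlgebra.coeff_injective h2

theorem ealg_surj (i j : Fin 4)
    (hij : ∀ x y : ℕ, ∃ N, ∀ n, N ≤ n → ∃ a : ealgM, ealgDeg a = n ∧ a.1 i = x ∧ a.1 j = y)
    (b : MvPolynomial (Fin 2) k) : ∃ N, ∀ n, N ≤ n → ∃ a ∈ ealgGr k n,
      AddMonoidAlgebra.mapDomainRingHom k (ealgH i j) a = b := by
  refine AddMonoidAlgebra.induction_linear b ?_ ?_ ?_
  · exact ⟨0, fun n _ => ⟨0, zero_mem _, map_zero _⟩⟩
  · rintro x y ⟨N1, h1⟩ ⟨N2, h2⟩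
    refine ⟨max N1 N2, fun n hn => ?_⟩
    obtain ⟨a1, m1, e1⟩ := h1 n (le_trans (le_max_left _ _) hn)
    obtain ⟨a2, m2, e2⟩ := h2 n (le_trans (le_max_right _ _) hn)
    exact ⟨a1 + a2, add_mem m1 m2, by rw [map_add, e1, e2]⟩
  · intro m r
    obtain ⟨N, hN⟩ := hij (m 0) (m 1)
    refine ⟨N, fun n hn => ?_⟩
    obtain ⟨a, ha, hx, hy⟩ := hN n hn
    refine ⟨AddMonoidAlgebra.single a r, ?_, ?_⟩
    · have h := AddMonoidAlgebra.single_mem_gradeBy (ealgDeg : ealgM → ℕ) a r
      rw [ha] at h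
      exact h
    · have h : ealgH i j a = m := by
        ext t
        fin_cases t
        · exact (ealgH_0 i j a).trans hx
        · exact (ealgH_1 i j a).trans hy
      show AddMonoidAlgebra.mapDomain (ealgH i j) (AddMonoidAlgebra.single a r) = _
      rw [AddMonoidAlgebra.mapDomain_single, h]

theorem ealg_one (i j : Fin 4) (l : Fin 4) (h0 : (ealgF l).1 i = 0) (h1 : (ealgF l).1 j = 0) :
    AddMonoidAlgebra.mapDomainRingHom k (ealgH i j) (AddMonoidAlgebra.single (ealgF l) 1) = 1 := by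
  have h : ealgH i j (ealgF l) = 0 := by
    ext t
    fin_cases t
    · exact (ealgH_0 i j _).trans h0
    · exact (ealgH_1 i j _).trans h1
  show AddMonoidAlgebra.mapDomain (ealgH i j) (AddMonoidAlgebra.single (ealgF l) 1) = _
  rw [AddMonoidAlgebra.mapDomain_single, h]
  rfl

theorem ealg_charts (l : Fin 4) : Nonempty (HomogeneousLocalization.Away (ealgGr k)
    (AddMonoidAlgebra.single (ealgF l) (1 : k)) ≃+* MvPolynomial (Fin 2) k) := by
  have main : ∀ i j : Fin 4, (ealgF l).1 i = 0 → (ealgF l).1 j = 0 →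
      (∀ a b : ealgM, ealgDeg a = ealgDeg b → a.1 i = b.1 i → a.1 j = b.1 j → a = b) →
      (∀ x y : ℕ, ∃ N, ∀ n, N ≤ n → ∃ a : ealgM, ealgDeg a = n ∧ a.1 i = x ∧ a.1 j = y) →
      Nonempty (HomogeneousLocalization.Away (ealgGr k)
        (AddMonoidAlgebra.single (ealgF l) (1 : k)) ≃+* MvPolynomial (Fin 2) k) := by
    intro i j h0 h1 h2 h3
    refine ealg_chart (ealgGr k) (ealgGen_mem k (some l))
      (AddMonoidAlgebra.mapDomainRingHom k (ealgH i j)) (ealg_one k i j l h0 h1)
      (fun n a ha h => ealg_inj k i j h2 n a ha h) (fun b => ?_)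
    obtain ⟨N, hN⟩ := ealg_surj k i j h3 b
    exact ⟨N, hN N le_rfl⟩
  fin_cases l
  · refine main 1 3 rfl rfl ?_ ?_
    · intro a b hd h1 h3
      have ha := ealg_mem a
      have hb := ealg_mem b
      have hd' : a.1 2 + a.1 3 = b.1 2 + b.1 3 := hd
      exact ealg_ext (by omega) h1 (by omega) h3
    · intro x y
      refine ⟨x + y, fun n hn => ⟨ealgE (n + y - x) x (n - y) y (by omega), ?_, rfl, rfl⟩⟩
      rw [ealgDeg_E]; omega
  · refine main 0 3 rfl rfl ?_ ?_
    · intro a b hd h1 h3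
      have ha := ealg_mem a
      have hb := ealg_mem b
      have hd' : a.1 2 + a.1 3 = b.1 2 + b.1 3 := hd
      exact ealg_ext h1 (by omega) (by omega) h3
    · intro x y
      refine ⟨x + y, fun n hn => ⟨ealgE x (n + y - x) (n - y) y (by omega), ?_, rfl, rfl⟩⟩
      rw [ealgDeg_E]; omega
  · refine main 1 2 rfl rfl ?_ ?_
    · intro a b hd h1 h3
      have ha := ealg_mem a
      have hb := ealg_mem b
      have hd' : a.1 2 + a.1 3 = b.1 2 + b.1 3 := hd
      exact ealg_ext (by omega) h1 h3 (by omega)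
    · intro x y
      refine ⟨x + y, fun n hn => ⟨ealgE (2 * n - y - x) x y (n - y) (by omega), ?_, rfl, rfl⟩⟩
      rw [ealgDeg_E]; omega
  · refine main 0 2 rfl rfl ?_ ?_
    · intro a b hd h1 h3
      have ha := ealg_mem a
      have hb := ealg_mem b
      have hd' : a.1 2 + a.1 3 = b.1 2 + b.1 3 := hd
      exact ealg_ext h1 (by omega) h3 (by omega)
    · intro x y
      refine ⟨x + y, fun n hn => ⟨ealgE x (2 * n - y - x) y (n - y) (by omega), ?_, rfl, rfl⟩⟩
      rw [ealgDeg_E]; omega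

theorem ealg_zero : Function.Bijective (algebraMap k (ealgGr k 0)) := by
  have := ealg_isDomain k
  refine ⟨fun x y hxy => ?_, fun x => ?_⟩
  · have h : algebraMap k (EalgA k) x = algebraMap k (EalgA k) y := congrArg Subtype.val hxy
    exact (algebraMap k (EalgA k)).injective h
  · refine ⟨x.1.coeff 0, ?_⟩
    apply Subtype.ext
    show algebraMap k (EalgA k) (x.1.coeff 0) = x.1
    have h0 : algebraMap k (EalgA k) (x.1.coeff 0) = AddMonoidAlgebra.single 0 (x.1.coeff 0) := by
      simp [AddMonoidAlgebra.coe_algebraMap]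
    rw [h0]
    apply AddMonoidAlgebra.coeff_injective
    ext a
    by_cases ha : a = 0
    · subst ha
      simp
    · have h1 : x.1.coeff a = 0 := by
        by_contra hne
        have h2 : ealgDeg a = 0 := x.2 a (Finsupp.mem_support_iff.2 hne)
        have h3 : a.1 2 + a.1 3 = 0 := h2
        have h4 := ealg_mem a
        exact ha (ealg_ext (by show _ = 0; omega) (by show _ = 0; omega) (by show _ = 0; omega)
          (by show _ = 0; omega))
      rw [h1]
      simp [Ne.symm ha]

end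

theorem exists_scroll (k : Type) [Field k] : Nonempty (ScrollData k) := by
  have hdom := ealg_isDomain k
  refine ⟨{
    A := EalgA k
    dom := hdom
    gr := ealgGr k
    f := fun l => AddMonoidAlgebra.single (ealgF l) 1
    m := AddMonoidAlgebra.single ealgN 1
    hf := fun l => ealgGen_mem k (some l)
    hm := ealgGen_mem k none
    ne := fun l h => ?_
    r1 := ?_
    r2 := ?_
    r3 := ?_
    cov := ?_
    chart := ealg_charts k
    ft := ?_
    zero := ealg_zero k }⟩
  · have := congrArg (fun x : EalgA k => x.coeff (ealgF l)) h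
    simp at this
  · rw [AddMonoidAlgebra.single_mul_single, AddMonoidAlgebra.single_mul_single]
    congr 1
    exact ealg_ext rfl rfl rfl rfl
  · rw [AddMonoidAlgebra.single_mul_single, AddMonoidAlgebra.single_mul_single]
    congr 1
    exact ealg_ext rfl rfl rfl rfl
  · rw [AddMonoidAlgebra.single_mul_single, AddMonoidAlgebra.single_mul_single]
    congr 1
    exact ealg_ext rfl rfl rfl rfl
  · have h := Proj.iSup_basicOpen_eq_top' (ealgGr k) (ealgGen k)
      (fun i => ⟨1, ealgGen_mem k i⟩) (ealg_adjoin k)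
    rw [eq_top_iff, ← h]
    refine iSup_le fun o => ?_
    rcases o with _ | l
    · have h1 : (AddMonoidAlgebra.single ealgN 1 : EalgA k) * AddMonoidAlgebra.single ealgN 1 =
          AddMonoidAlgebra.single (ealgF 2) 1 * AddMonoidAlgebra.single (ealgF 3) 1 := by
        rw [AddMonoidAlgebra.single_mul_single, AddMonoidAlgebra.single_mul_single]
        congr 1
        exact ealg_ext rfl rfl rfl rfl
      have h2 : Proj.basicOpen (ealgGr k) (ealgGen k none) ≤
          Proj.basicOpen (ealgGr k) (AddMonoidAlgebra.single (ealgF 2) (1 : k)) := by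
        have h3 := congrArg (Proj.basicOpen (ealgGr k)) h1
        rw [Proj.basicOpen_mul, Proj.basicOpen_mul, inf_idem] at h3
        exact h3.le.trans inf_le_left
      exact h2.trans (le_iSup (fun l => Proj.basicOpen (ealgGr k)
        (AddMonoidAlgebra.single (ealgF l) (1 : k))) 2)
    · exact le_iSup (fun l => Proj.basicOpen (ealgGr k)
        (AddMonoidAlgebra.single (ealgF l) (1 : k))) l
  · refine ⟨Subalgebra.fg_def.2 ⟨_, Set.finite_range (ealgGen k), ealg_adjoin k⟩⟩

end Pool.H33.P
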