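import Mathlib
import Pool.Agent.H33.P.EDef

/-! # EDIM: properness and dimension

`Proj.toSpecZero` is proper (`Mathlib.AlgebraicGeometry.ProjectiveSpectrum.Proper`), and `gr 0 = k`.  The dimension:
chains of irreducible closed subsets meet a chart in a chain of the same length
(`PrimeSpectrum.topologicalKrullDim_eq_ringKrullDim`, `MvPolynomial.ringKrullDim_of_isNoetherianRing`). -/

open CategoryTheory AlgebraicGeometry Limits TopologicalSpace

namespace Pool.H33.P

theorem exists_proper {k : Type} [Field k] (D : ScrollData k) :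
    ∃ f : Proj D.gr ⟶ Spec (CommRingCat.of k), IsProper f := by
  have := D.ft
  let e : k ≃+* D.gr 0 := RingEquiv.ofBijective (algebraMap k (D.gr 0)) D.zero
  refine ⟨Proj.toSpecZero D.gr ≫ Spec.map e.toCommRingCatIso.hom, inferInstance⟩

/-- restriction of an irreducible closed set to an open set -/
def edimRestrict {X : Type} [TopologicalSpace X] (U : Opens X)
    (Z : {Z : IrreducibleCloseds X // (Z.carrier ∩ U).Nonempty}) : IrreducibleCloseds U where
  carrier := Subtype.val ⁻¹' Z.1.carrier
  isIrreducible' := by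
    refine ⟨?_, Z.1.isIrreducible'.2.preimage U.isOpen.isOpenEmbedding_subtypeVal⟩
    obtain ⟨x, hx, hxU⟩ := Z.2
    exact ⟨⟨x, hxU⟩, hx⟩
  isClosed' := Z.1.isClosed'.preimage continuous_subtype_val

theorem edimRestrict_strictMono {X : Type} [TopologicalSpace X] (U : Opens X) :
    StrictMono (edimRestrict U) := by
  intro Z W h
  have hZW : Z.1.carrier ⊆ W.1.carrier := h.le
  refine lt_of_le_not_ge (fun x hx => hZW hx) fun hle => h.not_ge ?_
  show W.1.carrier ⊆ Z.1.carrier
  have h1 : W.1.carrier ⊆ Z.1.carrier ∪ (U : Set X)ᶜ := by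
    intro x hx
    by_cases hxU : x ∈ U
    · exact Or.inl (hle (show (⟨x, hxU⟩ : U) ∈ edimRestrict U W from hx))
    · exact Or.inr hxU
  rcases isPreirreducible_iff_isClosed_union_isClosed.1 W.1.isIrreducible'.2 _ _ Z.1.isClosed'
    U.isOpen.isClosed_compl h1 with h2 | h2
  · exact h2
  · obtain ⟨x, hx, hxU⟩ := W.2
    exact absurd hxU (h2 hx)

/-- the dimension of a scheme is the supremum of the dimensions of the members of an open cover -/
theorem krullDim_cover {X : Type} [TopologicalSpace X] {ι : Type} (U : ι → Opens X)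
    (hU : ⨆ i, U i = ⊤) (n : WithBot ℕ∞) (hn : ∀ i, topologicalKrullDim (U i) = n) [Nonempty ι] :
    topologicalKrullDim X = n := by
  apply le_antisymm
  · refine iSup_le fun p => ?_
    obtain ⟨x, hx⟩ := p.head.isIrreducible'.1
    obtain ⟨i, hi⟩ : ∃ i, x ∈ U i := by
      have : x ∈ (⨆ i, U i) := by rw [hU]; trivial
      exact Opens.mem_iSup.1 this
    have hmem : ∀ j, ((p j).carrier ∩ U i).Nonempty := fun j =>
      ⟨x, (show p.head ≤ p j from LTSeries.head_le p j) hx, hi⟩
    let q : LTSeries {Z : IrreducibleCloseds X // (Z.carrier ∩ U i).Nonempty} :=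
      { length := p.length
        toFun := fun j => ⟨p j, hmem j⟩
        step := fun j => p.step j }
    rw [← hn i]
    have h1 : (q.length : WithBot ℕ∞) ≤ Order.krullDim
        {Z : IrreducibleCloseds X // (Z.carrier ∩ U i).Nonempty} := Order.LTSeries.length_le_krullDim q
    exact h1.trans (Order.krullDim_le_of_strictMono _ (edimRestrict_strictMono (U i)))
  · obtain ⟨i⟩ := (inferInstance : Nonempty ι)
    rw [← hn i]
    exact topologicalKrullDim_subspace_le X (U i : Set X)

theorem proj_dim {k : Type} [Field k] (D : ScrollData k) :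
    topologicalKrullDim (Proj D.gr) = 2 := by
  refine krullDim_cover (fun l => Proj.basicOpen D.gr (D.f l)) D.cov 2 fun l => ?_
  obtain ⟨e⟩ := D.chart l
  have h1 : topologicalKrullDim (Proj.basicOpen D.gr (D.f l)) =
      topologicalKrullDim (Spec (.of <| HomogeneousLocalization.Away D.gr (D.f l))) :=
    (Proj.basicOpenIsoSpec D.gr (D.f l) (D.hf l) one_pos).hom.homeomorph.isHomeomorph.topologicalKrullDim_eq
  refine h1.trans ?_
  refine (PrimeSpectrum.topologicalKrullDim_eq_ringKrullDim
    (HomogeneousLocalization.Away D.gr (D.f l))).trans ?_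
  rw [ringKrullDim_eq_of_ringEquiv e, MvPolynomial.ringKrullDim_of_isNoetherianRing,
    ringKrullDim_eq_zero_of_field]
  simp

end Pool.H33.P
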