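import Mathlib
import Pool.Agent.H33.P.EDef

/-! # EINT: `Proj` of a graded domain is integral, with functions that are fractions

`frac f g` is the function `g / f` on the basic open of `f`.  `val` embeds the functions on nonempty opens into
the fraction field of `A` (restrict to the generic point, `Proj.stalkIso`, or directly from the definition of
the structure sheaf of `Proj`: a section is a family of elements of homogeneous localisations of `A`, all of which
embed into `FractionRing A`; the values at all points of an irreducible open agree). -/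

open CategoryTheory AlgebraicGeometry Limits TopologicalSpace

namespace Pool.H33.P

variable {k : Type} [Field k] (D : ScrollData k)

/-- the generic point -/
noncomputable def eintEta : ProjectiveSpectrum D.gr where
  asHomogeneousIdeal := ⊥
  isPrime := by
    rw [HomogeneousIdeal.toIdeal_bot]
    exact Ideal.isPrime_bot
  not_irrelevant_le := by
    intro h
    have h1 : D.f 0 ∈ HomogeneousIdeal.irrelevant D.gr := by
      rw [HomogeneousIdeal.mem_irrelevant_iff, GradedRing.proj_apply,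
        DirectSum.decompose_of_mem_ne D.gr (D.hf 0) one_ne_zero]
    have h2 : D.f 0 ∈ (⊥ : HomogeneousIdeal D.gr).toIdeal := h h1
    rw [HomogeneousIdeal.toIdeal_bot, Ideal.mem_bot] at h2
    exact D.ne 0 h2

theorem eint_mem_eta {a : D.A} : a ∈ (eintEta D).asHomogeneousIdeal ↔ a = 0 := by
  show a ∈ (⊥ : HomogeneousIdeal D.gr).toIdeal ↔ _
  rw [HomogeneousIdeal.toIdeal_bot, Ideal.mem_bot]

/-- the generic point lies in every nonempty open set -/
theorem eint_mem (V : (Proj D.gr).Opens) (hV : V ≠ ⊥) : (eintEta D : Proj D.gr) ∈ V := by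
  obtain ⟨x, hx⟩ : ∃ x : Proj D.gr, x ∈ V := by
    by_contra h
    push Not at h
    exact hV (by
      ext x
      simpa using h x)
  obtain ⟨W, ⟨f, rfl⟩, hxW, hWV⟩ :=
    (Opens.isBasis_iff_nbhd.1 (Proj.isBasis_basicOpen D.gr)) hx
  refine hWV ?_
  show f ∉ (eintEta D).asHomogeneousIdeal
  rw [eint_mem_eta]
  rintro rfl
  exact (Proj.mem_basicOpen D.gr 0 x).1 hxW (zero_mem x.asHomogeneousIdeal.toIdeal)

theorem eint_unit (y : (eintEta D).asHomogeneousIdeal.toIdeal.primeCompl) :
    IsUnit (algebraMap D.A (FractionRing D.A) y) := by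
  have hy : (y : D.A) ≠ 0 := fun h => y.2 ((eint_mem_eta D).2 h)
  exact IsUnit.mk0 _ (by
    rw [Ne, IsFractionRing.to_map_eq_zero_iff]
    exact hy)

/-- from the stalk at the generic point to the fraction field -/
noncomputable def eintTheta : HomogeneousLocalization.AtPrime D.gr
    (eintEta D).asHomogeneousIdeal.toIdeal →+* FractionRing D.A :=
  (IsLocalization.lift (M := (eintEta D).asHomogeneousIdeal.toIdeal.primeCompl)
    (S := Localization (eintEta D).asHomogeneousIdeal.toIdeal.primeCompl)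
    (g := algebraMap D.A (FractionRing D.A)) (eint_unit D)).comp
  (algebraMap (HomogeneousLocalization D.gr (eintEta D).asHomogeneousIdeal.toIdeal.primeCompl)
    (Localization (eintEta D).asHomogeneousIdeal.toIdeal.primeCompl))

theorem eintTheta_mk (c : HomogeneousLocalization.NumDenSameDeg D.gr
    (eintEta D).asHomogeneousIdeal.toIdeal.primeCompl) :
    eintTheta D (HomogeneousLocalization.mk c) =
      algebraMap D.A (FractionRing D.A) c.num / algebraMap D.A (FractionRing D.A) c.den := by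
  have h : eintTheta D (HomogeneousLocalization.mk c) = IsLocalization.lift
    (M := (eintEta D).asHomogeneousIdeal.toIdeal.primeCompl)
    (S := Localization (eintEta D).asHomogeneousIdeal.toIdeal.primeCompl)
    (g := algebraMap D.A (FractionRing D.A)) (eint_unit D)
      (Localization.mk (c.num : D.A) ⟨c.den, c.den_mem⟩) := rfl
  rw [h, Localization.mk_eq_mk', IsLocalization.lift_mk'_spec]
  have hne : algebraMap D.A (FractionRing D.A) c.den ≠ 0 := (eint_unit D ⟨c.den, c.den_mem⟩).ne_zero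
  show _ = algebraMap D.A (FractionRing D.A) c.den * _
  rw [mul_div_cancel₀ _ hne]

/-- the value of a section at the generic point -/
noncomputable def eintVal (V : (Proj D.gr).Opens) (hV : V ≠ ⊥) :
    Γ(Proj D.gr, V) →+* FractionRing D.A :=
  (eintTheta D).comp (openToLocalization D.gr V (eintEta D) (eint_mem D V hV)).hom

theorem eintVal_apply (V : (Proj D.gr).Opens) (hV : V ≠ ⊥) (s : Γ(Proj D.gr, V)) :
    eintVal D V hV s = eintTheta D (s.1 ⟨eintEta D, eint_mem D V hV⟩) := rfl

theorem eintVal_injective (V : (Proj D.gr).Opens) (hV : V ≠ ⊥) :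
    Function.Injective (eintVal D V hV) := by
  rw [injective_iff_map_eq_zero]
  intro s hs
  rw [eintVal_apply] at hs
  apply Subtype.ext
  funext x
  obtain ⟨W, hxW, i, n, a, b, h, e⟩ := s.2 x
  have hW : (W : (Proj D.gr).Opens) ≠ ⊥ := by
    intro h0
    rw [h0] at hxW
    exact hxW
  have hη := eint_mem D W hW
  have e1 : s.1 ⟨eintEta D, eint_mem D V hV⟩ =
      HomogeneousLocalization.mk ⟨n, a, b, h ⟨eintEta D, hη⟩⟩ := e ⟨eintEta D, hη⟩
  rw [e1, eintTheta_mk] at hs
  have hb : algebraMap D.A (FractionRing D.A) b.1 ≠ 0 :=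
    (eint_unit D ⟨b.1, h ⟨eintEta D, hη⟩⟩).ne_zero
  have ha : a.1 = 0 := by
    rcases div_eq_zero_iff.1 hs with h1 | h1
    · exact (IsFractionRing.to_map_eq_zero_iff).1 h1
    · exact absurd h1 hb
  have e2 : s.1 x = HomogeneousLocalization.mk ⟨n, a, b, h ⟨x.1, hxW⟩⟩ := e ⟨x.1, hxW⟩
  rw [e2]
  exact HomogeneousLocalization.mk_eq_zero_of_num _ (Subtype.ext ha)

theorem eint_basicOpen_ne_bot {f : D.A} (hf : f ≠ 0) : Proj.basicOpen D.gr f ≠ ⊥ := by
  intro h
  have h1 : (eintEta D : Proj D.gr) ∈ Proj.basicOpen D.gr f := by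
    show f ∉ (eintEta D).asHomogeneousIdeal
    rw [eint_mem_eta]
    exact hf
  rw [h] at h1
  exact h1

/-- the function `g / f` -/
noncomputable def eintFracAux (f g : D.A) (hf : f ∈ D.gr 1) (hg : g ∈ D.gr 1) :
    Γ(Proj D.gr, Proj.basicOpen D.gr f) :=
  ⟨fun y => HomogeneousLocalization.mk ⟨1, ⟨g, hg⟩, ⟨f, hf⟩, y.2⟩, fun y =>
      ⟨Proj.basicOpen D.gr f, y.2, 𝟙 _, 1, ⟨g, hg⟩, ⟨f, hf⟩, fun x => x.2, fun _ => rfl⟩⟩

open Classical in
/-- the function `g / f` -/
noncomputable def eintFrac (f g : D.A) : Γ(Proj D.gr, Proj.basicOpen D.gr f) :=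
  if h : f ∈ D.gr 1 ∧ g ∈ D.gr 1 then eintFracAux D f g h.1 h.2 else 0

theorem eintFrac_eq {f g : D.A} (hf : f ∈ D.gr 1) (hg : g ∈ D.gr 1) :
    eintFrac D f g = eintFracAux D f g hf hg := dif_pos ⟨hf, hg⟩

theorem eintFracAux_apply {f g : D.A} (hf : f ∈ D.gr 1) (hg : g ∈ D.gr 1)
    (x : ProjectiveSpectrum D.gr) (hx : x ∈ ProjectiveSpectrum.basicOpen D.gr f) :
    (eintFracAux D f g hf hg).1 ⟨x, hx⟩ =
      HomogeneousLocalization.mk ⟨1, ⟨g, hg⟩, ⟨f, hf⟩, hx⟩ := rfl

theorem proj_integral : IsIntegral (Proj D.gr) where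
  nonempty := ⟨eintEta D⟩
  component_integral := by
    intro U hU
    have hne : U ≠ ⊥ := by
      rintro rfl
      obtain ⟨x⟩ := hU
      exact x.2
    exact (eintVal_injective D U hne).isDomain

theorem eint_basicOpen {f g : D.A} (hf : f ∈ D.gr 1) (hg : g ∈ D.gr 1) :
    (Proj D.gr).basicOpen (eintFrac D f g) =
      Proj.basicOpen D.gr f ⊓ Proj.basicOpen D.gr g := by
  have key : ∀ x : Proj D.gr, ∀ hx : x ∈ Proj.basicOpen D.gr f,
      (x ∈ (Proj D.gr).basicOpen (eintFrac D f g) ↔ x ∈ Proj.basicOpen D.gr g) := by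
    intro x hx
    rw [Scheme.mem_basicOpen _ _ x hx]
    have h1 : IsUnit ((Proj D.gr).presheaf.germ (Proj.basicOpen D.gr f) x hx (eintFrac D f g)) ↔
        IsUnit (Proj.stalkIso' D.gr x
          ((ProjectiveSpectrum.Proj.structureSheaf D.gr).presheaf.germ _ x hx (eintFrac D f g))) :=
      (MulEquiv.isUnit_map (Proj.stalkIso' D.gr x)).symm
    refine h1.trans ?_
    have h2 : (eintFrac D f g).1 ⟨x, hx⟩ = HomogeneousLocalization.mk ⟨1, ⟨g, hg⟩, ⟨f, hf⟩, hx⟩ := by
      rw [eintFrac_eq D hf hg]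
      exact eintFracAux_apply D hf hg x hx
    have h3 := (Proj.stalkIso'_germ D.gr (Proj.basicOpen D.gr f) x hx (eintFrac D f g)).trans h2
    refine (Iff.of_eq (congrArg IsUnit h3)).trans ?_
    rw [← HomogeneousLocalization.isUnit_iff_isUnit_val, HomogeneousLocalization.val_mk,
      Localization.mk_eq_mk', IsLocalization.AtPrime.isUnit_mk'_iff]
    rfl
  ext x
  constructor
  · intro hx
    have hxf : x ∈ Proj.basicOpen D.gr f := (Proj D.gr).basicOpen_le _ hx
    exact ⟨hxf, (key x hxf).1 hx⟩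
  · rintro ⟨hxf, hxg⟩
    exact (key x hxf).2 hxg

/-- Embedding of functions into the fraction field and the fractions `g / f`. -/
theorem exists_val : ∃ (val : ∀ V : (Proj D.gr).Opens, V ≠ ⊥ → (Γ(Proj D.gr, V) →+* FractionRing D.A))
    (frac : ∀ f g : D.A, Γ(Proj D.gr, Proj.basicOpen D.gr f)),
    (∀ (V : (Proj D.gr).Opens) (hV : V ≠ ⊥), Function.Injective (val V hV)) ∧
    (∀ (V W : (Proj D.gr).Opens) (h : V ≤ W) (hV : V ≠ ⊥) (hW : W ≠ ⊥) (s : Γ(Proj D.gr, W)),
      val V hV (rf h s) = val W hW s) ∧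
    (∀ (f g : D.A) (_ : f ∈ D.gr 1) (_ : g ∈ D.gr 1) (h : Proj.basicOpen D.gr f ≠ ⊥),
      val _ h (frac f g) = algebraMap D.A _ g / algebraMap D.A _ f) ∧
    (∀ f g : D.A, f ∈ D.gr 1 → g ∈ D.gr 1 →
      (Proj D.gr).basicOpen (frac f g) = Proj.basicOpen D.gr f ⊓ Proj.basicOpen D.gr g) ∧
    (∀ f : D.A, f ≠ 0 → Proj.basicOpen D.gr f ≠ ⊥) := by
  refine ⟨eintVal D, eintFrac D, eintVal_injective D, fun V W h hV hW s => rfl, ?_,
    fun f g hf hg => eint_basicOpen D hf hg, fun f hf => eint_basicOpen_ne_bot D hf⟩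
  intro f g hf hg h
  rw [eintFrac_eq D hf hg, eintVal_apply]
  exact (congrArg (eintTheta D) (eintFracAux_apply D hf hg _ _)).trans (eintTheta_mk D _)

end Pool.H33.P
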