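import Mathlib

/-! # ESYZ: over `k[u, v]` the kernel of a map of finite free modules is projective

Submodules of projective modules over a principal ideal domain `R` are projective (quotients of injective
modules are injective).  For a module `M` over `R[X]` which is projective over `R` there is the exact sequence
`0 -> R[X] ⊗ M -> R[X] ⊗ M -> M -> 0` (maps `X ⊗ 1 - 1 ⊗ X`, action), so the projective dimension of `M` is at
most one.  For a map `f` of finite free modules over `R[X]` this is used for `M = range f`. -/

open scoped TensorProduct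

namespace Pool.H33.P

/-- kernels of maps of finite free modules are projective -/
def P2 (R : Type) [CommRing R] : Prop :=
  ∀ (m n : ℕ) (f : (Fin m → R) →ₗ[R] (Fin n → R)), Module.Projective R (LinearMap.ker f)

section PID

variable {R : Type} [CommRing R] [IsDomain R] [IsPrincipalIdealRing R]

theorem esyz_quot {I : Type} [AddCommGroup I] [Module R I] (hI : Module.Injective R I)
    (W : Submodule R I) : Module.Injective R (I ⧸ W) := by
  apply Module.Baer.injective
  intro J g
  obtain ⟨g', hg'⟩ := Module.projective_lifting_property W.mkQ g W.mkQ_surjective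
  obtain ⟨g'', hg''⟩ := Module.Baer.of_injective hI J g'
  refine ⟨W.mkQ.comp g'', fun x hx => ?_⟩
  rw [LinearMap.comp_apply, hg'' x hx, ← hg', LinearMap.comp_apply]

omit [IsDomain R] [IsPrincipalIdealRing R] in
theorem esyz_enough (Y : Type) [AddCommGroup Y] [Module R Y] :
    ∃ (E : Type) (_ : AddCommGroup E) (_ : Module R E) (j : Y →ₗ[R] E),
      Module.Injective R E ∧ Function.Injective j := by
  have := (ModuleCat.enoughInjectives.{0} R)
  obtain ⟨pr⟩ := this.presentation (ModuleCat.of R Y)
  refine ⟨pr.J, inferInstance, inferInstance, pr.f.hom, ?_, ?_⟩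
  · have hJ : CategoryTheory.Injective (ModuleCat.of R pr.J) := pr.injective
    exact Module.injective_module_of_injective_object R pr.J (inj := hJ)
  · exact (ModuleCat.mono_iff_injective _).1 pr.mono

theorem esyz_sub {P : Type} [AddCommGroup P] [Module R P] [Module.Projective R P]
    (N : Submodule R P) : Module.Projective R N := by
  apply Module.Projective.of_lifting_property
  intro Y Z _ _ _ _ f g hf
  obtain ⟨E, _, _, j, hE, hj⟩ := esyz_enough (R := R) Y
  have hW : LinearMap.ker f ≤ (Submodule.map j (LinearMap.ker f)).comap j :=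
    Submodule.le_comap_map _ _
  have hQ := esyz_quot hE (Submodule.map j (LinearMap.ker f))
  set W := Submodule.map j (LinearMap.ker f) with hWdef
  let θ : Z →ₗ[R] E ⧸ W := ((LinearMap.ker f).mapQ W j hW).comp
    (f.quotKerEquivOfSurjective hf).symm.toLinearMap
  have hθ : ∀ y, θ (f y) = W.mkQ (j y) := by
    intro y
    have : (f.quotKerEquivOfSurjective hf).symm (f y) = (LinearMap.ker f).mkQ y := by
      rw [LinearEquiv.symm_apply_eq]
      rfl
    change ((LinearMap.ker f).mapQ W j hW) ((f.quotKerEquivOfSurjective hf).symm (f y)) = _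
    rw [this]
    rfl
  obtain ⟨G, hG⟩ := hQ.out N.subtype N.injective_subtype (θ.comp g)
  obtain ⟨G', hG'⟩ := Module.projective_lifting_property W.mkQ G W.mkQ_surjective
  have key : ∀ x : N, ∃ y, j y = G' x ∧ f y = g x := by
    intro x
    obtain ⟨y, hy⟩ := hf (g x)
    have h1 : W.mkQ (G' x) = W.mkQ (j y) := by
      rw [← hθ y, hy]
      have h2 := hG x
      have h3 := LinearMap.congr_fun hG' (x : P)
      rw [LinearMap.comp_apply] at h3
      rw [h3]
      exact h2
    have h2 : G' x - j y ∈ W := by
      rw [← Submodule.Quotient.mk_eq_zero, Submodule.Quotient.mk_sub]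
      exact sub_eq_zero.2 h1
    obtain ⟨z, hz, hz'⟩ := h2
    refine ⟨y + z, ?_, ?_⟩
    · rw [map_add, hz']
      abel
    · rw [map_add, hy, LinearMap.mem_ker.1 hz, add_zero]
  have hr : ∀ x : N, (G'.comp N.subtype) x ∈ LinearMap.range j := by
    intro x
    obtain ⟨y, hy, -⟩ := key x
    exact ⟨y, hy⟩
  refine ⟨(LinearEquiv.ofInjective j hj).symm.toLinearMap.comp
    ((G'.comp N.subtype).codRestrict (LinearMap.range j) hr), ?_⟩
  apply LinearMap.ext
  intro x
  obtain ⟨y, hy1, hy2⟩ := key x
  have : (LinearEquiv.ofInjective j hj).symm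
      (((G'.comp N.subtype).codRestrict (LinearMap.range j) hr) x) = y := by
    rw [LinearEquiv.symm_apply_eq]
    apply Subtype.ext
    exact hy1.symm
  change f ((LinearEquiv.ofInjective j hj).symm
      (((G'.comp N.subtype).codRestrict (LinearMap.range j) hr) x)) = g x
  rw [this, hy2]

end PID

section Schanuel

open CategoryTheory

theorem esyz_schanuel {A : Type} [CommRing A] {F I P : Type} [AddCommGroup F] [Module A F]
    [AddCommGroup I] [Module A I] [AddCommGroup P] [Module A P] [Module.Projective A F]
    [Module.Projective A P] (p : F →ₗ[A] I) (hp : Function.Surjective p) (q : P →ₗ[A] I)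
    (hq : Function.Surjective q) (h : Module.Projective A (LinearMap.ker q)) :
    Module.Projective A (LinearMap.ker p) := by
  have h1 := LinearMap.shortExact_shortComplexKer hp
  have h2 := LinearMap.shortExact_shortComplexKer hq
  have a1 : HasProjectiveDimensionLT q.shortComplexKer.X₁ 1 := by
    rw [← projective_iff_hasProjectiveDimensionLT_one]
    exact (IsProjective.iff_projective (R := A) (LinearMap.ker q)).1 h
  have a2 : HasProjectiveDimensionLT q.shortComplexKer.X₂ 1 := by
    rw [← projective_iff_hasProjectiveDimensionLT_one]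
    exact (IsProjective.iff_projective (R := A) P).1 inferInstance
  have a3 : HasProjectiveDimensionLT p.shortComplexKer.X₂ 1 := by
    rw [← projective_iff_hasProjectiveDimensionLT_one]
    exact (IsProjective.iff_projective (R := A) F).1 inferInstance
  have a4 : HasProjectiveDimensionLT q.shortComplexKer.X₃ 2 :=
    h2.hasProjectiveDimensionLT_X₃ 1 a1 (hasProjectiveDimensionLT_of_ge _ 1 2 (by norm_num))
  have a5 : HasProjectiveDimensionLT p.shortComplexKer.X₁ 1 :=
    h1.hasProjectiveDimensionLT_X₁ 1 a3 a4
  rw [← projective_iff_hasProjectiveDimensionLT_one] at a5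
  exact (IsProjective.iff_projective (R := A) (LinearMap.ker p)).2 a5

end Schanuel

section Koszul

open Polynomial

variable {R : Type} [CommRing R] {M : Type} [AddCommGroup M] [Module R M] [Module R[X] M]
  [IsScalarTower R R[X] M]

/-- multiplication by `X` -/
noncomputable def esyzXi : M →ₗ[R] M := Algebra.lsmul R R M (X : R[X])

theorem esyzXi_apply (m : M) : esyzXi (R := R) m = (X : R[X]) • m := rfl

theorem esyzXi_pow (n : ℕ) (m : M) : (esyzXi (R := R) ^ n) m = (X ^ n : R[X]) • m := by
  induction n with
  | zero => simp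
  | succ n ih => rw [pow_succ', Module.End.mul_apply, ih, esyzXi_apply, smul_smul, pow_succ']

/-- the map `X ⊗ 1 - 1 ⊗ X` -/
noncomputable def esyzPhi : R[X] ⊗[R] M →ₗ[R[X]] R[X] ⊗[R] M :=
  (X : R[X]) • LinearMap.id - (esyzXi (R := R) (M := M)).baseChange R[X]

theorem esyzPhi_tmul (a : R[X]) (m : M) :
    esyzPhi (a ⊗ₜ[R] m) = (X * a) ⊗ₜ[R] m - a ⊗ₜ[R] ((X : R[X]) • m) := rfl

/-- the action -/
noncomputable def esyzQ : R[X] ⊗[R] M →ₗ[R[X]] M :=
  (LinearMap.id : M →ₗ[R] M).liftBaseChange R[X]

theorem esyzQ_tmul (a : R[X]) (m : M) : esyzQ (a ⊗ₜ[R] m) = a • m := by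
  simp [esyzQ]

/-- divided differences -/
noncomputable def esyzD : R[X] ⊗[R] M →ₗ[R] R[X] ⊗[R] M :=
  TensorProduct.lift (Polynomial.lsum (fun i => LinearMap.toSpanSingleton R _
    (∑ j ∈ Finset.range i, (TensorProduct.mk R R[X] M (X ^ j)).comp
      (esyzXi (R := R) (M := M) ^ (i - 1 - j)))))

theorem esyzD_tmul (i : ℕ) (m : M) : esyzD ((X ^ i : R[X]) ⊗ₜ[R] m) =
    ∑ j ∈ Finset.range i, (X ^ j : R[X]) ⊗ₜ[R] ((X ^ (i - 1 - j) : R[X]) • m) := by
  rw [esyzD, TensorProduct.lift.tmul, Polynomial.lsum_apply]
  rw [X_pow_eq_monomial, Polynomial.sum_monomial_index]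
  · simp [LinearMap.sum_apply, esyzXi_pow, X_pow_eq_monomial]
  · simp

omit [Module R[X] M] [IsScalarTower R R[X] M] in
theorem esyz_ext {N : Type} [AddCommGroup N] [Module R N] {f g : R[X] ⊗[R] M →ₗ[R] N}
    (h : ∀ (i : ℕ) (m : M), f ((X ^ i : R[X]) ⊗ₜ[R] m) = g ((X ^ i : R[X]) ⊗ₜ[R] m)) : f = g := by
  apply TensorProduct.ext
  apply Polynomial.lhom_ext'
  intro i
  apply LinearMap.ext_ring
  apply LinearMap.ext
  intro m
  have := h i m
  rw [X_pow_eq_monomial] at this
  exact this

theorem esyzD_Phi (z : R[X] ⊗[R] M) : esyzD (esyzPhi z) = z := by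
  have : (esyzD (R := R) (M := M)).comp (esyzPhi.restrictScalars R) = LinearMap.id := by
    apply esyz_ext
    intro i m
    rw [LinearMap.comp_apply, LinearMap.restrictScalars_apply, esyzPhi_tmul, map_sub, ← pow_succ',
      esyzD_tmul, esyzD_tmul, Finset.sum_range_succ, LinearMap.id_apply]
    have e1 : ∀ j ∈ Finset.range i, (X ^ j : R[X]) ⊗ₜ[R] ((X ^ (i + 1 - 1 - j) : R[X]) • m) =
        (X ^ j : R[X]) ⊗ₜ[R] ((X ^ (i - 1 - j) : R[X]) • ((X : R[X]) • m)) := by
      intro j hj
      rw [Finset.mem_range] at hj
      rw [smul_smul, ← pow_succ]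
      congr 3
      omega
    rw [Finset.sum_congr rfl e1]
    simp
  exact LinearMap.congr_fun this z

theorem esyzPhi_D (z : R[X] ⊗[R] M) : esyzPhi (esyzD z) = z - (1 : R[X]) ⊗ₜ[R] esyzQ z := by
  have : (esyzPhi.restrictScalars R).comp (esyzD (R := R) (M := M)) =
      LinearMap.id - (TensorProduct.mk R R[X] M 1).comp (esyzQ.restrictScalars R) := by
    apply esyz_ext
    intro i m
    rw [LinearMap.comp_apply, LinearMap.restrictScalars_apply, esyzD_tmul, map_sum]
    have e1 : ∀ j ∈ Finset.range i, esyzPhi ((X ^ j : R[X]) ⊗ₜ[R] ((X ^ (i - 1 - j) : R[X]) • m)) =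
        (X ^ (j + 1) : R[X]) ⊗ₜ[R] ((X ^ (i - (j + 1)) : R[X]) • m) -
        (X ^ j : R[X]) ⊗ₜ[R] ((X ^ (i - j) : R[X]) • m) := by
      intro j hj
      rw [Finset.mem_range] at hj
      rw [esyzPhi_tmul, smul_smul, ← pow_succ', ← pow_succ']
      congr 4
      · omega
      · omega
    rw [Finset.sum_congr rfl e1, Finset.sum_range_sub
      (fun j => (X ^ j : R[X]) ⊗ₜ[R] ((X ^ (i - j) : R[X]) • m))]
    simp [esyzQ_tmul]
  exact LinearMap.congr_fun this z

theorem esyz_ker [Module.Projective R M] :
    Module.Projective R[X] (LinearMap.ker (esyzQ (R := R) (M := M))) := by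
  have hinj : Function.Injective (esyzPhi (R := R) (M := M)) :=
    Function.LeftInverse.injective esyzD_Phi
  have hr : LinearMap.range (esyzPhi (R := R) (M := M)) = LinearMap.ker esyzQ := by
    apply le_antisymm
    · rintro _ ⟨z, rfl⟩
      rw [LinearMap.mem_ker]
      have : (esyzQ (R := R) (M := M)).comp esyzPhi = 0 := by
        apply TensorProduct.AlgebraTensorModule.ext
        intro a m
        rw [LinearMap.comp_apply, esyzPhi_tmul, map_sub, esyzQ_tmul, esyzQ_tmul, smul_smul,
          mul_comm, sub_self]
        rfl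
      exact LinearMap.congr_fun this z
    · intro z hz
      refine ⟨esyzD z, ?_⟩
      rw [esyzPhi_D, LinearMap.mem_ker.1 hz, TensorProduct.tmul_zero, sub_zero]
  rw [← hr]
  exact Module.Projective.of_equiv' (LinearEquiv.ofInjective esyzPhi hinj)

end Koszul

open Polynomial in
theorem esyz_polynomial (R : Type) [CommRing R] [IsDomain R] [IsPrincipalIdealRing R] :
    P2 R[X] := by
  intro m n f
  have h1 : Module.Projective R (LinearMap.range f) :=
    esyz_sub ((LinearMap.range f).restrictScalars R)
  have h2 := esyz_ker (R := R) (M := LinearMap.range f)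
  have h3 := esyz_schanuel f.rangeRestrict f.surjective_rangeRestrict
    (esyzQ (R := R) (M := LinearMap.range f)) (fun x => ⟨1 ⊗ₜ x, by rw [esyzQ_tmul, one_smul]⟩) h2
  rwa [LinearMap.ker_rangeRestrict] at h3

/-- transport of a map of finite free modules -/
def esyzMap {R R' : Type} [CommRing R] [CommRing R'] (e : R ≃+* R') {m n : ℕ}
    (f : (Fin m → R') →ₗ[R'] (Fin n → R')) : (Fin m → R) →ₗ[R] (Fin n → R) where
  toFun x i := e.symm (f (fun j => e (x j)) i)
  map_add' x y := by
    have : (fun j => e ((x + y) j)) = (fun j => e (x j)) + fun j => e (y j) := by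
      funext j
      simp
    funext i
    rw [this, map_add]
    simp
  map_smul' r x := by
    have : (fun j => e ((r • x) j)) = e r • fun j => e (x j) := by
      funext j
      simp
    funext i
    rw [this, map_smul]
    simp

attribute [local instance] RingHomInvPair.of_ringEquiv in
theorem p2_equiv {R R' : Type} [CommRing R] [CommRing R'] (e : R ≃+* R') (h : P2 R) : P2 R' := by
  intro m n f
  have h1 := h m n (esyzMap e f)
  have key : ∀ x : Fin m → R, x ∈ LinearMap.ker (esyzMap e f) ↔
      (fun j => e (x j)) ∈ LinearMap.ker f := by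
    intro x
    rw [LinearMap.mem_ker, LinearMap.mem_ker]
    constructor
    · intro h2
      funext i
      have h3 := congrFun h2 i
      change e.symm (f (fun j => e (x j)) i) = 0 at h3
      rw [Pi.zero_apply]
      exact (map_eq_zero_iff e.symm e.symm.injective).1 h3
    · intro h2
      funext i
      change e.symm (f (fun j => e (x j)) i) = 0
      rw [h2, Pi.zero_apply, map_zero]
  let E : LinearMap.ker (esyzMap e f) ≃ₛₗ[(e : R →+* R')] LinearMap.ker f :=
    { toFun := fun x => ⟨fun j => e (x.1 j), (key x.1).1 x.2⟩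
      invFun := fun y => ⟨fun j => e.symm (y.1 j), (key _).2 (by simp)⟩
      map_add' := by
        intro x y
        apply Subtype.ext
        funext j
        simp
      map_smul' := by
        intro r x
        apply Subtype.ext
        funext j
        simp
      left_inv := by
        intro x
        apply Subtype.ext
        funext j
        simp
      right_inv := by
        intro x
        apply Subtype.ext
        funext j
        simp }
  exact Module.Projective.of_equiv E

theorem p2_mvPolynomial (k : Type) [Field k] : P2 (MvPolynomial (Fin 2) k) := by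
  have h1 : IsPrincipalIdealRing (MvPolynomial (Fin 1) k) := by
    have e := (MvPolynomial.finSuccEquiv k 0).trans
      (Polynomial.mapAlgEquiv (MvPolynomial.isEmptyAlgEquiv k (Fin 0)))
    exact IsPrincipalIdealRing.of_surjective e.symm.toRingEquiv.toRingHom e.symm.surjective
  exact p2_equiv (MvPolynomial.finSuccEquiv k 1).symm.toRingEquiv (esyz_polynomial _)

end Pool.H33.P
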