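import Mathlib
import Pool.Agent.H33.P.EDef
import Pool.Agent.H33.P.EINT
import Pool.Agent.H33.P.ESYZ

/-! # ETOR: the toric data on `Proj`

`U l = D+(f l)`.  On the charts `0, 1, 2, 3` (in `Frac A`):
`x0 : 1, f0/f1, 1, m/f3`;  `x1 : f1/f0, 1, m/f2, 1`;  `y : 1, 1, f0/f2, f1/f3`;  `z : f2/f0, f3/f1, 1, 1`.
Generators of `F`: `x0` on the charts `0, 2`, `x1` on the charts `1, 3`; of `G`: `y/x0, y/x1, z, z`;
`cF l l'` = (generator on `l'`) / (generator on `l`), so `cF = x1/x0` or its inverse or `1`;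
`cG l l'` similarly, e.g. `cG 0 1 = x0/x1`, `cG 0 2 = cG 0 3 = x0 z / y = f2/f0`, `cG 1 2 = cG 1 3 = f3/f1`,
`cG 2 3 = 1`.
All identities are checked in `Frac A` with `exists_val` and the relations `r1, r2, r3`; note that
`D+(m) = D+(f2) ⊓ D+(f3)` and `D+(f0) ⊓ D+(m) = D+(f1) ⊓ D+(f2)`, `D+(f0) ⊓ D+(f3) = D+(f1) ⊓ D+(m)`.
All `D+(f l)` are affine (`Proj.isAffineOpen_basicOpen`), with ring `Away (f l)` (`Proj.basicOpenIsoAway`). -/

open CategoryTheory AlgebraicGeometry Limits TopologicalSpace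

namespace Pool.H33.P

section EtorField


variable {K : Type} [Field K]

/-- generators of `F` -/
def etorF (a : Fin 4 → K) : Fin 4 → K := ![1, a 1 / a 0, 1, a 1 / a 0]

/-- generators of `G` -/
def etorG (a : Fin 4 → K) (l : Fin 4) : K := a l / (a 0 * etorF a l ^ 2)

variable {a : Fin 4 → K} {am : K} (ha : ∀ l, a l ≠ 0) (hm : am ≠ 0)

include ha in
theorem etorF_ne (l : Fin 4) : etorF a l ≠ 0 := by
  have h0 := ha 0
  have h1 := ha 1
  fin_cases l <;> simp [etorF, h0, h1]

include ha in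
theorem etorG_ne (l : Fin 4) : etorG a l ≠ 0 := by
  have h0 := ha 0
  have h1 := ha l
  have h2 := etorF_ne ha l
  unfold etorG
  positivity

variable (r1 : a 0 * am = a 1 * a 2) (r2 : a 0 * a 3 = a 1 * am) (r3 : a 2 * a 3 = am * am)

section
variable {S : Fin 4 → Subring K} (hS : ∀ l j, a j / a l ∈ S l) (hSm : ∀ l, am / a l ∈ S l)

include ha hS hSm r2 in
theorem etor_x0 (l : Fin 4) : (etorF a l)⁻¹ ∈ S l := by
  have h0 := ha 0
  have h1 := ha 1
  have h3 := ha 3
  fin_cases l
  · simp [etorF]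
  · have h := hS 1 0
    simpa [etorF] using h
  · simp [etorF]
  · have h := hSm 3
    have e : (etorF a 3)⁻¹ = am / a 3 := by
      simp only [etorF]
      simp
      field_simp
      linear_combination r2
    show (etorF a 3)⁻¹ ∈ S 3
    rw [e]
    exact h

include ha hS hSm r1 in
theorem etor_x1 (l : Fin 4) : (a 1 / a 0) / etorF a l ∈ S l := by
  have h0 := ha 0
  have h1 := ha 1
  have h2 := ha 2
  fin_cases l
  · have h := hS 0 1
    simpa [etorF] using h
  · have e : (a 1 / a 0) / etorF a 1 = 1 := by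
      simp only [etorF]
      simp [ha]
      try field_simp
    show (a 1 / a 0) / etorF a 1 ∈ S 1
    rw [e]
    exact one_mem _
  · have h := hSm 2
    have e : (a 1 / a 0) / etorF a 2 = am / a 2 := by
      simp only [etorF]
      simp
      field_simp
      linear_combination -r1
    show (a 1 / a 0) / etorF a 2 ∈ S 2
    rw [e]
    exact h
  · have e : (a 1 / a 0) / etorF a 3 = 1 := by
      simp only [etorF]
      simp [ha]
      try field_simp
    show (a 1 / a 0) / etorF a 3 ∈ S 3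
    rw [e]
    exact one_mem _

include ha hS in
theorem etor_y (l : Fin 4) : (etorF a l * etorG a l)⁻¹ ∈ S l := by
  have h0 := ha 0
  have h1 := ha 1
  have h2 := ha 2
  have h3 := ha 3
  fin_cases l
  · have e : (etorF a 0 * etorG a 0)⁻¹ = 1 := by
      simp only [etorF, etorG]
      simp [ha]
      try field_simp
    show (etorF a 0 * etorG a 0)⁻¹ ∈ S 0
    rw [e]
    exact one_mem _
  · have e : (etorF a 1 * etorG a 1)⁻¹ = 1 := by
      simp only [etorF, etorG]
      simp [ha]
      try field_simp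
    show (etorF a 1 * etorG a 1)⁻¹ ∈ S 1
    rw [e]
    exact one_mem _
  · have e : (etorF a 2 * etorG a 2)⁻¹ = a 0 / a 2 := by
      simp only [etorF, etorG]
      simp
    show (etorF a 2 * etorG a 2)⁻¹ ∈ S 2
    rw [e]
    exact hS 2 0
  · have e : (etorF a 3 * etorG a 3)⁻¹ = a 1 / a 3 := by
      simp only [etorF, etorG]
      simp [ha]
      try field_simp
    show (etorF a 3 * etorG a 3)⁻¹ ∈ S 3
    rw [e]
    exact hS 3 1

include ha hS r1 r2 in
theorem etor_z (l : Fin 4) : (a 2 / a 0) / etorG a l ∈ S l := by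
  have h0 := ha 0
  have h1 := ha 1
  have h2 := ha 2
  have h3 := ha 3
  fin_cases l
  · have e : (a 2 / a 0) / etorG a 0 = a 2 / a 0 := by
      simp only [etorF, etorG]
      simp [ha]
      try field_simp
    show (a 2 / a 0) / etorG a 0 ∈ S 0
    rw [e]
    exact hS 0 2
  · have e : (a 2 / a 0) / etorG a 1 = a 3 / a 1 := by
      simp only [etorF, etorG]
      simp
      field_simp
      linear_combination (a 1) * r1 * (-1) - (a 0) * r2
    show (a 2 / a 0) / etorG a 1 ∈ S 1
    rw [e]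
    exact hS 1 3
  · have e : (a 2 / a 0) / etorG a 2 = 1 := by
      simp only [etorF, etorG]
      simp [ha]
      try field_simp
    show (a 2 / a 0) / etorG a 2 ∈ S 2
    rw [e]
    exact one_mem _
  · have e : (a 2 / a 0) / etorG a 3 = 1 := by
      simp only [etorF, etorG]
      simp
      field_simp
      linear_combination (a 1) * r1 * (-1) + (a 0) * r2 * (-1)
    show (a 2 / a 0) / etorG a 3 ∈ S 3
    rw [e]
    exact one_mem _

include ha hS hSm r1 r2 in
theorem etor_cF (l l' : Fin 4) : etorF a l' / etorF a l ∈ S l := by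
  have h : etorF a l' = 1 ∨ etorF a l' = a 1 / a 0 := by
    fin_cases l' <;> simp [etorF]
  rcases h with h | h
  · rw [h, one_div]
    exact etor_x0 ha r2 hS hSm l
  · rw [h]
    exact etor_x1 ha r1 hS hSm l

include ha hS hSm r1 r2 in
theorem etor_cG (l l' : Fin 4) (T : Subring K) (h1 : S l ≤ T) (h2 : S l' ≤ T) :
    etorG a l' / etorG a l ∈ T := by
  have hF := etorF_ne ha l
  have hF' := etorF_ne ha l'
  have hG := etorG_ne ha l
  have h : etorF a l' * etorG a l' = 1 ∨ etorG a l' = a 2 / a 0 := by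
    have e0 := ha 0
    have e1 := ha 1
    have e2 := ha 2
    have e3 := ha 3
    fin_cases l'
    · left
      simp only [etorF, etorG]
      simp [ha]
    · left
      simp only [etorF, etorG]
      simp
      field_simp
    · right
      simp only [etorF, etorG]
      simp
    · right
      simp only [etorF, etorG]
      simp
      field_simp
      linear_combination (a 1) * r1 + (a 0) * r2
  rcases h with h | h
  · have e : etorG a l' / etorG a l = (etorF a l * etorG a l)⁻¹ * (etorF a l / etorF a l') := by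
      have e1 : etorG a l' = (etorF a l')⁻¹ := eq_inv_of_mul_eq_one_right h
      rw [e1]
      field_simp
    rw [e]
    exact mul_mem (h1 (etor_y ha hS l)) (h2 (etor_cF ha r1 r2 hS hSm l' l))
  · rw [h]
    exact h1 (etor_z ha r1 r2 hS l)

end

include ha in
theorem etor_amp0 (l : Fin 4) : (etorF a l)⁻¹ * (etorF a l * etorG a l)⁻¹ = a 0 / a l := by
  have h0 := ha 0
  have hl := ha l
  have hF := etorF_ne ha l
  unfold etorG
  field_simp

include ha in
theorem etor_amp1 (l : Fin 4) :
    (a 1 / a 0) / etorF a l * (etorF a l * etorG a l)⁻¹ = a 1 / a l := by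
  have h0 := ha 0
  have hl := ha l
  have hF := etorF_ne ha l
  unfold etorG
  field_simp

include ha in
theorem etor_amp2 (l : Fin 4) :
    (etorF a l)⁻¹ * ((etorF a l)⁻¹ * ((a 2 / a 0) / etorG a l)) = a 2 / a l := by
  have h0 := ha 0
  have hl := ha l
  have hF := etorF_ne ha l
  unfold etorG
  field_simp

include ha r1 r2 in
theorem etor_amp3 (l : Fin 4) :
    ((a 1 / a 0) / etorF a l) * (((a 1 / a 0) / etorF a l) * ((a 2 / a 0) / etorG a l)) =
      a 3 / a l := by
  have h0 := ha 0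
  have hl := ha l
  have hF := etorF_ne ha l
  unfold etorG
  field_simp
  linear_combination (a 1) * r1 * (-1) - (a 0) * r2

include ha in
theorem etor_y1 : (etorF a 1 * etorG a 1)⁻¹ = 1 := by
  have h0 := ha 0
  have h1 := ha 1
  simp only [etorF, etorG]
  simp
  field_simp

include ha r1 r2 in
theorem etor_z3 : (a 2 / a 0) / etorG a 3 = 1 := by
  have h0 := ha 0
  have h1 := ha 1
  have h2 := ha 2
  have h3 := ha 3
  simp only [etorF, etorG]
  simp
  field_simp
  linear_combination (a 1) * r1 * (-1) + (a 0) * r2 * (-1)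

theorem etor_i1 {x y c : K} (hy : y ≠ 0) : c / x = y / x * (c / y) := by
  field_simp

theorem etor_i2 {x y : K} (hy : y ≠ 0) : x⁻¹ = y / x * y⁻¹ := by
  field_simp

theorem etor_i3 {x y u v : K} (hy : y ≠ 0) (hv : v ≠ 0) :
    (x * u)⁻¹ = y / x * (v / u) * (y * v)⁻¹ := by
  field_simp

end EtorField

theorem exists_toricData {k : Type} [Field k] (D : ScrollData k) :
    Nonempty (ToricData (Proj D.gr)) := by
  obtain ⟨val, frac, inj, res, vf, bo, nb⟩ := exists_val D
  have hU : ∀ l, Proj.basicOpen D.gr (D.f l) ≠ ⊥ := fun l => nb _ (D.ne l)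
  have hU2 : ∀ l l', Proj.basicOpen D.gr (D.f l) ⊓ Proj.basicOpen D.gr (D.f l') ≠ ⊥ := by
    intro l l'
    have h := nb (D.f l * D.f l') (mul_ne_zero (D.ne l) (D.ne l'))
    rwa [Proj.basicOpen_mul] at h
  have hU3 : ∀ l l' l'', Proj.basicOpen D.gr (D.f l) ⊓ Proj.basicOpen D.gr (D.f l') ⊓
      Proj.basicOpen D.gr (D.f l'') ≠ ⊥ := by
    intro l l' l''
    have h := nb (D.f l * D.f l' * D.f l'') (mul_ne_zero (mul_ne_zero (D.ne l) (D.ne l')) (D.ne l''))
    rwa [Proj.basicOpen_mul, Proj.basicOpen_mul] at h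
  set K := FractionRing D.A with hK
  set a : Fin 4 → K := fun l => algebraMap D.A K (D.f l) with haa
  set am : K := algebraMap D.A K D.m with ham
  have ha : ∀ l, a l ≠ 0 := fun l => by
    rw [haa]
    exact (map_ne_zero_iff _ (IsFractionRing.injective D.A K)).mpr (D.ne l)
  have r1 : a 0 * am = a 1 * a 2 := by
    simp only [haa, ham]
    rw [← map_mul, D.r1, map_mul]
  have r2 : a 0 * a 3 = a 1 * am := by
    simp only [haa, ham]
    rw [← map_mul, D.r2, map_mul]
  let S : Fin 4 → Subring K := fun l => (val _ (hU l)).range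
  have hS : ∀ l j, a j / a l ∈ S l := fun l j =>
    ⟨frac (D.f l) (D.f j), vf _ _ (D.hf l) (D.hf j) _⟩
  have hSm : ∀ l, am / a l ∈ S l := fun l =>
    ⟨frac (D.f l) D.m, vf _ _ (D.hf l) D.hm _⟩
  let S2 : Fin 4 → Fin 4 → Subring K := fun l l' => (val _ (hU2 l l')).range
  have hSL : ∀ l l', S l ≤ S2 l l' := by
    rintro l l' _ ⟨s, rfl⟩
    exact ⟨rf inf_le_left s, res _ _ _ _ _ _⟩
  have hSR : ∀ l l', S l' ≤ S2 l l' := by
    rintro l l' _ ⟨s, rfl⟩
    exact ⟨rf inf_le_right s, res _ _ _ _ _ _⟩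
  choose X0 hX0 using fun l => (etor_x0 ha r2 hS hSm l : ∃ s, val _ (hU l) s = _)
  choose X1 hX1 using fun l => (etor_x1 ha r1 hS hSm l : ∃ s, val _ (hU l) s = _)
  choose Y hY using fun l => (etor_y ha hS l : ∃ s, val _ (hU l) s = _)
  choose Z hZ using fun l => (etor_z ha r1 r2 hS l : ∃ s, val _ (hU l) s = _)
  choose CF hCF using fun l l' =>
    (hSL l l' (etor_cF ha r1 r2 hS hSm l l') : ∃ s, val _ (hU2 l l') s = _)
  choose CF' hCF' using fun l l' =>
    (hSR l l' (etor_cF ha r1 r2 hS hSm l' l) : ∃ s, val _ (hU2 l l') s = _)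
  choose CG hCG using fun l l' =>
    (etor_cG ha r1 r2 hS hSm l l' (S2 l l') (hSL l l') (hSR l l') :
      ∃ s, val _ (hU2 l l') s = _)
  choose CG' hCG' using fun l l' =>
    (etor_cG ha r1 r2 hS hSm l' l (S2 l l') (hSR l l') (hSL l l') :
      ∃ s, val _ (hU2 l l') s = _)
  have hF := etorF_ne ha
  have hG := etorG_ne ha
  let e : ∀ l, Γ(Proj D.gr, Proj.basicOpen D.gr (D.f l)) ≃+* MvPolynomial (Fin 2) k := fun l =>
    (Proj.basicOpenIsoAway D.gr (D.f l) (D.hf l) one_pos).commRingCatIsoToRingEquiv.symm.trans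
      (D.chart l).some
  refine ⟨{
    int := proj_integral D
    U := fun l => Proj.basicOpen D.gr (D.f l)
    aff := fun l => Proj.isAffineOpen_basicOpen D.gr (D.f l) (D.hf l) one_pos
    cov := D.cov
    inf12 := ?_
    noeth := fun l => isNoetherianRing_of_ringEquiv _ (e l).symm
    syz := fun l => p2_equiv (e l).symm (p2_mvPolynomial k)
    cF := fun l l' => ⟨CF l l', CF' l l', ?_, ?_⟩
    cG := fun l l' => ⟨CG l l', CG' l l', ?_, ?_⟩
    cocF := ?_
    cocG := ?_
    x0 := X0
    x1 := X1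
    y := Y
    z := Z
    sx0 := ?_
    sx1 := ?_
    sy := ?_
    sz := ?_
    x00 := ?_
    x02 := ?_
    x11 := ?_
    x13 := ?_
    y0 := ?_
    y1 := ?_
    z2 := ?_
    z3 := ?_
    amp0 := ?_
    amp1 := ?_
    amp2 := ?_
    amp3 := ?_ }⟩
  · -- inf12
    have e1 : Proj.basicOpen D.gr (D.f 0) ⊓ Proj.basicOpen D.gr D.m =
        Proj.basicOpen D.gr (D.f 1) ⊓ Proj.basicOpen D.gr (D.f 2) := by
      rw [← Proj.basicOpen_mul, D.r1, Proj.basicOpen_mul]
    have e2 : Proj.basicOpen D.gr (D.f 0) ⊓ Proj.basicOpen D.gr (D.f 3) =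
        Proj.basicOpen D.gr (D.f 1) ⊓ Proj.basicOpen D.gr D.m := by
      rw [← Proj.basicOpen_mul, D.r2, Proj.basicOpen_mul]
    have e3 : Proj.basicOpen D.gr (D.f 2) ⊓ Proj.basicOpen D.gr (D.f 3) =
        Proj.basicOpen D.gr D.m := by
      rw [← Proj.basicOpen_mul, D.r3, Proj.basicOpen_mul, inf_idem]
    apply le_antisymm
    · refine le_inf ?_ ?_
      · rw [← e1]; exact inf_le_left
      · rw [← e1, ← e3]; exact inf_le_right.trans inf_le_right
    · refine le_inf ?_ ?_
      · rw [e2]; exact inf_le_left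
      · rw [e2, ← e3]; exact inf_le_right.trans inf_le_left
  · apply inj _ (hU2 l l')
    rw [map_mul, hCF, hCF', map_one]
    have := hF l; have := hF l'
    field_simp
  · apply inj _ (hU2 l l')
    rw [map_mul, hCF, hCF', map_one]
    have := hF l; have := hF l'
    field_simp
  · apply inj _ (hU2 l l')
    rw [map_mul, hCG, hCG', map_one]
    have := hG l; have := hG l'
    field_simp
  · apply inj _ (hU2 l l')
    rw [map_mul, hCG, hCG', map_one]
    have := hG l; have := hG l'
    field_simp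
  · -- cocF
    constructor
    · intro l
      apply inj _ (hU2 l l)
      show val _ (hU2 l l) (CF l l) = _
      rw [hCF, map_one, div_self (hF l)]
    · intro l l' l''
      apply inj _ (hU3 l l' l'')
      show val _ (hU3 l l' l'') (rf _ (CF l l') * rf _ (CF l' l'')) = val _ _ (rf _ (CF l l''))
      rw [map_mul, res _ _ _ _ (hU2 _ _), res _ _ _ _ (hU2 _ _), res _ _ _ _ (hU2 _ _), hCF, hCF,
        hCF]
      have := hF l; have := hF l'; have := hF l''
      field_simp
  · -- cocG
    constructor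
    · intro l
      apply inj _ (hU2 l l)
      show val _ (hU2 l l) (CG l l) = _
      rw [hCG, map_one, div_self (hG l)]
    · intro l l' l''
      apply inj _ (hU3 l l' l'')
      show val _ (hU3 l l' l'') (rf _ (CG l l') * rf _ (CG l' l'')) = val _ _ (rf _ (CG l l''))
      rw [map_mul, res _ _ _ _ (hU2 _ _), res _ _ _ _ (hU2 _ _), res _ _ _ _ (hU2 _ _), hCG, hCG,
        hCG]
      have := hG l; have := hG l'; have := hG l''
      field_simp
  · -- sx0
    intro l l'
    apply inj _ (hU2 l l')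
    show val _ _ (rf _ (X0 l)) = val _ _ (CF l l' * rf _ (X0 l'))
    rw [map_mul, res _ _ _ _ (hU _), res _ _ _ _ (hU _), hCF, hX0, hX0]
    exact etor_i2 (hF l')
  · -- sx1
    intro l l'
    apply inj _ (hU2 l l')
    show val _ _ (rf _ (X1 l)) = val _ _ (CF l l' * rf _ (X1 l'))
    rw [map_mul, res _ _ _ _ (hU _), res _ _ _ _ (hU _), hCF, hX1, hX1]
    exact etor_i1 (hF l')
  · -- sy
    intro l l'
    apply inj _ (hU2 l l')
    show val _ _ (rf _ (Y l)) = val _ _ ((CF l l' * CG l l') * rf _ (Y l'))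
    rw [map_mul, map_mul, res _ _ _ _ (hU _), res _ _ _ _ (hU _), hCF, hCG, hY, hY]
    exact etor_i3 (hF l') (hG l')
  · -- sz
    intro l l'
    apply inj _ (hU2 l l')
    show val _ _ (rf _ (Z l)) = val _ _ (CG l l' * rf _ (Z l'))
    rw [map_mul, res _ _ _ _ (hU _), res _ _ _ _ (hU _), hCG, hZ, hZ]
    exact etor_i1 (hG l')
  · apply inj _ (hU 0)
    rw [hX0, map_one]
    simp [etorF]
  · apply inj _ (hU 2)
    rw [hX0, map_one]
    simp [etorF]
  · apply inj _ (hU 1)
    rw [hX1, map_one]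
    have h0 := ha 0; have h1 := ha 1
    simp only [etorF]
    simp [ha]
  · apply inj _ (hU 3)
    rw [hX1, map_one]
    have h0 := ha 0; have h1 := ha 1
    simp only [etorF]
    simp [ha]
  · apply inj _ (hU 0)
    rw [hY, map_one]
    simp only [etorF, etorG]
    simp [ha]
  · apply inj _ (hU 1)
    rw [hY, map_one]
    exact etor_y1 ha
  · apply inj _ (hU 2)
    rw [hZ, map_one]
    have h0 := ha 0; have h2 := ha 2
    simp only [etorF, etorG]
    simp [ha]
  · apply inj _ (hU 3)
    rw [hZ, map_one]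
    exact etor_z3 ha r1 r2
  · -- amp0
    intro l
    have h : X0 l * Y l = frac (D.f l) (D.f 0) := by
      apply inj _ (hU l)
      rw [map_mul, hX0, hY, etor_amp0 ha, vf _ _ (D.hf l) (D.hf 0)]
    rw [h, bo _ _ (D.hf l) (D.hf 0), inf_comm]
  · -- amp1
    intro l
    have h : X1 l * Y l = frac (D.f l) (D.f 1) := by
      apply inj _ (hU l)
      rw [map_mul, hX1, hY, etor_amp1 ha, vf _ _ (D.hf l) (D.hf 1)]
    rw [h, bo _ _ (D.hf l) (D.hf 1), inf_comm]
  · -- amp2
    intro l
    have h : X0 l * (X0 l * Z l) = frac (D.f l) (D.f 2) := by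
      apply inj _ (hU l)
      rw [map_mul, map_mul, hX0, hZ, etor_amp2 ha, vf _ _ (D.hf l) (D.hf 2)]
    have h' : (Proj D.gr).basicOpen (X0 l * (X0 l * Z l)) = (Proj D.gr).basicOpen (X0 l * Z l) := by
      rw [Scheme.basicOpen_mul, Scheme.basicOpen_mul, ← inf_assoc, inf_idem]
    rw [← h', h, bo _ _ (D.hf l) (D.hf 2), inf_comm]
  · -- amp3
    intro l
    have h : X1 l * (X1 l * Z l) = frac (D.f l) (D.f 3) := by
      apply inj _ (hU l)
      rw [map_mul, map_mul, hX1, hZ, etor_amp3 ha r1 r2, vf _ _ (D.hf l) (D.hf 3)]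
    have h' : (Proj D.gr).basicOpen (X1 l * (X1 l * Z l)) = (Proj D.gr).basicOpen (X1 l * Z l) := by
      rw [Scheme.basicOpen_mul, Scheme.basicOpen_mul, ← inf_assoc, inf_idem]
    rw [← h', h, bo _ _ (D.hf l) (D.hf 3), inf_comm]

end Pool.H33.P
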