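import Mathlib
import Pool.Agent.H33.P.Def
import Pool.Agent.H33.P.TRI1
import Pool.Agent.H33.P.KOS

/-! # PAR: all line bundles `L a b` are generated by `L 0 0` and `L 2 4`

Write `(a, b)` for `L a b`; classes: `x0, x1 : (1, 0)`, `y : (1, 1)`, `z : (0, 1)`.
1. Koszul for `y ^ 2`, `z ^ 2`: `0 -> (0,0) -> (2,2) ⊞ (0,2) -> (2,4) -> 0`; hence `(2,2)`, `(0,2)`.
2. Koszul for `x0`, `x1`: `0 -> (a,b) -> (a+1,b) ⊞ (a+1,b) -> (a+2,b) -> 0`; hence `(1,2)` and then all `(a,2)`.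
3. Koszul for `y`, `z`: `0 -> (0,0) -> (1,1) ⊞ (0,1) -> (1,2) -> 0`; hence `(1,1)`, `(0,1)`, and by 2. all `(a,1)`.
4. Koszul for `y`, `z`: `0 -> (a,b) -> (a+1,b+1) ⊞ (a,b+1) -> (a+1,b+2) -> 0`: from all `(a,b)`, `(a,b+1)` to all
`(a,b+2)` and from all `(a,b+1)`, `(a,b+2)` to all `(a,b)`. -/

open CategoryTheory AlgebraicGeometry Limits TopologicalSpace

namespace Pool.H33.P

variable {X : Scheme.{0}} {T : ToricData X} (S : LSys T)

section
variable (Q : ObjectProperty (DerivedCategory X.Modules)) [Q.IsTriangulated]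
    [Q.IsStableUnderRetracts]

theorem par_cast {a b a' b' : ℤ} (ha : a = a') (hb : b = b') (h : Q (sg (S.L a b))) :
    Q (sg (S.L a' b')) := by
  subst ha hb; exact h

/-- the Koszul sequence for `x0, x1` -/
theorem par_kx (a b : ℤ) : ∃ (f : S.L a b ⟶ S.L (a + 1) (b + 0) ⊞ S.L (a + 1) (b + 0))
    (g : S.L (a + 1) (b + 0) ⊞ S.L (a + 1) (b + 0) ⟶ S.L (a + 1 + 1) (b + 0 + 0)) (w : f ≫ g = 0),
    (ShortComplex.mk f g w).ShortExact :=
  koszul S a b 1 0 1 0 T.x0 T.x1 (sec_x0 T) (sec_x1 T) fun l => by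
    rcases unit_x T l with h | h
    · left; rw [h]; exact isUnit_one
    · right; rw [h]; exact isUnit_one

/-- the Koszul sequence for `y, z` -/
theorem par_ky (a b : ℤ) : ∃ (f : S.L a b ⟶ S.L (a + 1) (b + 1) ⊞ S.L (a + 0) (b + 1))
    (g : S.L (a + 1) (b + 1) ⊞ S.L (a + 0) (b + 1) ⟶ S.L (a + 1 + 0) (b + 1 + 1)) (w : f ≫ g = 0),
    (ShortComplex.mk f g w).ShortExact :=
  koszul S a b 1 1 0 1 T.y T.z (sec_y T) (sec_z T) fun l => by
    rcases unit_yz T l with h | h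
    · left; rw [h]; exact isUnit_one
    · right; rw [h]; exact isUnit_one

/-- the Koszul sequence for `y ^ 2, z ^ 2` -/
theorem par_kyy (a b : ℤ) : ∃ (f : S.L a b ⟶ S.L (a + 2) (b + 2) ⊞ S.L (a + 0) (b + 2))
    (g : S.L (a + 2) (b + 2) ⊞ S.L (a + 0) (b + 2) ⟶ S.L (a + 2 + 0) (b + 2 + 2)) (w : f ≫ g = 0),
    (ShortComplex.mk f g w).ShortExact := by
  have hy : IsSec T.U (T.c 2 2) (fun l => T.y l ^ 2) := by
    have := sec_pow T (sec_y T) 2
    simpa using this
  have hz : IsSec T.U (T.c 0 2) (fun l => T.z l ^ 2) := by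
    have := sec_pow T (sec_z T) 2
    simpa using this
  exact koszul S a b 2 2 0 2 _ _ hy hz fun l => by
    rcases unit_yz T l with h | h
    · left; simp only [h, one_pow]; exact isUnit_one
    · right; simp only [h, one_pow]; exact isUnit_one

theorem par_up {a b : ℤ} (h0 : Q (sg (S.L a b))) (h1 : Q (sg (S.L (a + 1) b))) :
    Q (sg (S.L (a + 2) b)) := by
  obtain ⟨f, g, w, h⟩ := par_kx S a b
  have e := q_biprod Q (par_cast S Q rfl (add_zero b).symm h1) (par_cast S Q rfl (add_zero b).symm h1)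
  exact par_cast S Q (by ring) (by ring) (ses3 Q h h0 e)

theorem par_down {a b : ℤ} (h1 : Q (sg (S.L (a + 1) b))) (h2 : Q (sg (S.L (a + 2) b))) :
    Q (sg (S.L a b)) := by
  obtain ⟨f, g, w, h⟩ := par_kx S a b
  have e := q_biprod Q (par_cast S Q rfl (add_zero b).symm h1) (par_cast S Q rfl (add_zero b).symm h1)
  exact ses1 Q h e (par_cast S Q (by ring) (by ring) h2)

/-- two consecutive ones generate all -/
theorem par_row {a b : ℤ} (h0 : Q (sg (S.L a b))) (h1 : Q (sg (S.L (a + 1) b))) (c : ℤ) :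
    Q (sg (S.L c b)) := by
  have up : ∀ n : ℕ, Q (sg (S.L (a + n) b)) ∧ Q (sg (S.L (a + n + 1) b)) := by
    intro n
    induction n with
    | zero => exact ⟨par_cast S Q (by simp) rfl h0, par_cast S Q (by simp) rfl h1⟩
    | succ n ih =>
      exact ⟨par_cast S Q (by push_cast; ring) rfl ih.2,
        par_cast S Q (by push_cast; ring) rfl (par_up S Q ih.1 ih.2)⟩
  have down : ∀ n : ℕ, Q (sg (S.L (a - n) b)) ∧ Q (sg (S.L (a - n + 1) b)) := by
    intro n
    induction n with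
    | zero => exact ⟨par_cast S Q (by simp) rfl h0, par_cast S Q (by simp) rfl h1⟩
    | succ n ih =>
      refine ⟨?_, par_cast S Q (by push_cast; ring) rfl ih.1⟩
      apply par_down S Q
      · exact par_cast S Q (by push_cast; ring) rfl ih.1
      · exact par_cast S Q (by push_cast; ring) rfl ih.2
  rcases le_total a c with h | h
  · obtain ⟨n, hn⟩ := Int.eq_ofNat_of_zero_le (sub_nonneg.2 h)
    exact par_cast S Q (by rw [← hn]; ring) rfl (up n).1
  · obtain ⟨n, hn⟩ := Int.eq_ofNat_of_zero_le (sub_nonneg.2 h)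
    exact par_cast S Q (by rw [← hn]; ring) rfl (down n).1

theorem par_rowup {b : ℤ} (h0 : ∀ a, Q (sg (S.L a b))) (h1 : ∀ a, Q (sg (S.L a (b + 1)))) (a : ℤ) :
    Q (sg (S.L a (b + 2))) := by
  obtain ⟨f, g, w, h⟩ := par_ky S (a - 1) b
  have e := q_biprod Q (h1 (a - 1 + 1)) (h1 (a - 1 + 0))
  exact par_cast S Q (by ring) (by ring) (ses3 Q h (h0 _) e)

theorem par_rowdown {b : ℤ} (h1 : ∀ a, Q (sg (S.L a (b + 1)))) (h2 : ∀ a, Q (sg (S.L a (b + 2))))
    (a : ℤ) : Q (sg (S.L a b)) := by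
  obtain ⟨f, g, w, h⟩ := par_ky S a b
  have e := q_biprod Q (h1 (a + 1)) (h1 (a + 0))
  exact ses1 Q h e (par_cast S Q rfl (by ring) (h2 (a + 1 + 0)))

end

theorem all_L (Q : ObjectProperty (DerivedCategory X.Modules)) [Q.IsTriangulated]
    [Q.IsStableUnderRetracts] (h0 : Q (sg (S.L 0 0))) (h1 : Q (sg (S.L 2 4))) (a b : ℤ) :
    Q (sg (S.L a b)) := by
  -- step 1
  obtain ⟨f, g, w, h⟩ := par_kyy S 0 0
  have e1 := ses2 Q h h0 (par_cast S Q (by norm_num) (by norm_num) h1)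
  have h22 : Q (sg (S.L 2 2)) := par_cast S Q (by norm_num) (by norm_num) (q_left Q e1)
  have h02 : Q (sg (S.L 0 2)) := par_cast S Q (by norm_num) (by norm_num) (q_right Q e1)
  -- step 2
  obtain ⟨f2, g2, w2, h2⟩ := par_kx S 0 2
  have e2 := ses2 Q h2 h02 (par_cast S Q (by norm_num) (by norm_num) h22)
  have h12 : Q (sg (S.L 1 2)) := par_cast S Q (by norm_num) (by norm_num) (q_left Q e2)
  have r2 : ∀ a, Q (sg (S.L a 2)) := par_row S Q h02 (par_cast S Q (by norm_num) rfl h12)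
  -- step 3
  obtain ⟨f3, g3, w3, h3⟩ := par_ky S 0 0
  have e3 := ses2 Q h3 h0 (par_cast S Q (by norm_num) (by norm_num) h12)
  have h11 : Q (sg (S.L 1 1)) := par_cast S Q (by norm_num) (by norm_num) (q_left Q e3)
  have h01 : Q (sg (S.L 0 1)) := par_cast S Q (by norm_num) (by norm_num) (q_right Q e3)
  have r1 : ∀ a, Q (sg (S.L a 1)) := par_row S Q h01 (par_cast S Q (by norm_num) rfl h11)
  -- step 4
  have up : ∀ n : ℕ, (∀ a, Q (sg (S.L a (1 + n)))) ∧ ∀ a, Q (sg (S.L a (1 + n + 1))) := by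
    intro n
    induction n with
    | zero => exact ⟨fun a => par_cast S Q rfl (by simp) (r1 a), fun a => par_cast S Q rfl (by norm_num) (r2 a)⟩
    | succ n ih =>
      exact ⟨fun a => par_cast S Q rfl (by push_cast; ring) (ih.2 a),
        fun a => par_cast S Q rfl (by push_cast; ring) (par_rowup S Q ih.1 ih.2 a)⟩
  have down : ∀ n : ℕ, (∀ a, Q (sg (S.L a (1 - n)))) ∧ ∀ a, Q (sg (S.L a (1 - n + 1))) := by
    intro n
    induction n with
    | zero => exact ⟨fun a => par_cast S Q rfl (by simp) (r1 a), fun a => par_cast S Q rfl (by norm_num) (r2 a)⟩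
    | succ n ih =>
      refine ⟨?_, fun a => par_cast S Q rfl (by push_cast; ring) (ih.1 a)⟩
      intro a
      apply par_rowdown S Q
      · exact fun a => par_cast S Q rfl (by push_cast; ring) (ih.1 a)
      · exact fun a => par_cast S Q rfl (by push_cast; ring) (ih.2 a)
  rcases le_total 1 b with hb | hb
  · obtain ⟨n, hn⟩ := Int.eq_ofNat_of_zero_le (sub_nonneg.2 hb)
    exact par_cast S Q rfl (by rw [← hn]; ring) ((up n).1 a)
  · obtain ⟨n, hn⟩ := Int.eq_ofNat_of_zero_le (sub_nonneg.2 hb)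
    exact par_cast S Q rfl (by rw [← hn]; ring) ((down n).1 a)

end Pool.H33.P
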