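import Mathlib
import Pool.Agent.H33.P.Def
import Pool.Agent.H33.P.QCK
import Pool.Agent.H33.P.QSP

/-! # PCO1: homology of complexes of finite free modules on a noetherian affine scheme

The homology is a cokernel of a map into a kernel (quasi-coherent by `qc_kernel`, `qc_cokernel`); the sections
over the affine open `⊤` of the kernel are a submodule of a finite free module over a noetherian ring, those of the
cokernel a quotient (`sec_exact`). -/

open CategoryTheory AlgebraicGeometry Limits TopologicalSpace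

namespace Pool.H33.P

theorem pco1_free_qc {Y : Scheme.{0}} (m : ℕ) :
    ((SheafOfModules.free (R := Y.ringCatSheaf) (Fin m) : Y.Modules)).IsQuasicoherent := by
  infer_instance

/-- abbreviation for the free module -/
noncomputable abbrev pco1F (Y : Scheme.{0}) (m : ℕ) : Y.Modules :=
  (SheafOfModules.free (R := Y.ringCatSheaf) (Fin m) : Y.Modules)

/-- abbreviation for the structure sheaf -/
noncomputable abbrev pco1U (Y : Scheme.{0}) : Y.Modules := SheafOfModules.unit _

noncomputable def pco1i {Y : Scheme.{0}} {m : ℕ} (j : Fin m) : pco1U Y ⟶ pco1F Y m :=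
  SheafOfModules.ιFree (R := Y.ringCatSheaf) j

theorem pco1_hom_ext {Y : Scheme.{0}} {m : ℕ} {M : Y.Modules} (f g : pco1F Y m ⟶ M)
    (h : ∀ j, pco1i j ≫ f = pco1i j ≫ g) : f = g :=
  Cofan.IsColimit.hom_ext (SheafOfModules.isColimitFreeCofan (R := Y.ringCatSheaf) (Fin m)) f g h

theorem pco1_desc {Y : Scheme.{0}} {m : ℕ} {M : Y.Modules} (f : Fin m → (pco1U Y ⟶ M)) :
    ∃ g : pco1F Y m ⟶ M, ∀ j, pco1i j ≫ g = f j :=
  ⟨Cofan.IsColimit.desc (SheafOfModules.isColimitFreeCofan (R := Y.ringCatSheaf) (Fin m)) f,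
    fun j => Cofan.IsColimit.fac (SheafOfModules.isColimitFreeCofan (R := Y.ringCatSheaf) (Fin m)) f j⟩

theorem pco1_proj (Y : Scheme.{0}) (m : ℕ) :
    ∃ p : Fin m → (pco1F Y m ⟶ pco1U Y),
      (∀ i j, pco1i i ≫ p j = if i = j then 𝟙 _ else 0) ∧ ∑ j, p j ≫ pco1i j = 𝟙 _ := by
  classical
  choose p hp using fun j : Fin m =>
    pco1_desc (M := pco1U Y) (fun i : Fin m => if i = j then 𝟙 (pco1U Y) else 0)
  refine ⟨p, fun i j => hp j i, ?_⟩
  apply pco1_hom_ext
  intro i
  rw [Preadditive.comp_sum, Category.comp_id, Finset.sum_eq_single i]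
  · rw [← Category.assoc, hp, if_pos rfl, Category.id_comp]
  · intro j _ hj
    rw [← Category.assoc, hp, if_neg (Ne.symm hj), zero_comp]
  · intro h
    exact absurd (Finset.mem_univ i) h

/-- sections of the structure sheaf -/
noncomputable def pco1E {Y : Scheme.{0}} (V : Y.Opens) : Γ(Y, V) ≃ₗ[Γ(Y, V)] Γ(pco1U Y, V) :=
  { toFun := fun r => r
    invFun := fun r => r
    map_add' := fun _ _ => rfl
    map_smul' := fun _ _ => rfl
    left_inv := fun _ => rfl
    right_inv := fun _ => rfl }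

/-- the linear map on sections -/
noncomputable def pco1L {Y : Scheme.{0}} {M N : Y.Modules} (f : M ⟶ N) (V : Y.Opens) :
    Γ(M, V) →ₗ[Γ(Y, V)] Γ(N, V) :=
  { toFun := fun x => f.app V x
    map_add' := fun x y => map_add _ x y
    map_smul' := fun r x => Scheme.Modules.Hom.app_smul f r x }

theorem pco1L_comp {Y : Scheme.{0}} {M N K : Y.Modules} (f : M ⟶ N) (g : N ⟶ K) (V : Y.Opens)
    (x : Γ(M, V)) : pco1L (f ≫ g) V x = pco1L g V (pco1L f V x) := rfl

theorem pco1L_id {Y : Scheme.{0}} {M : Y.Modules} (V : Y.Opens)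
    (x : Γ(M, V)) : pco1L (𝟙 M) V x = x := rfl

theorem pco1L_zero {Y : Scheme.{0}} {M N : Y.Modules} (V : Y.Opens)
    (x : Γ(M, V)) : pco1L (0 : M ⟶ N) V x = 0 := rfl

theorem pco1L_sum {Y : Scheme.{0}} {M N : Y.Modules} (V : Y.Opens) {κ : Type} (t : Finset κ)
    (f : κ → (M ⟶ N)) (x : Γ(M, V)) : pco1L (∑ j ∈ t, f j) V x = ∑ j ∈ t, pco1L (f j) V x := by
  classical
  induction t using Finset.induction_on with
  | empty => rfl
  | insert a t ha ih =>
    rw [Finset.sum_insert ha, Finset.sum_insert ha, ← ih]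
    rfl

theorem free_sec {Y : Scheme.{0}} (m : ℕ) (V : Y.Opens) :
    Nonempty (Γ((SheafOfModules.free (R := Y.ringCatSheaf) (Fin m) : Y.Modules), V) ≃ₗ[Γ(Y, V)]
      (Fin m → Γ(Y, V))) := by
  obtain ⟨p, h1, h2⟩ := pco1_proj Y m
  refine ⟨LinearEquiv.ofLinearMap
    (LinearMap.pi fun j => (pco1E V).symm.toLinearMap ∘ₗ pco1L (p j) V)
    (∑ j, (pco1L (pco1i j) V ∘ₗ (pco1E V).toLinearMap) ∘ₗ LinearMap.proj j) ?_ ?_⟩
  · apply LinearMap.ext
    intro a
    funext i
    simp only [LinearMap.comp_apply, LinearMap.pi_apply, LinearMap.sum_apply, map_sum,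
      LinearEquiv.coe_coe, LinearMap.proj_apply, LinearMap.id_apply]
    rw [Finset.sum_eq_single i]
    · rw [← pco1L_comp, h1, if_pos rfl, pco1L_id, LinearEquiv.symm_apply_apply]
    · intro j _ hj
      rw [← pco1L_comp, h1, if_neg hj, pco1L_zero, map_zero]
    · intro h
      exact absurd (Finset.mem_univ i) h
  · apply LinearMap.ext
    intro x
    simp only [LinearMap.comp_apply, LinearMap.pi_apply, LinearMap.sum_apply,
      LinearEquiv.coe_coe, LinearMap.proj_apply, LinearMap.id_apply, LinearEquiv.apply_symm_apply]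
    rw [← pco1L_id V x]
    conv_rhs => rw [← h2]
    rw [pco1L_sum]
    rfl

theorem pco1_finite_iso {Y : Scheme.{0}} {M N : Y.Modules} (e : M ≅ N) (V : Y.Opens)
    (h : Module.Finite Γ(Y, V) Γ(M, V)) : Module.Finite Γ(Y, V) Γ(N, V) := by
  apply Module.Finite.of_surjective (pco1L e.hom V)
  intro y
  refine ⟨pco1L e.inv V y, ?_⟩
  rw [← pco1L_comp, e.inv_hom_id, pco1L_id]

theorem pco1_finite_epi {Y : Scheme.{0}} (hY : IsAffineOpen (⊤ : Y.Opens)) {M N : Y.Modules}
    (f : M ⟶ N) [Epi f] (hM : M.IsQuasicoherent) (hN : N.IsQuasicoherent)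
    (h : Module.Finite Γ(Y, ⊤) Γ(M, ⊤)) : Module.Finite Γ(Y, ⊤) Γ(N, ⊤) := by
  apply Module.Finite.of_surjective (pco1L f ⊤)
  have hS : (ShortComplex.mk (kernel.ι f) f (kernel.condition f)).ShortExact :=
    { exact := ShortComplex.exact_kernel f
      mono_f := inferInstanceAs (Mono (kernel.ι f))
      epi_g := inferInstanceAs (Epi f) }
  exact (sec_exact hS (qc_kernel f hM hN) hM hN hY).2.2

theorem ff_homology_coh {Y : Scheme.{0}} (hY : IsAffineOpen (⊤ : Y.Opens))
    (hN : IsNoetherianRing Γ(Y, ⊤)) (K : CochainComplex Y.Modules ℤ) (hK : IsFF K) (i : ℤ) :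
    (K.homology i : Y.Modules).IsQuasicoherent ∧ Module.Finite Γ(Y, ⊤) Γ((K.homology i : Y.Modules), ⊤) := by
  have hq : ∀ n, (K.X n).IsQuasicoherent := by
    intro n
    obtain ⟨m, ⟨e⟩⟩ := hK.2 n
    exact qc_of_iso e.symm (pco1_free_qc m)
  have hfin : ∀ n, Module.Finite Γ(Y, ⊤) Γ(K.X n, ⊤) := by
    intro n
    obtain ⟨m, ⟨e⟩⟩ := hK.2 n
    obtain ⟨g⟩ := free_sec (Y := Y) m ⊤
    exact pco1_finite_iso e.symm ⊤ (Module.Finite.equiv g.symm)
  let S := K.sc i
  have hS1 : S.X₁.IsQuasicoherent := hq _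
  have hS2 : S.X₂.IsQuasicoherent := hq _
  have hS3 : S.X₃.IsQuasicoherent := hq _
  have hk : (kernel S.g).IsQuasicoherent := qc_kernel S.g hS2 hS3
  have hc : (cokernel (kernel.lift S.g S.f S.zero)).IsQuasicoherent := qc_cokernel _ hS1 hk
  let e : K.homology i ≅ cokernel (kernel.lift S.g S.f S.zero) := S.homologyIsoCokernelLift
  refine ⟨qc_of_iso e.symm hc, pco1_finite_iso e.symm ⊤ ?_⟩
  apply pco1_finite_epi hY (cokernel.π (kernel.lift S.g S.f S.zero)) hk hc
  have hf2 : Module.Finite Γ(Y, ⊤) Γ(S.X₂, ⊤) := hfin _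
  exact Module.Finite.of_injective (pco1L (kernel.ι S.g) ⊤) (sec_kernel S.g ⊤).1

end Pool.H33.P
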