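import Mathlib
import Pool.Agent.H33.P.Def

/-! # PRS: restriction of complexes and of perfect complexes to smaller opens

`restrictFunctorComp` and `restrictFunctorCongr` (with `X.homOfLE h ≫ U.ι = V.ι`), applied to complexes by
`NatIso.mapHomologicalComplex` or the like, and `Functor.mapDerivedCategoryFactors`. -/

open CategoryTheory AlgebraicGeometry Limits TopologicalSpace

namespace Pool.H33.P

/-- restriction of complexes to an open subset -/
noncomputable abbrev rc {X : Scheme.{0}} (V : X.Opens) (K : CochainComplex X.Modules ℤ) :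
    CochainComplex (V : Scheme.{0}).Modules ℤ :=
  ((Scheme.Modules.restrictFunctor V.ι).mapHomologicalComplex (ComplexShape.up ℤ)).obj K

variable {X : Scheme.{0}}

theorem rd_Q (V : X.Opens) (K : CochainComplex X.Modules ℤ) :
    Nonempty ((Scheme.Modules.restrictFunctor V.ι).mapDerivedCategory.obj (DerivedCategory.Q.obj K) ≅
      DerivedCategory.Q.obj (rc V K)) :=
  ⟨(Scheme.Modules.restrictFunctor V.ι).mapDerivedCategoryFactors.app K⟩

/-- restriction of free modules (`Scheme.Modules.restrictUnitIso`, the restriction functor preserves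
coproducts) -/
theorem free_restrict {Y : Scheme.{0}} (f : Y ⟶ X) [IsOpenImmersion f] (m : ℕ) :
    Nonempty ((Scheme.Modules.restrictFunctor f).obj
        (SheafOfModules.free (R := X.ringCatSheaf) (Fin m) : X.Modules) ≅
      (SheafOfModules.free (R := Y.ringCatSheaf) (Fin m) : Y.Modules)) := by
  let D : Discrete (Fin m) ⥤ X.Modules :=
    Discrete.functor fun _ => (SheafOfModules.unit X.ringCatSheaf : X.Modules)
  let D' : Discrete (Fin m) ⥤ Y.Modules :=
    Discrete.functor fun _ => (SheafOfModules.unit Y.ringCatSheaf : Y.Modules)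
  let c : Cocone D := SheafOfModules.freeCofan (R := X.ringCatSheaf) (Fin m)
  have hc : IsColimit c := SheafOfModules.isColimitFreeCofan (R := X.ringCatSheaf) (Fin m)
  let c' : Cocone D' := SheafOfModules.freeCofan (R := Y.ringCatSheaf) (Fin m)
  have hc' : IsColimit c' := SheafOfModules.isColimitFreeCofan (R := Y.ringCatSheaf) (Fin m)
  have h1 : IsColimit ((Scheme.Modules.restrictFunctor f).mapCocone c) := isColimitOfPreserves _ hc
  let e : D ⋙ Scheme.Modules.restrictFunctor f ≅ D' :=
    Discrete.natIso fun _ => Scheme.Modules.restrictUnitIso f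
  exact ⟨h1.coconePointsIsoOfNatIso hc' e⟩

theorem ff_restrict {Y : Scheme.{0}} (f : Y ⟶ X) [IsOpenImmersion f]
    {K : CochainComplex X.Modules ℤ} (hK : IsFF K) :
    IsFF (((Scheme.Modules.restrictFunctor f).mapHomologicalComplex (ComplexShape.up ℤ)).obj K) := by
  obtain ⟨⟨a, b, ha, hb⟩, h⟩ := hK
  refine ⟨⟨a, b, ?_, ?_⟩, fun n => ?_⟩
  · rw [CochainComplex.isStrictlyGE_iff] at ha ⊢
    exact fun i hi => Functor.map_isZero (Scheme.Modules.restrictFunctor f) (ha i hi)
  · rw [CochainComplex.isStrictlyLE_iff] at hb ⊢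
    exact fun i hi => Functor.map_isZero (Scheme.Modules.restrictFunctor f) (hb i hi)
  · obtain ⟨m, ⟨e⟩⟩ := h n
    obtain ⟨e'⟩ := free_restrict f m
    exact ⟨m, ⟨(Scheme.Modules.restrictFunctor f).mapIso e ≪≫ e'⟩⟩

/-- restriction in two steps, as functors -/
noncomputable def prs_iso {U V : X.Opens} (h : V ≤ U) :
    Scheme.Modules.restrictFunctor U.ι ⋙ Scheme.Modules.restrictFunctor (X.homOfLE h) ≅
      Scheme.Modules.restrictFunctor V.ι :=
  (Scheme.Modules.restrictFunctorComp (X.homOfLE h) U.ι).symm ≪≫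
    Scheme.Modules.restrictFunctorCongr (X.homOfLE_ι h)

/-- restriction in two steps -/
theorem rc_rc {U V : X.Opens} (h : V ≤ U) (K : CochainComplex X.Modules ℤ) :
    Nonempty (((Scheme.Modules.restrictFunctor (X.homOfLE h)).mapHomologicalComplex
      (ComplexShape.up ℤ)).obj (rc U K) ≅ rc V K) :=
  ⟨(Functor.mapHomologicalComplexCompIso (prs_iso h) (ComplexShape.up ℤ)).app K⟩

theorem perfectAt_mono {U V : X.Opens} (h : V ≤ U) (P : DerivedCategory X.Modules)
    (K : CochainComplex (U : Scheme.{0}).Modules ℤ) (hK : IsFF K)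
    (e : Nonempty ((Scheme.Modules.restrictFunctor U.ι).mapDerivedCategory.obj P ≅
      DerivedCategory.Q.obj K)) :
    ∃ K' : CochainComplex (V : Scheme.{0}).Modules ℤ, IsFF K' ∧
      Nonempty ((Scheme.Modules.restrictFunctor V.ι).mapDerivedCategory.obj P ≅
        DerivedCategory.Q.obj K') := by
  obtain ⟨e⟩ := e
  refine ⟨_, ff_restrict (X.homOfLE h) hK, ?_⟩
  let K0 : CochainComplex X.Modules ℤ := DerivedCategory.Q.objPreimage P
  let e0 : DerivedCategory.Q.obj K0 ≅ P := DerivedCategory.Q.objObjPreimageIso P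
  obtain ⟨e1⟩ := rc_rc h K0
  let R := Scheme.Modules.restrictFunctor (X.homOfLE h)
  have e2 : DerivedCategory.Q.obj ((R.mapHomologicalComplex (ComplexShape.up ℤ)).obj (rc U K0)) ≅
      R.mapDerivedCategory.obj ((Scheme.Modules.restrictFunctor U.ι).mapDerivedCategory.obj
        (DerivedCategory.Q.obj K0)) :=
    (R.mapDerivedCategoryFactors.app (rc U K0)).symm ≪≫
      R.mapDerivedCategory.mapIso
        ((Scheme.Modules.restrictFunctor U.ι).mapDerivedCategoryFactors.app K0).symm
  exact ⟨(Scheme.Modules.restrictFunctor V.ι).mapDerivedCategory.mapIso e0.symm ≪≫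
    (Scheme.Modules.restrictFunctor V.ι).mapDerivedCategoryFactors.app K0 ≪≫
    DerivedCategory.Q.mapIso e1.symm ≪≫ e2 ≪≫
    R.mapDerivedCategory.mapIso
      ((Scheme.Modules.restrictFunctor U.ι).mapDerivedCategory.mapIso e0 ≪≫ e) ≪≫
    R.mapDerivedCategoryFactors.app K⟩

end Pool.H33.P
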