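import Mathlib
import Pool.Agent.H33.P.Def
import Pool.Agent.H33.P.LZ
import Pool.Agent.H33.P.LOCM
import Pool.Agent.H33.P.QCK
import Pool.Agent.H33.P.PRS
import Pool.Agent.H33.P.PCO1

/-! # PCO: the cohomology sheaves of a perfect complex are coherent, and almost all vanish -/

open CategoryTheory AlgebraicGeometry Limits TopologicalSpace

namespace Pool.H33.P

variable {X : Scheme.{0}}

theorem pco_exact_homology {C D : Type*} [Category C] [Category D] [Abelian C] [Abelian D]
    (F : C ⥤ D) [F.Additive] [PreservesFiniteLimits F] [PreservesFiniteColimits F]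
    (K : CochainComplex C ℤ) (i : ℤ) :
    Nonempty ((((F.mapHomologicalComplex (ComplexShape.up ℤ)).obj K).homology i) ≅
      F.obj (K.homology i)) :=
  ⟨(K.sc i).mapHomologyIso F⟩

/-- the homology of the restriction is the restriction of the homology -/
theorem homology_restrict (P : DerivedCategory X.Modules) (V : X.Opens) (i : ℤ) :
    Nonempty ((DerivedCategory.homologyFunctor _ i).obj
        ((Scheme.Modules.restrictFunctor V.ι).mapDerivedCategory.obj P) ≅
      ((DerivedCategory.homologyFunctor X.Modules i).obj P).restrict V.ι) := by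
  let K := DerivedCategory.Q.objPreimage P
  let e : DerivedCategory.Q.obj K ≅ P := DerivedCategory.Q.objObjPreimageIso P
  obtain ⟨h1⟩ := pco_exact_homology (Scheme.Modules.restrictFunctor V.ι) K i
  let a := (DerivedCategory.homologyFunctor _ i).mapIso
    ((Scheme.Modules.restrictFunctor V.ι).mapDerivedCategory.mapIso e.symm)
  obtain ⟨b⟩ := rd_Q V K
  let c := (DerivedCategory.homologyFunctor _ i).mapIso b
  let d := (DerivedCategory.homologyFunctorFactors (V : Scheme.{0}).Modules i).app (rc V K)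
  let f := (Scheme.Modules.restrictFunctor V.ι).mapIso
    (((DerivedCategory.homologyFunctorFactors X.Modules i).app K).symm ≪≫
      (DerivedCategory.homologyFunctor _ i).mapIso e)
  exact ⟨a ≪≫ c ≪≫ d ≪≫ h1 ≪≫ f⟩

theorem pco_isZero_local (M : X.Modules)
    (h : ∀ x : X, ∃ V : X.Opens, x ∈ V ∧ IsZero (M.restrict V.ι)) : IsZero M := by
  choose V hxV hV using h
  apply isZero_of_cover (fun x : X => V x) _ M (fun x => hV x)
  rw [eq_top_iff]
  intro x _
  exact Opens.mem_iSup.2 ⟨x, hxV x⟩

theorem pco_ff_homology_restrict (P : DerivedCategory X.Modules) (V : X.Opens)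
    (K : CochainComplex (V : Scheme.{0}).Modules ℤ)
    (e : Nonempty ((Scheme.Modules.restrictFunctor V.ι).mapDerivedCategory.obj P ≅
      DerivedCategory.Q.obj K)) (i : ℤ) :
    Nonempty (K.homology i ≅ ((DerivedCategory.homologyFunctor X.Modules i).obj P).restrict V.ι) := by
  obtain ⟨e⟩ := e
  obtain ⟨h⟩ := homology_restrict P V i
  let c := (DerivedCategory.homologyFunctor _ i).mapIso e
  let d := (DerivedCategory.homologyFunctorFactors (V : Scheme.{0}).Modules i).app K
  exact ⟨d.symm ≪≫ c.symm ≪≫ h⟩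

/-- `X` is quasi-compact (finite affine cover), so finitely many opens suffice -/
theorem perfect_bounded {ι : Type} [Finite ι] (U : ι → X.Opens) (hU : ⨆ i, U i = ⊤)
    (hA : ∀ i, IsAffineOpen (U i)) (P : DerivedCategory X.Modules) (hP : IsPerfect X P) :
    ∃ a b : ℤ, P.IsGE a ∧ P.IsLE b := by
  have hcomp : IsCompact (Set.univ : Set X) := by
    have h1 : (Set.univ : Set X) = ⋃ i, (U i : Set X) := by
      rw [← Opens.coe_iSup, hU]
      rfl
    rw [h1]
    exact isCompact_iUnion fun i => (hA i).isCompact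
  choose V hxV K hK e using hP
  obtain ⟨t, ht⟩ := hcomp.elim_finite_subcover (fun x : X => (V x : Set X))
    (fun x => (V x).isOpen) (fun x _ => Set.mem_iUnion.2 ⟨x, hxV x⟩)
  choose a b hab using fun x => (hK x).1
  obtain ⟨A, hA'⟩ : ∃ A : ℤ, ∀ x ∈ t, A ≤ a x := by
    obtain ⟨A, hA'⟩ := (t.image a).finite_toSet.bddBelow
    exact ⟨A, fun x hx => hA' (Finset.mem_coe.2 (Finset.mem_image_of_mem a hx))⟩
  obtain ⟨B, hB'⟩ : ∃ B : ℤ, ∀ x ∈ t, b x ≤ B := by
    obtain ⟨B, hB'⟩ := (t.image b).finite_toSet.bddAbove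
    exact ⟨B, fun x hx => hB' (Finset.mem_coe.2 (Finset.mem_image_of_mem b hx))⟩
  have key : ∀ i : ℤ, (∀ x ∈ t, IsZero ((K x).homology i)) →
      IsZero ((DerivedCategory.homologyFunctor X.Modules i).obj P) := by
    intro i hi
    apply pco_isZero_local
    intro y
    obtain ⟨x, hx⟩ := Set.mem_iUnion.1 (ht (Set.mem_univ y))
    obtain ⟨hxt, hyx⟩ := Set.mem_iUnion.1 hx
    obtain ⟨f⟩ := pco_ff_homology_restrict P (V x) (K x) (e x) i
    exact ⟨V x, hyx, (hi x hxt).of_iso f.symm⟩
  refine ⟨A, B, ?_, ?_⟩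
  · rw [DerivedCategory.isGE_iff]
    intro i hi
    apply key
    intro x hx
    have := (hab x).1
    have : (K x).IsGE (a x) := inferInstance
    exact ((K x).exactAt_of_isGE (a x) i (lt_of_lt_of_le hi (hA' x hx))).isZero_homology
  · rw [DerivedCategory.isLE_iff]
    intro i hi
    apply key
    intro x hx
    have := (hab x).2
    have : (K x).IsLE (b x) := inferInstance
    exact ((K x).exactAt_of_isLE (b x) i (lt_of_le_of_lt (hB' x hx) hi)).isZero_homology

theorem pco_rs_smul (M : X.Modules) {U V : X.Opens} (h : V ≤ U) (r : Γ(X, U)) (m : Γ(M, U)) :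
    rs M h (r • m) = rf h r • rs M h m :=
  Scheme.Modules.map_smul M (homOfLE h) r m

theorem pco_rf_mul {U V : X.Opens} (h : V ≤ U) (r s : Γ(X, U)) :
    rf h (r * s) = rf h r * rf h s :=
  map_mul (X.presheaf.map (homOfLE h).op).hom r s

theorem pco_rs_sum (M : X.Modules) {U V : X.Opens} (h : V ≤ U) {κ : Type*} (t : Finset κ)
    (m : κ → Γ(M, U)) : rs M h (∑ j ∈ t, m j) = ∑ j ∈ t, rs M h (m j) :=
  map_sum (M.presheaf.map (homOfLE h).op).hom m t

theorem pco_rs_sub (M : X.Modules) {U V : X.Opens} (h : V ≤ U) (m m' : Γ(M, U)) :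
    rs M h (m - m') = rs M h m - rs M h m' := map_sub _ _ _

/-- finiteness of sections is invariant under isomorphisms -/
theorem pco_finite_iso {M N : X.Modules} (e : M ≅ N) (V : X.Opens)
    (h : Module.Finite Γ(X, V) Γ(M, V)) : Module.Finite Γ(X, V) Γ(N, V) := by
  let q : Γ(M, V) →ₗ[Γ(X, V)] Γ(N, V) :=
    { toFun := fun x => e.hom.app V x
      map_add' := fun x y => map_add _ x y
      map_smul' := fun r x => Scheme.Modules.Hom.app_smul e.hom r x }
  apply Module.Finite.of_surjective q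
  intro y
  refine ⟨e.inv.app V y, ?_⟩
  change (e.inv ≫ e.hom).app V y = y
  rw [e.inv_hom_id]
  rfl

theorem pco_finite_restrict (M : X.Modules) (V : X.Opens)
    (h : Module.Finite Γ((V : Scheme.{0}), ⊤) Γ(M.restrict V.ι, ⊤)) :
    Module.Finite Γ(X, V) Γ(M, V) := by
  have h1 : Module.Finite Γ(X, V.ι ''ᵁ ⊤) Γ(M, V.ι ''ᵁ ⊤) := by
    obtain ⟨n, s, hs⟩ := @Module.Finite.exists_fin _ _ _ _ _ h
    rw [Module.finite_def]
    have h3 : ∀ y : Γ(M.restrict V.ι, ⊤),
        (M.restrictAppIso V.ι ⊤).hom y ∈ Submodule.span Γ(X, V.ι ''ᵁ ⊤)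
          (Set.range fun j => (M.restrictAppIso V.ι ⊤).hom (s j)) := by
      intro y
      have hy : y ∈ Submodule.span Γ((V : Scheme.{0}), ⊤) (Set.range s) := by rw [hs]; trivial
      induction hy using Submodule.span_induction with
      | mem x hx =>
        obtain ⟨j, rfl⟩ := hx
        exact Submodule.subset_span ⟨j, rfl⟩
      | zero => rw [map_zero]; exact Submodule.zero_mem _
      | add x y _ _ hx hy => rw [map_add]; exact Submodule.add_mem _ hx hy
      | smul r x _ hx =>
        have e1 : (M.restrictAppIso V.ι ⊤).hom (r • x) =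
            (V.ι.appIso ⊤).inv r • (M.restrictAppIso V.ι ⊤).hom x := rfl
        rw [e1]
        exact Submodule.smul_mem _ _ hx
    have h4 : Submodule.span Γ(X, V.ι ''ᵁ ⊤)
        (Set.range fun j => (M.restrictAppIso V.ι ⊤).hom (s j)) = ⊤ := by
      rw [eq_top_iff]
      intro y _
      exact h3 y
    rw [← h4]
    exact Submodule.fg_span (Set.finite_range _)
  have h2 : V.ι ''ᵁ ⊤ = V := by simp
  rw [h2] at h1
  exact h1

theorem pco_good (P : DerivedCategory X.Modules) (hP : IsPerfect X P) (i : ℤ) {U : X.Opens}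
    (hU : IsAffineOpen U) (hN : IsNoetherianRing Γ(X, U)) (x : X) (hx : x ∈ U) :
    ∃ f : Γ(X, U), x ∈ X.basicOpen f ∧
      (((DerivedCategory.homologyFunctor X.Modules i).obj P).restrict
        (X.basicOpen f).ι).IsQuasicoherent ∧
      Module.Finite Γ(X, X.basicOpen f)
        Γ((DerivedCategory.homologyFunctor X.Modules i).obj P, X.basicOpen f) := by
  obtain ⟨W, hxW, K, hK, e⟩ := hP x
  obtain ⟨f, hfW, hxf⟩ := hU.exists_basicOpen_le (V := W) ⟨x, hxW⟩ hx
  obtain ⟨K', hK', e'⟩ := perfectAt_mono hfW P K hK e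
  obtain ⟨g⟩ := pco_ff_homology_restrict P _ K' e' i
  have haff : IsAffineOpen (X.basicOpen f) := hU.basicOpen f
  have hY : IsAffineOpen (⊤ : ((X.basicOpen f : X.Opens) : Scheme.{0}).Opens) := by
    have : IsAffine ((X.basicOpen f : X.Opens) : Scheme.{0}) := haff
    exact isAffineOpen_top _
  have hN1 : IsNoetherianRing Γ(X, X.basicOpen f) := by
    have := hU.isLocalization_basicOpen f
    exact IsLocalization.isNoetherianRing (Submonoid.powers f) _ hN
  have hN2 : IsNoetherianRing Γ(((X.basicOpen f : X.Opens) : Scheme.{0}), ⊤) := by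
    let ee := (X.basicOpen f).topIso
    exact isNoetherianRing_of_ringEquiv _ ee.commRingCatIsoToRingEquiv.symm
  obtain ⟨q1, q2⟩ := ff_homology_coh hY hN2 K' hK' i
  exact ⟨f, hxf, qc_of_iso g q1, pco_finite_restrict _ _ (pco_finite_iso g ⊤ q2)⟩

theorem pco_finite_glue (M : X.Modules) (hM : M.IsQuasicoherent) {U : X.Opens} (hU : IsAffineOpen U)
    (S : Set Γ(X, U)) (hS : Ideal.span S = ⊤)
    (hfin : ∀ f ∈ S, Module.Finite Γ(X, X.basicOpen f) Γ(M, X.basicOpen f)) :
    Module.Finite Γ(X, U) Γ(M, U) := by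
  classical
  obtain ⟨S', hS'S, hS'⟩ := (Ideal.span_eq_top_iff_finite S).1 hS
  have h1 : ∀ f : S', ∃ (n : ℕ) (g : Fin n → Γ(M, X.basicOpen (f : Γ(X, U)))),
      Submodule.span Γ(X, X.basicOpen (f : Γ(X, U))) (Set.range g) = ⊤ := fun f =>
    haveI := hfin f (hS'S f.2)
    Module.Finite.exists_fin
  choose n g hg using h1
  have h2 : ∀ (f : S') (j : Fin (n f)), ∃ (N : ℕ) (t : Γ(M, U)),
      rs M (X.basicOpen_le (f : Γ(X, U))) t = rf (X.basicOpen_le (f : Γ(X, U))) ((f : Γ(X, U)) ^ N) • g f j :=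
    fun f j => loc_surj M hM hU (f : Γ(X, U)) rfl (X.basicOpen_le _) (g f j)
  choose N t ht using h2
  let M' : Submodule Γ(X, U) Γ(M, U) :=
    Submodule.span Γ(X, U) (Set.range fun p : Σ f : S', Fin (n f) => t p.1 p.2)
  have hM' : M' = ⊤ := by
    rw [eq_top_iff]
    intro m _
    apply M'.mem_of_span_eq_top_of_smul_pow_mem (S' : Set Γ(X, U)) hS'
    intro f
    -- for every section over the basic open, a multiple comes from `M'`
    have key : ∀ y ∈ Submodule.span Γ(X, X.basicOpen (f : Γ(X, U))) (Set.range (g f)),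
        ∃ (k : ℕ) (z : Γ(M, U)), z ∈ M' ∧
          rs M (X.basicOpen_le (f : Γ(X, U))) z =
            rf (X.basicOpen_le (f : Γ(X, U))) ((f : Γ(X, U)) ^ k) • y := by
      intro y hy
      induction hy using Submodule.span_induction with
      | mem x hx =>
        obtain ⟨j, rfl⟩ := hx
        exact ⟨N f j, t f j, Submodule.subset_span ⟨⟨f, j⟩, rfl⟩, ht f j⟩
      | zero => exact ⟨0, 0, Submodule.zero_mem _, by rw [smul_zero]; exact map_zero _⟩
      | add x y _ _ hx hy =>
        obtain ⟨k, z, hz, hk⟩ := hx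
        obtain ⟨k', z', hz', hk'⟩ := hy
        refine ⟨k + k', (f : Γ(X, U)) ^ k' • z + (f : Γ(X, U)) ^ k • z',
          Submodule.add_mem _ (Submodule.smul_mem _ _ hz) (Submodule.smul_mem _ _ hz'), ?_⟩
        have e1 : rs M (X.basicOpen_le (f : Γ(X, U)))
            ((f : Γ(X, U)) ^ k' • z + (f : Γ(X, U)) ^ k • z') =
            rs M (X.basicOpen_le (f : Γ(X, U))) ((f : Γ(X, U)) ^ k' • z) +
            rs M (X.basicOpen_le (f : Γ(X, U))) ((f : Γ(X, U)) ^ k • z') := map_add _ _ _
        rw [e1, pco_rs_smul, pco_rs_smul, hk, hk', smul_smul, smul_smul, ← pco_rf_mul,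
          ← pco_rf_mul, ← pow_add, ← pow_add, smul_add, add_comm k' k]
      | smul r x _ hx =>
        obtain ⟨k, z, hz, hk⟩ := hx
        obtain ⟨k', r', hr'⟩ := loc_surj_fun hU (f : Γ(X, U)) rfl (X.basicOpen_le _) r
        refine ⟨k' + k, r' • z, Submodule.smul_mem _ _ hz, ?_⟩
        rw [pco_rs_smul, hk, hr', pow_add, pco_rf_mul, smul_smul, smul_smul]
        congr 1
        ring
    obtain ⟨k, z, hz, hk⟩ := key (rs M (X.basicOpen_le (f : Γ(X, U))) m)
      (by rw [hg f]; trivial)
    obtain ⟨k', hk'⟩ := loc_inj M hM hU (f : Γ(X, U)) rfl (X.basicOpen_le _)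
      ((f : Γ(X, U)) ^ k • m - z) (by
        rw [pco_rs_sub, pco_rs_smul, hk, sub_self])
    refine ⟨k' + k, ?_⟩
    rw [smul_sub, smul_smul, ← pow_add, sub_eq_zero] at hk'
    rw [hk']
    exact Submodule.smul_mem _ _ hz
  rw [Module.finite_def, ← hM']
  exact Submodule.fg_span (Set.finite_range _)

/-- On small basic opens `X.basicOpen f` of `U l` (`perfectAt_mono`) the homology is the homology of a complex of
finite free modules on an affine noetherian scheme (`ff_homology_coh`), hence quasi-coherent with finitely generated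
sections; then `qc_of_cover`, the localisation lemmas, and `Module.Finite.of_localizationSpan_finite` (or its primed
version). -/
theorem perfect_coh {ι : Type} [Finite ι] (U : ι → X.Opens) (hU : ⨆ i, U i = ⊤)
    (hA : ∀ i, IsAffineOpen (U i)) (hN : ∀ i, IsNoetherianRing Γ(X, U i))
    (P : DerivedCategory X.Modules) (hP : IsPerfect X P) (i : ℤ) :
    IsCoh U ((DerivedCategory.homologyFunctor X.Modules i).obj P) := by
  have hqc : ((DerivedCategory.homologyFunctor X.Modules i).obj P).IsQuasicoherent := by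
    have h : ∀ x : X, ∃ V : X.Opens, x ∈ V ∧
        (((DerivedCategory.homologyFunctor X.Modules i).obj P).restrict V.ι).IsQuasicoherent := by
      intro x
      have hx : x ∈ ⨆ i, U i := by rw [hU]; trivial
      obtain ⟨l, hl⟩ := Opens.mem_iSup.1 hx
      obtain ⟨f, h1, h2, _⟩ := pco_good P hP i (hA l) (hN l) x hl
      exact ⟨_, h1, h2⟩
    choose V hV hq using h
    apply qc_of_cover (fun x : X => V x) _ _ hq
    rw [eq_top_iff]
    intro x _
    exact Opens.mem_iSup.2 ⟨x, hV x⟩
  refine ⟨hqc, fun l => ?_⟩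
  apply pco_finite_glue _ hqc (hA l) {f | Module.Finite Γ(X, X.basicOpen f)
        Γ((DerivedCategory.homologyFunctor X.Modules i).obj P, X.basicOpen f)}
  · rw [← (hA l).self_le_iSup_basicOpen_iff]
    intro x hx
    obtain ⟨f, h1, _, h3⟩ := pco_good P hP i (hA l) (hN l) x hx
    exact Opens.mem_iSup.2 ⟨⟨f, h3⟩, h1⟩
  · intro f hf
    exact hf

end Pool.H33.P
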