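import Mathlib
import Pool.Agent.H33.P.Def
import Pool.Agent.H33.P.PRS
import Pool.Agent.H33.P.PTR0

/-! # PTR1: maps from a bounded complex of finite free modules to an acyclic complex are locally null-homotopic

`K` lives in degrees `a, ..., b`.  Construct the homotopy `h n : K n ⟶ C (n - 1)` by descending induction on `n` from
`h (b+1) = 0`, shrinking the neighbourhood of `x` at each step: on the current neighbourhood
`f n - d ≫ h (n+1) : K n ⟶ C n` (composition order of Mathlib) followed by `d` is zero, so it factors through the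
cycles, which are the image of `C (n-1)` (exactness; restriction is exact), and `lift_free_local` applies. -/

open CategoryTheory AlgebraicGeometry Limits TopologicalSpace

namespace Pool.H33.P

/-- homotopies to zero under additive functors -/
noncomputable def PTR1_mapH {C D : Type*} [Category* C] [Category* D] [Preadditive C] [Preadditive D]
    (F : C ⥤ D) [F.Additive] {K L : CochainComplex C ℤ} {f : K ⟶ L} (h : Homotopy f 0) :
    Homotopy ((F.mapHomologicalComplex (ComplexShape.up ℤ)).map f) 0 :=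
  (F.mapHomotopy h).trans (Homotopy.ofEq (Functor.map_zero _ _ _))

noncomputable def PTR1_isoH {C D : Type*} [Category* C] [Category* D] [Preadditive C] [Preadditive D]
    (F G : C ⥤ D) [F.Additive] [G.Additive] (α : F ≅ G) {K L : CochainComplex C ℤ} {f : K ⟶ L}
    (h : Homotopy ((F.mapHomologicalComplex (ComplexShape.up ℤ)).map f) 0) :
    Homotopy ((G.mapHomologicalComplex (ComplexShape.up ℤ)).map f) 0 := by
  let β := NatIso.mapHomologicalComplex α (ComplexShape.up ℤ)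
  have h1 : (G.mapHomologicalComplex (ComplexShape.up ℤ)).map f =
      β.inv.app K ≫ (F.mapHomologicalComplex (ComplexShape.up ℤ)).map f ≫ β.hom.app L := by
    rw [β.hom.naturality, Iso.inv_hom_id_app_assoc]
  refine (Homotopy.ofEq h1).trans ?_
  refine ((h.compRight (β.hom.app L)).compLeft (β.inv.app K)).trans (Homotopy.ofEq ?_)
  rw [zero_comp, comp_zero]

theorem PTR1_transfer {X : Scheme.{0}} (W : X.Opens) (U : (W : Scheme.{0}).Opens)
    {K C : CochainComplex X.Modules ℤ} (f : K ⟶ C)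
    (h : Nonempty (Homotopy (((Scheme.Modules.restrictFunctor U.ι).mapHomologicalComplex
      (ComplexShape.up ℤ)).map (((Scheme.Modules.restrictFunctor W.ι).mapHomologicalComplex
        (ComplexShape.up ℤ)).map f)) 0)) :
    Nonempty (Homotopy (((Scheme.Modules.restrictFunctor (W.ι ''ᵁ U).ι).mapHomologicalComplex
      (ComplexShape.up ℤ)).map f) 0) := by
  obtain ⟨h⟩ := h
  let F : X.Modules ⥤ (U : Scheme.{0}).Modules :=
    Scheme.Modules.restrictFunctor W.ι ⋙ Scheme.Modules.restrictFunctor U.ι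
  let e := W.ι.isoImage U
  have h1 : Homotopy ((F.mapHomologicalComplex (ComplexShape.up ℤ)).map f) 0 := h
  have h2 := PTR1_mapH (Scheme.Modules.restrictFunctor e.inv) h1
  let G : X.Modules ⥤ ((W.ι ''ᵁ U : X.Opens) : Scheme.{0}).Modules :=
    F ⋙ Scheme.Modules.restrictFunctor e.inv
  have h3 : Homotopy ((G.mapHomologicalComplex (ComplexShape.up ℤ)).map f) 0 := h2
  have he : e.inv ≫ U.ι ≫ W.ι = (W.ι ''ᵁ U).ι := W.ι.isoImage_inv_ι U
  let α : G ≅ Scheme.Modules.restrictFunctor (W.ι ''ᵁ U).ι :=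
    Functor.isoWhiskerRight (Scheme.Modules.restrictFunctorComp U.ι W.ι).symm
      (Scheme.Modules.restrictFunctor e.inv) ≪≫
    (Scheme.Modules.restrictFunctorComp e.inv (U.ι ≫ W.ι)).symm ≪≫
      Scheme.Modules.restrictFunctorCongr he
  exact ⟨PTR1_isoH G _ α h3⟩

theorem PTR1_exact {C D : Type*} [Category* C] [Category* D] [Abelian C] [Abelian D]
    (F : C ⥤ D) [F.Additive] [PreservesFiniteLimits F] [PreservesFiniteColimits F]
    (K : CochainComplex C ℤ) (hK : ∀ i, K.ExactAt i) (i : ℤ) :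
    ((F.mapHomologicalComplex (ComplexShape.up ℤ)).obj K).ExactAt i := by
  have h := hK i
  rw [HomologicalComplex.exactAt_iff' _ (i - 1) i (i + 1) (by simp) (by simp)] at h ⊢
  exact h.map F

theorem PTR1_lift {X : Scheme.{0}} (x : X) (A B Z : X.Modules)
    (hA : ∃ m : ℕ, Nonempty (A ≅ (SheafOfModules.free (R := X.ringCatSheaf) (Fin m) : X.Modules)))
    (g : B ⟶ Z) [Epi g] (l : A ⟶ Z) :
    ∃ W : X.Opens, x ∈ W ∧ ∃ t : (Scheme.Modules.restrictFunctor W.ι).obj A ⟶
      (Scheme.Modules.restrictFunctor W.ι).obj B,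
      t ≫ (Scheme.Modules.restrictFunctor W.ι).map g =
        (Scheme.Modules.restrictFunctor W.ι).map l := by
  obtain ⟨m, ⟨φ⟩⟩ := hA
  obtain ⟨W, t, hxW, ht⟩ := lift_free_local g m (φ.inv ≫ l) x
  refine ⟨W, hxW, (Scheme.Modules.restrictFunctor W.ι).map φ.hom ≫ t, ?_⟩
  have e1 := Category.assoc ((Scheme.Modules.restrictFunctor W.ι).map φ.hom) t
    ((Scheme.Modules.restrictFunctor W.ι).map g)
  have e2 := congrArg (fun z => (Scheme.Modules.restrictFunctor W.ι).map φ.hom ≫ z) ht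
  have e3 := ((Scheme.Modules.restrictFunctor W.ι).map_comp φ.hom (φ.inv ≫ l)).symm
  have e4 := congrArg (Scheme.Modules.restrictFunctor W.ι).map (Iso.hom_inv_id_assoc φ l)
  exact e1.trans (e2.trans (e3.trans e4))

noncomputable def PTR1_upd {D : Type*} [Category* D] (A B : ℤ → D) (h : ∀ a b, A a ⟶ B b)
    (j k : ℤ) (t : A j ⟶ B k) : ∀ a b, A a ⟶ B b := fun a b =>
  if hab : a = j ∧ b = k then eqToHom (by rw [hab.1]) ≫ t ≫ eqToHom (by rw [hab.2]) else h a b

theorem PTR1_upd_same {D : Type*} [Category* D] (A B : ℤ → D) (h : ∀ a b, A a ⟶ B b)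
    (j k : ℤ) (t : A j ⟶ B k) : PTR1_upd A B h j k t j k = t := by
  unfold PTR1_upd
  rw [dif_pos ⟨rfl, rfl⟩]
  simp

theorem PTR1_upd_ne {D : Type*} [Category* D] (A B : ℤ → D) (h : ∀ a b, A a ⟶ B b)
    (j k : ℤ) (t : A j ⟶ B k) (a b : ℤ) (hab : a ≠ j) : PTR1_upd A B h j k t a b = h a b := by
  unfold PTR1_upd
  rw [dif_neg (fun h => hab h.1)]

/-- the step, in general -/
theorem PTR1_step0 {C D : Type*} [Category* C] [Category* D] [Abelian C] [Abelian D]
    (R : C ⥤ D) [R.Additive] (K L : CochainComplex C ℤ) (f : K ⟶ L) (j : ℤ)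
    (h : ∀ a b, K.X a ⟶ L.X b)
    (heq : ∀ n n' n'', n' + 1 = n → n + 1 = n'' → j < n →
      f.f n = K.d n n'' ≫ h n'' n + h n n' ≫ L.d n' n)
    (t : R.obj (K.X j) ⟶ R.obj (L.X (j - 1)))
    (ht : t ≫ R.map (L.d (j - 1) j) = R.map (f.f j - K.d j (j + 1) ≫ h (j + 1) j)) :
    ∃ h' : ∀ a b, R.obj (K.X a) ⟶ R.obj (L.X b),
      ∀ n n' n'', n' + 1 = n → n + 1 = n'' → j ≤ n →
        R.map (f.f n) = R.map (K.d n n'') ≫ h' n'' n + h' n n' ≫ R.map (L.d n' n) := by
  refine ⟨PTR1_upd (fun a => R.obj (K.X a)) (fun b => R.obj (L.X b)) (fun a b => R.map (h a b))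
    j (j - 1) t, ?_⟩
  intro n n' n'' h1 h2 h3
  rcases eq_or_lt_of_le h3 with h4 | h4
  · subst h4
    obtain rfl : n' = j - 1 := by linarith
    subst h2
    rw [PTR1_upd_ne _ _ _ _ _ _ _ _ (by linarith), PTR1_upd_same, ht, ← R.map_comp, ← R.map_add]
    congr 1
    abel
  · rw [PTR1_upd_ne _ _ _ _ _ _ _ _ (by linarith), PTR1_upd_ne _ _ _ _ _ _ _ _ (by linarith),
      ← R.map_comp, ← R.map_comp, ← R.map_add, heq n n' n'' h1 h2 h4]

theorem PTR1_gen {C D : Type*} [Category* C] [Category* D] (R : C ⥤ D) {A B Z Y : C}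
    (t : R.obj A ⟶ R.obj B) (g : B ⟶ Z) (i : Z ⟶ Y) (l : A ⟶ Z) (d : B ⟶ Y) (k : A ⟶ Y)
    (ht : t ≫ R.map g = R.map l) (hd : g ≫ i = d) (hk : l ≫ i = k) :
    t ≫ R.map d = R.map k := by
  rw [← hd, ← hk, R.map_comp, R.map_comp, reassoc_of% ht]

/-- the step -/
theorem PTR1_step {X : Scheme.{0}} (x : X) (K C : CochainComplex X.Modules ℤ) (hK : IsFF K)
    (hC : ∀ i, C.ExactAt i) (f : K ⟶ C) (j : ℤ) (h : ∀ a b, K.X a ⟶ C.X b)
    (heq : ∀ n n' n'', n' + 1 = n → n + 1 = n'' → j < n →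
      f.f n = K.d n n'' ≫ h n'' n + h n n' ≫ C.d n' n) :
    ∃ W : X.Opens, x ∈ W ∧ ∃ h' : ∀ a b, (rc W K).X a ⟶ (rc W C).X b,
      ∀ n n' n'', n' + 1 = n → n + 1 = n'' → j ≤ n →
        (((Scheme.Modules.restrictFunctor W.ι).mapHomologicalComplex
          (ComplexShape.up ℤ)).map f).f n =
          (rc W K).d n n'' ≫ h' n'' n + h' n n' ≫ (rc W C).d n' n := by
  have hg : (f.f j - K.d j (j + 1) ≫ h (j + 1) j) ≫ C.d j (j + 1) = 0 := by
    have h1 := heq (j + 1) j (j + 2) rfl (by ring) (by linarith)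
    rw [Preadditive.sub_comp, f.comm, h1, Category.assoc, Preadditive.comp_add,
      K.d_comp_d_assoc, zero_comp, zero_add, sub_self]
  have hex := hC j
  rw [HomologicalComplex.exactAt_iff' _ (j - 1) j (j + 1) (by simp) (by simp)] at hex
  have hepi : Epi (C.sc' (j - 1) j (j + 1)).toCycles := hex.epi_toCycles
  have hl := (C.sc' (j - 1) j (j + 1)).liftCycles_i _ hg
  obtain ⟨W, hxW, t, ht⟩ := PTR1_lift x _ _ _ (hK.2 j) (C.sc' (j - 1) j (j + 1)).toCycles
    ((C.sc' (j - 1) j (j + 1)).liftCycles _ hg)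
  refine ⟨W, hxW, ?_⟩
  refine PTR1_step0 (Scheme.Modules.restrictFunctor W.ι) K C f j h heq t ?_
  exact PTR1_gen (Scheme.Modules.restrictFunctor W.ι) t _ _ _ _ _ ht
    (C.sc' (j - 1) j (j + 1)).toCycles_i hl

theorem PTR1_claim (N : ℕ) : ∀ {X : Scheme.{0}} (x : X) (K C : CochainComplex X.Modules ℤ)
    (_ : IsFF K) (_ : ∀ i, C.ExactAt i) (f : K ⟶ C) (j : ℤ) (_ : ∀ n, n < j - N → IsZero (K.X n))
    (h : ∀ a b, K.X a ⟶ C.X b)
    (_ : ∀ n n' n'', n' + 1 = n → n + 1 = n'' → j ≤ n →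
      f.f n = K.d n n'' ≫ h n'' n + h n n' ≫ C.d n' n),
    ∃ U : X.Opens, x ∈ U ∧ Nonempty (Homotopy
      (((Scheme.Modules.restrictFunctor U.ι).mapHomologicalComplex (ComplexShape.up ℤ)).map f)
      (0 : rc U K ⟶ rc U C)) := by
  induction N with
  | zero =>
    intro X x K C hK hC f j hj h heq
    refine ⟨⊤, trivial, ⟨PTR1_mapH _ ?_⟩⟩
    refine { hom := fun a b => if b + 1 = a then h a b else 0, zero := ?_, comm := ?_ }
    · intro a b hab
      exact if_neg hab
    · intro n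
      rw [dNext_eq _ (show (ComplexShape.up ℤ).Rel n (n + 1) from rfl),
        prevD_eq _ (show (ComplexShape.up ℤ).Rel (n - 1) n from by simp)]
      rw [if_pos rfl, if_pos (by ring), HomologicalComplex.zero_f, add_zero]
      by_cases hn : j ≤ n
      · exact heq n (n - 1) (n + 1) (by ring) rfl hn
      · exact (hj n (by simpa using hn)).eq_of_src _ _
  | succ N ih =>
    intro X x K C hK hC f j hj h heq
    obtain ⟨W, hxW, h', heq'⟩ := PTR1_step x K C hK hC f (j - 1) h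
      (fun n n' n'' h1 h2 h3 => heq n n' n'' h1 h2 (by linarith))
    have hKW : IsFF (rc W K) := ff_restrict W.ι hK
    have hCW : ∀ i, (rc W C).ExactAt i := fun i => PTR1_exact _ C hC i
    obtain ⟨U, hxU, hU⟩ := ih (⟨x, hxW⟩ : W) (rc W K) (rc W C) hKW hCW
      (((Scheme.Modules.restrictFunctor W.ι).mapHomologicalComplex (ComplexShape.up ℤ)).map f)
      (j - 1) (fun n hn => ((Scheme.Modules.restrictFunctor W.ι).map_isZero
        (hj n (by push_cast; linarith)))) h' heq'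
    refine ⟨W.ι ''ᵁ U, ⟨⟨x, hxW⟩, hxU, rfl⟩, PTR1_transfer W U f hU⟩

theorem local_homotopy {X : Scheme.{0}} (x : X) (K C : CochainComplex X.Modules ℤ) (hK : IsFF K)
    (hC : ∀ i, C.ExactAt i) (f : K ⟶ C) :
    ∃ U : X.Opens, x ∈ U ∧ Nonempty (Homotopy
      (((Scheme.Modules.restrictFunctor U.ι).mapHomologicalComplex (ComplexShape.up ℤ)).map f)
      (0 : rc U K ⟶ rc U C)) := by
  obtain ⟨a, b, ha, hb⟩ := hK.1
  refine PTR1_claim (b + 1 - a).toNat x K C hK hC f (b + 1) ?_ (fun _ _ => 0) ?_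
  · intro n hn
    apply K.isZero_of_isStrictlyGE a n
  · intro n n' n'' h1 h2 h3
    apply IsZero.eq_of_src
    apply K.isZero_of_isStrictlyLE b n

end Pool.H33.P
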