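import Mathlib
import Pool.Agent.H33.P.Def
import Pool.Agent.H33.P.PRS
import Pool.Agent.H33.P.PTR1

/-! # PTR2: perfect complexes form a triangulated subcategory of `D(X)`

Zero, shifts, isomorphisms are easy (restriction commutes with shifts; the shift of a bounded complex of finite free
modules is such).  Cones: near `x` (use `perfectAt_mono`) the two objects are `Q.obj K`, `Q.obj L`.
`exists_chain_map`: write the morphism as a fraction (`DerivedCategory.right_fac`): `s : M ⟶ K` a quasi-isomorphism,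
`g : M ⟶ L`.  The canonical map `K ⟶ mappingCone s` goes to an acyclic complex, so is null-homotopic near `x`
(`local_homotopy`); hence there is near `x` a chain map `t : K ⟶ M` with `t ≫ s` homotopic to the identity (homotopy
category is pretriangulated), and `f = Q.map (t ≫ g)` near `x`.  Then the third object is, near `x`, the mapping cone
of a map of bounded complexes of finite free modules, again such a complex (degreewise a biproduct). -/

open CategoryTheory AlgebraicGeometry Limits TopologicalSpace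

namespace Pool.H33.P

/-- the mapping cone of a quasi-isomorphism is exact -/
theorem ptr2_cone_exact {C : Type*} [Category C] [Abelian C] [HasDerivedCategory C]
    {M K : CochainComplex C ℤ} (s : M ⟶ K) (hs : IsIso (DerivedCategory.Q.map s)) (i : ℤ) :
    (CochainComplex.mappingCone s).ExactAt i := by
  have h1 : QuasiIso s := (DerivedCategory.isIso_Q_map_iff_quasiIso (C := C) s).1 hs
  have h2 : (HomotopyCategory.subcategoryAcyclic C).trW ((HomotopyCategory.quotient C (ComplexShape.up ℤ)).map s) := by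
    rw [← HomotopyCategory.quasiIso_eq_trW_subcategoryAcyclic, HomotopyCategory.quotient_map_mem_quasiIso_iff]
    exact h1
  have h3 := (ObjectProperty.trW_iff_of_distinguished (HomotopyCategory.subcategoryAcyclic C) _
    (HomotopyCategory.mappingCone_triangleh_distinguished s)).1 h2
  exact (HomotopyCategory.quotient_obj_mem_subcategoryAcyclic_iff_exactAt (CochainComplex.mappingCone s)).1 h3 i

/-- a section up to homotopy when the cone is contractible after an additive functor -/
theorem ptr2_section {C D : Type*} [Category C] [Abelian C] [Category D] [Abelian D] [HasDerivedCategory D]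
    (F : C ⥤ D) [F.Additive] {M K : CochainComplex C ℤ} (s : M ⟶ K)
    (h : Nonempty (Homotopy ((F.mapHomologicalComplex (ComplexShape.up ℤ)).map (CochainComplex.mappingCone.inr s)) 0)) :
    ∃ t : (F.mapHomologicalComplex (ComplexShape.up ℤ)).obj K ⟶ (F.mapHomologicalComplex (ComplexShape.up ℤ)).obj M,
      DerivedCategory.Q.map t ≫ DerivedCategory.Q.map ((F.mapHomologicalComplex (ComplexShape.up ℤ)).map s) = 𝟙 _ := by
  obtain ⟨h⟩ := h
  set s' := (F.mapHomologicalComplex (ComplexShape.up ℤ)).map s with hs'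
  have h1 : (HomotopyCategory.quotient D (ComplexShape.up ℤ)).map (CochainComplex.mappingCone.inr s') = 0 := by
    rw [← CochainComplex.mappingCone.map_inr s F, Functor.map_comp, HomotopyCategory.eq_of_homotopy _ _ h,
      Functor.map_zero, zero_comp]
  have h0 : 𝟙 ((HomotopyCategory.quotient D (ComplexShape.up ℤ)).obj ((F.mapHomologicalComplex (ComplexShape.up ℤ)).obj K)) ≫
      (HomotopyCategory.quotient D (ComplexShape.up ℤ)).map (CochainComplex.mappingCone.inr s') = 0 := by
    rw [h1, comp_zero]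
  obtain ⟨g, hg⟩ : ∃ g : (HomotopyCategory.quotient D (ComplexShape.up ℤ)).obj ((F.mapHomologicalComplex (ComplexShape.up ℤ)).obj K) ⟶
      (HomotopyCategory.quotient D (ComplexShape.up ℤ)).obj ((F.mapHomologicalComplex (ComplexShape.up ℤ)).obj M),
      𝟙 _ = g ≫ (HomotopyCategory.quotient D (ComplexShape.up ℤ)).map s' :=
    Pretriangulated.Triangle.coyoneda_exact₂ (CochainComplex.mappingCone.triangleh s')
    (HomotopyCategory.mappingCone_triangleh_distinguished s')
    (𝟙 ((HomotopyCategory.quotient D (ComplexShape.up ℤ)).obj ((F.mapHomologicalComplex (ComplexShape.up ℤ)).obj K))) h0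
  obtain ⟨t, ht⟩ := (HomotopyCategory.quotient D (ComplexShape.up ℤ)).map_surjective g
  refine ⟨t, ?_⟩
  have h2 : (HomotopyCategory.quotient D (ComplexShape.up ℤ)).map (t ≫ s') = (HomotopyCategory.quotient D (ComplexShape.up ℤ)).map (𝟙 _) := by
    rw [Functor.map_comp, ht, CategoryTheory.Functor.map_id]
    exact hg.symm
  have h3 := HomotopyCategory.homotopyOfEq _ _ h2
  rw [← Functor.map_comp, DerivedCategory.Q_map_eq_of_homotopy _ h3, CategoryTheory.Functor.map_id]

theorem exists_chain_map {X : Scheme.{0}} (x : X) (K L : CochainComplex X.Modules ℤ) (hK : IsFF K)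
    (f : DerivedCategory.Q.obj K ⟶ DerivedCategory.Q.obj L) :
    ∃ (U : X.Opens) (g : rc U K ⟶ rc U L), x ∈ U ∧
      (Scheme.Modules.restrictFunctor U.ι).mapDerivedCategory.map f =
        (Scheme.Modules.restrictFunctor U.ι).mapDerivedCategoryFactors.hom.app K ≫
          DerivedCategory.Q.map g ≫
          (Scheme.Modules.restrictFunctor U.ι).mapDerivedCategoryFactors.inv.app L := by
  obtain ⟨M, s, hs, g, rfl⟩ := DerivedCategory.right_fac f
  obtain ⟨U, hx, hH⟩ := local_homotopy x K (CochainComplex.mappingCone s) hK (ptr2_cone_exact s hs)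
    (CochainComplex.mappingCone.inr s)
  obtain ⟨t, ht⟩ := ptr2_section (Scheme.Modules.restrictFunctor U.ι) s hH
  refine ⟨U, t ≫ ((Scheme.Modules.restrictFunctor U.ι).mapHomologicalComplex (ComplexShape.up ℤ)).map g, hx, ?_⟩
  set F := Scheme.Modules.restrictFunctor U.ι with hF
  have n1 := F.mapDerivedCategoryFactors_hom_naturality s
  have n2 := F.mapDerivedCategoryFactors_hom_naturality g
  have hi : IsIso (DerivedCategory.Q.map ((F.mapHomologicalComplex (ComplexShape.up ℤ)).map s)) := by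
    have : DerivedCategory.Q.map ((F.mapHomologicalComplex (ComplexShape.up ℤ)).map s) =
        F.mapDerivedCategoryFactors.inv.app M ≫ F.mapDerivedCategory.map (DerivedCategory.Q.map s) ≫
          F.mapDerivedCategoryFactors.hom.app K := by
      rw [n1]
      simp
    rw [this]
    infer_instance
  rw [Functor.map_comp, Functor.map_inv]
  rw [IsIso.inv_comp_eq]
  have e1 : F.mapDerivedCategory.map (DerivedCategory.Q.map g) = F.mapDerivedCategoryFactors.hom.app M ≫
      DerivedCategory.Q.map ((F.mapHomologicalComplex (ComplexShape.up ℤ)).map g) ≫ F.mapDerivedCategoryFactors.inv.app L := by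
    rw [← Category.assoc, ← n2, Category.assoc, Iso.hom_inv_id_app]
    erw [Category.comp_id]
  have e2 : DerivedCategory.Q.map ((F.mapHomologicalComplex (ComplexShape.up ℤ)).map s) ≫ DerivedCategory.Q.map t = 𝟙 _ := by
    rw [← cancel_mono (DerivedCategory.Q.map ((F.mapHomologicalComplex (ComplexShape.up ℤ)).map s)), Category.assoc, ht]
    erw [Category.comp_id]
  rw [e1, Functor.map_comp, ← Category.assoc (F.mapDerivedCategory.map (DerivedCategory.Q.map s)), n1, Category.assoc,
    Category.assoc, ← Category.assoc (DerivedCategory.Q.map ((F.mapHomologicalComplex (ComplexShape.up ℤ)).map s)), e2,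
    Category.id_comp]


noncomputable def ptr2_e {X : Scheme.{0}} (m m' : ℕ) :
    ((SheafOfModules.free (R := X.ringCatSheaf) (Fin m)) ⊞ (SheafOfModules.free (R := X.ringCatSheaf) (Fin m'))) ≅
      (SheafOfModules.free (R := X.ringCatSheaf) (Fin (m + m'))) :=
  biprod.isoCoprod _ _ ≪≫ SheafOfModules.freeSumIso _ _ ≪≫
    (SheafOfModules.freeFunctor (R := X.ringCatSheaf)).mapIso (finSumFinEquiv (m := m) (n := m')).toIso

theorem ptr2_free_biprod {X : Scheme.{0}} (m m' : ℕ) : Nonempty
    (((SheafOfModules.free (R := X.ringCatSheaf) (Fin m) : X.Modules) ⊞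
      (SheafOfModules.free (R := X.ringCatSheaf) (Fin m') : X.Modules)) ≅
      (SheafOfModules.free (R := X.ringCatSheaf) (Fin (m + m')) : X.Modules)) :=
  ⟨ptr2_e m m'⟩

theorem ptr2_free_zero {X : Scheme.{0}} : IsZero (SheafOfModules.free (R := X.ringCatSheaf) (Fin 0) : X.Modules) := by
  have h : IsZero (SheafOfModules.free (R := X.ringCatSheaf) (Fin 0)) := by
    rw [IsZero.iff_id_eq_zero]
    exact Cofan.IsColimit.hom_ext (SheafOfModules.isColimitFreeCofan (Fin 0)) _ _ (fun i => i.elim0)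
  exact h

theorem ff_cone {X : Scheme.{0}} {K L : CochainComplex X.Modules ℤ} (hK : IsFF K) (hL : IsFF L)
    (g : K ⟶ L) : IsFF (CochainComplex.mappingCone g) := by
  obtain ⟨⟨a, b, ha, hb⟩, hK⟩ := hK
  obtain ⟨⟨a', b', ha', hb'⟩, hL⟩ := hL
  refine ⟨⟨min (a - 1) a', max b b', ?_, ?_⟩, fun n => ?_⟩
  · rw [CochainComplex.isStrictlyGE_iff]
    intro i hi
    rw [CochainComplex.mappingCone.isZero_X_iff]
    exact ⟨K.isZero_of_isStrictlyGE a _, L.isZero_of_isStrictlyGE a' _⟩
  · rw [CochainComplex.isStrictlyLE_iff]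
    intro i hi
    rw [CochainComplex.mappingCone.isZero_X_iff]
    exact ⟨K.isZero_of_isStrictlyLE b _, L.isZero_of_isStrictlyLE b' _⟩
  · obtain ⟨m, ⟨e⟩⟩ := hK (n + 1)
    obtain ⟨m', ⟨e'⟩⟩ := hL n
    obtain ⟨e''⟩ := ptr2_free_biprod (X := X) m m'
    exact ⟨m + m', ⟨HomologicalComplex.homotopyCofiber.XIsoBiprod g n (n + 1) rfl ≪≫ biprod.mapIso e e' ≪≫ e''⟩⟩

theorem perfect_iso (X : Scheme.{0}) : (IsPerfect X).IsClosedUnderIsomorphisms where
  of_iso := by
    intro P P' e h x
    obtain ⟨U, hx, K, hK, ⟨e'⟩⟩ := h x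
    exact ⟨U, hx, K, hK, ⟨(Scheme.Modules.restrictFunctor U.ι).mapDerivedCategory.mapIso e.symm ≪≫ e'⟩⟩

open scoped ZeroObject in
/-- the zero complex -/
theorem ptr2_ff_zero (X : Scheme.{0}) : IsFF (0 : CochainComplex X.Modules ℤ) := by
  have h0 : ∀ n, IsZero ((0 : CochainComplex X.Modules ℤ).X n) := fun n =>
    (HomologicalComplex.eval X.Modules (ComplexShape.up ℤ) n).map_isZero (isZero_zero _)
  refine ⟨⟨0, 0, ?_, ?_⟩, fun n => ⟨0, ⟨(h0 n).iso ptr2_free_zero⟩⟩⟩
  · rw [CochainComplex.isStrictlyGE_iff]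
    intro i _
    exact h0 i
  · rw [CochainComplex.isStrictlyLE_iff]
    intro i _
    exact h0 i

theorem ptr2_ff_shift {X : Scheme.{0}} {K : CochainComplex X.Modules ℤ} (hK : IsFF K) (a : ℤ) : IsFF (K⟦a⟧) := by
  obtain ⟨⟨c, d, hc, hd⟩, hK⟩ := hK
  exact ⟨⟨c - a, d - a, K.isStrictlyGE_shift c a _ (by ring), K.isStrictlyLE_shift d a _ (by ring)⟩,
    fun n => hK (n + a)⟩

/-- composition of exact functors on derived categories, on objects -/
theorem ptr2_comp {A B C : Type*} [Category A] [Abelian A] [HasDerivedCategory A] [Category B] [Abelian B]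
    [HasDerivedCategory B] [Category C] [Abelian C] [HasDerivedCategory C]
    (F : A ⥤ B) [F.Additive] [PreservesFiniteLimits F] [PreservesFiniteColimits F]
    (G : B ⥤ C) [G.Additive] [PreservesFiniteLimits G] [PreservesFiniteColimits G]
    (H : A ⥤ C) [H.Additive] [PreservesFiniteLimits H] [PreservesFiniteColimits H]
    (α : H ≅ F ⋙ G) (P : DerivedCategory A) :
    Nonempty (H.mapDerivedCategory.obj P ≅ G.mapDerivedCategory.obj (F.mapDerivedCategory.obj P)) := by
  let M := DerivedCategory.Q.objPreimage P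
  let e : DerivedCategory.Q.obj M ≅ P := DerivedCategory.Q.objObjPreimageIso P
  let i0 : (H.mapHomologicalComplex (ComplexShape.up ℤ)).obj M ≅
      (G.mapHomologicalComplex (ComplexShape.up ℤ)).obj ((F.mapHomologicalComplex (ComplexShape.up ℤ)).obj M) :=
    HomologicalComplex.Hom.isoOfComponents (fun i => α.app (M.X i)) (fun i j _ => (α.hom.naturality (M.d i j)).symm)
  exact ⟨H.mapDerivedCategory.mapIso e.symm ≪≫ H.mapDerivedCategoryFactors.app M ≪≫ DerivedCategory.Q.mapIso i0 ≪≫
    (G.mapDerivedCategoryFactors.app _).symm ≪≫ G.mapDerivedCategory.mapIso ((F.mapDerivedCategoryFactors.app M).symm ≪≫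
      F.mapDerivedCategory.mapIso e)⟩

/-- perfectness can be tested with open immersions -/
theorem ptr2_imm {X Y : Scheme.{0}} (j : Y ⟶ X) [IsOpenImmersion j] (x : X) (hx : x ∈ j.opensRange)
    (P : DerivedCategory X.Modules) (K : CochainComplex Y.Modules ℤ) (hK : IsFF K)
    (e : Nonempty ((Scheme.Modules.restrictFunctor j).mapDerivedCategory.obj P ≅ DerivedCategory.Q.obj K)) :
    ∃ U : X.Opens, x ∈ U ∧ ∃ K : CochainComplex (U : Scheme.{0}).Modules ℤ, IsFF K ∧
    Nonempty ((Scheme.Modules.restrictFunctor U.ι).mapDerivedCategory.obj P ≅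
      DerivedCategory.Q.obj K) := by
  obtain ⟨e⟩ := e
  have h1 : j.opensRange.ι = j.isoOpensRange.inv ≫ j := (Scheme.Hom.isoOpensRange_inv_comp j).symm
  obtain ⟨e2⟩ := ptr2_comp (Scheme.Modules.restrictFunctor j) (Scheme.Modules.restrictFunctor j.isoOpensRange.inv)
    (Scheme.Modules.restrictFunctor j.opensRange.ι)
    (Scheme.Modules.restrictFunctorCongr h1 ≪≫ Scheme.Modules.restrictFunctorComp _ _) P
  exact ⟨j.opensRange, hx, _, ff_restrict j.isoOpensRange.inv hK,
    ⟨e2 ≪≫ (Scheme.Modules.restrictFunctor j.isoOpensRange.inv).mapDerivedCategory.mapIso e ≪≫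
      (Scheme.Modules.restrictFunctor j.isoOpensRange.inv).mapDerivedCategoryFactors.app K⟩⟩

open scoped ZeroObject in
/-- the zero object is perfect -/
theorem ptr2_zero (X : Scheme.{0}) : IsPerfect X (0 : DerivedCategory X.Modules) := by
  intro x
  refine ⟨⊤, trivial, 0, ptr2_ff_zero _, ⟨?_⟩⟩
  exact (Functor.map_isZero _ (isZero_zero _)).iso (Functor.map_isZero _ (isZero_zero _))

theorem ptr2_shift (X : Scheme.{0}) (P : DerivedCategory X.Modules) (hP : IsPerfect X P) (a : ℤ) :
    IsPerfect X (P⟦a⟧) := by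
  intro x
  obtain ⟨U, hx, K, hK, ⟨e⟩⟩ := hP x
  refine ⟨U, hx, K⟦a⟧, ptr2_ff_shift hK a, ⟨?_⟩⟩
  exact ((Scheme.Modules.restrictFunctor U.ι).mapDerivedCategory.commShiftIso a).app P ≪≫
    (shiftFunctor (DerivedCategory (U : Scheme.{0}).Modules) a).mapIso e ≪≫
      ((DerivedCategory.Q.commShiftIso a).app K).symm

theorem ptr2_cone (X : Scheme.{0}) (T : Pretriangulated.Triangle (DerivedCategory X.Modules)) (hT : T ∈ distTriang _)
    (h1 : IsPerfect X T.obj₁) (h2 : IsPerfect X T.obj₂) : IsPerfect X T.obj₃ := by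
  intro x
  obtain ⟨U₁, hx1, K₁, hK₁, e₁⟩ := h1 x
  obtain ⟨U₂, hx2, K₂, hK₂, e₂⟩ := h2 x
  obtain ⟨V, hV1, hV2, hxV⟩ : ∃ V : X.Opens, ∃ (_ : V ≤ U₁) (_ : V ≤ U₂), x ∈ V :=
    ⟨U₁ ⊓ U₂, inf_le_left, inf_le_right, ⟨hx1, hx2⟩⟩
  obtain ⟨K, hK, ⟨eK⟩⟩ := perfectAt_mono hV1 T.obj₁ K₁ hK₁ e₁
  obtain ⟨L, hL, ⟨eL⟩⟩ := perfectAt_mono hV2 T.obj₂ K₂ hK₂ e₂
  obtain ⟨W, g, hxW, hg⟩ := exists_chain_map (X := (V : Scheme.{0})) ⟨x, hxV⟩ K L hK
    (eK.inv ≫ (Scheme.Modules.restrictFunctor V.ι).mapDerivedCategory.map T.mor₁ ≫ eL.hom)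
  -- the triangle over `W`
  let F := (Scheme.Modules.restrictFunctor V.ι).mapDerivedCategory
  let G := (Scheme.Modules.restrictFunctor W.ι).mapDerivedCategory
  have hg' : G.map (eK.inv ≫ F.map T.mor₁ ≫ eL.hom) =
    (Scheme.Modules.restrictFunctor W.ι).mapDerivedCategoryFactors.hom.app K ≫
      DerivedCategory.Q.map g ≫ (Scheme.Modules.restrictFunctor W.ι).mapDerivedCategoryFactors.inv.app L := hg
  have hT1 := F.map_distinguished T hT
  have hT2 := G.map_distinguished _ hT1
  have hT3 : DerivedCategory.Q.mapTriangle.obj (CochainComplex.mappingCone.triangle g) ∈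
      distTriang (DerivedCategory (W : Scheme.{0}).Modules) := by
    rw [DerivedCategory.mem_distTriang_iff]
    exact ⟨_, _, g, ⟨Iso.refl _⟩⟩
  let eT := Pretriangulated.isoTriangleOfIso₁₂ _ _ hT2 hT3
    (G.mapIso eK ≪≫ (Scheme.Modules.restrictFunctor W.ι).mapDerivedCategoryFactors.app K)
    (G.mapIso eL ≪≫ (Scheme.Modules.restrictFunctor W.ι).mapDerivedCategoryFactors.app L) (by
      show G.map (F.map T.mor₁) ≫ (G.map eL.hom ≫ (Scheme.Modules.restrictFunctor W.ι).mapDerivedCategoryFactors.hom.app L) =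
        (G.map eK.hom ≫ (Scheme.Modules.restrictFunctor W.ι).mapDerivedCategoryFactors.hom.app K) ≫ DerivedCategory.Q.map g
      have h3 : (Scheme.Modules.restrictFunctor W.ι).mapDerivedCategoryFactors.hom.app K ≫ DerivedCategory.Q.map g =
          G.map (eK.inv ≫ F.map T.mor₁ ≫ eL.hom) ≫ (Scheme.Modules.restrictFunctor W.ι).mapDerivedCategoryFactors.hom.app L := by
        rw [hg', Category.assoc, Category.assoc, Iso.inv_hom_id_app]
        erw [Category.comp_id]
      rw [Category.assoc, h3, ← Category.assoc, ← Category.assoc, ← G.map_comp, ← G.map_comp, Iso.hom_inv_id_assoc])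
  have e3 : G.obj (F.obj T.obj₃) ≅ DerivedCategory.Q.obj (CochainComplex.mappingCone g) :=
    Pretriangulated.Triangle.π₃.mapIso eT
  -- to `X`
  obtain ⟨e4⟩ := ptr2_comp (Scheme.Modules.restrictFunctor V.ι) (Scheme.Modules.restrictFunctor W.ι)
    (Scheme.Modules.restrictFunctor (W.ι ≫ V.ι)) (Scheme.Modules.restrictFunctorComp _ _) T.obj₃
  refine ptr2_imm (W.ι ≫ V.ι) x ?_ T.obj₃ (CochainComplex.mappingCone g)
    (ff_cone (ff_restrict W.ι hK) (ff_restrict W.ι hL) g) ⟨e4 ≪≫ e3⟩
  exact ⟨⟨⟨x, hxV⟩, hxW⟩, rfl⟩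

theorem perfect_triangulated (X : Scheme.{0}) : (IsPerfect X).IsTriangulated := by
  have := perfect_iso X
  have h0 : (IsPerfect X).ContainsZero := ⟨⟨_, isZero_zero _, ptr2_zero X⟩⟩
  have h1 : (IsPerfect X).IsStableUnderShift ℤ := ⟨fun a => ⟨fun P hP => ptr2_shift X P hP a⟩⟩
  have h3 : (IsPerfect X).IsTriangulatedClosed₃ := ObjectProperty.IsTriangulatedClosed₃.mk' (fun T hT h1 h2 =>
    ptr2_cone X T hT h1 h2)
  have h2 : (IsPerfect X).IsTriangulatedClosed₂ := ObjectProperty.IsTriangulatedClosed₂.of_isTriangulatedClosed₃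
  constructor

end Pool.H33.P
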