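import Mathlib
import Pool.Agent.H33.P.Def

/-! # TWI: the line bundle of a cocycle

Sections over `V`: families `f l : Γ(X, V ⊓ U l)` with `f l = c l l' * f l'` on `V ⊓ U l ⊓ U l'`.  The
generator `e l` is the family `l' ↦ c l' l` (restricted to `U l ⊓ U l'`), indeed `f • e l` has components
`f * c l' l`. -/

open CategoryTheory AlgebraicGeometry Limits TopologicalSpace

namespace Pool.H33.P

section twi

variable {X : Scheme.{0}}

theorem twi_rf_rf {U V W : X.Opens} (h : V ≤ U) (h' : W ≤ V) (f : Γ(X, U)) :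
    rf h' (rf h f) = rf (h'.trans h) f := by
  unfold rf
  rw [← ConcreteCategory.comp_apply, ← X.presheaf.map_comp]
  rfl

theorem twi_rf_self {U : X.Opens} (h : U ≤ U) (f : Γ(X, U)) : rf h f = f := by
  unfold rf
  have : (homOfLE h).op = 𝟙 (Opposite.op U) := rfl
  rw [this, X.presheaf.map_id]
  rfl

theorem twi_rf_add {U V : X.Opens} (h : V ≤ U) (f g : Γ(X, U)) :
    rf h (f + g) = rf h f + rf h g := map_add _ _ _

theorem twi_rf_neg {U V : X.Opens} (h : V ≤ U) (f : Γ(X, U)) :
    rf h (-f) = -rf h f := map_neg _ _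

theorem twi_rf_zero {U V : X.Opens} (h : V ≤ U) : rf h (0 : Γ(X, U)) = 0 := map_zero _

theorem twi_rf_mul {U V : X.Opens} (h : V ≤ U) (f g : Γ(X, U)) :
    rf h (f * g) = rf h f * rf h g := map_mul _ _ _

theorem twi_rf_one {U V : X.Opens} (h : V ≤ U) : rf h (1 : Γ(X, U)) = 1 := map_one _

variable {ι : Type} (U : ι → X.Opens) (c : ∀ l l', Γ(X, U l ⊓ U l'))

/-- sections over `V` of the line bundle of the cocycle `c` -/
def twiSec (V : X.Opens) : AddSubgroup (∀ l, Γ(X, V ⊓ U l)) where
  carrier := {f | ∀ l l', rf (V := V ⊓ U l ⊓ U l') inf_le_left (f l) =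
    rf (le_inf (inf_le_left.trans inf_le_right) inf_le_right) (c l l') *
      rf (le_inf (inf_le_left.trans inf_le_left) inf_le_right) (f l')}
  add_mem' := by
    intro f g hf hg l l'
    rw [Pi.add_apply, Pi.add_apply, twi_rf_add, twi_rf_add, mul_add, hf l l', hg l l']
  zero_mem' := by
    intro l l'
    rw [Pi.zero_apply, Pi.zero_apply, twi_rf_zero, twi_rf_zero, mul_zero]
  neg_mem' := by
    intro f hf l l'
    rw [Pi.neg_apply, Pi.neg_apply, twi_rf_neg, twi_rf_neg, mul_neg, hf l l']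

theorem twi_mem {V : X.Opens} (f : ∀ l, Γ(X, V ⊓ U l)) :
    f ∈ twiSec U c V ↔ ∀ l l', rf (V := V ⊓ U l ⊓ U l') inf_le_left (f l) =
      rf (le_inf (inf_le_left.trans inf_le_right) inf_le_right) (c l l') *
        rf (le_inf (inf_le_left.trans inf_le_left) inf_le_right) (f l') := Iff.rfl

/-- restriction of sections -/
noncomputable def twiRes {V W : X.Opens} (h : V ≤ W) : twiSec U c W →+ twiSec U c V where
  toFun f := ⟨fun l => rf (inf_le_inf_right _ h) (f.1 l), by
    intro l l'
    have hf := congrArg (rf (V := V ⊓ U l ⊓ U l')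
      (inf_le_inf_right _ (inf_le_inf_right _ h))) (f.2 l l')
    rw [twi_rf_mul, twi_rf_rf, twi_rf_rf, twi_rf_rf] at hf
    rw [twi_rf_rf, twi_rf_rf]
    exact hf⟩
  map_zero' := by
    apply Subtype.ext
    funext l
    exact twi_rf_zero _
  map_add' f g := by
    apply Subtype.ext
    funext l
    exact twi_rf_add _ _ _

theorem twiRes_apply {V W : X.Opens} (h : V ≤ W) (f : twiSec U c W) (l : ι) :
    (twiRes U c h f).1 l = rf (inf_le_inf_right _ h) (f.1 l) := rfl

noncomputable instance twiModule (V : X.Opens) : Module Γ(X, V) (twiSec U c V) where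
  smul r f := ⟨fun l => rf inf_le_left r * f.1 l, by
    intro l l'
    have hf := f.2 l l'
    rw [twi_rf_mul, twi_rf_mul, twi_rf_rf, twi_rf_rf, hf, mul_left_comm]⟩
  one_smul f := by
    apply Subtype.ext
    funext l
    show rf _ 1 * f.1 l = f.1 l
    rw [twi_rf_one, one_mul]
  mul_smul r s f := by
    apply Subtype.ext
    funext l
    show rf _ (r * s) * f.1 l = rf _ r * (rf _ s * f.1 l)
    rw [twi_rf_mul, mul_assoc]
  smul_zero r := by
    apply Subtype.ext
    funext l
    show rf _ r * 0 = 0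
    rw [mul_zero]
  smul_add r f g := by
    apply Subtype.ext
    funext l
    show rf _ r * (f.1 l + g.1 l) = rf _ r * f.1 l + rf _ r * g.1 l
    rw [mul_add]
  add_smul r s f := by
    apply Subtype.ext
    funext l
    show rf _ (r + s) * f.1 l = rf _ r * f.1 l + rf _ s * f.1 l
    rw [twi_rf_add, add_mul]
  zero_smul f := by
    apply Subtype.ext
    funext l
    show rf _ 0 * f.1 l = 0
    rw [twi_rf_zero, zero_mul]

theorem twi_smul_apply {V : X.Opens} (r : Γ(X, V)) (f : twiSec U c V) (l : ι) :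
    (r • f).1 l = rf inf_le_left r * f.1 l := rfl

theorem twiRes_smul {V W : X.Opens} (h : V ≤ W) (r : Γ(X, W)) (f : twiSec U c W) :
    twiRes U c h (r • f) = rf h r • twiRes U c h f := by
  apply Subtype.ext
  funext l
  rw [twiRes_apply, twi_smul_apply, twi_smul_apply, twiRes_apply, twi_rf_mul, twi_rf_rf, twi_rf_rf]

/-- the presheaf of abelian groups -/
noncomputable def twiPre : (TopologicalSpace.Opens X)ᵒᵖ ⥤ Ab.{0} where
  obj V := AddCommGrpCat.of (twiSec U c V.unop)
  map {V W} i := AddCommGrpCat.ofHom (twiRes U c (leOfHom i.unop))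
  map_id V := by
    ext f l
    exact twi_rf_self _ _
  map_comp {V W Z} i j := by
    ext f l
    exact (twi_rf_rf _ _ _).symm

noncomputable instance twiModule' (V : (TopologicalSpace.Opens X)ᵒᵖ) :
    Module (X.ringCatSheaf.obj.obj V) ((twiPre U c).obj V) :=
  inferInstanceAs (Module Γ(X, V.unop) (twiSec U c V.unop))

/-- the presheaf of modules -/
noncomputable def twiPM : X.PresheafOfModules :=
  PresheafOfModules.ofPresheaf (R := X.ringCatSheaf.obj) (twiPre U c)
    (fun _ _ i r m => twiRes_smul U c (leOfHom i.unop) r m)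

theorem twi_glue {κ : Type} (V : κ → X.Opens) (W : X.Opens) (hV : ∀ i, V i ≤ W)
    (hW : W ≤ ⨆ i, V i) (s : ∀ i, Γ(X, V i))
    (hs : ∀ i j, rf (V := V i ⊓ V j) inf_le_left (s i) = rf inf_le_right (s j)) :
    ∃ t : Γ(X, W), ∀ i, rf (hV i) t = s i := by
  obtain ⟨t, ht, -⟩ := X.sheaf.existsUnique_gluing' V W (fun i => homOfLE (hV i)) hW s
    (fun i j => hs i j)
  exact ⟨t, ht⟩

theorem twi_sep {κ : Type} (V : κ → X.Opens) (W : X.Opens) (hV : ∀ i, V i ≤ W)
    (hW : W ≤ ⨆ i, V i) (s t : Γ(X, W)) (h : ∀ i, rf (hV i) s = rf (hV i) t) : s = t :=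
  X.sheaf.eq_of_locally_eq' V W (fun i => homOfLE (hV i)) hW s t h

theorem twi_isSheaf : TopCat.Presheaf.IsSheaf (X := X) (twiPre U c) := by
  rw [TopCat.Presheaf.isSheaf_iff_isSheafUniqueGluing]
  intro κ V sf cpt
  have hsf : ∀ i j l, rf (V := V i ⊓ V j ⊓ U l) (inf_le_inf_right _ inf_le_left) ((sf i).1 l) =
      rf (inf_le_inf_right _ inf_le_right) ((sf j).1 l) := fun i j l =>
    congrFun (congrArg Subtype.val (cpt i j)) l
  have h1 : ∀ l, ∃ t : Γ(X, iSup V ⊓ U l), ∀ i,
      rf (inf_le_inf_right _ (le_iSup V i)) t = (sf i).1 l := by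
    intro l
    refine twi_glue (fun i => V i ⊓ U l) _ (fun i => inf_le_inf_right _ (le_iSup V i)) ?_ _ ?_
    · rw [iSup_inf_eq]
    · intro i j
      have h2 := congrArg (rf (V := V i ⊓ U l ⊓ (V j ⊓ U l))
        (le_inf (inf_le_inf inf_le_left inf_le_left) (inf_le_left.trans inf_le_right))) (hsf i j l)
      rw [twi_rf_rf, twi_rf_rf] at h2
      exact h2
  choose g hg using h1
  have hgm : g ∈ twiSec U c (iSup V) := by
    intro l l'
    refine twi_sep (fun i => V i ⊓ U l ⊓ U l') _
      (fun i => inf_le_inf_right _ (inf_le_inf_right _ (le_iSup V i))) ?_ _ _ ?_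
    · rw [iSup_inf_eq, iSup_inf_eq]
    · intro i
      have h3 := (sf i).2 l l'
      rw [← hg, ← hg, twi_rf_rf, twi_rf_rf] at h3
      rw [twi_rf_mul, twi_rf_rf, twi_rf_rf, twi_rf_rf]
      exact h3
  refine ⟨⟨g, hgm⟩, ?_, ?_⟩
  · intro i
    apply Subtype.ext
    funext l
    exact hg l i
  · rintro ⟨g', hg'm⟩ hg'
    apply Subtype.ext
    funext l
    refine twi_sep (fun i => V i ⊓ U l) _ (fun i => inf_le_inf_right _ (le_iSup V i)) ?_ _ _ ?_
    · rw [iSup_inf_eq]
    · intro i
      rw [hg]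
      exact congrFun (congrArg Subtype.val (hg' i)) l

/-- the line bundle of a cocycle -/
noncomputable def twiM : X.Modules where
  val := twiPM U c
  isSheaf := twi_isSheaf U c

end twi

theorem exists_twist {X : Scheme.{0}} {ι : Type} (U : ι → X.Opens)
    (c : ∀ l l', Γ(X, U l ⊓ U l')) (hc : IsCocycle U c) :
    ∃ (L : X.Modules) (e : ∀ l, Γ(L, U l)), IsTwist U c L e := by
  have he : ∀ l, (fun l' => rf (V := U l ⊓ U l') (le_inf inf_le_right inf_le_left) (c l' l)) ∈
      twiSec U c (U l) := by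
    intro l l' l''
    have h1 := hc.mul l' l'' l
    have h2 := congrArg (rf (V := U l ⊓ U l' ⊓ U l'')
      (le_inf (le_inf (inf_le_left.trans inf_le_right) inf_le_right)
        (inf_le_left.trans inf_le_left))) h1
    rw [twi_rf_mul, twi_rf_rf, twi_rf_rf, twi_rf_rf] at h2
    rw [twi_rf_rf, twi_rf_rf]
    exact h2.symm
  refine ⟨twiM U c, fun l => (⟨_, he l⟩ : twiSec U c (U l)), ?_, ?_⟩
  · intro l V h
    show Function.Bijective (fun f : Γ(X, V) =>
      (f • twiRes U c h (⟨_, he l⟩ : twiSec U c (U l)) : twiSec U c V))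
    constructor
    · intro f g hfg
      have h1 := congrFun (congrArg Subtype.val hfg) l
      simp only [twi_smul_apply, twiRes_apply] at h1
      rw [twi_rf_rf, hc.self l, twi_rf_one, mul_one, mul_one] at h1
      have h2 := congrArg (rf (V := V) (le_inf le_rfl h)) h1
      rw [twi_rf_rf, twi_rf_rf, twi_rf_self, twi_rf_self] at h2
      exact h2
    · rintro ⟨g, hg⟩
      refine ⟨rf (le_inf le_rfl h) (g l), ?_⟩
      apply Subtype.ext
      funext l'
      simp only [twi_smul_apply, twiRes_apply]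
      rw [twi_rf_rf, twi_rf_rf]
      have h1 := congrArg (rf (V := V ⊓ U l') (le_inf le_rfl (inf_le_left.trans h))) (hg l' l)
      rw [twi_rf_mul, twi_rf_rf, twi_rf_rf, twi_rf_rf, twi_rf_self] at h1
      rw [h1, mul_comm]
  · intro l l'
    have key : twiRes U c (V := U l ⊓ U l') inf_le_right (⟨_, he l'⟩ : twiSec U c (U l')) =
        (c l l' • (twiRes U c (V := U l ⊓ U l') inf_le_left (⟨_, he l⟩ : twiSec U c (U l)) :
          twiSec U c (U l ⊓ U l')) : twiSec U c (U l ⊓ U l')) := by
      apply Subtype.ext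
      funext l''
      simp only [twi_smul_apply, twiRes_apply]
      rw [twi_rf_rf, twi_rf_rf]
      have h1 := congrArg (rf (V := U l ⊓ U l' ⊓ U l'')
        (le_inf (le_inf inf_le_right (inf_le_left.trans inf_le_left))
          (inf_le_left.trans inf_le_right))) (hc.mul l'' l l')
      rw [twi_rf_mul, twi_rf_rf, twi_rf_rf, twi_rf_rf] at h1
      rw [← h1, mul_comm]
    exact key

end Pool.H33.P
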