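import Mathlib
import Pool.Agent.H33.P.Def
import Pool.Agent.H33.P.LOCM
import Pool.Agent.H33.P.PFREE

/-! # VBP: vector bundles are perfect

For `x ∈ U l` there is `f : Γ(X, U l)` with `x ∈ X.basicOpen f` and `Γ(M, U l)_f` free of finite rank
(finite projective modules are locally free), hence `M` restricted to `X.basicOpen f` is isomorphic to
`SheafOfModules.free (Fin m)`; take for `K` the single complex. -/

open CategoryTheory AlgebraicGeometry Limits TopologicalSpace

namespace Pool.H33.P

theorem vbp_alg {R P : Type} [CommRing R] [AddCommGroup P] [Module R P] [Module.Finite R P]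
    [Module.Projective R P] (p : PrimeSpectrum R) : ∃ f ∉ p.asIdeal, ∃ m : ℕ,
      Nonempty (Module.Basis (Fin m) (Localization (.powers f)) (LocalizedModule (.powers f) P)) := by
  have hfp : Module.FinitePresentation R P := Module.finitePresentation_of_projective R P
  have hfree : Module.Free (Localization.AtPrime p.asIdeal)
      (LocalizedModule p.asIdeal.primeCompl P) := Module.free_of_flat_of_isLocalRing
  have hfin : Module.Finite (Localization.AtPrime p.asIdeal)
      (LocalizedModule p.asIdeal.primeCompl P) := inferInstance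
  obtain ⟨m, b⟩ : ∃ m : ℕ, Nonempty (Module.Basis (Fin m) (Localization.AtPrime p.asIdeal)
      (LocalizedModule p.asIdeal.primeCompl P)) :=
    ⟨_, ⟨Module.finBasis _ _⟩⟩
  obtain ⟨b⟩ := b
  obtain ⟨r, hr, b', _⟩ := Module.FinitePresentation.exists_basis_localizedModule_powers
    p.asIdeal.primeCompl (LocalizedModule.mkLinearMap p.asIdeal.primeCompl P)
    (Localization.AtPrime p.asIdeal) b
  exact ⟨r, hr, m, ⟨b'⟩⟩

theorem vbp_transfer {R S P N : Type} [CommRing R] [CommRing S] [Algebra R S] [AddCommGroup P]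
    [Module R P] [AddCommGroup N] [Module R N] [Module S N] [IsScalarTower R S N] (f : R)
    [IsLocalization (.powers f) S] (g : P →ₗ[R] N) [IsLocalizedModule (.powers f) g] (m : ℕ)
    (b : Module.Basis (Fin m) (Localization (.powers f)) (LocalizedModule (.powers f) P)) :
    Nonempty (Module.Basis (Fin m) S N) := by
  let e : Localization (.powers f) ≃ₐ[R] S := IsLocalization.algEquiv (.powers f) _ S
  letI : Module (Localization (.powers f)) N := Module.compHom N (e : _ →+* S)
  haveI : IsScalarTower R (Localization (.powers f)) N := ⟨fun r x n => by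
    show e (r • x) • n = r • (e x • n)
    rw [map_smul, smul_assoc]⟩
  let i : LocalizedModule (.powers f) P ≃ₗ[R] N := IsLocalizedModule.iso (.powers f) g
  let i' := i.extendScalarsOfIsLocalization (.powers f) (Localization (.powers f))
  exact ⟨(b.map i').mapCoeffs e.toRingEquiv (fun c x => rfl)⟩

variable {X : Scheme.{0}}

theorem vbp_basis (M : X.Modules) (hM : M.IsQuasicoherent) {U : X.Opens} (hU : IsAffineOpen U)
    (f : Γ(X, U)) (m : ℕ) (b : Module.Basis (Fin m) (Localization (.powers f))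
      (LocalizedModule (.powers f) Γ(M, U))) :
    Nonempty (Module.Basis (Fin m) Γ(X, X.basicOpen f) Γ(M, X.basicOpen f)) := by
  have hVU : X.basicOpen f ≤ U := X.basicOpen_le f
  letI : Module Γ(X, U) Γ(M, X.basicOpen f) :=
    Module.compHom _ (algebraMap Γ(X, U) Γ(X, X.basicOpen f))
  haveI : IsScalarTower Γ(X, U) Γ(X, X.basicOpen f) Γ(M, X.basicOpen f) :=
    IsScalarTower.of_compHom _ _ _
  haveI : IsLocalization (.powers f) Γ(X, X.basicOpen f) := hU.isLocalization_basicOpen f
  let g : Γ(M, U) →ₗ[Γ(X, U)] Γ(M, X.basicOpen f) :=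
    { toFun := rs M hVU
      map_add' := map_add (M.presheaf.map (homOfLE hVU).op).hom
      map_smul' := fun r x => locm_rs_smul M hVU r x }
  haveI : IsLocalizedModule (.powers f) g := by
    refine IsLocalizedModule.Away.mk_of_addCommGroup ?_ ?_ ?_
    · have h1 : IsUnit (algebraMap Γ(X, U) Γ(X, X.basicOpen f) f) :=
        IsLocalization.Away.algebraMap_isUnit f
      rw [Module.End.isUnit_iff]
      have h2 := (h1.map (algebraMap Γ(X, X.basicOpen f)
        (Module.End Γ(X, X.basicOpen f) Γ(M, X.basicOpen f))))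
      rw [Module.End.isUnit_iff] at h2
      exact h2
    · intro s
      obtain ⟨n, t, ht⟩ := loc_surj M hM hU f rfl hVU s
      exact ⟨n, t, ht.symm⟩
    · intro t ht
      exact loc_inj M hM hU f rfl hVU t ht
  exact vbp_transfer f g m b

theorem vbp_free (M : X.Modules) (hM : M.IsQuasicoherent) {V : X.Opens} (hV : IsAffineOpen V)
    (m : ℕ) (b : Module.Basis (Fin m) Γ(X, V) Γ(M, V)) :
    Nonempty (M.restrict hV.fromSpec ≅
      (SheafOfModules.free (R := (Spec Γ(X, V)).ringCatSheaf) (Fin m) : (Spec Γ(X, V)).Modules)) := by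
  have hT : V ≤ hV.fromSpec ''ᵁ ⊤ := (locm_top hV).ge
  have hT' : hV.fromSpec ''ᵁ ⊤ ≤ V := (locm_top hV).le
  set M' : (Spec Γ(X, V)).Modules := M.restrict hV.fromSpec with hM'
  have h1 : M'.IsQuasicoherent :=
    Scheme.Modules.isQuasicoherent_restrictFunctor hV.fromSpec M
  have h2 : IsIso M'.fromTildeΓ :=
    Scheme.Modules.isIso_fromTildeΓ_of_isQuasicoherent _
  let φ : Γ(M, V) →ₗ[Γ(X, V)] ((modulesSpecToSheaf.obj M').presheaf.obj (.op ⊤)) :=
    { toFun := fun x => (M.restrictAppIso hV.fromSpec ⊤).inv (rs M hT' x)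
      map_add' := fun x y => map_add ((M.presheaf.map (homOfLE hT').op ≫
        (M.restrictAppIso hV.fromSpec ⊤).inv).hom) x y
      map_smul' := by
        intro r x
        have h3 := locm_smul hV M ⊤ hT' r ((M.restrictAppIso hV.fromSpec ⊤).inv (rs M hT' x))
        have h4 := congrArg (M.restrictAppIso hV.fromSpec ⊤).inv h3
        rw [locm_rs_smul]
        exact h4.symm }
  have hφ : Function.Bijective φ := by
    constructor
    · intro x y hxy
      have h3 : rs M hT' x = rs M hT' y := hxy
      have h4 := congrArg (rs M hT) h3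
      rwa [locm_rs_rs, locm_rs_rs, locm_rs_refl, locm_rs_refl] at h4
    · intro y
      refine ⟨rs M hT ((M.restrictAppIso hV.fromSpec ⊤).hom y), ?_⟩
      have h3 : rs M hT' (rs M hT ((M.restrictAppIso hV.fromSpec ⊤).hom y)) =
          (M.restrictAppIso hV.fromSpec ⊤).hom y := by
        rw [locm_rs_rs, locm_rs_refl]
      exact congrArg (M.restrictAppIso hV.fromSpec ⊤).inv h3
  let e1 : ((modulesSpecToSheaf.obj M').presheaf.obj (.op ⊤)) ≅
      ModuleCat.of Γ(X, V) (Fin m →₀ Γ(X, V)) :=
    LinearEquiv.toModuleIso (((LinearEquiv.ofBijective φ hφ).symm).trans b.repr)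
  exact ⟨(asIso M'.fromTildeΓ).symm ≪≫ (tilde.functor _).mapIso e1 ≪≫ tildeFinsupp (Fin m)⟩

theorem vb_perfect {X : Scheme.{0}} {ι : Type} (U : ι → X.Opens) (hU : ⨆ i, U i = ⊤)
    (hA : ∀ i, IsAffineOpen (U i)) {M : X.Modules} (hM : IsVB U M) : IsPerfect X (sg M) := by
  refine perfect_of_free M ?_
  intro x
  have h1 : x ∈ ⨆ i, U i := by rw [hU]; trivial
  obtain ⟨l, hl⟩ := Opens.mem_iSup.1 h1
  haveI := hM.fin l
  haveI := hM.proj l
  obtain ⟨f, hf, m, ⟨b⟩⟩ := vbp_alg (R := Γ(X, U l)) (P := Γ(M, U l)) ((hA l).primeIdealOf ⟨x, hl⟩)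
  obtain ⟨b2⟩ := vbp_basis M hM.qc (hA l) f m b
  have hV := (hA l).basicOpen f
  have e := vbp_free M hM.qc hV m b2
  refine ⟨hV.fromSpec.opensRange, ?_, m, free_of_immersion M hV.fromSpec m e⟩
  rw [hV.opensRange_fromSpec, ← (hA l).fromSpec_image_basicOpen f]
  exact ⟨(hA l).primeIdealOf ⟨x, hl⟩, hf, (hA l).fromSpec_primeIdealOf ⟨x, hl⟩⟩

end Pool.H33.P
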