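import Mathlib
import Pool.Agent.H33.P.Def
import Pool.Agent.H33.P.COQ
import Pool.Agent.H33.P.PAR
import Pool.Agent.H33.P.VBP
import Pool.Agent.H33.P.PCO
import Pool.Agent.H33.P.PTR2
import Pool.Agent.H33.P.TWI
import Pool.Agent.H33.P.FSP

/-! # FIN: assembly -/

open CategoryTheory AlgebraicGeometry Limits TopologicalSpace

namespace Pool.H33.P

variable {X : Scheme.{0}}

theorem exists_LSys (T : ToricData X) : Nonempty (LSys T) := by
  have h : ∀ a b : ℤ, ∃ (L : X.Modules) (e : ∀ l, Γ(L, T.U l)), IsTwist T.U (T.c a b) L e :=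
    fun a b => exists_twist T.U (T.c a b) (cocycle_c T a b)
  choose L e h using h
  exact ⟨⟨L, e, h⟩⟩

theorem coh_mem {T : ToricData X} (S : LSys T) (Q : ObjectProperty (DerivedCategory X.Modules))
    [Q.IsTriangulated] [Q.IsClosedUnderIsomorphisms]
    (hQ : ∀ a b, Q (sg (S.L a b))) (hV : ∀ M : X.Modules, IsVB T.U M → Q (sg M))
    {M : X.Modules} (hM : IsCoh T.U M) : Q (sg M) := by
  obtain ⟨E0, E1, K0, K1, k0, p0, w0, k1, p1, w1, h0, h1, f0, f1, hK⟩ := coh_resolution S hM
  have a0 : Q (sg E0) := fs_q S Q hQ f0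
  have a1 : Q (sg E1) := fs_q S Q hQ f1
  have a2 : Q (sg K0) := ses3 Q h1 (hV K1 hK) a1
  exact ses3 Q h0 a2 a0

/-- a retract of a coherent module is coherent -/
theorem coh_retract {T : ToricData X} {A B : X.Modules} (r : Retract A B) (hB : IsCoh T.U B) :
    IsCoh T.U A := by
  have e : A ≅ kernel (𝟙 B - r.r ≫ r.i) := by
    refine ⟨kernel.lift _ r.i (by simp), kernel.ι _ ≫ r.r, by simp, ?_⟩
    rw [← cancel_mono (kernel.ι (𝟙 B - r.r ≫ r.i))]
    have h := kernel.condition (𝟙 B - r.r ≫ r.i)
    rw [Preadditive.comp_sub, Category.comp_id, sub_eq_zero] at h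
    simp only [Category.assoc, kernel.lift_ι, Category.id_comp]
    exact h.symm
  refine ⟨qc_of_iso e.symm (qc_kernel _ hB.qc hB.qc), fun l => ?_⟩
  have := hB.fin l
  let f : Γ(B, T.U l) →ₗ[Γ(X, T.U l)] Γ(A, T.U l) :=
    { toFun := fun m => r.r.app (T.U l) m
      map_add' := fun m m' => map_add (r.r.app (T.U l)).hom m m'
      map_smul' := fun c m => Scheme.Modules.Hom.app_smul r.r c m }
  refine Module.Finite.of_surjective f fun m => ⟨r.i.app (T.U l) m, ?_⟩
  change r.r.app (T.U l) (r.i.app (T.U l) m) = m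
  have h : (r.i ≫ r.r).app (T.U l) m = m := by
    rw [r.retract]
    rfl
  exact h

theorem perfect_retract (T : ToricData X) : (IsPerfect X).IsStableUnderRetracts := by
  obtain ⟨S⟩ := exists_LSys T
  have := perfect_iso X
  have := perfect_triangulated X
  constructor
  intro A B r hB
  obtain ⟨a, b, ha, hb⟩ := perfect_bounded T.U T.cov T.aff B hB
  have hr : ∀ i, Retract ((DerivedCategory.homologyFunctor X.Modules i).obj A)
      ((DerivedCategory.homologyFunctor X.Modules i).obj B) := fun i =>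
    r.map (DerivedCategory.homologyFunctor X.Modules i)
  have hz : ∀ i, IsZero ((DerivedCategory.homologyFunctor X.Modules i).obj B) →
      IsZero ((DerivedCategory.homologyFunctor X.Modules i).obj A) := by
    intro i h
    rw [IsZero.iff_id_eq_zero]
    rw [← (hr i).retract, h.eq_of_tgt (hr i).i 0, zero_comp]
  refine q_bounded (IsPerfect X) A a b ?_ ?_ fun i => ?_
  · rw [DerivedCategory.isGE_iff] at ha ⊢
    exact fun i hi => hz i (ha i hi)
  · rw [DerivedCategory.isLE_iff] at hb ⊢
    exact fun i hi => hz i (hb i hi)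
  · exact coh_mem S (IsPerfect X) (fun a b => lineBundle_perfect (twist_lineBundle T.cov (S.tw a b)))
      (fun M hM => vb_perfect T.U T.cov T.aff hM)
      (coh_retract (hr i) (perfect_coh T.U T.cov T.aff T.noeth B hB i))

theorem generates (T : ToricData X) : ∃ L₁ L₂ : X.Modules, IsLineBundle L₁ ∧ IsLineBundle L₂ ∧
    ObjectProperty.triangEnvelope (C := DerivedCategory X.Modules) (Pair (sg L₁) (sg L₂)) =
      IsPerfect X := by
  obtain ⟨S⟩ := exists_LSys T
  have := perfect_iso X
  have := perfect_triangulated X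
  have := perfect_retract T
  have hl : ∀ a b, IsLineBundle (S.L a b) := fun a b => twist_lineBundle T.cov (S.tw a b)
  refine ⟨S.L 0 0, S.L 2 4, hl 0 0, hl 2 4, ?_⟩
  set R : ObjectProperty (DerivedCategory X.Modules) := Pair (sg (S.L 0 0)) (sg (S.L 2 4)) with hR
  have : R.Nonempty := ⟨_, Pair.left⟩
  apply le_antisymm
  · rw [ObjectProperty.triangEnvelope_le_iff]
    intro A hA
    cases hA with
    | left => exact lineBundle_perfect (hl 0 0)
    | right => exact lineBundle_perfect (hl 2 4)
  · intro P hP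
    obtain ⟨a, b, ha, hb⟩ := perfect_bounded T.U T.cov T.aff P hP
    have h0 : R.triangEnvelope (sg (S.L 0 0)) := R.le_triangEnvelope _ Pair.left
    have h1 : R.triangEnvelope (sg (S.L 2 4)) := R.le_triangEnvelope _ Pair.right
    have hQ := all_L S R.triangEnvelope h0 h1
    exact q_bounded R.triangEnvelope P a b ha hb fun i =>
      coh_mem S R.triangEnvelope hQ (fun M hM => vb_mem S R.triangEnvelope hQ hM)
        (perfect_coh T.U T.cov T.aff T.noeth P hP i)

end Pool.H33.P
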