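import Mathlib
import Pool.Agent.H33.P.FIN
import Pool.Agent.H33.P.EALG
import Pool.Agent.H33.P.ETOR
import Pool.Agent.H33.P.EDIM

/-! # TOP: the theorem -/

open CategoryTheory AlgebraicGeometry Limits TopologicalSpace

namespace Pool.H33.P

theorem final (k : Type) [Field k] : ∃ (X : Scheme.{0}) (f : X ⟶ Spec (CommRingCat.of k)),
    IsProper f ∧ topologicalKrullDim X = 2 ∧
    ∃ L₁ L₂ : X.Modules, IsLineBundle L₁ ∧ IsLineBundle L₂ ∧
      ObjectProperty.triangEnvelope (C := DerivedCategory X.Modules) (Pair (sg L₁) (sg L₂)) =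
        IsPerfect X := by
  obtain ⟨D⟩ := exists_scroll k
  obtain ⟨T⟩ := exists_toricData D
  obtain ⟨f, hf⟩ := exists_proper D
  exact ⟨Proj D.gr, f, hf, proj_dim D, generates T⟩

end Pool.H33.P
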